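import Pool.Agent.Lib.MP_abca01_gt.Plane3.Wall

/-!
# The area of a planar convex body in terms of the cells
-/

set_option autoImplicit false

open MeasureTheory Set Finset
open scoped ENNReal

namespace Pool.Agent.Lib.MP_abca01_gt.Plane3

/-- Every nonzero vector has its direction in one of the cells. -/
theorem exists_cell_dir {M : ℕ} (hM : 2 ≤ M) {m : ℝ} (hm : m = Real.pi / (2 * M)) {w : ℝ × ℝ}
    (hw : w ≠ 0) :
    ∃ c : ℝ, 0 < c ∧ ∃ k : ℕ, k < 2 * M ∧ ∃ s : ℝ, 0 ≤ s ∧ s < m ∧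
      (w = c • uv (k * m + s) ∨ w = c • uv (Real.pi + k * m + s)) := by
  have hMpos : (0:ℝ) < M := by positivity
  have hm0 : 0 < m := by rw [hm]; positivity
  have hN : (2 * M : ℝ) * m = Real.pi := by rw [hm]; field_simp
  set z : ℂ := ⟨w.1, w.2⟩ with hz
  have hz0 : z ≠ 0 := by
    intro h
    apply hw
    have h1 := congrArg Complex.re h
    have h2 := congrArg Complex.im h
    exact Prod.ext h1 h2
  have hzn : 0 < ‖z‖ := norm_pos_iff.2 hz0
  have hwz : w = ‖z‖ • uv z.arg := by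
    have h1 : Real.cos z.arg = z.re / ‖z‖ := Complex.cos_arg hz0
    have h2 : Real.sin z.arg = z.im / ‖z‖ := Complex.sin_arg z
    ext
    · simp only [uv, Prod.smul_fst, smul_eq_mul, h1]; field_simp; rfl
    · simp only [uv, Prod.smul_snd, smul_eq_mul, h2]; field_simp; rfl
  have key : ∀ θ : ℝ, 0 ≤ θ → θ < Real.pi → ∃ k : ℕ, k < 2 * M ∧
      0 ≤ θ - k * m ∧ θ - k * m < m := by
    intro θ h0 hpi
    refine ⟨⌊θ / m⌋₊, ?_, ?_, ?_⟩
    · rw [Nat.floor_lt (div_nonneg h0 hm0.le), div_lt_iff₀ hm0]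
      push_cast
      rw [hN]; exact hpi
    · have := Nat.floor_le (div_nonneg h0 hm0.le)
      rw [le_div_iff₀ hm0] at this
      linarith
    · have := Nat.lt_floor_add_one (θ / m)
      rw [div_lt_iff₀ hm0] at this
      linarith
  have hle := Complex.arg_le_pi z
  have hgt := Complex.neg_pi_lt_arg z
  refine ⟨‖z‖, hzn, ?_⟩
  rcases lt_or_ge z.arg 0 with hneg | hpos
  · obtain ⟨k, hk, h1, h2⟩ := key (z.arg + Real.pi) (by linarith) (by linarith)
    refine ⟨k, hk, z.arg + Real.pi - k * m, h1, h2, Or.inr ?_⟩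
    have e : Real.pi + k * m + (z.arg + Real.pi - k * m) = z.arg + 2 * Real.pi := by ring
    rw [e]
    unfold uv
    rw [Real.cos_add_two_pi, Real.sin_add_two_pi]
    exact hwz
  · rcases hle.lt_or_eq with hlt | heq
    · obtain ⟨k, hk, h1, h2⟩ := key z.arg hpos hlt
      refine ⟨k, hk, z.arg - k * m, h1, h2, Or.inl ?_⟩
      have e : k * m + (z.arg - k * m) = z.arg := by ring
      rw [e]; exact hwz
    · obtain ⟨k, hk, h1, h2⟩ := key 0 le_rfl Real.pi_pos
      refine ⟨k, hk, 0 - k * m, h1, h2, Or.inr ?_⟩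
      have e : Real.pi + k * m + (0 - k * m) = z.arg := by rw [heq]; ring
      rw [e]; exact hwz

/-- the planar cone with apex `x` over the arc -/
def pcone (P : Set (ℝ × ℝ)) (x : ℝ × ℝ) (t m : ℝ) : Set (ℝ × ℝ) :=
  {z | ∃ y ∈ arc P t m, ∃ s ∈ Icc (0:ℝ) 1, z = x + s • (y - x)}

/-- Over every point of the boundary there is a normal. -/
theorem exists_normal_dir {P : Set (ℝ × ℝ)} (hPc : Convex ℝ P) {x : ℝ × ℝ}
    (hx : x ∈ interior P) {y : ℝ × ℝ} (hyi : y ∉ interior P) :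
    ∃ w : ℝ × ℝ, w ≠ 0 ∧ ∀ p ∈ P, ip p w ≤ ip y w := by
  obtain ⟨f, hf⟩ := geometric_hahn_banach_open_point hPc.interior isOpen_interior hyi
  have hfi : ∀ p : ℝ × ℝ, f p = ip p (f (1, 0), f (0, 1)) := by
    intro p
    have : p = p.1 • ((1:ℝ), (0:ℝ)) + p.2 • ((0:ℝ), (1:ℝ)) := by ext <;> simp
    conv_lhs => rw [this]
    rw [map_add, map_smul, map_smul]
    simp [ip]
  refine ⟨(f (1, 0), f (0, 1)), ?_, ?_⟩
  · intro h
    have h1 := hf x hx
    rw [hfi x, hfi y, h] at h1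
    simp [ip] at h1
  · intro p hp
    have h1 : p ∈ closure (interior P) := by
      rw [hPc.closure_interior_eq_closure_of_nonempty_interior ⟨x, hx⟩]
      exact subset_closure hp
    have h2 : closure (interior P) ⊆ {p | f p ≤ f y} :=
      closure_minimal (fun z hz => (hf z hz).le) (isClosed_le f.continuous continuous_const)
    have h3 := h2 h1
    rw [← hfi, ← hfi]
    exact h3

/-- The cones cover the body. -/
theorem subset_pcones {P : Set (ℝ × ℝ)} (hP : IsCompact P) (hPc : Convex ℝ P) {x : ℝ × ℝ}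
    (hx : x ∈ interior P) {M : ℕ} (hM : 2 ≤ M) {m : ℝ} (hm : m = Real.pi / (2 * M)) :
    P ⊆ ⋃ k ∈ Finset.range (2 * M), (pcone P x (k * m) m ∪ pcone P x (Real.pi + k * m) m) := by
  have hMpos : (0:ℝ) < M := by positivity
  have hm0 : 0 < m := by rw [hm]; positivity
  have hxP := interior_subset hx
  intro z hz
  by_cases hzx : z = x
  · refine Set.mem_biUnion (Finset.mem_coe.2 (Finset.mem_range.2 (show 0 < 2 * M by omega)))
      (Or.inl ⟨ZZ P ((0:ℕ) * m), ⟨0, le_rfl, hm0, ?_⟩, 0, ⟨le_rfl, zero_le_one⟩, ?_⟩)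
    · rw [add_zero]; exact (ZZ_spec hP ⟨x, hxP⟩ _).1
    · rw [zero_smul, add_zero, hzx]
  set S : Set ℝ := {l | x + l • (z - x) ∈ P} with hS
  have hcont : Continuous (fun l : ℝ => x + l • (z - x)) := by fun_prop
  have hScl : IsClosed S := hP.isClosed.preimage hcont
  have hvz : z - x ≠ 0 := sub_ne_zero.2 hzx
  have hbdd : Bornology.IsBounded S := by
    obtain ⟨r, hr⟩ := hP.isBounded.exists_norm_le
    have hn : 0 < ‖z - x‖ := norm_pos_iff.2 hvz
    refine (Metric.isBounded_iff_subset_closedBall 0).2 ⟨(r + ‖x‖) / ‖z - x‖, fun l hl => ?_⟩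
    rw [Metric.mem_closedBall, dist_zero_right, le_div_iff₀ hn, ← norm_smul]
    have h1 : l • (z - x) = (x + l • (z - x)) - x := by abel
    rw [h1]
    exact (norm_sub_le _ _).trans (add_le_add (hr _ hl) le_rfl)
  have hSc : IsCompact S := Metric.isCompact_of_isClosed_isBounded hScl hbdd
  have h1S : (1:ℝ) ∈ S := by
    show x + (1:ℝ) • (z - x) ∈ P
    rw [one_smul, add_sub_cancel]; exact hz
  set l := sSup S with hl
  have hlS : l ∈ S := hSc.sSup_mem ⟨1, h1S⟩
  have hl1 : 1 ≤ l := le_csSup hSc.bddAbove h1S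
  set y := x + l • (z - x) with hy
  have hyP : y ∈ P := hlS
  have hyi : y ∉ interior P := by
    intro hyi
    have hopen : IsOpen ((fun l : ℝ => x + l • (z - x)) ⁻¹' interior P) :=
      isOpen_interior.preimage hcont
    obtain ⟨ε, hε, hball⟩ := Metric.isOpen_iff.1 hopen l hyi
    have h2' : l + ε / 2 ∈ (fun l : ℝ => x + l • (z - x)) ⁻¹' interior P := by
      apply hball
      rw [Metric.mem_ball, Real.dist_eq, add_sub_cancel_left, abs_of_pos (by positivity)]
      linarith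
    have h2 : l + ε / 2 ∈ S := interior_subset (s := P) h2'
    have h3 := le_csSup hSc.bddAbove h2
    linarith
  obtain ⟨w, hw0, hw⟩ := exists_normal_dir hPc hx hyi
  obtain ⟨c, hc, k, hk, s, hs0, hsm, hws⟩ := exists_cell_dir hM hm hw0
  have hz2 : z = x + (1 / l) • (y - x) := by
    rw [hy, add_sub_cancel_left, smul_smul, one_div, inv_mul_cancel₀ (by linarith), one_smul,
      add_sub_cancel]
  have hl2 : 1 / l ∈ Icc (0:ℝ) 1 := ⟨by positivity, by rw [div_le_one (by linarith)]; exact hl1⟩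
  have hmax : ∀ t : ℝ, w = c • uv t → IsMx P (uv t) y := by
    intro t ht
    refine ⟨hyP, fun p hp => ?_⟩
    have h2 := hw p hp
    have h3 : ∀ q : ℝ × ℝ, ip q w = c * ip q (uv t) := by
      intro q
      rw [ht]
      simp only [ip, Prod.smul_fst, Prod.smul_snd, smul_eq_mul]; ring
    rw [h3, h3] at h2
    exact le_of_mul_le_mul_left h2 hc
  refine Set.mem_biUnion (Finset.mem_coe.2 (Finset.mem_range.2 hk)) ?_
  rcases hws with h | h
  · exact Or.inl ⟨y, ⟨s, hs0, hsm, hmax _ h⟩, 1 / l, hl2, hz2⟩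
  · exact Or.inr ⟨y, ⟨s, hs0, hsm, hmax _ h⟩, 1 / l, hl2, hz2⟩

theorem dt_vecs (t a b h : ℝ) :
    dt (a • Jv t + h • uv t) (b • Jv t + h • uv t) = h * (b - a) := by
  have e := Real.sin_sq_add_cos_sq t
  simp only [dt, Jv, uv, Prod.fst_add, Prod.snd_add, Prod.smul_fst, Prod.smul_snd, smul_eq_mul]
  linear_combination (h * (b - a)) * e

/-- The area of one cone. -/
theorem volume_pcone {P : Set (ℝ × ℝ)} (hP : IsCompact P) (hne : P.Nonempty) {R : ℝ}
    (hR : ∀ p ∈ P, |p.1| ≤ R ∧ |p.2| ≤ R) {x : ℝ × ℝ} {ρ : ℝ} (hρ : 0 < ρ) (hxP : x ∈ P) (t : ℝ)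
    (hx : ip x (uv t) + ρ ≤ ip (ZZ P t) (uv t)) {m : ℝ} (hm0 : 0 < m) (hm : m < Real.pi / 2)
    (hT : 8 * R * Real.tan m ≤ ρ) :
    volume (pcone P x t m) ≤ ENNReal.ofReal (1 / 2 * ((ip (ZZ P t) (uv t) - ip x (uv t)) *
      al P m t) * (1 + 16 * R * Real.tan m / ρ)) := by
  have ht : 0 ≤ Real.tan m := Real.tan_nonneg_of_nonneg_of_le_pi_div_two hm0.le hm.le
  set T := Real.tan m with hTd
  have hZ := ZZ_mem hP hne t
  have hR0 : 0 ≤ R := (abs_nonneg _).trans (hR _ hZ).1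
  set h := ip (ZZ P t) (uv t) - ip x (uv t) with hh
  set α := al P m t with hα
  have hα0 : 0 ≤ α := al_nonneg hP hne hm0 hm t
  have hα4 : α ≤ 4 * R := by
    rw [hα]
    unfold al
    rw [ip_sub]
    have hz' := ZZ_mem hP hne (t + m)
    have h1 := (abs_le.1 (abs_ip_Jv_le (hR _ hZ).1 (hR _ hZ).2 t)).1
    have h2 := (abs_le.1 (abs_ip_Jv_le (hR _ hz').1 (hR _ hz').2 t)).2
    linarith
  have hhρ : ρ ≤ h := by linarith
  set δ := 8 * R * T / ρ with hδ
  have hδ0 : 0 ≤ δ := by positivity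
  set x0 := ip (ZZ P t - x) (Jv t) with hx0
  set v1 := (x0 - δ * α) • Jv t + h • uv t with hv1
  set v2 := (x0 + α + δ * α) • Jv t + h • uv t with hv2
  have hsub : pcone P x t m ⊆ phi x v1 v2 '' (Icc (0:ℝ) 1 ×ˢ Icc (0:ℝ) 1) := by
    rintro z ⟨y, hy, s, hs, rfl⟩
    have hyP : y ∈ P := by
      obtain ⟨_, _, _, h1⟩ := hy
      exact h1.1
    have hZarc : ZZ P t ∈ arc P t m := ⟨0, le_rfl, hm0, by
      rw [add_zero]; exact (ZZ_spec hP hne t).1⟩
    have hb := arc_bounds hP hne hm0 hm hy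
    have hlip := arc_lip hm0 hm hZarc hy
    set ξ := ip (y - x) (Jv t) with hξ
    set η := ip (y - x) (uv t) with hη
    have hξ1 : x0 ≤ ξ := by
      rw [hx0, hξ, ip_sub, ip_sub]; linarith [hb.1]
    have hξ2 : ξ ≤ x0 + α := by
      rw [hx0, hξ, hα]
      unfold al
      rw [ip_sub, ip_sub, ip_sub]; linarith [hb.2]
    have hη1 : η ≤ h := by
      rw [hη, hh, ip_sub]; linarith [ip_le_ZZ hP hne t hyP]
    have hη2 : h - T * α ≤ η := by
      have h1 : ip (y - ZZ P t) (uv t) = η - h := by rw [hη, hh, ip_sub, ip_sub]; ring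
      have h2 : ip (y - ZZ P t) (Jv t) = ξ - x0 := by rw [hξ, hx0, ip_sub, ip_sub, ip_sub]; ring
      rw [h1, h2, abs_of_nonneg (by linarith : 0 ≤ ξ - x0)] at hlip
      have h3 := (abs_le.1 hlip).1
      have h4 : T * (ξ - x0) ≤ T * α := mul_le_mul_of_nonneg_left (by linarith) ht
      linarith
    have hTα : T * α ≤ ρ / 2 := by nlinarith
    have hη3 : h / 2 ≤ η := by linarith
    have hηpos : 0 < η := by linarith
    have hhpos : 0 < h := by linarith
    have hξR : |ξ| ≤ 4 * R := by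
      have h1 := abs_le.1 (abs_ip_Jv_le (hR _ hyP).1 (hR _ hyP).2 t)
      have h2 := abs_le.1 (abs_ip_Jv_le (hR _ hxP).1 (hR _ hxP).2 t)
      rw [hξ, ip_sub, abs_le]
      constructor <;> linarith [h1.1, h1.2, h2.1, h2.2]
    set ξ' := ξ * h / η with hξ'
    have hdiff : |ξ' - ξ| ≤ δ * α := by
      have e : ξ' - ξ = ξ * (h - η) / η := by rw [hξ']; field_simp
      rw [e, abs_div, abs_mul, abs_of_pos hηpos, abs_of_nonneg (by linarith : 0 ≤ h - η),
        div_le_iff₀ hηpos, hδ]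
      have h1 : |ξ| * (h - η) ≤ 4 * R * (T * α) :=
        mul_le_mul hξR (by linarith) (by linarith) (by positivity)
      have h2 : 4 * R * (T * α) ≤ 8 * R * T / ρ * α * η := by
        have h3 : ρ / 2 ≤ η := by linarith
        calc 4 * R * (T * α) = 8 * R * T / ρ * α * (ρ / 2) := by field_simp; ring
          _ ≤ 8 * R * T / ρ * α * η := mul_le_mul_of_nonneg_left h3 (by positivity)
      exact h1.trans h2
    have hd := abs_le.1 hdiff
    -- the parameter
    have hlen : 0 ≤ α + 2 * (δ * α) := by positivity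
    obtain ⟨lam, hlam, hlam2⟩ : ∃ lam ∈ Icc (0:ℝ) 1,
        ξ' = (x0 - δ * α) + lam * (α + 2 * (δ * α)) := by
      rcases hlen.eq_or_lt with h0 | h0
      · refine ⟨0, ⟨le_rfl, zero_le_one⟩, ?_⟩
        have h3 : δ * α = 0 := by
          have : 0 ≤ δ * α := by positivity
          linarith
        have h4 : α = 0 := by linarith
        rw [zero_mul, add_zero]
        rw [h3] at hd ⊢
        linarith [hd.1, hd.2]
      · refine ⟨(ξ' - (x0 - δ * α)) / (α + 2 * (δ * α)), ⟨?_, ?_⟩, ?_⟩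
        · exact div_nonneg (by linarith [hd.1]) h0.le
        · rw [div_le_one h0]; linarith [hd.2]
        · rw [div_mul_cancel₀ _ h0.ne']; ring
    refine ⟨(s * η / h, lam), ⟨⟨?_, ?_⟩, hlam⟩, ?_⟩
    · exact div_nonneg (mul_nonneg hs.1 hηpos.le) hhpos.le
    · rw [div_le_one hhpos]
      nlinarith [hs.1, hs.2]
    · unfold phi
      have e1 : (1 - lam) • v1 + lam • v2 = ξ' • Jv t + h • uv t := by
        rw [hv1, hv2, hlam2]; module
      have e2 : y - x = ξ • Jv t + η • uv t := decomp (y - x) t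
      simp only
      rw [e1, e2, smul_add, smul_smul, smul_smul, smul_add, smul_smul, smul_smul]
      congr 3
      · rw [hξ']; field_simp
      · field_simp
  refine (measure_mono hsub).trans ?_
  have hmeas : MeasurableSet (Icc (0:ℝ) 1 ×ˢ Icc (0:ℝ) 1) := measurableSet_Icc.prod measurableSet_Icc
  refine (addHaar_image_le_lintegral_abs_det_fderiv volume hmeas
    (fun p _ => (hasFDerivAt_phi x v1 v2 p).hasFDerivWithinAt)).trans ?_
  have hdtv : dt v1 v2 = h * (α + 2 * (δ * α)) := by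
    rw [hv1, hv2, dt_vecs]; ring
  have hdt0 : 0 ≤ h * (α + 2 * (δ * α)) := mul_nonneg (by linarith) (by positivity)
  have e1 : ∫⁻ p in Icc (0:ℝ) 1 ×ˢ Icc (0:ℝ) 1, ENNReal.ofReal |(dphi v1 v2 p).det| =
      ∫⁻ p in Icc (0:ℝ) 1 ×ˢ Icc (0:ℝ) 1, ENNReal.ofReal (p.1 * (h * (α + 2 * (δ * α)))) := by
    refine setLIntegral_congr_fun hmeas (fun p hp => ?_)
    simp only [det_dphi, hdtv]
    rw [abs_of_nonneg (mul_nonneg hp.1.1 hdt0)]
  rw [e1, Measure.volume_eq_prod, ← Measure.prod_restrict, lintegral_prod _ (by fun_prop)]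
  simp only [lintegral_const, Measure.restrict_apply MeasurableSet.univ, Set.univ_inter,
    Real.volume_Icc, sub_zero, ENNReal.ofReal_one, mul_one]
  have hint : IntegrableOn (fun s : ℝ => s * (h * (α + 2 * (δ * α)))) (Icc (0:ℝ) 1) :=
    Continuous.integrableOn_Icc (by fun_prop)
  rw [← ofReal_integral_eq_lintegral_ofReal hint, integral_Icc_eq_integral_Ioc,
    ← intervalIntegral.integral_of_le zero_le_one, intervalIntegral.integral_mul_const, integral_id]
  · refine ENNReal.ofReal_le_ofReal (le_of_eq ?_)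
    rw [hδ]; ring
  · exact (ae_restrict_iff' measurableSet_Icc).2
      (ae_of_all _ fun s hs => mul_nonneg hs.1 hdt0)

/-- **The area bound.** -/
theorem area_le {P : Set (ℝ × ℝ)} (hP : IsCompact P) (hPc : Convex ℝ P) {R : ℝ}
    (hR : ∀ p ∈ P, |p.1| ≤ R ∧ |p.2| ≤ R) {x : ℝ × ℝ} {ρ : ℝ} (hρ : 0 < ρ)
    (hxi : x ∈ interior P) (hx : ∀ t, ip x (uv t) + ρ ≤ ip (ZZ P t) (uv t))
    {M : ℕ} (hM : 2 ≤ M) {m : ℝ} (hm : m = Real.pi / (2 * M)) (hT : 8 * R * Real.tan m ≤ ρ) :
    (volume P).toReal ≤ (1 / 2 * ∑ k ∈ range (2 * M),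
      ((ip (ZZ P (k * m)) (uv (k * m)) - ip x (uv (k * m))) * al P m (k * m) +
      (ip (ZZ P (Real.pi + k * m)) (uv (Real.pi + k * m)) -
        ip x (uv (Real.pi + k * m))) * al P m (Real.pi + k * m))) *
      (1 + 16 * R * Real.tan m / ρ) := by
  have hMpos : (0:ℝ) < M := by positivity
  have hM2 : (2:ℝ) ≤ M := by exact_mod_cast hM
  have hm0 : 0 < m := by rw [hm]; positivity
  have hm4 : m ≤ Real.pi / 4 := by
    rw [hm]
    exact div_le_div_of_nonneg_left Real.pi_pos.le (by norm_num) (by linarith)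
  have hm2 : m < Real.pi / 2 := by linarith [Real.pi_pos]
  have ht : 0 ≤ Real.tan m := Real.tan_nonneg_of_nonneg_of_le_pi_div_two hm0.le hm2.le
  have hxP := interior_subset hxi
  have hR0 : 0 ≤ R := (abs_nonneg _).trans (hR _ hxP).1
  have hne : P.Nonempty := ⟨x, hxP⟩
  have hnn : ∀ t, 0 ≤ (ip (ZZ P t) (uv t) - ip x (uv t)) * al P m t := fun t =>
    mul_nonneg (by linarith [hx t]) (al_nonneg hP hne hm0 hm2 t)
  have hC : 0 ≤ 1 + 16 * R * Real.tan m / ρ := by positivity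
  have h1 : volume P ≤ ∑ k ∈ range (2 * M),
      (volume (pcone P x (k * m) m) + volume (pcone P x (Real.pi + k * m) m)) := by
    refine (measure_mono (subset_pcones hP hPc hxi hM hm)).trans ?_
    refine (measure_biUnion_finset_le _ _).trans ?_
    exact Finset.sum_le_sum fun k _ => measure_union_le _ _
  have h2 : ∀ t, volume (pcone P x t m) ≤ ENNReal.ofReal
      (1 / 2 * ((ip (ZZ P t) (uv t) - ip x (uv t)) * al P m t) * (1 + 16 * R * Real.tan m / ρ)) :=
    fun t => volume_pcone hP hne hR hρ hxP t (hx t) hm0 hm2 hT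
  have h3 : volume P ≤ ENNReal.ofReal ((1 / 2 * ∑ k ∈ range (2 * M),
      ((ip (ZZ P (k * m)) (uv (k * m)) - ip x (uv (k * m))) * al P m (k * m) +
      (ip (ZZ P (Real.pi + k * m)) (uv (Real.pi + k * m)) -
        ip x (uv (Real.pi + k * m))) * al P m (Real.pi + k * m))) *
      (1 + 16 * R * Real.tan m / ρ)) := by
    refine h1.trans ?_
    rw [Finset.mul_sum, Finset.sum_mul, ENNReal.ofReal_sum_of_nonneg]
    · refine Finset.sum_le_sum fun k _ => ?_
      refine (add_le_add (h2 _) (h2 _)).trans (le_of_eq ?_)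
      rw [← ENNReal.ofReal_add (mul_nonneg (mul_nonneg (by norm_num) (hnn _)) hC)
        (mul_nonneg (mul_nonneg (by norm_num) (hnn _)) hC)]
      congr 1
      ring
    · intro k _
      exact mul_nonneg (mul_nonneg (by norm_num) (add_nonneg (hnn _) (hnn _))) hC
  refine ENNReal.toReal_le_of_le_ofReal ?_ h3
  exact mul_nonneg (mul_nonneg (by norm_num) (Finset.sum_nonneg fun k _ =>
    add_nonneg (hnn _) (hnn _))) hC

end Pool.Agent.Lib.MP_abca01_gt.Plane3
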