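import Pool.Agent.Lib.MP_abca01_gt.Plane3.Planar

/-!
# The planar inequality
-/

set_option autoImplicit false

open MeasureTheory Set Finset
open scoped ENNReal

namespace Pool.Agent.Lib.MP_abca01_gt.Plane3

variable {n : ℕ} {th a a' : ℕ → ℝ} {q r : ℕ → ℝ × ℝ}

/-- The numerical inequality for one centre `c`. -/
theorem IsModel.numeric (M : IsModel n th a a' q r) (hn : 0 < n) (c : ℝ × ℝ)
    (hc : c ∈ mids n q r) (Y Y' : ℕ → ℝ) (K F : ℝ) (hK : 0 ≤ K) (hF : F ≤ K)
    (hY : ∀ i, i < n → 0 ≤ Y i) (hY' : ∀ i, i < n → 0 ≤ Y' i)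
    (hKY : ∀ i, i < n → (Y i + Y' i) / 2 ≤ K) :
    ∑ i ∈ range n, (ip (q i) (uv (th i)) - ip (r i) (uv (th i))) *
        ((a i * Y i) * (a' i * Y' i) / (a i * Y i + a' i * Y' i) +
          1 / 120 * ((a i * Y i - a' i * Y' i) ^ 2 / (a i * Y i + a' i * Y' i))) ≤
      (∑ i ∈ range n,
      (a i * (ip (q i) (uv (th i)) - ip c (uv (th i))) * (F / 6 + 1 / 3 * Y i) +
       a' i * (ip c (uv (th i)) - ip (r i) (uv (th i))) * (F / 6 + 1 / 3 * Y' i))) +
      (K - F) * ((1 / 6) * ∑ i ∈ range n,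
        (ip (q i) (uv (th i)) - ip (r i) (uv (th i))) * (a i + a' i)) := by
  set w : ℕ → ℝ := fun i => ip (q i) (uv (th i)) - ip (r i) (uv (th i)) with hw
  set b : ℕ → ℝ := fun i => (a i + a' i) / 2 with hb
  set tau : ℕ → ℝ := fun i => (a i - a' i) / (a i + a' i) with htau
  set D : ℕ → ℝ := fun i => ip (q i + r i) (uv (th i)) - 2 * ip c (uv (th i)) with hD
  set z : ℕ → ℝ := fun i => D i / w i with hz
  set cc : ℕ → ℕ → ℝ := fun i j => |Real.sin (th i - th j)| with hcc
  have hbn : ∀ i, i < n → 0 ≤ b i := fun i hi => by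
    have := M.ha i hi
    have := M.ha' i hi
    simp only [hb]; linarith
  have hbt : ∀ i, i < n → b i * tau i = (a i - a' i) / 2 := by
    intro i hi
    have h1 := M.ha i hi
    have h2 := M.ha' i hi
    simp only [hb, htau]
    rcases (add_nonneg h1 h2).eq_or_lt with h | h
    · have h3 : a i = 0 := by linarith
      have h4 : a' i = 0 := by linarith
      rw [h3, h4]; simp
    · field_simp
  have ht : ∀ i, i < n → -1 ≤ tau i ∧ tau i ≤ 1 := by
    intro i hi
    have h1 := M.ha i hi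
    have h2 := M.ha' i hi
    simp only [htau]
    rcases (add_nonneg h1 h2).eq_or_lt with h | h
    · rw [← h, div_zero]; constructor <;> norm_num
    · constructor
      · rw [le_div_iff₀ h]; linarith
      · rw [div_le_iff₀ h]; linarith
  have hww : ∀ i, i < n → w i = ∑ j ∈ range n, b j * cc i j := fun i hi => M.width i hi
  have hwn : ∀ i, i < n → 0 ≤ w i := fun i hi => by
    rw [hww i hi]
    exact Finset.sum_nonneg fun j hj => mul_nonneg (hbn j (Finset.mem_range.1 hj)) (abs_nonneg _)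
  have hDd : ∀ i, i < n → |D i| ≤ ∑ j ∈ range n, |b j * tau j| * cc i j := by
    intro i hi
    refine (M.asym_mids i hi c hc).trans (le_of_eq ?_)
    exact Finset.sum_congr rfl fun j hj => by rw [hbt j (Finset.mem_range.1 hj)]
  have hDw : ∀ i, i < n → |D i| ≤ w i := by
    intro i hi
    refine (hDd i hi).trans ?_
    rw [hww i hi]
    refine Finset.sum_le_sum fun j hj => ?_
    have hj := Finset.mem_range.1 hj
    refine mul_le_mul_of_nonneg_right ?_ (abs_nonneg _)
    rw [abs_mul, abs_of_nonneg (hbn j hj)]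
    have := abs_le.2 (ht j hj)
    nlinarith [hbn j hj]
  have hwz : ∀ i, i < n → w i * z i = D i := by
    intro i hi
    simp only [hz]
    rcases (hwn i hi).eq_or_lt with h | h
    · have h3 := hDw i hi
      rw [← h] at h3
      have h4 : D i = 0 := abs_nonpos_iff.1 h3
      rw [h4]; simp
    · field_simp
  have hz1 : ∀ i, i < n → -1 ≤ z i ∧ z i ≤ 1 := by
    intro i hi
    simp only [hz]
    have h3 := abs_le.1 (hDw i hi)
    rcases (hwn i hi).eq_or_lt with h | h
    · rw [← h, div_zero]; constructor <;> norm_num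
    · constructor
      · rw [le_div_iff₀ h]; linarith
      · rw [div_le_iff₀ h]; linarith
  obtain ⟨o, ho⟩ := M.center hn
  set Do : ℕ → ℝ := fun i => ip (q i + r i) (uv (th i)) - 2 * ip o (uv (th i)) with hDo
  have hDo1 : ∀ i, i < n → |Do i| ≤ (1 / 3) * ∑ j ∈ range n, |b j * tau j| * cc i j := by
    intro i hi
    refine (ho i hi).trans (le_of_eq ?_)
    congr 1
    exact Finset.sum_congr rfl fun j hj => by rw [hbt j (Finset.mem_range.1 hj)]
  have hsum : ∑ i ∈ range n, b i * tau i * (w i * z i) = ∑ i ∈ range n, b i * tau i * Do i := by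
    have h1 := M.closing_ip (o - c)
    have h2 : ∑ i ∈ range n, b i * tau i * (w i * z i) - ∑ i ∈ range n, b i * tau i * Do i =
        ∑ i ∈ range n, (a i - a' i) * ip (o - c) (uv (th i)) := by
      rw [← Finset.sum_sub_distrib]
      refine Finset.sum_congr rfl fun i hi => ?_
      have hi := Finset.mem_range.1 hi
      rw [hbt i hi, hwz i hi, ip_sub]
      simp only [hD, hDo]; ring
    rw [h1] at h2
    linarith
  have hsc := scalar_ineq n cc (fun i j => abs_nonneg _) (fun i j => by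
      simp only [hcc]; rw [← abs_neg, ← Real.sin_neg]; ring_nf) b tau z w hbn hww
    (fun i hi => by rw [hwz i hi]; exact hDd i hi) Do hDo1 hsum
  have hsp := sum_pair n b tau z w Y Y' K hK hbn hwn (fun i hi => (ht i hi).1)
    (fun i hi => (ht i hi).2) (fun i hi => (hz1 i hi).1) (fun i hi => (hz1 i hi).2) hY hY' hKY hsc
  have e1 : ∀ i ∈ range n, w i * ((a i * Y i) * (a' i * Y' i) / (a i * Y i + a' i * Y' i) +
      1 / 120 * ((a i * Y i - a' i * Y' i) ^ 2 / (a i * Y i + a' i * Y' i))) =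
      (1 / 6) * (w i * b i *
        (6 * (1 - tau i ^ 2) * (Y i * Y' i) / ((1 + tau i) * Y i + (1 - tau i) * Y' i) +
        1 / 20 * (((1 + tau i) * Y i - (1 - tau i) * Y' i) ^ 2 /
          ((1 + tau i) * Y i + (1 - tau i) * Y' i)))) := by
    intro i hi
    have hi := Finset.mem_range.1 hi
    have ha : a i = b i * (1 + tau i) := by
      have := hbt i hi
      rw [mul_add, mul_one, this]; simp only [hb]; ring
    have ha' : a' i = b i * (1 - tau i) := by
      have := hbt i hi
      rw [mul_sub, mul_one, this]; simp only [hb]; ring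
    rw [ha, ha']
    rcases eq_or_ne (b i) 0 with h0 | h0
    · rw [h0]; simp
    have e2 : b i * (1 + tau i) * Y i + b i * (1 - tau i) * Y' i =
      b i * ((1 + tau i) * Y i + (1 - tau i) * Y' i) := by ring
    have e3 : b i * (1 + tau i) * Y i * (b i * (1 - tau i) * Y' i) =
      b i * (b i * ((1 - tau i ^ 2) * (Y i * Y' i))) := by ring
    have e4 : (b i * (1 + tau i) * Y i - b i * (1 - tau i) * Y' i) ^ 2 =
      b i * (b i * ((1 + tau i) * Y i - (1 - tau i) * Y' i) ^ 2) := by ring
    rw [e2, e3, e4, mul_div_mul_left _ _ h0, mul_div_mul_left _ _ h0]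
    ring
  rw [Finset.sum_congr rfl e1, ← Finset.mul_sum]
  have e4 : (1 / 6) * ∑ i ∈ range n, w i * b i * ((1 + z i) * (1 + tau i) * (K / 2 + Y i) +
        (1 - z i) * (1 - tau i) * (K / 2 + Y' i)) =
      (∑ i ∈ range n,
      (a i * (ip (q i) (uv (th i)) - ip c (uv (th i))) * (F / 6 + 1 / 3 * Y i) +
       a' i * (ip c (uv (th i)) - ip (r i) (uv (th i))) * (F / 6 + 1 / 3 * Y' i))) +
      (K - F) * ((1 / 12) * ∑ i ∈ range n, w i * b i *
        ((1 + z i) * (1 + tau i) + (1 - z i) * (1 - tau i))) := by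
    simp only [Finset.mul_sum]
    rw [← Finset.sum_add_distrib]
    refine Finset.sum_congr rfl fun i hi => ?_
    have hi := Finset.mem_range.1 hi
    have ha : a i = b i * (1 + tau i) := by
      have := hbt i hi
      rw [mul_add, mul_one, this]; simp only [hb]; ring
    have ha' : a' i = b i * (1 - tau i) := by
      have := hbt i hi
      rw [mul_sub, mul_one, this]; simp only [hb]; ring
    have hh : ip (q i) (uv (th i)) - ip c (uv (th i)) = w i * (1 + z i) / 2 := by
      have := hwz i hi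
      rw [mul_add, mul_one, this]; simp only [hw, hD, ip_add]; ring
    have hh' : ip c (uv (th i)) - ip (r i) (uv (th i)) = w i * (1 - z i) / 2 := by
      have := hwz i hi
      rw [mul_sub, mul_one, this]; simp only [hw, hD, ip_add]; ring
    rw [hh, hh', ha, ha']
    ring
  have h5 := mul_le_mul_of_nonneg_left hsp (by norm_num : (0:ℝ) ≤ 1 / 6)
  rw [e4] at h5
  refine h5.trans ?_
  have h6 : (1 / 12) * ∑ i ∈ range n, w i * b i *
        ((1 + z i) * (1 + tau i) + (1 - z i) * (1 - tau i)) ≤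
      (1 / 6) * ∑ i ∈ range n, w i * (a i + a' i) := by
    rw [Finset.mul_sum, Finset.mul_sum]
    refine Finset.sum_le_sum fun i hi => ?_
    have hi := Finset.mem_range.1 hi
    have h7 : z i * tau i ≤ 1 := by
      have h8 := hz1 i hi
      have h9 := ht i hi
      nlinarith [abs_le.2 h8, abs_le.2 h9, abs_mul (z i) (tau i), le_abs_self (z i * tau i),
        mul_le_mul (abs_le.2 h8) (abs_le.2 h9) (abs_nonneg (tau i)) zero_le_one]
    have h10 : 0 ≤ w i * b i := mul_nonneg (hwn i hi) (hbn i hi)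
    have e5 : a i + a' i = 2 * b i := by simp only [hb]; ring
    rw [e5]
    nlinarith [mul_le_mul_of_nonneg_left h7 h10]
  have h7 := mul_le_mul_of_nonneg_left h6 (sub_nonneg.2 hF)
  linarith

/-- **The planar inequality.** -/
theorem IsModel.planar (M : IsModel n th a a' q r) (hn : 0 < n)
    {P : Set (ℝ × ℝ)} (hq : ∀ k ≤ n, q k ∈ P)
    (hr : ∀ k ≤ n, r k ∈ P) {f : ℝ × ℝ → ℝ} (hf : ConcaveOn ℝ P f)
    (hf0 : ∀ x ∈ P, 0 ≤ f x) {B : ℝ} (hfB : ∀ x ∈ P, f x ≤ B) (hfm : Measurable f) :
    ENNReal.ofReal (∑ i ∈ range n, (ip (q i) (uv (th i)) - ip (r i) (uv (th i))) *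
        ((a i * avg f (q i) (q (i + 1))) * (a' i * avg f (r i) (r (i + 1))) /
          (a i * avg f (q i) (q (i + 1)) + a' i * avg f (r i) (r (i + 1))) +
        1 / 120 * ((a i * avg f (q i) (q (i + 1)) - a' i * avg f (r i) (r (i + 1))) ^ 2 /
          (a i * avg f (q i) (q (i + 1)) + a' i * avg f (r i) (r (i + 1)))))) ≤
      ∫⁻ x in P, ENNReal.ofReal (f x) := by
  rcases eq_or_ne (∫⁻ x in P, ENNReal.ofReal (f x)) ⊤ with htop | htop
  · rw [htop]; exact le_top
  rw [← ENNReal.ofReal_toReal htop]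
  refine ENNReal.ofReal_le_ofReal ?_
  set J := (∫⁻ x in P, ENNReal.ofReal (f x)).toReal with hJ
  have hsub : mids n q r ⊆ P := mids_subset P hf.1 hq hr
  have hbdd : BddAbove (f '' mids n q r) := ⟨B, by
    rintro _ ⟨x, hx, rfl⟩
    exact hfB x (hsub hx)⟩
  have hne : (f '' mids n q r).Nonempty := ⟨_, _, mid_mem (Nat.zero_le n), rfl⟩
  set K := sSup (f '' mids n q r) with hK
  have hKle : ∀ c ∈ mids n q r, f c ≤ K := fun c hc => le_csSup hbdd ⟨c, hc, rfl⟩
  have hK0 : 0 ≤ K := (hf0 _ (hsub (mid_mem (Nat.zero_le n)))).trans (hKle _ (mid_mem (Nat.zero_le n)))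
  set W := (1 / 6) * ∑ i ∈ range n,
        (ip (q i) (uv (th i)) - ip (r i) (uv (th i))) * (a i + a' i) with hW
  have hW0 : 0 ≤ W := by
    refine mul_nonneg (by norm_num) (Finset.sum_nonneg fun i hi => ?_)
    have hi := Finset.mem_range.1 hi
    refine mul_nonneg ?_ (add_nonneg (M.ha i hi) (M.ha' i hi))
    have := M.r_le i hi i hi.le
    linarith
  refine le_of_forall_pos_le_add fun ε hε => ?_
  obtain ⟨y, ⟨c, hc, rfl⟩, hy⟩ := exists_lt_of_lt_csSup hne
    (show K - ε / (W + 1) < sSup (f '' mids n q r) by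
      have : 0 < ε / (W + 1) := div_pos hε (by linarith)
      rw [← hK]; linarith)
  have h1 := M.numeric hn c hc (fun i => avg f (q i) (q (i + 1)))
    (fun i => avg f (r i) (r (i + 1))) K (f c) hK0 (hKle c hc)
    (fun i hi => avg_nonneg hf.1 hf0 (hq i hi.le) (hq (i + 1) hi))
    (fun i hi => avg_nonneg hf.1 hf0 (hr i hi.le) (hr (i + 1) hi))
    (fun i hi => avg_pair_le hq hr hf hf0 hfB hfm K hKle i hi)
  have hcu : ∀ i, i < n → ip c (uv (th i)) ≤ ip (q i) (uv (th i)) := by
    intro i hi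
    refine convexHull_min ?_ (convex_ip_le (uv (th i)) _) hc
    rintro x ⟨k, hk, rfl⟩
    simp only [Set.mem_ofPred_eq, ip_smul, ip_add]
    linarith [M.q_le i hi k hk, M.r_le i hi k hk]
  have hcl : ∀ i, i < n → ip (r i) (uv (th i)) ≤ ip c (uv (th i)) := by
    intro i hi
    refine convexHull_min ?_ (convex_le_ip (uv (th i)) _) hc
    rintro x ⟨k, hk, rfl⟩
    simp only [Set.mem_ofPred_eq, ip_smul, ip_add]
    linarith [M.le_q i hi k hk, M.le_r i hi k hk]
  have h2 := M.cone_bound hq hr hf hf0 hfB hfm c (hsub hc) hcu hcl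
  have h3 := (ENNReal.ofReal_le_iff_le_toReal htop).1 h2
  have h4 : (K - f c) * W ≤ ε := by
    have h5 : K - f c ≤ ε / (W + 1) := by linarith
    calc (K - f c) * W ≤ ε / (W + 1) * W := mul_le_mul_of_nonneg_right h5 hW0
      _ = ε * (W / (W + 1)) := by ring
      _ ≤ ε * 1 := by
        refine mul_le_mul_of_nonneg_left ?_ hε.le
        rw [div_le_one (by linarith)]
        linarith
      _ = ε := mul_one ε
  refine h1.trans ?_
  rw [← hJ] at h3
  exact add_le_add h3 h4

end Pool.Agent.Lib.MP_abca01_gt.Plane3
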