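import Pool.Agent.Lib.MP_abca01_gt.Plane3.Wall
import Pool.Agent.Lib.MP_abca01_gt.Plane3.PlanarMain

/-!
# The inequality for small cells of directions
-/

set_option autoImplicit false

open MeasureTheory Set Finset
open scoped ENNReal NNReal

namespace Pool.Agent.Lib.MP_abca01_gt.Plane3

/-- The wall integral is bounded by the edge integral of the outer body. -/
theorem wall_le_edge {K : Set (Fin 3 → ℝ)} (hK : IsCompact K) {R : ℝ}
    (hR2 : ∀ x ∈ K, |x 2| ≤ R) {g : ℝ → ℝ} {T : ℝ≥0} (hg : LipschitzWith T g) (t x0 A a e1 : ℝ)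
    (z q : ℝ × ℝ) (hz : gam g t x0 = z) (hA : 0 ≤ A) (hAa : A ≤ a) (hq : Small (q - z) e1)
    (ε : ℝ) (hε : e1 + T * A ≤ ε) :
    ∫⁻ x in Icc x0 (x0 + A), fib K (gam g t x) ≤
      ENNReal.ofReal (a * avg (fun p => (fib (outer K ε) p).toReal) q (q + a • Jv t)) := by
  have ha : 0 ≤ a := hA.trans hAa
  have hKo := isCompact_outer hK ε
  set F : ℝ → ℝ := fun y => (fib (outer K ε) (q + y • Jv t)).toReal with hF
  have hFm : Measurable F := by
    have h1 : Measurable (fun y : ℝ => q + y • Jv t) := by fun_prop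
    exact ((measurable_fib _ hKo.measurableSet).comp h1).ennreal_toReal
  have hF0 : ∀ y, 0 ≤ F y := fun y => ENNReal.toReal_nonneg
  have hFB : ∀ y, F y ≤ |2 * R| := by
    intro y
    have h1 := fib_le (outer_two (ε := ε) hR2) (q + y • Jv t)
    refine ENNReal.toReal_le_of_le_ofReal (abs_nonneg _) (h1.trans ?_)
    exact ENNReal.ofReal_le_ofReal (le_abs_self _)
  have hFi : ∀ u v : ℝ, IntervalIntegrable F volume u v := by
    intro u v
    rw [intervalIntegrable_iff]
    refine Measure.integrableOn_of_bounded (M := |2 * R|) (by simp) hFm.aestronglyMeasurable ?_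
    exact ae_of_all _ fun y => by rw [Real.norm_of_nonneg (hF0 y)]; exact hFB y
  have e1' : a * avg (fun p => (fib (outer K ε) p).toReal) q (q + a • Jv t) =
      ∫ y in (0:ℝ)..a, F y := by
    unfold avg
    have h1 : ∀ x : ℝ, (fib (outer K ε) (q + x • (q + a • Jv t - q))).toReal = F (a * x) := by
      intro x
      simp only [hF]
      have : q + x • (q + a • Jv t - q) = q + (a * x) • Jv t := by module
      rw [this]
    simp only [h1]
    rw [intervalIntegral.mul_integral_comp_mul_left]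
    simp
  rw [e1']
  have e2 : ∫ y in (0:ℝ)..A, F y ≤ ∫ y in (0:ℝ)..a, F y :=
    intervalIntegral.integral_mono_interval le_rfl hA hAa
      (ae_of_all _ fun y => hF0 y) (hFi 0 a)
  refine le_trans ?_ (ENNReal.ofReal_le_ofReal e2)
  have e3 : ∫⁻ x in Icc x0 (x0 + A), fib K (gam g t x) =
      ∫⁻ y in Icc 0 A, fib K (gam g t (x0 + y)) := by
    have h1 := (measurePreserving_add_left volume x0).setLIntegral_comp_preimage_emb
      (measurableEmbedding_addLeft x0) (fun x => fib K (gam g t x)) (Icc x0 (x0 + A))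
    rw [← h1]
    congr 2
    rw [Set.preimage_const_add_Icc]
    simp
  rw [e3, intervalIntegral.integral_of_le hA, ← integral_Icc_eq_integral_Ioc,
    ofReal_integral_eq_lintegral_ofReal]
  · refine setLIntegral_mono_ae' measurableSet_Icc (ae_of_all _ fun y hy => ?_)
    simp only [hF]
    rw [ENNReal.ofReal_toReal (fib_lt_top hKo _).ne]
    have hd : q + y • Jv t - gam g t (x0 + y) = (q - z) + (g x0 - g (x0 + y)) • uv t := by
      rw [← hz]; unfold gam; module
    have hgl : |g x0 - g (x0 + y)| ≤ T * A := by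
      have h1 := hg.dist_le_mul x0 (x0 + y)
      rw [Real.dist_eq, Real.dist_eq] at h1
      have h2 : |x0 - (x0 + y)| = y := by
        rw [show x0 - (x0 + y) = -y by ring, abs_neg, abs_of_nonneg hy.1]
      rw [h2] at h1
      exact h1.trans (mul_le_mul_of_nonneg_left hy.2 T.2)
    have hs : Small (q + y • Jv t - gam g t (x0 + y)) ε := by
      rw [hd]
      exact (hq.add ((small_uv _ _).mono hgl)).mono hε
    exact fib_le_outer hs.1 hs.2
  · have := hFi 0 A
    rwa [intervalIntegrable_iff_integrableOn_Icc_of_le hA] at this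
  · exact ae_of_all _ fun y => hF0 y

theorem harm_mono {I I' J J' : ℝ} (h1 : 0 ≤ I) (h2 : 0 ≤ I') (h3 : I ≤ J) (h4 : I' ≤ J') :
    I * I' / (I + I') ≤ J * J' / (J + J') := by
  have hJ : 0 ≤ J := h1.trans h3
  have hJ' : 0 ≤ J' := h2.trans h4
  rcases (add_nonneg h1 h2).eq_or_lt with h | h
  · rw [← h, div_zero]; positivity
  have h5 : 0 < J + J' := by linarith
  rw [div_le_div_iff₀ h h5]
  nlinarith [mul_nonneg h1 h2, mul_nonneg hJ hJ', mul_nonneg (mul_nonneg h1 hJ) (sub_nonneg.2 h4),
    mul_nonneg (mul_nonneg h2 hJ') (sub_nonneg.2 h3), mul_nonneg h1 hJ, mul_nonneg h2 hJ']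

theorem harm_le {I I' : ℝ} (h1 : 0 ≤ I) (h2 : 0 ≤ I') : I * I' / (I + I') ≤ I := by
  rcases (add_nonneg h1 h2).eq_or_lt with h | h
  · rw [← h, div_zero]; exact h1
  rw [div_le_iff₀ h]
  nlinarith

theorem harm_eq (I I' : ℝ) (h1 : 0 ≤ I) (h2 : 0 ≤ I') :
    I + I' = 4 * (I * I' / (I + I')) + (I - I') ^ 2 / (I + I') := by
  rcases (add_nonneg h1 h2).eq_or_lt with h | h
  · have h3 : I = 0 := by linarith
    have h4 : I' = 0 := by linarith
    simp [h3, h4]
  · field_simp
    ring

/-- The data of one grid. -/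
theorem grid_data {K : Set (Fin 3 → ℝ)} (hK : IsCompact K) (hKc : Convex ℝ K)
    (h0 : (0 : Fin 3 → ℝ) ∈ K) {R : ℝ} (hR : ∀ x ∈ K, ∀ i, |x i| ≤ R) (M : ℕ) (hM : 2 ≤ M) (m : ℝ)
    (hm : m = Real.pi / (2 * M)) :
    ∃ w I I' : ℕ → ℝ, (∀ k, k < 2 * M → 0 ≤ w k) ∧ (∀ k, k < 2 * M → 0 ≤ I k) ∧
      (∀ k, k < 2 * M → 0 ≤ I' k) ∧
      ∑ k ∈ range (2 * M), w k * (I k * I' k / (I k + I' k) +
        1 / 120 * ((I k - I' k) ^ 2 / (I k + I' k))) ≤
        (volume (outer K (136 * R * Real.tan m))).toReal ∧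
      ∑ k ∈ range (2 * M), 3 * min (volume (cell K (k * m) m)).toReal
        (volume (cell K (Real.pi + k * m) m)).toReal ≤
        ∑ k ∈ range (2 * M), w k * (I k * I' k / (I k + I' k)) +
        540 * R * Real.tan m * (2 * R * (12 * R + 48 * R * Real.tan m)) ∧
      ∀ x ∈ pr '' K, (∀ t, ip x (uv t) + 264 * R * Real.tan m ≤ ip (ZZ (pr '' K) t) (uv t)) →
        ∃ A : ℝ, A * (fib K x).toReal + 2 * ∑ k ∈ range (2 * M), w k * (I k * I' k / (I k + I' k)) ≤
          3 * (volume (outer K (136 * R * Real.tan m))).toReal +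
            1 / 2 * ∑ k ∈ range (2 * M), w k * |I k - I' k| ∧
          1 / 2 * ∑ k ∈ range (2 * M),
            ((ip (ZZ (pr '' K) (k * m)) (uv (k * m)) - ip x (uv (k * m))) * al (pr '' K) m (k * m) +
            (ip (ZZ (pr '' K) (Real.pi + k * m)) (uv (Real.pi + k * m)) -
              ip x (uv (Real.pi + k * m))) * al (pr '' K) m (Real.pi + k * m)) ≤
            A + 132 * R * Real.tan m * (24 * R) := by
  have hMpos : (0:ℝ) < M := by positivity
  have hM2 : (2:ℝ) ≤ M := by exact_mod_cast hM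
  have hm0 : 0 < m := by rw [hm]; positivity
  have hm4 : m ≤ Real.pi / 4 := by
    rw [hm]
    exact div_le_div_of_nonneg_left Real.pi_pos.le (by norm_num) (by linarith)
  have hm2 : m < Real.pi / 2 := by linarith [Real.pi_pos]
  have ht : 0 ≤ Real.tan m := Real.tan_nonneg_of_nonneg_of_le_pi_div_two hm0.le hm2.le
  set T := Real.tan m with hT
  have hP : IsCompact (pr '' K) := hK.image continuous_pr
  have hne : (pr '' K).Nonempty := ⟨_, 0, h0, rfl⟩
  have hRP : ∀ p ∈ pr '' K, |p.1| ≤ R ∧ |p.2| ≤ R := by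
    rintro _ ⟨x, hx, rfl⟩
    exact ⟨hR x hx 0, hR x hx 1⟩
  have hR2 : ∀ x ∈ K, |x 2| ≤ R := fun x hx => hR x hx 2
  have hR0 : 0 ≤ R := (abs_nonneg _).trans (hR 0 h0 0)
  have hRT : 0 ≤ R * T := mul_nonneg hR0 ht
  obtain ⟨a, a', q, r, Mod, hq, hr, ha, ha', hsum⟩ := exists_model hP hne hRP M hM m hm
  set ε := 136 * R * T with hε
  have hKo := isCompact_outer hK ε
  have hKoc := convex_outer hKc ε
  set f : ℝ × ℝ → ℝ := fun p => (fib (outer K ε) p).toReal with hf
  have hfc : ConcaveOn ℝ (pr '' outer K ε) f := concaveOn_fib hKo hKoc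
  have hf0 : ∀ p, 0 ≤ f p := fun p => ENNReal.toReal_nonneg
  have hfB : ∀ p, f p ≤ 2 * R := by
    intro p
    exact ENNReal.toReal_le_of_le_ofReal (by positivity) (fib_le (outer_two (ε := ε) hR2) p)
  have hfm : Measurable f := (measurable_fib _ hKo.measurableSet).ennreal_toReal
  have hle : 132 * R * T ≤ ε := by rw [hε]; nlinarith [mul_nonneg hR0 ht]
  have hqP : ∀ k ≤ 2 * M, q k ∈ pr '' outer K ε := fun k hk =>
    mem_pr_outer ((hq k hk).1.trans hle) ((hq k hk).2.trans hle) (ZZ_mem hP hne _)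
  have hrP : ∀ k ≤ 2 * M, r k ∈ pr '' outer K ε := fun k hk =>
    mem_pr_outer ((hr k hk).1.trans hle) ((hr k hk).2.trans hle) (ZZ_mem hP hne _)
  have hplanar := Mod.planar (by omega) hqP hrP hfc (fun p _ => hf0 p) (fun p _ => hfB p) hfm
  have hvol : ∫⁻ x in pr '' outer K ε, ENNReal.ofReal (f x) = volume (outer K ε) := by
    rw [volume_eq_setLIntegral_fib _ hKo]
    refine lintegral_congr fun p => ?_
    simp only [hf]
    rw [ENNReal.ofReal_toReal (fib_lt_top hKo _).ne]
  rw [hvol, ENNReal.ofReal_le_iff_le_toReal hKo.measure_lt_top.ne] at hplanar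
  set I : ℕ → ℝ := fun k => a k * avg f (q k) (q (k + 1)) with hI
  set I' : ℕ → ℝ := fun k => a' k * avg f (r k) (r (k + 1)) with hI'
  set w : ℕ → ℝ := fun k => ip (q k) (uv (k * m)) - ip (r k) (uv (k * m)) with hw
  have havg : ∀ p p' : ℝ × ℝ, 0 ≤ avg f p p' ∧ avg f p p' ≤ 2 * R := by
    intro p p'
    refine ⟨intervalIntegral.integral_nonneg zero_le_one fun _ _ => hf0 _, ?_⟩
    unfold avg
    have hmeas : Measurable (fun x : ℝ => f (p + x • (p' - p))) :=
      hfm.comp (by fun_prop)
    have hint : IntervalIntegrable (fun x : ℝ => f (p + x • (p' - p))) volume 0 1 := by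
      rw [intervalIntegrable_iff]
      refine Measure.integrableOn_of_bounded (M := 2 * R) (by simp) hmeas.aestronglyMeasurable ?_
      exact ae_of_all _ fun y => by rw [Real.norm_of_nonneg (hf0 _)]; exact hfB _
    have h1 : ∫ x in (0:ℝ)..1, f (p + x • (p' - p)) ≤ ∫ _ in (0:ℝ)..1, 2 * R :=
      intervalIntegral.integral_mono_on zero_le_one hint (by simp) fun _ _ => hfB _
    rw [intervalIntegral.integral_const] at h1
    simpa using h1
  have hI0 : ∀ k, k < 2 * M → 0 ≤ I k := fun k hk => mul_nonneg (Mod.ha k hk) (havg _ _).1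
  have hI0' : ∀ k, k < 2 * M → 0 ≤ I' k := fun k hk => mul_nonneg (Mod.ha' k hk) (havg _ _).1
  have hw0 : ∀ k, k < 2 * M → 0 ≤ w k := fun k hk => by
    have := Mod.r_le k hk k hk.le
    simp only [hw]; linarith
  have hcoe : ((Real.toNNReal (Real.tan m) : ℝ≥0) : ℝ) = T := Real.coe_toNNReal _ ht
  have hal : ∀ t, 0 ≤ al (pr '' K) m t ∧ al (pr '' K) m t ≤ 4 * R := by
    intro t
    refine ⟨al_nonneg hP hne hm0 hm2 t, ?_⟩
    unfold al
    rw [ip_sub]
    have hz := ZZ_mem hP hne t
    have hz' := ZZ_mem hP hne (t + m)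
    have h1 := (abs_le.1 (abs_ip_Jv_le (hRP _ hz).1 (hRP _ hz).2 t)).1
    have h2 := (abs_le.1 (abs_ip_Jv_le (hRP _ hz').1 (hRP _ hz').2 t)).2
    linarith
  have hV : ∀ k, k < 2 * M → 3 * (volume (cell K (k * m) m)).toReal ≤
      (ip (ZZ (pr '' K) (k * m)) (uv (k * m)) + 6 * R * T) * I k := by
    intro k hk
    obtain ⟨g, hg, hg1, hg2⟩ := cell_bound hK h0 hRP (k * m) hm0 hm2
    set z := ZZ (pr '' K) (k * m) with hz
    have hzg : gam g (k * m) (ip z (Jv (k * m))) = z := by
      rw [gam, hg1]; exact (decomp z _).symm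
    have h1 := wall_le_edge hK hR2 hg (k * m) (ip z (Jv (k * m))) (al (pr '' K) m (k * m)) (a k)
      (132 * R * T) z (q k) hzg (hal _).1 (ha k) (hq k hk.le) ε (by
        rw [hcoe, hε]
        have := mul_le_mul_of_nonneg_left (hal (k * m)).2 ht
        linarith)
    rw [← Mod.hq k hk] at h1
    have hh0 : 0 ≤ ip z (uv (k * m)) := by
      have := ip_le_ZZ hP hne (k * m) (p := 0) ⟨0, h0, rfl⟩
      rwa [ip_zero] at this
    have h2 := hg2.trans (mul_le_mul' le_rfl h1)
    rw [← ENNReal.ofReal_mul (by positivity)] at h2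
    have h3 := ENNReal.toReal_le_of_le_ofReal (by
      exact mul_nonneg (by positivity) (hI0 k hk)) h2
    have h4 : (ip z (uv (k * m)) + 6 * R * T) * I k =
      3 * ((ip z (uv (k * m)) + 6 * R * T) / 3 * I k) := by ring
    rw [h4]
    linarith
  have hV' : ∀ k, k < 2 * M → 3 * (volume (cell K (Real.pi + k * m) m)).toReal ≤
      (-ip (ZZ (pr '' K) (Real.pi + k * m)) (uv (k * m)) + 6 * R * T) * I' k := by
    intro k hk
    obtain ⟨g, hg, hg1, hg2⟩ := cell_bound hK h0 hRP (Real.pi + k * m) hm0 hm2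
    set z := ZZ (pr '' K) (Real.pi + k * m) with hz
    have hzg : gam g (Real.pi + k * m) (ip z (Jv (Real.pi + k * m))) = z := by
      rw [gam, hg1]; exact (decomp z _).symm
    have h1 := wall_le_edge hK hR2 hg (Real.pi + k * m) (ip z (Jv (Real.pi + k * m)))
      (al (pr '' K) m (Real.pi + k * m)) (a' k)
      (132 * R * T) z (r k) hzg (hal _).1 (ha' k) (hr k hk.le) ε (by
        rw [hcoe, hε]
        have := mul_le_mul_of_nonneg_left (hal (Real.pi + k * m)).2 ht
        linarith)
    have hstep : r k + a' k • Jv (Real.pi + k * m) = r (k + 1) := by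
      rw [Mod.hr k hk, Jv_pi_add, smul_neg, sub_eq_add_neg]
    rw [hstep] at h1
    have hh0 : 0 ≤ ip z (uv (Real.pi + k * m)) := by
      have := ip_le_ZZ hP hne (Real.pi + k * m) (p := 0) ⟨0, h0, rfl⟩
      rwa [ip_zero] at this
    have h2 := hg2.trans (mul_le_mul' le_rfl h1)
    rw [← ENNReal.ofReal_mul (by positivity)] at h2
    have h3 := ENNReal.toReal_le_of_le_ofReal (by
      exact mul_nonneg (by positivity) (hI0' k hk)) h2
    have h4 : (-ip z (uv (k * m)) + 6 * R * T) * I' k =
      3 * ((ip z (uv (Real.pi + k * m)) + 6 * R * T) / 3 * I' k) := by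
      rw [uv_pi_add, ip_neg_right]; ring
    rw [h4]
    linarith
  have hterm : ∀ k ∈ range (2 * M), 3 * min (volume (cell K (k * m) m)).toReal
      (volume (cell K (Real.pi + k * m) m)).toReal ≤
      w k * (I k * I' k / (I k + I' k)) + 540 * R * T * (2 * R * a k) := by
    intro k hk
    have hk := Finset.mem_range.1 hk
    set V := (volume (cell K (k * m) m)).toReal with hVd
    set V' := (volume (cell K (Real.pi + k * m) m)).toReal with hVd'
    set h := ip (ZZ (pr '' K) (k * m)) (uv (k * m)) with hh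
    set h' := -ip (ZZ (pr '' K) (Real.pi + k * m)) (uv (k * m)) with hh'
    have hh0 : 0 ≤ h := by
      have := ip_le_ZZ hP hne (k * m) (p := 0) ⟨0, h0, rfl⟩
      rwa [ip_zero] at this
    have hh0' : 0 ≤ h' := by
      have := ip_le_ZZ hP hne (Real.pi + k * m) (p := 0) ⟨0, h0, rfl⟩
      rw [ip_zero, uv_pi_add, ip_neg_right] at this
      exact this
    have m1 := two_min_le (h + 6 * R * T) (h' + 6 * R * T) (I k) (I' k) (by nlinarith)
      (by nlinarith) (hI0 k hk) (hI0' k hk)
    have m2 : 3 * min V V' ≤ min ((h + 6 * R * T) * I k) ((h' + 6 * R * T) * I' k) := by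
      refine le_min ?_ ?_
      · exact (mul_le_mul_of_nonneg_left (min_le_left _ _) (by norm_num)).trans (hV k hk)
      · exact (mul_le_mul_of_nonneg_left (min_le_right _ _) (by norm_num)).trans (hV' k hk)
    set X := I k * I' k / (I k + I' k) with hX
    have hX0 : 0 ≤ X := div_nonneg (mul_nonneg (hI0 k hk) (hI0' k hk))
      (add_nonneg (hI0 k hk) (hI0' k hk))
    have m3 : 2 * (I k * I' k) / (I k + I' k) = 2 * X := by rw [hX]; ring
    rw [m3] at m1
    have m4 : 3 * min V V' ≤ (h + h' + 12 * R * T) * X := by linarith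
    have q1 := (abs_le.1 (abs_ip_uv_le (hq k hk.le).1 (hq k hk.le).2 (k * m))).1
    have r1 := (abs_le.1 (abs_ip_uv_le (hr k hk.le).1 (hr k hk.le).2 (k * m))).2
    rw [ip_sub] at q1 r1
    have m5 : h + h' + 12 * R * T ≤ w k + 540 * R * T := by
      simp only [hh, hh', hw]
      linarith
    have m6 : X ≤ 2 * R * a k := by
      refine (harm_le (hI0 k hk) (hI0' k hk)).trans ?_
      simp only [hI]
      have := mul_le_mul_of_nonneg_left (havg (q k) (q (k + 1))).2 (Mod.ha k hk)
      linarith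
    calc 3 * min V V' ≤ (h + h' + 12 * R * T) * X := m4
      _ ≤ (w k + 540 * R * T) * X :=
          mul_le_mul_of_nonneg_right m5 hX0
      _ = w k * X + 540 * R * T * X := by ring
      _ ≤ _ := add_le_add le_rfl (mul_le_mul_of_nonneg_left m6 (by positivity))
  refine ⟨w, I, I', hw0, hI0, hI0', hplanar, ?_, ?_⟩
  · refine (Finset.sum_le_sum hterm).trans ?_
    rw [Finset.sum_add_distrib]
    refine add_le_add le_rfl ?_
    rw [← Finset.mul_sum, ← Finset.mul_sum]
    exact mul_le_mul_of_nonneg_left (mul_le_mul_of_nonneg_left hsum (by positivity)) (by positivity)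
  · intro x hx hxin
    have hxo : x ∈ pr '' outer K ε :=
      mem_pr_outer (ε := ε) (p := x) (by rw [sub_self, abs_zero]; positivity)
        (by rw [sub_self, abs_zero]; positivity) hx
    have c1 : ∀ k, k < 2 * M → ip (ZZ (pr '' K) (k * m)) (uv (k * m)) - 264 * R * T ≤
        ip (q k) (uv (k * m)) := by
      intro k hk
      have := (abs_le.1 (abs_ip_uv_le (hq k hk.le).1 (hq k hk.le).2 (k * m))).1
      rw [ip_sub] at this
      linarith
    have c2 : ∀ k, k < 2 * M → ip (r k) (uv (k * m)) ≤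
        ip (ZZ (pr '' K) (Real.pi + k * m)) (uv (k * m)) + 264 * R * T := by
      intro k hk
      have := (abs_le.1 (abs_ip_uv_le (hr k hk.le).1 (hr k hk.le).2 (k * m))).2
      rw [ip_sub] at this
      linarith
    have d1 : ∀ k, k < 2 * M → ip x (uv (k * m)) ≤ ip (q k) (uv (k * m)) := by
      intro k hk
      linarith [c1 k hk, hxin (k * m)]
    have d2 : ∀ k, k < 2 * M → ip (r k) (uv (k * m)) ≤ ip x (uv (k * m)) := by
      intro k hk
      have h1 := hxin (Real.pi + k * m)
      rw [uv_pi_add, ip_neg_right, ip_neg_right] at h1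
      linarith [c2 k hk]
    have hcb := Mod.cone_bound hqP hrP hfc (fun p _ => hf0 p) (fun p _ => hfB p) hfm x hxo d1 d2
    rw [hvol, ENNReal.ofReal_le_iff_le_toReal hKo.measure_lt_top.ne] at hcb
    set A : ℝ := 1 / 2 * ∑ k ∈ range (2 * M),
      (a k * (ip (q k) (uv (k * m)) - ip x (uv (k * m))) +
       a' k * (ip x (uv (k * m)) - ip (r k) (uv (k * m)))) with hA
    have hA0 : 0 ≤ A := by
      refine mul_nonneg (by norm_num) (Finset.sum_nonneg fun k hk => ?_)
      have hk := Finset.mem_range.1 hk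
      exact add_nonneg (mul_nonneg (Mod.ha k hk) (by linarith [d1 k hk]))
        (mul_nonneg (Mod.ha' k hk) (by linarith [d2 k hk]))
    refine ⟨A, ?_, ?_⟩
    · have hfx : (fib K x).toReal ≤ f x := by
        refine ENNReal.toReal_mono (fib_lt_top hKo _).ne (fib_le_outer ?_ ?_)
        · rw [sub_self, abs_zero]; positivity
        · rw [sub_self, abs_zero]; positivity
      have e1 : ∑ k ∈ range (2 * M),
          (a k * (ip (q k) (uv (k * m)) - ip x (uv (k * m))) *
            (f x / 6 + 1 / 3 * avg f (q k) (q (k + 1))) +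
           a' k * (ip x (uv (k * m)) - ip (r k) (uv (k * m))) *
            (f x / 6 + 1 / 3 * avg f (r k) (r (k + 1)))) =
          1 / 3 * (A * f x) + 1 / 3 * ∑ k ∈ range (2 * M),
            ((ip (q k) (uv (k * m)) - ip x (uv (k * m))) * I k +
             (ip x (uv (k * m)) - ip (r k) (uv (k * m))) * I' k) := by
        rw [hA, Finset.mul_sum, Finset.sum_mul, Finset.mul_sum, Finset.mul_sum,
          ← Finset.sum_add_distrib]
        refine Finset.sum_congr rfl fun k _ => ?_
        simp only [hI, hI']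
        ring
      rw [e1] at hcb
      have e2 : ∑ k ∈ range (2 * M), (2 * (w k * (I k * I' k / (I k + I' k))) -
          1 / 2 * (w k * |I k - I' k|)) ≤ ∑ k ∈ range (2 * M),
            ((ip (q k) (uv (k * m)) - ip x (uv (k * m))) * I k +
             (ip x (uv (k * m)) - ip (r k) (uv (k * m))) * I' k) := by
        refine Finset.sum_le_sum fun k hk => ?_
        have hk := Finset.mem_range.1 hk
        have g1 := hI0 k hk
        have g2 := hI0' k hk
        have g3 := harm_eq (I k) (I' k) g1 g2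
        have g4 : 0 ≤ (I k - I' k) ^ 2 / (I k + I' k) :=
          div_nonneg (sq_nonneg _) (add_nonneg g1 g2)
        set X := I k * I' k / (I k + I' k) with hX
        set H := ip (q k) (uv (k * m)) - ip x (uv (k * m)) with hH
        set H' := ip x (uv (k * m)) - ip (r k) (uv (k * m)) with hH'
        have hHn : 0 ≤ H := by linarith [d1 k hk]
        have hHn' : 0 ≤ H' := by linarith [d2 k hk]
        have hwH : w k = H + H' := by simp only [hw, hH, hH']; ring
        rw [hwH]
        have g5 : -((H + H') * |I k - I' k|) ≤ (H - H') * (I k - I' k) := by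
          have h1 : |(H - H') * (I k - I' k)| ≤ (H + H') * |I k - I' k| := by
            rw [abs_mul]
            refine mul_le_mul_of_nonneg_right ?_ (abs_nonneg _)
            rw [abs_le]; constructor <;> linarith
          exact (abs_le.1 h1).1
        have g6 : 4 * X ≤ I k + I' k := by linarith
        nlinarith [mul_le_mul_of_nonneg_left g6 (add_nonneg hHn hHn')]
      rw [Finset.sum_sub_distrib, ← Finset.mul_sum, ← Finset.mul_sum] at e2
      have e3 := mul_le_mul_of_nonneg_left hfx hA0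
      linarith
    · have e1 : ∑ k ∈ range (2 * M),
          ((ip (ZZ (pr '' K) (k * m)) (uv (k * m)) - ip x (uv (k * m))) *
            al (pr '' K) m (k * m) +
          (ip (ZZ (pr '' K) (Real.pi + k * m)) (uv (Real.pi + k * m)) -
            ip x (uv (Real.pi + k * m))) * al (pr '' K) m (Real.pi + k * m)) ≤
          ∑ k ∈ range (2 * M), ((a k * (ip (q k) (uv (k * m)) - ip x (uv (k * m))) +
            a' k * (ip x (uv (k * m)) - ip (r k) (uv (k * m)))) +
            264 * R * T * (al (pr '' K) m (k * m) + al (pr '' K) m (Real.pi + k * m))) := by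
        refine Finset.sum_le_sum fun k hk => ?_
        have hk := Finset.mem_range.1 hk
        rw [uv_pi_add, ip_neg_right, ip_neg_right]
        have g1 := c1 k hk
        have g2 := c2 k hk
        have g3 := mul_le_mul_of_nonneg_right (ha k) (by linarith [d1 k hk] :
          0 ≤ ip (q k) (uv (k * m)) - ip x (uv (k * m)))
        have g4 := mul_le_mul_of_nonneg_right (ha' k) (by linarith [d2 k hk] :
          0 ≤ ip x (uv (k * m)) - ip (r k) (uv (k * m)))
        have g5 := mul_le_mul_of_nonneg_right g1 (hal (k * m)).1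
        have g6 := mul_le_mul_of_nonneg_right g2 (hal (Real.pi + k * m)).1
        nlinarith
      have hle : ∀ n : ℕ, n ≤ 2 * M → m * n ≤ Real.pi := by
        intro n hn
        have hN : ((2 * M : ℕ) : ℝ) * m = Real.pi := by rw [hm]; push_cast; field_simp
        rw [← hN, mul_comm]
        exact mul_le_mul_of_nonneg_right (by exact_mod_cast hn) hm0.le
      have s1 := sum_al_le' hP hne hm0 hRP 0 (2 * M) (hle _ le_rfl) hR0
      have s2 := sum_al_le' hP hne hm0 hRP Real.pi (2 * M) (hle _ le_rfl) hR0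
      simp only [zero_add] at s1
      have eR : ∑ k ∈ range (2 * M), ((a k * (ip (q k) (uv (k * m)) - ip x (uv (k * m))) +
            a' k * (ip x (uv (k * m)) - ip (r k) (uv (k * m)))) +
            264 * R * T * (al (pr '' K) m (k * m) + al (pr '' K) m (Real.pi + k * m))) =
          ∑ k ∈ range (2 * M), (a k * (ip (q k) (uv (k * m)) - ip x (uv (k * m))) +
            a' k * (ip x (uv (k * m)) - ip (r k) (uv (k * m)))) +
          264 * R * T * (∑ k ∈ range (2 * M), al (pr '' K) m (k * m) +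
            ∑ k ∈ range (2 * M), al (pr '' K) m (Real.pi + k * m)) := by
        rw [Finset.sum_add_distrib, ← Finset.mul_sum]
        congr 2
        rw [Finset.sum_add_distrib]
      rw [eR] at e1
      have e2 := mul_le_mul_of_nonneg_left (add_le_add s1 s2) (by positivity : 0 ≤ 264 * R * T)
      rw [hA]
      linarith

/-- The inequality for one grid. -/
theorem cells_grid {K : Set (Fin 3 → ℝ)} (hK : IsCompact K) (hKc : Convex ℝ K)
    (h0 : (0 : Fin 3 → ℝ) ∈ K) {R : ℝ} (hR : ∀ x ∈ K, ∀ i, |x i| ≤ R) (M : ℕ) (hM : 2 ≤ M) (m : ℝ)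
    (hm : m = Real.pi / (2 * M)) :
    ∑ k ∈ range (2 * M), 3 * min (volume (cell K (k * m) m)).toReal
      (volume (cell K (Real.pi + k * m) m)).toReal ≤
    (volume (outer K (136 * R * Real.tan m))).toReal +
      540 * R * Real.tan m * (2 * R * (12 * R + 48 * R * Real.tan m)) := by
  obtain ⟨w, I, I', hw, hI, hI', h1, h2, -⟩ := grid_data hK hKc h0 hR M hM m hm
  refine h2.trans (add_le_add ?_ le_rfl)
  refine le_trans (Finset.sum_le_sum fun k hk => ?_) h1
  have hk := Finset.mem_range.1 hk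
  refine mul_le_mul_of_nonneg_left ?_ (hw k hk)
  have : 0 ≤ (I k - I' k) ^ 2 / (I k + I' k) :=
    div_nonneg (sq_nonneg _) (add_nonneg (hI k hk) (hI' k hk))
  linarith

/-- **The inequality for small cells of directions.** -/
theorem cells_exist {K : Set (Fin 3 → ℝ)} (hK : IsCompact K) (hKc : Convex ℝ K)
    (h0 : (0 : Fin 3 → ℝ) ∈ K) {η : ℝ} (hη : 0 < η) :
    ∃ M : ℕ, 2 ≤ M ∧ ∑ k ∈ range (2 * M),
      3 * min (volume (cell K (k * (Real.pi / (2 * M))) (Real.pi / (2 * M)))).toReal
      (volume (cell K (Real.pi + k * (Real.pi / (2 * M))) (Real.pi / (2 * M)))).toReal ≤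
      (volume K).toReal + η := by
  obtain ⟨R, hR⟩ : ∃ R : ℝ, ∀ x ∈ K, ∀ i, |x i| ≤ R := by
    obtain ⟨r, hr⟩ := hK.isBounded.exists_norm_le
    refine ⟨r, fun x hx i => ?_⟩
    have h1 := norm_le_pi_norm x i
    rw [Real.norm_eq_abs] at h1
    exact h1.trans (hr x hx)
  have hR0 : 0 ≤ R := (abs_nonneg _).trans (hR 0 h0 0)
  obtain ⟨δ, hδ, hout⟩ := volume_outer hK (half_pos hη)
  have ht1 : Filter.Tendsto (fun M : ℕ => Real.tan (Real.pi / (2 * M))) Filter.atTop (nhds 0) := by
    have h1 : Filter.Tendsto (fun M : ℕ => Real.pi / (2 * M)) Filter.atTop (nhds 0) := by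
      have := tendsto_const_div_atTop_nhds_zero_nat (Real.pi / 2)
      refine this.congr fun M => ?_
      rw [div_div]
    have h2 : ContinuousAt Real.tan 0 := Real.continuousAt_tan.2 (by simp)
    have h3 := h2.tendsto.comp h1
    rw [Real.tan_zero] at h3
    exact h3
  have ht2 : Filter.Tendsto (fun M : ℕ => 136 * R * Real.tan (Real.pi / (2 * M))) Filter.atTop
      (nhds 0) := by
    have := ht1.const_mul (136 * R)
    rwa [mul_zero] at this
  have ht3 : Filter.Tendsto (fun M : ℕ => 540 * R * Real.tan (Real.pi / (2 * M)) *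
      (2 * R * (12 * R + 48 * R * Real.tan (Real.pi / (2 * M))))) Filter.atTop (nhds 0) := by
    have h1 := ht1.const_mul (540 * R)
    have h2 := ((ht1.const_mul (48 * R)).const_add (12 * R)).const_mul (2 * R)
    have h3 := h1.mul h2
    rw [mul_zero, zero_mul] at h3
    exact h3
  have e1 := ht2.eventually_lt_const hδ
  have e2 := ht3.eventually_lt_const (half_pos hη)
  obtain ⟨M, hM1, hM2, hM3⟩ := ((e1.and e2).and (Filter.eventually_ge_atTop 2)).exists.imp
    fun M h => (⟨h.2, h.1.1, h.1.2⟩ : 2 ≤ M ∧ _ ∧ _)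
  refine ⟨M, hM1, ?_⟩
  have h1 := cells_grid hK hKc h0 hR M hM1 _ rfl
  refine h1.trans ?_
  have hMpos : (0:ℝ) < M := by positivity
  have hM2' : (2:ℝ) ≤ M := by exact_mod_cast hM1
  have hm0 : 0 < Real.pi / (2 * M) := by positivity
  have hm4 : Real.pi / (2 * M) ≤ Real.pi / 4 :=
    div_le_div_of_nonneg_left Real.pi_pos.le (by norm_num) (by linarith)
  have ht : 0 ≤ Real.tan (Real.pi / (2 * M)) :=
    Real.tan_nonneg_of_nonneg_of_le_pi_div_two hm0.le (by linarith [Real.pi_pos])
  have h2 := hout (136 * R * Real.tan (Real.pi / (2 * M))) (by positivity) hM2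
  have h3 := ENNReal.toReal_mono (ENNReal.add_ne_top.2 ⟨hK.measure_lt_top.ne,
    ENNReal.ofReal_ne_top⟩) h2
  rw [ENNReal.toReal_add hK.measure_lt_top.ne ENNReal.ofReal_ne_top,
    ENNReal.toReal_ofReal (half_pos hη).le] at h3
  linarith

end Pool.Agent.Lib.MP_abca01_gt.Plane3
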