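import Pool.Agent.Lib.MP_abca01_gt.Plane3.Model

/-!
# A centre with small asymmetry (Helly's theorem for the auxiliary polygon)
-/

set_option autoImplicit false

open Finset

namespace Pool.Agent.Lib.MP_abca01_gt.Plane3

theorem exists_center (X : Finset (ℝ × ℝ)) (hX : X.Nonempty) :
    ∃ o : ℝ × ℝ, ∀ p ∈ X, (1 / 2 : ℝ) • ((3 : ℝ) • o - p) ∈ convexHull ℝ (X : Set (ℝ × ℝ)) := by
  classical
  have hconv : ∀ p ∈ X, Convex ℝ {o : ℝ × ℝ |
      (1 / 2 : ℝ) • ((3 : ℝ) • o - p) ∈ convexHull ℝ (X : Set (ℝ × ℝ))} := by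
    intro p _ x hx y hy s t hs ht hst
    have h := (convex_convexHull ℝ (X : Set (ℝ × ℝ))) hx hy hs ht hst
    have e : s • ((1 / 2 : ℝ) • ((3 : ℝ) • x - p)) + t • ((1 / 2 : ℝ) • ((3 : ℝ) • y - p)) =
        (1 / 2 : ℝ) • ((3 : ℝ) • (s • x + t • y) - p) := by
      have ep : p = s • p + t • p := by rw [← add_smul, hst, one_smul]
      nth_rewrite 3 [ep]
      module
    rw [e] at h
    exact h
  have hmem : ∀ p ∈ X, p ∈ convexHull ℝ (X : Set (ℝ × ℝ)) := fun p hp =>
    subset_convexHull ℝ _ (by exact_mod_cast hp)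
  have hcx := convex_convexHull ℝ (X : Set (ℝ × ℝ))
  have hinter : ∀ I ⊆ X, I.card ≤ Module.finrank ℝ (ℝ × ℝ) + 1 →
      (⋂ p ∈ I, {o : ℝ × ℝ |
        (1 / 2 : ℝ) • ((3 : ℝ) • o - p) ∈ convexHull ℝ (X : Set (ℝ × ℝ))}).Nonempty := by
    intro I hI hcard
    have h3 : I.card ≤ 3 := by simpa using hcard
    interval_cases hc : I.card
    · rw [Finset.card_eq_zero] at hc
      subst hc
      exact ⟨0, by simp⟩
    · obtain ⟨a, rfl⟩ := Finset.card_eq_one.1 hc
      refine ⟨a, ?_⟩
      simp only [Finset.mem_singleton, Set.iInter_iInter_eq_left, Set.mem_ofPred_eq]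
      have e : (1 / 2 : ℝ) • ((3 : ℝ) • a - a) = a := by module
      rw [e]; exact hmem a (hI (Finset.mem_singleton_self a))
    · obtain ⟨a, b, hab, rfl⟩ := Finset.card_eq_two.1 hc
      have ha := hmem a (hI (by simp))
      have hb := hmem b (hI (by simp))
      refine ⟨(1 / 3 : ℝ) • ((2 : ℝ) • a + b), ?_⟩
      simp only [Finset.mem_insert, Finset.mem_singleton, Set.iInter_iInter_eq_or_left,
        Set.iInter_iInter_eq_left, Set.mem_inter_iff, Set.mem_ofPred_eq]
      constructor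
      · have e : (1 / 2 : ℝ) • ((3 : ℝ) • ((1 / 3 : ℝ) • ((2 : ℝ) • a + b)) - a) =
          (1 / 2 : ℝ) • a + (1 / 2 : ℝ) • b := by module
        rw [e]
        exact hcx ha hb (by norm_num) (by norm_num) (by norm_num)
      · have e : (1 / 2 : ℝ) • ((3 : ℝ) • ((1 / 3 : ℝ) • ((2 : ℝ) • a + b)) - b) = a := by module
        rw [e]; exact ha
    · obtain ⟨a, b, c, hab, hac, hbc, rfl⟩ := Finset.card_eq_three.1 hc
      have ha := hmem a (hI (by simp))
      have hb := hmem b (hI (by simp))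
      have hc' := hmem c (hI (by simp))
      refine ⟨(1 / 3 : ℝ) • (a + b + c), ?_⟩
      simp only [Finset.mem_insert, Finset.mem_singleton, Set.iInter_iInter_eq_or_left,
        Set.iInter_iInter_eq_left, Set.mem_inter_iff, Set.mem_ofPred_eq]
      refine ⟨?_, ?_, ?_⟩
      · have e : (1 / 2 : ℝ) • ((3 : ℝ) • ((1 / 3 : ℝ) • (a + b + c)) - a) =
          (1 / 2 : ℝ) • b + (1 / 2 : ℝ) • c := by module
        rw [e]
        exact hcx hb hc' (by norm_num) (by norm_num) (by norm_num)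
      · have e : (1 / 2 : ℝ) • ((3 : ℝ) • ((1 / 3 : ℝ) • (a + b + c)) - b) =
          (1 / 2 : ℝ) • a + (1 / 2 : ℝ) • c := by module
        rw [e]
        exact hcx ha hc' (by norm_num) (by norm_num) (by norm_num)
      · have e : (1 / 2 : ℝ) • ((3 : ℝ) • ((1 / 3 : ℝ) • (a + b + c)) - c) =
          (1 / 2 : ℝ) • a + (1 / 2 : ℝ) • b := by module
        rw [e]
        exact hcx ha hb (by norm_num) (by norm_num) (by norm_num)
  obtain ⟨o, ho⟩ := Convex.helly_theorem' hconv hinter
  refine ⟨o, fun p hp => ?_⟩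
  simp only [Set.mem_iInter] at ho
  exact ho p hp

theorem convex_ip_le (z : ℝ × ℝ) (m : ℝ) : Convex ℝ {x : ℝ × ℝ | ip x z ≤ m} := by
  intro x hx y hy s t hs ht hst
  simp only [Set.mem_ofPred_eq] at *
  rw [ip_add, ip_smul, ip_smul]
  have hm : s * m + t * m = m := by rw [← add_mul, hst, one_mul]
  linarith [mul_le_mul_of_nonneg_left hx hs, mul_le_mul_of_nonneg_left hy ht]

theorem convex_le_ip (z : ℝ × ℝ) (m : ℝ) : Convex ℝ {x : ℝ × ℝ | m ≤ ip x z} := by
  intro x hx y hy s t hs ht hst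
  simp only [Set.mem_ofPred_eq] at *
  rw [ip_add, ip_smul, ip_smul]
  have hm : s * m + t * m = m := by rw [← add_mul, hst, one_mul]
  linarith [mul_le_mul_of_nonneg_left hx hs, mul_le_mul_of_nonneg_left hy ht]

variable {n : ℕ} {th a a' : ℕ → ℝ} {q r : ℕ → ℝ × ℝ}

/-- A point with respect to which all asymmetries are at most a third of the width of a model. -/
theorem IsModel.center_width (M : IsModel n th a a' q r) (hn : 0 < n) :
    ∃ o : ℝ × ℝ, ∀ i, i < n → |ip (q i + r i) (uv (th i)) - 2 * ip o (uv (th i))| ≤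
      (1 / 3) * (ip (q i) (uv (th i)) - ip (r i) (uv (th i))) := by
  classical
  set X : Finset (ℝ × ℝ) := (range n).image q ∪ (range n).image r with hX
  have hqX : ∀ i, i < n → q i ∈ X := fun i hi =>
    Finset.mem_union_left _ (Finset.mem_image_of_mem q (Finset.mem_range.2 hi))
  have hrX : ∀ i, i < n → r i ∈ X := fun i hi =>
    Finset.mem_union_right _ (Finset.mem_image_of_mem r (Finset.mem_range.2 hi))
  obtain ⟨o, ho⟩ := exists_center X ⟨q 0, hqX 0 hn⟩
  refine ⟨o, fun i hi => ?_⟩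
  have hup : ∀ x ∈ convexHull ℝ (X : Set (ℝ × ℝ)), ip x (uv (th i)) ≤ ip (q i) (uv (th i)) := by
    intro x hx
    refine convexHull_min (fun p hp => ?_) (convex_ip_le (uv (th i)) (ip (q i) (uv (th i)))) hx
    rw [Finset.mem_coe, hX, Finset.mem_union, Finset.mem_image, Finset.mem_image] at hp
    rcases hp with ⟨k, hk, rfl⟩ | ⟨k, hk, rfl⟩
    · exact M.q_le i hi k (Finset.mem_range.1 hk).le
    · exact M.r_le i hi k (Finset.mem_range.1 hk).le
  have hlo : ∀ x ∈ convexHull ℝ (X : Set (ℝ × ℝ)), ip (r i) (uv (th i)) ≤ ip x (uv (th i)) := by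
    intro x hx
    refine convexHull_min (fun p hp => ?_) (convex_le_ip (uv (th i)) (ip (r i) (uv (th i)))) hx
    rw [Finset.mem_coe, hX, Finset.mem_union, Finset.mem_image, Finset.mem_image] at hp
    rcases hp with ⟨k, hk, rfl⟩ | ⟨k, hk, rfl⟩
    · exact M.le_q i hi k (Finset.mem_range.1 hk).le
    · exact M.le_r i hi k (Finset.mem_range.1 hk).le
  have h1 := hup _ (ho _ (hrX i hi))
  have h2 := hlo _ (ho _ (hqX i hi))
  rw [ip_smul, ip_sub, ip_smul] at h1 h2
  rw [ip_add, abs_le]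
  constructor <;> linarith

/-- A point with respect to which all asymmetries are at most a third of the `δ`-width. -/
theorem IsModel.center (M : IsModel n th a a' q r) (hn : 0 < n) :
    ∃ o : ℝ × ℝ, ∀ i, i < n → |ip (q i + r i) (uv (th i)) - 2 * ip o (uv (th i))| ≤
      (1 / 3) * ∑ j ∈ range n, |(a j - a' j) / 2| * |Real.sin (th i - th j)| := by
  set A : ℕ → ℝ := fun j => |(a j - a' j) / 2| + (a j - a' j) / 2 with hA
  set A' : ℕ → ℝ := fun j => |(a j - a' j) / 2| - (a j - a' j) / 2 with hA'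
  set Q0 : ℝ × ℝ := (1 / 2 : ℝ) • (q 0 + r 0 - ∑ j ∈ range n, A j • Jv (th j)) with hQ0
  set Q : ℕ → ℝ × ℝ := fun k => Q0 + ∑ j ∈ range k, A j • Jv (th j) with hQ
  set R : ℕ → ℝ × ℝ := fun k => Q n - ∑ j ∈ range k, A' j • Jv (th j) with hR
  have hdiff : ∀ j, A j - A' j = a j - a' j := fun j => by simp only [hA, hA']; ring
  have hclose : ∑ j ∈ range n, A j • Jv (th j) = ∑ j ∈ range n, A' j • Jv (th j) := by
    have h1 : ∑ j ∈ range n, (A j - A' j) • Jv (th j) = 0 := by
      rw [← M.closing]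
      exact Finset.sum_congr rfl fun j _ => by rw [hdiff]
    simp only [sub_smul, Finset.sum_sub_distrib] at h1
    exact sub_eq_zero.1 h1
  have M' : IsModel n th A A' Q R := by
    refine ⟨M.mono, M.span, fun k _ => ?_, fun k _ => ?_, fun k _ => ?_, fun k _ => ?_, ?_, ?_⟩
    · have := neg_abs_le ((a k - a' k) / 2)
      simp only [hA]; linarith
    · have := le_abs_self ((a k - a' k) / 2)
      simp only [hA']; linarith
    · simp only [hQ, Finset.sum_range_succ]; abel
    · simp only [hR, Finset.sum_range_succ]; abel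
    · simp only [hR, Finset.sum_range_zero, sub_zero]
    · simp only [hR, hQ, Finset.sum_range_zero, add_zero]
      rw [hclose]; abel
  have hQR : ∀ k ≤ n, Q k + R k = q k + r k := by
    intro k
    induction k with
    | zero =>
      intro _
      simp only [hR, hQ, Finset.sum_range_zero, add_zero, sub_zero, hQ0]
      module
    | succ k ih =>
      intro hk
      have hk' : k < n := by omega
      rw [M'.hq k hk', M'.hr k hk', M.hq k hk', M.hr k hk']
      have h2 : Q k + A k • Jv (th k) + (R k - A' k • Jv (th k)) =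
          (Q k + R k) + (A k - A' k) • Jv (th k) := by module
      rw [h2, ih hk'.le, hdiff]; module
  obtain ⟨o, ho⟩ := M'.center_width hn
  refine ⟨o, fun i hi => ?_⟩
  have h1 := ho i hi
  rw [hQR i hi.le, M'.width i hi] at h1
  refine h1.trans (le_of_eq ?_)
  congr 1
  refine Finset.sum_congr rfl fun j _ => ?_
  simp only [hA, hA']; ring

/-- `∑ δ_i ⟨v, u_i⟩ = 0` -/
theorem IsModel.closing_ip (M : IsModel n th a a' q r) (v : ℝ × ℝ) :
    ∑ i ∈ range n, (a i - a' i) * ip v (uv (th i)) = 0 := by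
  have h := M.closing
  have h1 : ∑ i ∈ range n, (a i - a' i) * ip v (uv (th i)) =
      ip (∑ j ∈ range n, (a j - a' j) • Jv (th j)) (-v.2, v.1) := by
    rw [ip_sum]
    refine Finset.sum_congr rfl fun i _ => ?_
    rw [ip_smul]
    simp only [ip, Jv, uv]; ring
  rw [h1, h, ip_zero]

end Pool.Agent.Lib.MP_abca01_gt.Plane3
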