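import Pool.Agent.Lib.MP_abca01_gt.Plane3.Tri

/-!
# Disjoint cones over the edges of a planar convex set
-/

set_option autoImplicit false

open MeasureTheory Set
open scoped ENNReal

namespace Pool.Agent.Lib.MP_abca01_gt.Plane3

theorem phi_eq (c p p' : ℝ × ℝ) (x : ℝ × ℝ) :
    phi c (p - c) (p' - c) x = (1 - x.1) • c + x.1 • (p + x.2 • (p' - p)) := by
  unfold phi; module

/-- The lower bound for the integral over one triangle. -/
theorem cone_lower (P : Set (ℝ × ℝ)) (f : ℝ × ℝ → ℝ) (hf : ConcaveOn ℝ P f)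
    (hf0 : ∀ x ∈ P, 0 ≤ f x) (B : ℝ) (hfB : ∀ x ∈ P, f x ≤ B) (hfm : Measurable f)
    (c p p' : ℝ × ℝ) (hc : c ∈ P) (hp : p ∈ P) (hp' : p' ∈ P)
    (hdet : 0 < dt (p - c) (p' - c)) :
    ENNReal.ofReal (dt (p - c) (p' - c) * (f c / 6 + (1 / 3) *
      ∫ x in (0:ℝ)..1, f (p + x • (p' - p)))) ≤
    ∫⁻ x in phi c (p - c) (p' - c) '' ((Ioo (0:ℝ) 1) ×ˢ (Ioo (0:ℝ) 1)), ENNReal.ofReal (f x) := by
  have hseg : ∀ x ∈ Icc (0:ℝ) 1, p + x • (p' - p) ∈ P := by
    intro x hx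
    have : p + x • (p' - p) = (1 - x) • p + x • p' := by module
    rw [this]
    exact hf.1 hp hp' (by linarith [hx.2]) hx.1 (by ring)
  set g : ℝ → ℝ := fun x => f (p + x • (p' - p)) with hg
  have hgm : Measurable g := by
    have : Measurable (fun x : ℝ => p + x • (p' - p)) := by fun_prop
    exact hfm.comp this
  have hg0 : ∀ x ∈ Icc (0:ℝ) 1, 0 ≤ g x := fun x hx => hf0 _ (hseg x hx)
  have hgB : ∀ x ∈ Icc (0:ℝ) 1, g x ≤ B := fun x hx => hfB _ (hseg x hx)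
  have hgi : 0 ≤ ∫ x in (0:ℝ)..1, g x := intervalIntegral.integral_nonneg zero_le_one hg0
  set D := dt (p - c) (p' - c) with hD
  have hmA : MeasurableSet ((Ioo (0:ℝ) 1) ×ˢ (Ioo (0:ℝ) 1)) := measurableSet_Ioo.prod measurableSet_Ioo
  rw [lintegral_phi c (p - c) (p' - c) hdet.ne' _ hmA (fun x hx => hx.1.1)]
  have hfc := hf0 c hc
  have h1 := lintegral_mul_prod (fun s => D * (s * (1 - s))) (fun _ => f c) (by fun_prop)
    (fun x hx => mul_nonneg hdet.le (mul_nonneg hx.1 (by linarith [hx.2]))) measurable_const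
    (fun _ _ => hfc) (f c) (fun _ _ => le_rfl)
  have h2 := lintegral_mul_prod (fun s => D * s ^ 2) g (by fun_prop)
    (fun x hx => mul_nonneg hdet.le (sq_nonneg _)) hgm hg0 B hgB
  have i1 : ∫ x in (0:ℝ)..1, D * (x * (1 - x)) = D / 6 := by
    have : ∀ x : ℝ, D * (x * (1 - x)) = D * x - D * x ^ 2 := fun x => by ring
    simp only [this]
    rw [intervalIntegral.integral_sub (Continuous.intervalIntegrable (by fun_prop) _ _)
      (Continuous.intervalIntegrable (by fun_prop) _ _), intervalIntegral.integral_const_mul,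
      intervalIntegral.integral_const_mul, integral_id, integral_pow]
    norm_num; ring
  have i2 : ∫ x in (0:ℝ)..1, D * x ^ 2 = D / 3 := by
    rw [intervalIntegral.integral_const_mul, integral_pow]
    norm_num; ring
  rw [i1] at h1
  rw [i2] at h2
  have e : D * (f c / 6 + (1 / 3) * ∫ x in (0:ℝ)..1, g x) =
      D / 6 * (∫ _ in (0:ℝ)..1, f c) + D / 3 * ∫ x in (0:ℝ)..1, g x := by
    rw [intervalIntegral.integral_const]
    simp only [sub_zero, one_smul]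
    ring
  rw [e, ENNReal.ofReal_add (mul_nonneg (by positivity)
    (intervalIntegral.integral_nonneg zero_le_one fun _ _ => hfc))
    (mul_nonneg (by positivity) hgi), ← h1, ← h2, ← lintegral_add_left (by fun_prop)]
  refine setLIntegral_mono_ae' hmA (ae_of_all _ fun x hx => ?_)
  have hx1 := hx.1
  have hx2 := hx.2
  rw [← ENNReal.ofReal_add (mul_nonneg (mul_nonneg hdet.le (mul_nonneg hx1.1.le
    (by linarith [hx1.2]))) hfc) (mul_nonneg (mul_nonneg hdet.le (sq_nonneg _))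
    (hg0 _ (Ioo_subset_Icc_self hx2))), ← ENNReal.ofReal_mul (mul_nonneg hx1.1.le (abs_nonneg _))]
  refine ENNReal.ofReal_le_ofReal ?_
  rw [phi_eq, abs_of_pos hdet]
  have h3 := hf.2 hc (hseg x.2 (Ioo_subset_Icc_self hx2))
    (by linarith [hx1.2] : (0:ℝ) ≤ 1 - x.1) hx1.1.le (by ring)
  simp only [smul_eq_mul] at h3
  have h4 := mul_le_mul_of_nonneg_left h3 (mul_nonneg hx1.1.le hdet.le)
  simp only [hg]
  refine le_trans (le_of_eq ?_) h4
  ring

/-- Disjointness of two cones. -/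
theorem cones_disjoint (c p1 p1' m1 p2 p2' m2 : ℝ × ℝ) (H1 H2 : ℝ)
    (h1 : ip p1 m1 = H1) (h1' : ip p1' m1 = H1) (h2 : ip p2 m2 = H2) (h2' : ip p2' m2 = H2)
    (hc1 : ip c m1 < H1) (hc2 : ip c m2 < H2)
    (ha : ip p2 m1 ≤ H1) (hb : ip p2' m1 ≤ H1) (hab : ip p2 m1 < H1 ∨ ip p2' m1 < H1)
    (ha' : ip p1 m2 ≤ H2) (hb' : ip p1' m2 ≤ H2) (hab' : ip p1 m2 < H2 ∨ ip p1' m2 < H2) :
    Disjoint (phi c (p1 - c) (p1' - c) '' ((Ioo (0:ℝ) 1) ×ˢ (Ioo (0:ℝ) 1)))
      (phi c (p2 - c) (p2' - c) '' ((Ioo (0:ℝ) 1) ×ˢ (Ioo (0:ℝ) 1))) := by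
  rw [Set.disjoint_left]
  rintro y ⟨x1, hx1, rfl⟩ ⟨x2, hx2, h⟩
  have hs1 := hx1.1.1
  have hs2 := hx2.1.1
  rw [phi_eq, phi_eq] at h
  have key : ∀ m : ℝ × ℝ, (1 - x2.1) * ip c m + x2.1 * (ip p2 m + x2.2 * (ip p2' m - ip p2 m)) =
      (1 - x1.1) * ip c m + x1.1 * (ip p1 m + x1.2 * (ip p1' m - ip p1 m)) := by
    intro m
    have := congrArg (fun z => ip z m) h
    simpa only [ip_add, ip_smul, ip_sub] using this
  have k1 := key m1
  have k2 := key m2
  rw [h1, h1'] at k1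
  rw [h2, h2'] at k2
  have l1 : ip p2 m1 + x2.2 * (ip p2' m1 - ip p2 m1) < H1 := by
    have hu := hx2.2.1
    have hv : 0 < 1 - x2.2 := by linarith [hx2.2.2]
    rcases hab with hab | hab
    · nlinarith
    · nlinarith
  have l2 : ip p1 m2 + x1.2 * (ip p1' m2 - ip p1 m2) < H2 := by
    have hu := hx1.2.1
    have hv : 0 < 1 - x1.2 := by linarith [hx1.2.2]
    rcases hab' with hab | hab
    · nlinarith
    · nlinarith
  have m1' : x1.1 < x2.1 := by
    have := mul_lt_mul_of_pos_left l1 hs2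
    have e : x1.1 * (H1 - ip c m1) < x2.1 * (H1 - ip c m1) := by nlinarith
    exact lt_of_mul_lt_mul_right e (by linarith)
  have m2' : x2.1 < x1.1 := by
    have := mul_lt_mul_of_pos_left l2 hs1
    have e : x2.1 * (H2 - ip c m2) < x1.1 * (H2 - ip c m2) := by nlinarith
    exact lt_of_mul_lt_mul_right e (by linarith)
  exact absurd m1' (not_lt.2 m2'.le)

/-- The sum over disjoint cones. -/
theorem cone_sum {ι : Type*} (s : Finset ι) (p p' m : ι → ℝ × ℝ) (H : ι → ℝ) (c : ℝ × ℝ)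
    (P : Set (ℝ × ℝ)) (f : ℝ × ℝ → ℝ) (hf : ConcaveOn ℝ P f)
    (hf0 : ∀ x ∈ P, 0 ≤ f x) (B : ℝ) (hfB : ∀ x ∈ P, f x ≤ B) (hfm : Measurable f) (hc : c ∈ P)
    (hp : ∀ e ∈ s, p e ∈ P) (hp' : ∀ e ∈ s, p' e ∈ P)
    (hm : ∀ e ∈ s, ip (p e) (m e) = H e) (hm' : ∀ e ∈ s, ip (p' e) (m e) = H e)
    (hcm : ∀ e ∈ s, ip c (m e) < H e)
    (hle : ∀ e ∈ s, ∀ e' ∈ s, e ≠ e' → ip (p e') (m e) ≤ H e ∧ ip (p' e') (m e) ≤ H e ∧
      (ip (p e') (m e) < H e ∨ ip (p' e') (m e) < H e))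
    (hdet : ∀ e ∈ s, 0 < dt (p e - c) (p' e - c)) :
    ∑ e ∈ s, ENNReal.ofReal (dt (p e - c) (p' e - c) * (f c / 6 + (1 / 3) *
      ∫ x in (0:ℝ)..1, f (p e + x • (p' e - p e)))) ≤ ∫⁻ x in P, ENNReal.ofReal (f x) := by
  have hmA : MeasurableSet ((Ioo (0:ℝ) 1) ×ˢ (Ioo (0:ℝ) 1)) :=
    measurableSet_Ioo.prod measurableSet_Ioo
  calc ∑ e ∈ s, ENNReal.ofReal (dt (p e - c) (p' e - c) * (f c / 6 + (1 / 3) *
      ∫ x in (0:ℝ)..1, f (p e + x • (p' e - p e))))
      ≤ ∑ e ∈ s, ∫⁻ x in phi c (p e - c) (p' e - c) '' ((Ioo (0:ℝ) 1) ×ˢ (Ioo (0:ℝ) 1)),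
          ENNReal.ofReal (f x) :=
        Finset.sum_le_sum fun e he => cone_lower P f hf hf0 B hfB hfm c (p e) (p' e) hc
          (hp e he) (hp' e he) (hdet e he)
    _ = ∫⁻ x in ⋃ e ∈ s, phi c (p e - c) (p' e - c) '' ((Ioo (0:ℝ) 1) ×ˢ (Ioo (0:ℝ) 1)),
          ENNReal.ofReal (f x) := by
        rw [lintegral_biUnion_finset]
        · intro e he e' he' hee
          have h1 := hle e he e' he' hee
          have h2 := hle e' he' e he hee.symm
          exact cones_disjoint c (p e) (p' e) (m e) (p e') (p' e') (m e') (H e) (H e')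
            (hm e he) (hm' e he) (hm e' he') (hm' e' he') (hcm e he) (hcm e' he')
            h1.1 h1.2.1 h1.2.2 h2.1 h2.2.1 h2.2.2
        · intro e he
          exact measurableSet_phi_image c _ _ (hdet e he).ne' _ hmA (fun x hx => hx.1.1)
    _ ≤ ∫⁻ x in P, ENNReal.ofReal (f x) := by
        refine lintegral_mono_set ?_
        intro y hy
        simp only [Set.mem_iUnion] at hy
        obtain ⟨e, he, x, hx, rfl⟩ := hy
        rw [phi_eq]
        have h1 : p e + x.2 • (p' e - p e) = (1 - x.2) • p e + x.2 • p' e := by module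
        have hx1 := hx.1
        have hx2 := hx.2
        refine hf.1 hc ?_ (by linarith [hx1.2]) hx1.1.le (by ring)
        rw [h1]
        exact hf.1 (hp e he) (hp' e he) (by linarith [hx2.2]) hx2.1.le (by ring)

end Pool.Agent.Lib.MP_abca01_gt.Plane3
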