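import Pool.Agent.Lib.MP_abca01_gt.Plane3.Cells
import Pool.Agent.Lib.MP_abca01_gt.Plane3.Area

/-!
# The case of equality: the fibres are at most the mean
-/

set_option autoImplicit false

open MeasureTheory Set Finset
open scoped ENNReal

namespace Pool.Agent.Lib.MP_abca01_gt.Plane3

theorem tendsto_tan :
    Filter.Tendsto (fun M : ℕ => Real.tan (Real.pi / (2 * M))) Filter.atTop (nhds 0) := by
  have h1 : Filter.Tendsto (fun M : ℕ => Real.pi / (2 * M)) Filter.atTop (nhds 0) := by
    have := tendsto_const_div_atTop_nhds_zero_nat (Real.pi / 2)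
    refine this.congr fun M => ?_
    rw [div_div]
  have h2 : ContinuousAt Real.tan 0 := Real.continuousAt_tan.2 (by simp)
  have h3 := h2.tendsto.comp h1
  rw [Real.tan_zero] at h3
  exact h3

/-- An interior point is uniformly away from the support lines. -/
theorem exists_rho {P : Set (ℝ × ℝ)} (hP : IsCompact P) {x : ℝ × ℝ} (hx : x ∈ interior P) :
    ∃ ρ > 0, ∀ t, ip x (uv t) + ρ ≤ ip (ZZ P t) (uv t) := by
  have hne : P.Nonempty := ⟨x, interior_subset hx⟩
  obtain ⟨ρ, hρ, hball⟩ := Metric.isOpen_iff.1 isOpen_interior x hx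
  refine ⟨ρ / 2, by positivity, fun t => ?_⟩
  have h1 : x + (ρ / 2) • uv t ∈ P := by
    apply interior_subset
    apply hball
    rw [Metric.mem_ball, dist_eq_norm, add_sub_cancel_left, norm_smul, Real.norm_eq_abs,
      abs_of_pos (by positivity : (0:ℝ) < ρ / 2)]
    have h2 : ‖uv t‖ ≤ 1 := by
      rw [uv, Prod.norm_def, max_le_iff, Real.norm_eq_abs, Real.norm_eq_abs]
      exact ⟨Real.abs_cos_le_one t, Real.abs_sin_le_one t⟩
    nlinarith
  have h3 := ip_le_ZZ hP hne t h1
  rw [ip_add, ip_smul] at h3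
  have h4 : ip (uv t) (uv t) = 1 := by
    simp only [ip, uv]
    have := Real.sin_sq_add_cos_sq t
    nlinarith
  rw [h4] at h3
  linarith

theorem cauchy_w {n : ℕ} (w I I' : ℕ → ℝ) (hw : ∀ k, k < n → 0 ≤ w k)
    (hI : ∀ k, k < n → 0 ≤ I k) (hI' : ∀ k, k < n → 0 ≤ I' k) :
    (∑ k ∈ range n, w k * |I k - I' k|) ^ 2 ≤
      (∑ k ∈ range n, w k * ((I k - I' k) ^ 2 / (I k + I' k))) *
        (4 * ∑ k ∈ range n, w k * (I k * I' k / (I k + I' k)) +
          ∑ k ∈ range n, w k * ((I k - I' k) ^ 2 / (I k + I' k))) := by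
  have h1 : 4 * ∑ k ∈ range n, w k * (I k * I' k / (I k + I' k)) +
      ∑ k ∈ range n, w k * ((I k - I' k) ^ 2 / (I k + I' k)) =
      ∑ k ∈ range n, w k * (I k + I' k) := by
    rw [Finset.mul_sum, ← Finset.sum_add_distrib]
    refine Finset.sum_congr rfl fun k hk => ?_
    have hk := Finset.mem_range.1 hk
    rcases eq_or_lt_of_le (add_nonneg (hI k hk) (hI' k hk)) with h | h
    · rw [← h]; simp
    · field_simp; ring
  rw [h1]
  refine Finset.sum_sq_le_sum_mul_sum_of_sq_eq_mul (range n) (fun k hk => ?_) (fun k hk => ?_)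
    (fun k hk => ?_)
  · have hk := Finset.mem_range.1 hk
    exact mul_nonneg (hw k hk) (div_nonneg (sq_nonneg _) (add_nonneg (hI k hk) (hI' k hk)))
  · have hk := Finset.mem_range.1 hk
    exact mul_nonneg (hw k hk) (add_nonneg (hI k hk) (hI' k hk))
  · have hk := Finset.mem_range.1 hk
    rcases eq_or_lt_of_le (add_nonneg (hI k hk) (hI' k hk)) with h | h
    · have e1 : I k = 0 := by linarith [hI k hk, hI' k hk]
      have e2 : I' k = 0 := by linarith [hI k hk, hI' k hk]
      rw [e1, e2]; simp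
    · rw [mul_pow, sq_abs]; field_simp

/-- **The fibres are at most the mean, if the cells always exhaust the volume.** -/
theorem fib_le_mean {K : Set (Fin 3 → ℝ)} (hK : IsCompact K) (hKc : Convex ℝ K)
    (h0 : (0 : Fin 3 → ℝ) ∈ K)
    (hS : ∀ M : ℕ, 2 ≤ M → (volume K).toReal ≤ ∑ k ∈ range (2 * M),
      3 * min (volume (cell K (k * (Real.pi / (2 * M))) (Real.pi / (2 * M)))).toReal
      (volume (cell K (Real.pi + k * (Real.pi / (2 * M))) (Real.pi / (2 * M)))).toReal)
    {x : ℝ × ℝ} (hx : x ∈ interior (pr '' K)) :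
    (volume (pr '' K)).toReal * (fib K x).toReal ≤ (volume K).toReal := by
  obtain ⟨R, hR⟩ : ∃ R : ℝ, ∀ x ∈ K, ∀ i, |x i| ≤ R := by
    obtain ⟨r, hr⟩ := hK.isBounded.exists_norm_le
    refine ⟨r, fun x hx i => ?_⟩
    have h1 := norm_le_pi_norm x i
    rw [Real.norm_eq_abs] at h1
    exact h1.trans (hr x hx)
  have hR0 : 0 ≤ R := (abs_nonneg _).trans (hR 0 h0 0)
  have hP : IsCompact (pr '' K) := hK.image continuous_pr
  have hPc : Convex ℝ (pr '' K) := (concaveOn_fib hK hKc).1
  have hxP : x ∈ pr '' K := interior_subset hx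
  have hRP : ∀ p ∈ pr '' K, |p.1| ≤ R ∧ |p.2| ≤ R := by
    rintro _ ⟨x, hx, rfl⟩
    exact ⟨hR x hx 0, hR x hx 1⟩
  obtain ⟨ρ, hρ, hxρ⟩ := exists_rho hP hx
  set V := (volume K).toReal with hV
  have hV0 : 0 ≤ V := ENNReal.toReal_nonneg
  set f := (fib K x).toReal with hf
  have hf0 : 0 ≤ f := ENNReal.toReal_nonneg
  -- the bound for a given error
  have main : ∀ η : ℝ, 0 < η → (volume (pr '' K)).toReal * f ≤
      (V + 6 * η + 1 / 2 * Real.sqrt (240 * η * (4 * (V + η) + 240 * η))) * (1 + η) := by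
    intro η hη
    obtain ⟨δ, hδ, hout⟩ := volume_outer hK hη
    have ht1 := tendsto_tan
    have c1 : Filter.Tendsto (fun M : ℕ => 136 * R * Real.tan (Real.pi / (2 * M))) Filter.atTop
        (nhds 0) := by
      have := ht1.const_mul (136 * R)
      rwa [mul_zero] at this
    have c2 : Filter.Tendsto (fun M : ℕ => 540 * R * Real.tan (Real.pi / (2 * M)) *
        (2 * R * (12 * R + 48 * R * Real.tan (Real.pi / (2 * M))))) Filter.atTop (nhds 0) := by
      have h1 := ht1.const_mul (540 * R)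
      have h2 := ((ht1.const_mul (48 * R)).const_add (12 * R)).const_mul (2 * R)
      have h3 := h1.mul h2
      rw [mul_zero, zero_mul] at h3
      exact h3
    have c3 : Filter.Tendsto (fun M : ℕ => 264 * R * Real.tan (Real.pi / (2 * M))) Filter.atTop
        (nhds 0) := by
      have := ht1.const_mul (264 * R)
      rwa [mul_zero] at this
    have c4 : Filter.Tendsto (fun M : ℕ => 132 * R * Real.tan (Real.pi / (2 * M)) * (24 * R) * f)
        Filter.atTop (nhds 0) := by
      have := ((ht1.const_mul (132 * R)).mul_const (24 * R)).mul_const f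
      rwa [mul_zero, zero_mul, zero_mul] at this
    have c5 : Filter.Tendsto (fun M : ℕ => 16 * R * Real.tan (Real.pi / (2 * M)) / ρ) Filter.atTop
        (nhds 0) := by
      have := (ht1.const_mul (16 * R)).div_const ρ
      rwa [mul_zero, zero_div] at this
    have e1 := c1.eventually_lt_const hδ
    have e2 := c2.eventually_lt_const hη
    have e3 := c3.eventually_lt_const hρ
    have e4 := c4.eventually_lt_const hη
    have e5 := c5.eventually_lt_const hη
    obtain ⟨M, ⟨⟨⟨⟨h1, h2⟩, h3⟩, h4⟩, h5⟩, hM⟩ :=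
      (((((e1.and e2).and e3).and e4).and e5).and (Filter.eventually_ge_atTop 2)).exists
    have hMpos : (0:ℝ) < M := by positivity
    have hM2' : (2:ℝ) ≤ M := by exact_mod_cast hM
    have hm0 : 0 < Real.pi / (2 * M) := by positivity
    have hm4 : Real.pi / (2 * M) ≤ Real.pi / 4 :=
      div_le_div_of_nonneg_left Real.pi_pos.le (by norm_num) (by linarith)
    have ht : 0 ≤ Real.tan (Real.pi / (2 * M)) :=
      Real.tan_nonneg_of_nonneg_of_le_pi_div_two hm0.le (by linarith [Real.pi_pos])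
    have hSM := hS M hM
    obtain ⟨w, I, I', hw, hI, hI', g1, g2, g3⟩ := grid_data hK hKc h0 hR M hM _ rfl
    obtain ⟨A, g4, g5⟩ := g3 x hxP (fun t => by linarith [hxρ t])
    set m := Real.pi / (2 * M) with hm
    set T := Real.tan m with hT
    have hRT : 0 ≤ R * T := mul_nonneg hR0 ht
    have g6 := area_le hP hPc hRP hρ hx hxρ hM hm (by rw [← hT]; linarith)
    rw [← hT] at g6
    have hVo := hout (136 * R * T) (by positivity) h1
    have hVo' := ENNReal.toReal_mono (ENNReal.add_ne_top.2 ⟨hK.measure_lt_top.ne,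
      ENNReal.ofReal_ne_top⟩) hVo
    rw [ENNReal.toReal_add hK.measure_lt_top.ne ENNReal.ofReal_ne_top,
      ENNReal.toReal_ofReal hη.le, ← hV] at hVo'
    set Vo := (volume (outer K (136 * R * T))).toReal with hVod
    set G := 1 / 2 * ∑ k ∈ range (2 * M),
            ((ip (ZZ (pr '' K) (k * m)) (uv (k * m)) - ip x (uv (k * m))) * al (pr '' K) m (k * m) +
            (ip (ZZ (pr '' K) (Real.pi + k * m)) (uv (Real.pi + k * m)) -
              ip x (uv (Real.pi + k * m))) * al (pr '' K) m (Real.pi + k * m)) with hG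
    set D := ∑ k ∈ range (2 * M), w k * |I k - I' k| with hD
    have g7 := cauchy_w w I I' hw hI hI'
    rw [← hD] at g7
    have e6 : ∑ k ∈ range (2 * M), w k * (I k * I' k / (I k + I' k) +
        1 / 120 * ((I k - I' k) ^ 2 / (I k + I' k))) =
        ∑ k ∈ range (2 * M), w k * (I k * I' k / (I k + I' k)) +
        1 / 120 * ∑ k ∈ range (2 * M), w k * ((I k - I' k) ^ 2 / (I k + I' k)) := by
      rw [Finset.mul_sum, ← Finset.sum_add_distrib]
      exact Finset.sum_congr rfl fun k _ => by ring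
    rw [e6] at g1
    set S1 := ∑ k ∈ range (2 * M), w k * (I k * I' k / (I k + I' k)) with hS1
    set S2 := ∑ k ∈ range (2 * M), w k * ((I k - I' k) ^ 2 / (I k + I' k)) with hS2
    have hS20 : 0 ≤ S2 := Finset.sum_nonneg fun k hk => by
      have hk := Finset.mem_range.1 hk
      exact mul_nonneg (hw k hk) (div_nonneg (sq_nonneg _) (add_nonneg (hI k hk) (hI' k hk)))
    have hS10 : 0 ≤ S1 := Finset.sum_nonneg fun k hk => by
      have hk := Finset.mem_range.1 hk
      exact mul_nonneg (hw k hk) (div_nonneg (mul_nonneg (hI k hk) (hI' k hk))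
        (add_nonneg (hI k hk) (hI' k hk)))
    have hD0 : 0 ≤ D := Finset.sum_nonneg fun k hk => by
      have hk := Finset.mem_range.1 hk
      exact mul_nonneg (hw k hk) (abs_nonneg _)
    have k1 : V - η ≤ S1 := by linarith
    have k2 : S2 ≤ 240 * η := by linarith
    have k3 : D ≤ Real.sqrt (240 * η * (4 * (V + η) + 240 * η)) := by
      refine Real.le_sqrt_of_sq_le (g7.trans ?_)
      refine mul_le_mul k2 (by linarith) (by positivity) (by positivity)
    have k4 : G * f ≤ 3 * Vo + 1 / 2 * D - 2 * S1 + η := by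
      have k5 : G * f ≤ (A + 132 * R * T * (24 * R)) * f := mul_le_mul_of_nonneg_right g5 hf0
      linarith
    have k6 : G * f ≤ V + 6 * η + 1 / 2 * Real.sqrt (240 * η * (4 * (V + η) + 240 * η)) := by
      linarith
    have hcoef : 1 + 16 * R * T / ρ ≤ 1 + η := by linarith
    have hcoef0 : 0 ≤ 1 + 16 * R * T / ρ := by positivity
    calc (volume (pr '' K)).toReal * f ≤ (G * (1 + 16 * R * T / ρ)) * f :=
          mul_le_mul_of_nonneg_right g6 hf0
      _ = (G * f) * (1 + 16 * R * T / ρ) := by ring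
      _ ≤ (V + 6 * η + 1 / 2 * Real.sqrt (240 * η * (4 * (V + η) + 240 * η))) *
          (1 + 16 * R * T / ρ) := mul_le_mul_of_nonneg_right k6 hcoef0
      _ ≤ _ := mul_le_mul_of_nonneg_left hcoef (by positivity)
  have hcont : Continuous (fun η : ℝ =>
      (V + 6 * η + 1 / 2 * Real.sqrt (240 * η * (4 * (V + η) + 240 * η))) * (1 + η)) := by
    fun_prop
  have hlim : Filter.Tendsto (fun η : ℝ =>
      (V + 6 * η + 1 / 2 * Real.sqrt (240 * η * (4 * (V + η) + 240 * η))) * (1 + η))
      (nhdsWithin 0 (Set.Ioi 0)) (nhds V) := by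
    have h1 := (hcont.tendsto 0).mono_left (nhdsWithin_le_nhds (s := Set.Ioi (0:ℝ)))
    simpa using h1
  refine ge_of_tendsto hlim ?_
  filter_upwards [self_mem_nhdsWithin] with η hη
  exact main η hη

end Pool.Agent.Lib.MP_abca01_gt.Plane3
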