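import Pool.Agent.Lib.MP_abca01_gt.Plane3.Equal

/-!
# The case of equality: the fibres have constant length
-/

set_option autoImplicit false

open MeasureTheory Set Finset
open scoped ENNReal

namespace Pool.Agent.Lib.MP_abca01_gt.Plane3

/-- A concave function which is at most its mean is constant in the interior. -/
theorem const_of_le_mean {P : Set (ℝ × ℝ)} (hP : IsCompact P) {g : ℝ × ℝ → ℝ}
    (hg : ConcaveOn ℝ P g) (hg0 : ∀ p, 0 ≤ g p) (hgm : Measurable g) {V : ℝ} (hV : 0 ≤ V)
    (hint : ∫⁻ p in P, ENNReal.ofReal (g p) = ENNReal.ofReal V)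
    (hle : ∀ p ∈ interior P, (volume P).toReal * g p ≤ V) {x : ℝ × ℝ} (hx : x ∈ interior P) :
    g x = V / (volume P).toReal := by
  have hPc : Convex ℝ P := hg.1
  have hPpos : 0 < volume P :=
    (isOpen_interior.measure_pos volume ⟨x, hx⟩).trans_le (measure_mono interior_subset)
  have hPfin : volume P ≠ ⊤ := hP.measure_lt_top.ne
  set v := (volume P).toReal with hv
  have hv0 : 0 < v := ENNReal.toReal_pos hPpos.ne' hPfin
  set c := V / v with hc
  have hc0 : 0 ≤ c := div_nonneg hV hv0.le
  have hle' : ∀ p ∈ interior P, g p ≤ c := by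
    intro p hp
    rw [hc, le_div_iff₀ hv0, mul_comm]
    exact hle p hp
  have hfr : volume (frontier P) = 0 := hPc.addHaar_frontier volume
  have hae : (interior P : Set (ℝ × ℝ)) =ᵐ[volume] P := by
    refine (HasSubset.Subset.eventuallyLE interior_subset).antisymm ?_
    rw [ae_le_set]
    refine measure_mono_null ?_ hfr
    rw [hP.isClosed.frontier_eq]
  have e1 : ∫⁻ p in interior P, ENNReal.ofReal (g p) = ENNReal.ofReal V := by
    rw [Measure.restrict_congr_set hae]; exact hint
  have e2 : ∫⁻ _ in interior P, ENNReal.ofReal c = ENNReal.ofReal V := by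
    rw [lintegral_const, Measure.restrict_apply_univ, measure_congr hae,
      ← ENNReal.ofReal_toReal hPfin, ← ENNReal.ofReal_mul hc0, hc, div_mul_cancel₀ _ hv0.ne']
  have e3 : (fun p => ENNReal.ofReal (g p)) =ᵐ[volume.restrict (interior P)]
      fun _ => ENNReal.ofReal c := by
    refine ae_eq_of_ae_le_of_lintegral_le ?_ ?_ ?_ ?_
    · exact (ae_restrict_iff' isOpen_interior.measurableSet).2
        (ae_of_all _ fun p hp => ENNReal.ofReal_le_ofReal (hle' p hp))
    · rw [e1]; exact ENNReal.ofReal_ne_top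
    · exact aemeasurable_const
    · rw [e1, e2]
  have e4 : ∀ᵐ p ∂(volume : Measure (ℝ × ℝ)), p ∈ interior P → g p = c := by
    have := (ae_restrict_iff' isOpen_interior.measurableSet).1 e3
    filter_upwards [this] with p hp hpi
    exact (ENNReal.ofReal_eq_ofReal_iff (hg0 p) hc0).1 (hp hpi)
  set N : Set (ℝ × ℝ) := {p | ¬ (p ∈ interior P → g p = c)} with hN
  have hN0 : volume N = 0 := e4
  have hN1 : volume ((fun b : ℝ × ℝ => (2 : ℝ) • x - b) ⁻¹' N) = 0 := by
    have h1 := Measure.measurePreserving_sub_left (volume : Measure (ℝ × ℝ)) ((2 : ℝ) • x)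
    exact h1.quasiMeasurePreserving.preimage_null hN0
  set U : Set (ℝ × ℝ) := interior P ∩ (fun b : ℝ × ℝ => (2 : ℝ) • x - b) ⁻¹' interior P with hU
  have hUo : IsOpen U := isOpen_interior.inter (isOpen_interior.preimage (by fun_prop))
  have hxU : x ∈ U := by
    refine ⟨hx, ?_⟩
    have h1 : (2 : ℝ) • x - x = x := by
      rw [two_smul]
      abel
    rw [Set.mem_preimage, h1]
    exact hx
  have hUpos : 0 < volume U := hUo.measure_pos volume ⟨x, hxU⟩
  obtain ⟨y, hyU, hy1, hy2⟩ : ∃ y ∈ U, y ∉ N ∧ (2 : ℝ) • x - y ∉ N := by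
    by_contra hcon
    push Not at hcon
    have h1 : volume U = 0 := by
      refine measure_mono_null (t := N ∪ (fun b : ℝ × ℝ => (2 : ℝ) • x - b) ⁻¹' N) ?_ ?_
      · intro y hy
        by_cases h : y ∈ N
        · exact Or.inl h
        · exact Or.inr (hcon y hy h)
      · exact measure_union_null hN0 hN1
    rw [h1] at hUpos
    exact lt_irrefl _ hUpos
  have k1 : g y = c := by
    by_contra h
    exact hy1 fun h' => h (h' hyU.1)
  have k2 : g ((2 : ℝ) • x - y) = c := by
    by_contra h
    exact hy2 fun h' => h (h' hyU.2)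
  have k3 := hg.2 (interior_subset hyU.1) (interior_subset hyU.2)
    (show (0 : ℝ) ≤ 1 / 2 by norm_num) (show (0 : ℝ) ≤ 1 / 2 by norm_num) (by norm_num)
  have k4 : (1 / 2 : ℝ) • y + (1 / 2 : ℝ) • ((2 : ℝ) • x - y) = x := by module
  rw [k4, k1, k2, smul_eq_mul] at k3
  exact le_antisymm (hle' x hx) (by linarith)

/-- **The fibres have constant length, if the cells always exhaust the volume.** -/
theorem fib_const {K : Set (Fin 3 → ℝ)} (hK : IsCompact K) (hKc : Convex ℝ K)
    (h0 : (0 : Fin 3 → ℝ) ∈ K)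
    (hS : ∀ M : ℕ, 2 ≤ M → (volume K).toReal ≤ ∑ k ∈ range (2 * M),
      3 * min (volume (cell K (k * (Real.pi / (2 * M))) (Real.pi / (2 * M)))).toReal
      (volume (cell K (Real.pi + k * (Real.pi / (2 * M))) (Real.pi / (2 * M)))).toReal) :
    ∃ c : ℝ≥0∞, ∀ x ∈ interior (pr '' K), fib K x = c := by
  refine ⟨ENNReal.ofReal ((volume K).toReal / (volume (pr '' K)).toReal), fun x hx => ?_⟩
  have h1 := const_of_le_mean (hK.image continuous_pr) (concaveOn_fib hK hKc)
    (fun _ => ENNReal.toReal_nonneg) (measurable_fib K hK.measurableSet).ennreal_toReal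
    (V := (volume K).toReal) ENNReal.toReal_nonneg (by
      rw [ENNReal.ofReal_toReal hK.measure_lt_top.ne, volume_eq_setLIntegral_fib K hK]
      exact lintegral_congr fun p => ENNReal.ofReal_toReal (fib_lt_top hK p).ne)
    (fun p hp => fib_le_mean hK hKc h0 hS hp) hx
  rw [← h1, ENNReal.ofReal_toReal (fib_lt_top hK x).ne]

end Pool.Agent.Lib.MP_abca01_gt.Plane3
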