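import Mathlib

/-!
# Fibres over the plane of a convex body of `Fin 3 → ℝ`
-/

set_option autoImplicit false

open MeasureTheory Set
open scoped ENNReal Pointwise

namespace Pool.Agent.Lib.MP_abca01_gt.Plane3

/-- the point over `p` at height `t` -/
def pt (p : ℝ × ℝ) (t : ℝ) : Fin 3 → ℝ := ![p.1, p.2, t]

/-- the projection to the plane -/
def pr (x : Fin 3 → ℝ) : ℝ × ℝ := (x 0, x 1)

theorem pt_pr (x : Fin 3 → ℝ) : pt (pr x) (x 2) = x := by
  ext i; fin_cases i <;> rfl

theorem pr_pt (p : ℝ × ℝ) (t : ℝ) : pr (pt p t) = p := rfl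

theorem pt_two (p : ℝ × ℝ) (t : ℝ) : pt p t 2 = t := rfl

theorem pt_comb (a b : ℝ) (p p' : ℝ × ℝ) (t t' : ℝ) :
    a • pt p t + b • pt p' t' = pt (a • p + b • p') (a * t + b * t') := by
  ext i; fin_cases i <;> simp [pt]

theorem continuous_pr : Continuous pr := by unfold pr; fun_prop

theorem continuous_pt (p : ℝ × ℝ) : Continuous (pt p) := by
  refine continuous_pi fun i => ?_
  fin_cases i
  · exact continuous_const
  · exact continuous_const
  · exact continuous_id

/-- the length of the fibre -/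
noncomputable def fib (K : Set (Fin 3 → ℝ)) (p : ℝ × ℝ) : ℝ≥0∞ := volume {t | pt p t ∈ K}

/-- coordinates -/
def ee (x : Fin 3 → ℝ) : ℝ × (ℝ × ℝ) := (x 2, (x 0, x 1))

theorem measurePreserving_ee : MeasurePreserving ee volume volume := by
  have h1 := volume_preserving_piFinSuccAbove (fun _ : Fin 3 => ℝ) 2
  have h2 := (MeasurePreserving.id (volume : Measure ℝ)).prod (volume_preserving_finTwoArrow ℝ)
  have h3 := h2.comp h1
  have e : (Prod.map id (MeasurableEquiv.finTwoArrow (α := ℝ))) ∘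
      (MeasurableEquiv.piFinSuccAbove (fun _ : Fin 3 => ℝ) 2) = ee := by
    funext x
    rfl
  rw [e] at h3
  exact h3

theorem continuous_ee : Continuous ee := by unfold ee; fun_prop

theorem measurableEmbedding_ee : MeasurableEmbedding ee := by
  refine continuous_ee.measurableEmbedding ?_
  intro x y h
  simp only [ee, Prod.mk.injEq] at h
  ext i
  fin_cases i
  · exact h.2.1
  · exact h.2.2
  · exact h.1

theorem ee_preimage (K : Set (Fin 3 → ℝ)) :
    ee ⁻¹' {z | pt z.2 z.1 ∈ K} = K := by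
  ext x
  have : pt (ee x).2 (ee x).1 = x := pt_pr x
  simp only [Set.mem_preimage, Set.mem_ofPred_eq, this]

theorem measurable_pt2 : Measurable (fun z : ℝ × (ℝ × ℝ) => pt z.2 z.1) := by
  refine measurable_pi_lambda _ fun i => ?_
  fin_cases i
  · exact measurable_snd.fst
  · exact measurable_snd.snd
  · exact measurable_fst

theorem volume_eq_lintegral_fib (K : Set (Fin 3 → ℝ)) (hK : MeasurableSet K) :
    volume K = ∫⁻ p, fib K p := by
  have hm : MeasurableSet {z : ℝ × (ℝ × ℝ) | pt z.2 z.1 ∈ K} := measurable_pt2 hK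
  have h1 := measurePreserving_ee.measure_preimage hm.nullMeasurableSet
  rw [ee_preimage] at h1
  rw [h1]
  exact Measure.prod_apply_symm hm

theorem measurable_fib (K : Set (Fin 3 → ℝ)) (hK : MeasurableSet K) : Measurable (fib K) := by
  have hm : MeasurableSet {z : ℝ × (ℝ × ℝ) | pt z.2 z.1 ∈ K} := measurable_pt2 hK
  exact measurable_measure_prodMk_right hm

theorem fib_eq_zero {K : Set (Fin 3 → ℝ)} {p : ℝ × ℝ} (hp : p ∉ pr '' K) : fib K p = 0 := by
  have : {t | pt p t ∈ K} = ∅ := by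
    rw [Set.eq_empty_iff_forall_notMem]
    intro t ht
    exact hp ⟨pt p t, ht, rfl⟩
  rw [fib, this, measure_empty]

theorem volume_eq_setLIntegral_fib (K : Set (Fin 3 → ℝ)) (hK : IsCompact K) :
    volume K = ∫⁻ p in pr '' K, fib K p := by
  rw [volume_eq_lintegral_fib K hK.measurableSet,
    ← lintegral_indicator (hK.image continuous_pr).measurableSet]
  refine lintegral_congr fun p => ?_
  by_cases hp : p ∈ pr '' K
  · rw [Set.indicator_of_mem hp]
  · rw [Set.indicator_of_notMem hp, fib_eq_zero hp]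

theorem fib_mono {K K' : Set (Fin 3 → ℝ)} {p p' : ℝ × ℝ}
    (h : ∀ t, pt p t ∈ K → pt p' t ∈ K') : fib K p ≤ fib K' p' :=
  measure_mono fun t ht => h t ht

theorem fib_le {K : Set (Fin 3 → ℝ)} {R : ℝ} (hR : ∀ x ∈ K, |x 2| ≤ R) (p : ℝ × ℝ) :
    fib K p ≤ ENNReal.ofReal (2 * R) := by
  have h : {t | pt p t ∈ K} ⊆ Icc (-R) R := by
    intro t ht
    have := hR _ ht
    rw [pt_two] at this
    exact abs_le.1 this
  calc fib K p ≤ volume (Icc (-R) R) := measure_mono h
    _ = ENNReal.ofReal (2 * R) := by rw [Real.volume_Icc]; congr 1; ring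

theorem isCompact_fibre {K : Set (Fin 3 → ℝ)} (hK : IsCompact K) (p : ℝ × ℝ) :
    IsCompact {t | pt p t ∈ K} := by
  have h1 : IsClosed {t | pt p t ∈ K} := hK.isClosed.preimage (continuous_pt p)
  have h2 : IsCompact ((fun x : Fin 3 → ℝ => x 2) '' K) := hK.image (continuous_apply 2)
  refine h2.of_isClosed_subset h1 ?_
  intro t ht
  exact ⟨pt p t, ht, rfl⟩

theorem fib_lt_top {K : Set (Fin 3 → ℝ)} (hK : IsCompact K) (p : ℝ × ℝ) : fib K p < ⊤ :=
  (isCompact_fibre hK p).measure_lt_top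

/-- The fibre length is a concave function on the projection. -/
theorem concaveOn_fib {K : Set (Fin 3 → ℝ)} (hK : IsCompact K) (hKc : Convex ℝ K) :
    ConcaveOn ℝ (pr '' K) (fun p => (fib K p).toReal) := by
  have hconv : Convex ℝ (pr '' K) := by
    rintro _ ⟨x, hx, rfl⟩ _ ⟨y, hy, rfl⟩ a b ha hb hab
    exact ⟨a • x + b • y, hKc hx hy ha hb hab, by ext <;> simp [pr]⟩
  refine ⟨hconv, ?_⟩
  rintro _ ⟨x, hx, rfl⟩ _ ⟨y, hy, rfl⟩ a b ha hb hab
  simp only [smul_eq_mul]
  set S := {t | pt (pr x) t ∈ K} with hS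
  set S' := {t | pt (pr y) t ∈ K} with hS'
  set S'' := {t | pt (a • pr x + b • pr y) t ∈ K} with hS''
  have cS : IsCompact S := isCompact_fibre hK _
  have cS' : IsCompact S' := isCompact_fibre hK _
  have cS'' : IsCompact S'' := isCompact_fibre hK _
  have nS : S.Nonempty := ⟨x 2, by rw [hS, Set.mem_ofPred_eq, pt_pr]; exact hx⟩
  have nS' : S'.Nonempty := ⟨y 2, by rw [hS', Set.mem_ofPred_eq, pt_pr]; exact hy⟩
  have m1 := cS.sSup_mem nS
  have m2 := cS.sInf_mem nS
  have m3 := cS'.sSup_mem nS'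
  have m4 := cS'.sInf_mem nS'
  have l1 : (fib K (pr x)).toReal ≤ sSup S - sInf S := by
    have h : S ⊆ Icc (sInf S) (sSup S) := fun t ht =>
      ⟨csInf_le cS.bddBelow ht, le_csSup cS.bddAbove ht⟩
    have h2 : fib K (pr x) ≤ ENNReal.ofReal (sSup S - sInf S) := by
      rw [← Real.volume_Icc]; exact measure_mono h
    exact ENNReal.toReal_le_of_le_ofReal (sub_nonneg.2 (csInf_le cS.bddBelow m1)) h2
  have l2 : (fib K (pr y)).toReal ≤ sSup S' - sInf S' := by
    have h : S' ⊆ Icc (sInf S') (sSup S') := fun t ht =>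
      ⟨csInf_le cS'.bddBelow ht, le_csSup cS'.bddAbove ht⟩
    have h2 : fib K (pr y) ≤ ENNReal.ofReal (sSup S' - sInf S') := by
      rw [← Real.volume_Icc]; exact measure_mono h
    exact ENNReal.toReal_le_of_le_ofReal (sub_nonneg.2 (csInf_le cS'.bddBelow m3)) h2
  have hconv'' : Convex ℝ S'' := by
    intro t ht t' ht' c d hc hd hcd
    have := hKc ht ht' hc hd hcd
    rw [pt_comb, ← add_smul, hcd, one_smul] at this
    exact this
  have u1 : a * sSup S + b * sSup S' ∈ S'' := by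
    have := hKc m1 m3 ha hb hab
    rw [pt_comb] at this
    exact this
  have u2 : a * sInf S + b * sInf S' ∈ S'' := by
    have := hKc m2 m4 ha hb hab
    rw [pt_comb] at this
    exact this
  have i1 : sInf S ≤ sSup S := csInf_le cS.bddBelow m1
  have i2 : sInf S' ≤ sSup S' := csInf_le cS'.bddBelow m3
  have hsub : Icc (a * sInf S + b * sInf S') (a * sSup S + b * sSup S') ⊆ S'' := by
    intro t ht
    have := hconv''.ordConnected.out u2 u1
    exact this ht
  have l3 : (a * sSup S + b * sSup S') - (a * sInf S + b * sInf S') ≤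
      (fib K (a • pr x + b • pr y)).toReal := by
    have h2 : ENNReal.ofReal ((a * sSup S + b * sSup S') - (a * sInf S + b * sInf S')) ≤
        fib K (a • pr x + b • pr y) := by
      rw [← Real.volume_Icc]; exact measure_mono hsub
    exact (ENNReal.ofReal_le_iff_le_toReal (fib_lt_top hK _).ne).1 h2
  nlinarith [mul_le_mul_of_nonneg_left l1 ha, mul_le_mul_of_nonneg_left l2 hb]

/-- the flat square of half side `ε` -/
def flat (ε : ℝ) : Set (Fin 3 → ℝ) := {x | |x 0| ≤ ε ∧ |x 1| ≤ ε ∧ x 2 = 0}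

theorem isCompact_flat (ε : ℝ) : IsCompact (flat ε) := by
  have hcl : IsClosed (flat ε) := by
    have h1 : IsClosed {x : Fin 3 → ℝ | |x 0| ≤ ε} :=
      isClosed_le (continuous_abs.comp (continuous_apply 0)) continuous_const
    have h2 : IsClosed {x : Fin 3 → ℝ | |x 1| ≤ ε} :=
      isClosed_le (continuous_abs.comp (continuous_apply 1)) continuous_const
    have h3 : IsClosed {x : Fin 3 → ℝ | x 2 = 0} := isClosed_eq (continuous_apply 2) continuous_const
    exact h1.inter (h2.inter h3)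
  refine (isCompact_Icc (a := fun _ : Fin 3 => -|ε|) (b := fun _ : Fin 3 => |ε|)).of_isClosed_subset
    hcl ?_
  intro x hx
  obtain ⟨h1, h2, h3⟩ := hx
  have e : ε ≤ |ε| := le_abs_self ε
  refine ⟨fun i => ?_, fun i => ?_⟩
  · fin_cases i
    · have := (abs_le.1 h1).1; simp only [Fin.zero_eta]; linarith
    · have := (abs_le.1 h2).1; simp only [Fin.mk_one]; linarith
    · simp only [Fin.reduceFinMk, h3]; linarith [abs_nonneg ε]
  · fin_cases i
    · have := (abs_le.1 h1).2; simp only [Fin.zero_eta]; linarith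
    · have := (abs_le.1 h2).2; simp only [Fin.mk_one]; linarith
    · simp only [Fin.reduceFinMk, h3]; linarith [abs_nonneg ε]

theorem convex_flat (ε : ℝ) : Convex ℝ (flat ε) := by
  intro x hx y hy a b ha hb hab
  obtain ⟨h1, h2, h3⟩ := hx
  obtain ⟨g1, g2, g3⟩ := hy
  refine ⟨?_, ?_, ?_⟩
  · simp only [Pi.add_apply, Pi.smul_apply, smul_eq_mul]
    calc |a * x 0 + b * y 0| ≤ |a * x 0| + |b * y 0| := abs_add_le _ _
      _ = a * |x 0| + b * |y 0| := by rw [abs_mul, abs_mul, abs_of_nonneg ha, abs_of_nonneg hb]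
      _ ≤ a * ε + b * ε := by gcongr
      _ = ε := by rw [← add_mul, hab, one_mul]
  · simp only [Pi.add_apply, Pi.smul_apply, smul_eq_mul]
    calc |a * x 1 + b * y 1| ≤ |a * x 1| + |b * y 1| := abs_add_le _ _
      _ = a * |x 1| + b * |y 1| := by rw [abs_mul, abs_mul, abs_of_nonneg ha, abs_of_nonneg hb]
      _ ≤ a * ε + b * ε := by gcongr
      _ = ε := by rw [← add_mul, hab, one_mul]
  · simp only [Pi.add_apply, Pi.smul_apply, smul_eq_mul, h3, g3]; ring

/-- the outer body -/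
def outer (K : Set (Fin 3 → ℝ)) (ε : ℝ) : Set (Fin 3 → ℝ) := K + flat ε

theorem isCompact_outer {K : Set (Fin 3 → ℝ)} (hK : IsCompact K) (ε : ℝ) :
    IsCompact (outer K ε) := hK.add (isCompact_flat ε)

theorem convex_outer {K : Set (Fin 3 → ℝ)} (hK : Convex ℝ K) (ε : ℝ) :
    Convex ℝ (outer K ε) := hK.add (convex_flat ε)

theorem pt_mem_outer {K : Set (Fin 3 → ℝ)} {ε : ℝ} {p p' : ℝ × ℝ} {t : ℝ}
    (h1 : |p'.1 - p.1| ≤ ε) (h2 : |p'.2 - p.2| ≤ ε) (ht : pt p t ∈ K) : pt p' t ∈ outer K ε := by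
  refine ⟨pt p t, ht, ![p'.1 - p.1, p'.2 - p.2, 0], ⟨h1, h2, rfl⟩, ?_⟩
  ext i; fin_cases i <;> simp [pt]

theorem fib_le_outer {K : Set (Fin 3 → ℝ)} {ε : ℝ} {p p' : ℝ × ℝ}
    (h1 : |p'.1 - p.1| ≤ ε) (h2 : |p'.2 - p.2| ≤ ε) : fib K p ≤ fib (outer K ε) p' :=
  fib_mono fun _ ht => pt_mem_outer h1 h2 ht

theorem mem_pr_outer {K : Set (Fin 3 → ℝ)} {ε : ℝ} {p p' : ℝ × ℝ}
    (h1 : |p'.1 - p.1| ≤ ε) (h2 : |p'.2 - p.2| ≤ ε) (hp : p ∈ pr '' K) :
    p' ∈ pr '' (outer K ε) := by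
  obtain ⟨x, hx, rfl⟩ := hp
  refine ⟨pt p' (x 2), pt_mem_outer h1 h2 ?_, rfl⟩
  rw [pt_pr]; exact hx

theorem outer_subset {K : Set (Fin 3 → ℝ)} {ε : ℝ} (hε : 0 ≤ ε) :
    outer K ε ⊆ Metric.cthickening ε K := by
  rintro _ ⟨x, hx, y, ⟨h1, h2, h3⟩, rfl⟩
  refine Metric.mem_cthickening_of_dist_le (x + y) x ε K hx ?_
  rw [dist_pi_le_iff hε]
  intro i
  fin_cases i
  · simpa [Real.dist_eq] using h1
  · simpa [Real.dist_eq] using h2
  · simpa [Real.dist_eq, h3] using hε

theorem outer_two {K : Set (Fin 3 → ℝ)} {ε R : ℝ} (hR : ∀ x ∈ K, |x 2| ≤ R) :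
    ∀ x ∈ outer K ε, |x 2| ≤ R := by
  rintro _ ⟨x, hx, y, ⟨h1, h2, h3⟩, rfl⟩
  simp only [Pi.add_apply, h3, add_zero]
  exact hR x hx

theorem volume_outer {K : Set (Fin 3 → ℝ)} (hK : IsCompact K) {η : ℝ} (hη : 0 < η) :
    ∃ δ > 0, ∀ ε, 0 ≤ ε → ε < δ → volume (outer K ε) ≤ volume K + ENNReal.ofReal η := by
  have h := tendsto_measure_cthickening_of_isCompact (μ := volume) hK
  have hlt : volume K < volume K + ENNReal.ofReal η :=
    ENNReal.lt_add_right hK.measure_lt_top.ne (by simpa using hη)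
  have h2 := h.eventually_lt_const hlt
  obtain ⟨δ, hδ, h3⟩ := Metric.eventually_nhds_iff.1 h2
  refine ⟨δ, hδ, fun ε h0 h1 => ?_⟩
  have h4 := h3 (y := ε) (by rw [Real.dist_eq, sub_zero, abs_of_nonneg h0]; exact h1)
  exact (measure_mono (outer_subset h0)).trans h4.le

end Pool.Agent.Lib.MP_abca01_gt.Plane3
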