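import Pool.Agent.Lib.MP_abca01_gt.Plane3.Planar

/-!
# The first maximizer of a direction, and small cells of directions
-/

set_option autoImplicit false

open Set

namespace Pool.Agent.Lib.MP_abca01_gt.Plane3

theorem ip_uv_add (x : ℝ × ℝ) (t s : ℝ) :
    ip x (uv (t + s)) = Real.cos s * ip x (uv t) + Real.sin s * ip x (Jv t) := by
  simp only [ip, uv, Jv, Real.cos_add, Real.sin_add]; ring

theorem ip_Jv_add (x : ℝ × ℝ) (t s : ℝ) :
    ip x (Jv (t + s)) = Real.cos s * ip x (Jv t) - Real.sin s * ip x (uv t) := by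
  simp only [ip, uv, Jv, Real.cos_add, Real.sin_add]; ring

theorem decomp (x : ℝ × ℝ) (t : ℝ) : x = ip x (Jv t) • Jv t + ip x (uv t) • uv t := by
  have h := Real.sin_sq_add_cos_sq t
  ext
  · simp only [ip, uv, Jv, Prod.fst_add, Prod.smul_fst, smul_eq_mul]
    linear_combination (-x.1) * h
  · simp only [ip, uv, Jv, Prod.snd_add, Prod.smul_snd, smul_eq_mul]
    linear_combination (-x.2) * h

/-- `z` maximizes the direction `u` over `P` -/
def IsMx (P : Set (ℝ × ℝ)) (u : ℝ × ℝ) (z : ℝ × ℝ) : Prop := z ∈ P ∧ ∀ p ∈ P, ip p u ≤ ip z u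

/-- `z` is the first maximizer -/
def IsFst (P : Set (ℝ × ℝ)) (u v : ℝ × ℝ) (z : ℝ × ℝ) : Prop :=
  IsMx P u z ∧ ∀ p, IsMx P u p → ip z v ≤ ip p v

theorem continuous_ip (u : ℝ × ℝ) : Continuous (fun x => ip x u) := by unfold ip; fun_prop

theorem exists_fst {P : Set (ℝ × ℝ)} (hP : IsCompact P) (hne : P.Nonempty) (u v : ℝ × ℝ) :
    ∃ z, IsFst P u v z := by
  obtain ⟨y, hy, hy2⟩ := hP.exists_isMaxOn hne (continuous_ip u).continuousOn
  set Q : Set (ℝ × ℝ) := P ∩ {x | ip y u ≤ ip x u} with hQ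
  have hQc : IsCompact Q := hP.inter_right (isClosed_le continuous_const (continuous_ip u))
  obtain ⟨z, hz, hz2⟩ := hQc.exists_isMinOn ⟨y, hy, (show ip y u ≤ ip y u from le_rfl)⟩ (continuous_ip v).continuousOn
  have hy3 : ∀ p ∈ P, ip p u ≤ ip y u := fun p hp => isMaxOn_iff.1 hy2 p hp
  have hz3 : ∀ p ∈ Q, ip z v ≤ ip p v := fun p hp => isMinOn_iff.1 hz2 p hp
  refine ⟨z, ⟨hz.1, fun p hp => (hy3 p hp).trans hz.2⟩, fun p hp => hz3 p ⟨hp.1, ?_⟩⟩
  exact hp.2 y hy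

open Classical in
/-- the first maximizer -/
noncomputable def fst' (P : Set (ℝ × ℝ)) (u v : ℝ × ℝ) : ℝ × ℝ :=
  if h : ∃ z, IsFst P u v z then h.choose else 0

/-- the first maximizer for the angle `t` -/
noncomputable def ZZ (P : Set (ℝ × ℝ)) (t : ℝ) : ℝ × ℝ := fst' P (uv t) (Jv t)

theorem ZZ_spec {P : Set (ℝ × ℝ)} (hP : IsCompact P) (hne : P.Nonempty) (t : ℝ) :
    IsFst P (uv t) (Jv t) (ZZ P t) := by
  have h := exists_fst hP hne (uv t) (Jv t)
  unfold ZZ fst'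
  rw [dif_pos h]
  exact h.choose_spec

theorem ZZ_periodic (P : Set (ℝ × ℝ)) (t : ℝ) : ZZ P (t + 2 * Real.pi) = ZZ P t := by
  unfold ZZ uv Jv
  rw [Real.cos_add_two_pi, Real.sin_add_two_pi]

/-- the arc of the boundary with normals in `[t, t + m)` -/
def arc (P : Set (ℝ × ℝ)) (t m : ℝ) : Set (ℝ × ℝ) :=
  {p | ∃ s, 0 ≤ s ∧ s < m ∧ IsMx P (uv (t + s)) p}

section

variable {P : Set (ℝ × ℝ)} (hP : IsCompact P) (hne : P.Nonempty) {t m : ℝ}
  (hm0 : 0 < m) (hm : m < Real.pi / 2)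

include hP hne

theorem ZZ_mem (t : ℝ) : ZZ P t ∈ P := (ZZ_spec hP hne t).1.1

theorem ip_le_ZZ (t : ℝ) {p : ℝ × ℝ} (hp : p ∈ P) : ip p (uv t) ≤ ip (ZZ P t) (uv t) :=
  (ZZ_spec hP hne t).1.2 p hp

include hm0 hm

/-- the step of one cell -/
theorem cell_step :
    0 ≤ ip (ZZ P (t + m) - ZZ P t) (Jv t) ∧ 0 ≤ -ip (ZZ P (t + m) - ZZ P t) (uv t) ∧
    -ip (ZZ P (t + m) - ZZ P t) (uv t) ≤ Real.tan m * ip (ZZ P (t + m) - ZZ P t) (Jv t) := by
  set v := ZZ P (t + m) - ZZ P t with hv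
  have h1 : ip v (uv t) ≤ 0 := by
    rw [hv, ip_sub]; linarith [ip_le_ZZ hP hne t (ZZ_mem hP hne (t + m))]
  have h2 : 0 ≤ ip v (uv (t + m)) := by
    rw [hv, ip_sub]; linarith [ip_le_ZZ hP hne (t + m) (ZZ_mem hP hne t)]
  rw [ip_uv_add] at h2
  have hs : 0 < Real.sin m := Real.sin_pos_of_pos_of_lt_pi hm0 (by linarith [Real.pi_pos])
  have hc : 0 < Real.cos m := Real.cos_pos_of_mem_Ioo ⟨by linarith, hm⟩
  have h3 : 0 ≤ Real.sin m * ip v (Jv t) := by nlinarith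
  have h4 : 0 ≤ ip v (Jv t) := nonneg_of_mul_nonneg_right h3 hs
  refine ⟨h4, by linarith, ?_⟩
  rw [Real.tan_eq_sin_div_cos, div_mul_eq_mul_div, le_div_iff₀ hc]
  nlinarith

theorem arc_bounds {p : ℝ × ℝ} (hp : p ∈ arc P t m) :
    ip (ZZ P t) (Jv t) ≤ ip p (Jv t) ∧ ip p (Jv t) ≤ ip (ZZ P (t + m)) (Jv t) := by
  obtain ⟨s, hs0, hsm, hps⟩ := hp
  constructor
  · rcases hs0.eq_or_lt with h | h
    · rw [← h, add_zero] at hps
      exact (ZZ_spec hP hne t).2 p hps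
    · have h1 : ip (p - ZZ P t) (uv t) ≤ 0 := by
        rw [ip_sub]; linarith [ip_le_ZZ hP hne t hps.1]
      have h2 : 0 ≤ ip (p - ZZ P t) (uv (t + s)) := by
        rw [ip_sub]; linarith [hps.2 _ (ZZ_mem hP hne t)]
      rw [ip_uv_add] at h2
      have hs : 0 < Real.sin s := Real.sin_pos_of_pos_of_lt_pi h (by linarith [Real.pi_pos])
      have hc : 0 < Real.cos s := Real.cos_pos_of_mem_Ioo ⟨by linarith, by linarith⟩
      have h3 : 0 ≤ Real.sin s * ip (p - ZZ P t) (Jv t) := by nlinarith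
      have h4 := nonneg_of_mul_nonneg_right h3 hs
      rw [ip_sub] at h4; linarith
  · have h1 : ip (ZZ P (t + m) - p) (uv (t + s)) ≤ 0 := by
      rw [ip_sub]; linarith [hps.2 _ (ZZ_mem hP hne (t + m))]
    have h2 : 0 ≤ ip (ZZ P (t + m) - p) (uv (t + m)) := by
      rw [ip_sub]; linarith [ip_le_ZZ hP hne (t + m) hps.1]
    rw [ip_uv_add] at h1 h2
    have hc : 0 < Real.cos s := Real.cos_pos_of_mem_Ioo ⟨by linarith, by linarith⟩
    have hcm : 0 < Real.cos m := Real.cos_pos_of_mem_Ioo ⟨by linarith, hm⟩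
    have hsd : 0 < Real.sin (m - s) :=
      Real.sin_pos_of_pos_of_lt_pi (by linarith) (by linarith [Real.pi_pos])
    rw [Real.sin_sub] at hsd
    have h3 : 0 ≤ (Real.sin m * Real.cos s - Real.cos m * Real.sin s) *
        ip (ZZ P (t + m) - p) (Jv t) := by
      nlinarith [mul_le_mul_of_nonneg_left h1 hcm.le, mul_le_mul_of_nonneg_left h2 hc.le]
    have h4 := nonneg_of_mul_nonneg_right h3 hsd
    rw [ip_sub] at h4; linarith

omit hP hne in
/-- the arc is a Lipschitz graph -/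
theorem arc_lip {p p' : ℝ × ℝ} (hp : p ∈ arc P t m) (hp' : p' ∈ arc P t m) :
    |ip (p' - p) (uv t)| ≤ Real.tan m * |ip (p' - p) (Jv t)| := by
  obtain ⟨s, hs0, hsm, hps⟩ := hp
  obtain ⟨s', hs0', hsm', hps'⟩ := hp'
  have h1 : ip (p' - p) (uv (t + s)) ≤ 0 := by
    rw [ip_sub]; linarith [hps.2 _ hps'.1]
  have h2 : 0 ≤ ip (p' - p) (uv (t + s')) := by
    rw [ip_sub]; linarith [hps'.2 _ hps.1]
  rw [ip_uv_add] at h1 h2
  set A := ip (p' - p) (uv t)
  set B := ip (p' - p) (Jv t)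
  have hc : 0 < Real.cos s := Real.cos_pos_of_mem_Ioo ⟨by linarith, by linarith⟩
  have hc' : 0 < Real.cos s' := Real.cos_pos_of_mem_Ioo ⟨by linarith, by linarith⟩
  have g1 : A ≤ -(Real.tan s * B) := by
    rw [Real.tan_eq_sin_div_cos, div_mul_eq_mul_div, ← neg_div, le_div_iff₀ hc]
    linarith
  have g2 : -(Real.tan s' * B) ≤ A := by
    rw [Real.tan_eq_sin_div_cos, div_mul_eq_mul_div, ← neg_div, div_le_iff₀ hc']
    linarith
  have t1 : 0 ≤ Real.tan s := Real.tan_nonneg_of_nonneg_of_le_pi_div_two hs0 (by linarith)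
  have t1' : 0 ≤ Real.tan s' := Real.tan_nonneg_of_nonneg_of_le_pi_div_two hs0' (by linarith)
  have t2 : Real.tan s < Real.tan m :=
    Real.tan_lt_tan_of_lt_of_lt_pi_div_two (by linarith) hm hsm
  have t2' : Real.tan s' < Real.tan m :=
    Real.tan_lt_tan_of_lt_of_lt_pi_div_two (by linarith) hm hsm'
  rcases le_total 0 B with hB | hB
  · rw [abs_of_nonneg hB, abs_le]
    constructor <;> nlinarith
  · rw [abs_of_nonpos hB, abs_le]
    constructor <;> nlinarith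

end

/-- coordinates are bounded -/
theorem abs_ip_uv_le {x : ℝ × ℝ} {R : ℝ} (h1 : |x.1| ≤ R) (h2 : |x.2| ≤ R) (t : ℝ) :
    |ip x (uv t)| ≤ 2 * R := by
  have hc := Real.abs_cos_le_one t
  have hs := Real.abs_sin_le_one t
  calc |ip x (uv t)| ≤ |x.1 * Real.cos t| + |x.2 * Real.sin t| := abs_add_le _ _
    _ = |x.1| * |Real.cos t| + |x.2| * |Real.sin t| := by rw [abs_mul, abs_mul]
    _ ≤ R * 1 + R * 1 := add_le_add (mul_le_mul h1 hc (abs_nonneg _) ((abs_nonneg _).trans h1))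
        (mul_le_mul h2 hs (abs_nonneg _) ((abs_nonneg _).trans h2))
    _ = 2 * R := by ring

theorem abs_ip_Jv_le {x : ℝ × ℝ} {R : ℝ} (h1 : |x.1| ≤ R) (h2 : |x.2| ≤ R) (t : ℝ) :
    |ip x (Jv t)| ≤ 2 * R := by
  have hc := Real.abs_cos_le_one t
  have hs := Real.abs_sin_le_one t
  calc |ip x (Jv t)| ≤ |x.1 * (-Real.sin t)| + |x.2 * Real.cos t| := abs_add_le _ _
    _ = |x.1| * |Real.sin t| + |x.2| * |Real.cos t| := by rw [abs_mul, abs_mul, abs_neg]
    _ ≤ R * 1 + R * 1 := add_le_add (mul_le_mul h1 hs (abs_nonneg _) ((abs_nonneg _).trans h1))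
        (mul_le_mul h2 hc (abs_nonneg _) ((abs_nonneg _).trans h2))
    _ = 2 * R := by ring

theorem ip_Jv_shift {x : ℝ × ℝ} {R : ℝ} (h1 : |x.1| ≤ R) (h2 : |x.2| ≤ R) (t m : ℝ) (hm : 0 ≤ m) :
    ip x (Jv t) ≤ ip x (Jv (t + m)) + 2 * R * m := by
  have hs : |Real.sin (t + m) - Real.sin t| ≤ m := by
    have := Real.lipschitzWith_sin.dist_le_mul (t + m) t
    simpa [Real.dist_eq, abs_of_nonneg hm] using this
  have hc : |Real.cos (t + m) - Real.cos t| ≤ m := by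
    have := Real.lipschitzWith_cos.dist_le_mul (t + m) t
    simpa [Real.dist_eq, abs_of_nonneg hm] using this
  have e : ip x (Jv t) - ip x (Jv (t + m)) = x.1 * (Real.sin (t + m) - Real.sin t) -
      x.2 * (Real.cos (t + m) - Real.cos t) := by
    simp only [ip, Jv]; ring
  have h3 : |x.1 * (Real.sin (t + m) - Real.sin t)| ≤ R * m := by
    rw [abs_mul]; exact mul_le_mul h1 hs (abs_nonneg _) ((abs_nonneg _).trans h1)
  have h4 : |x.2 * (Real.cos (t + m) - Real.cos t)| ≤ R * m := by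
    rw [abs_mul]; exact mul_le_mul h2 hc (abs_nonneg _) ((abs_nonneg _).trans h2)
  have h5 := (abs_le.1 h3).2
  have h6 := (abs_le.1 h4).1
  linarith

end Pool.Agent.Lib.MP_abca01_gt.Plane3
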