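import Pool.Agent.Lib.MP_abca01_gt.Sym.SNec

/-!
# Fibres of constant volume, without symmetry
-/

set_option autoImplicit false

open MeasureTheory Set Metric Filter Topology
open scoped RealInnerProductSpace Pointwise ENNReal NNReal

namespace Pool.Agent.Lib.MP_abca01_gt.Plane3

open Sym Ess Variationaux Energyaux Borelaux Capaux

variable {E : Type} [NormedAddCommGroup E] [InnerProductSpace ℝ E] [FiniteDimensional ℝ E]
  [MeasurableSpace E] [BorelSpace E]

/-- The fibres are translates. -/
theorem fb_translate_free {L : Submodule ℝ E} {K : Set E} (hK : IsCompact K)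
    (hKc : Convex ℝ K) {a0 : L} (h0 : a0 ∈ PI L K)
    (hconst : ∀ a ∈ PI L K, fv L K a = fv L K a0) {a : L} (ha : a ∈ PI L K) :
    ∃ e : Lᗮ, ∀ b, b ∈ fb L K a ↔ b - e ∈ fb L K a0 := by
  have hX := isCompact_fb L hK a0
  have hY := isCompact_fb L hK a
  apply eq_translate hX (convex_fb hKc a0) hY (convex_fb hKc a)
  · exact ENNReal.toReal_pos (fv_pos h0).ne' (fv_lt_top L hK a0).ne
  · rw [measureReal_def, measureReal_def]
    congr 1
    exact hconst a ha
  · rw [measureReal_def, measureReal_def]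
    apply ENNReal.toReal_mono (fv_lt_top L hK a0).ne
    have h1 := fb_combo hKc (show (0 : ℝ) ≤ 1 / 2 by norm_num) (show (0 : ℝ) ≤ 1 / 2 by norm_num)
      (by norm_num) a0 a
    have h2 : (1 / 2 : ℝ) • a0 + (1 / 2 : ℝ) • a ∈ PI L K :=
      convex_PI L hKc h0 ha (by norm_num) (by norm_num) (by norm_num)
    exact (measure_mono h1).trans (hconst _ h2).le

/-- The normals over the interior of the projection lie in a complement of `L`. -/
theorem exists_compl_free {L : Submodule ℝ E} {K : Set E} (hK : IsCompact K)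
    (hKc : Convex ℝ K) {a0 : L} (h0 : a0 ∈ PI L K)
    (hconst : ∀ a ∈ PI L K, fv L K a = fv L K a0) :
    ∃ L' : Submodule ℝ E, IsCompl L L' ∧ ∀ x ∈ K, pj L x ∈ PI L K → ∀ u : E,
      (∀ y ∈ K, ⟪y, u⟫ ≤ ⟪x, u⟫) → u ∈ L' := by
  have hex : ∀ a : L, ∃ e : Lᗮ, a ∈ PI L K → ∀ b, b ∈ fb L K a ↔ b - e ∈ fb L K a0 := by
    intro a
    by_cases ha : a ∈ PI L K
    · obtain ⟨e, he⟩ := fb_translate_free hK hKc h0 hconst ha
      exact ⟨e, fun _ => he⟩
    · exact ⟨0, fun h => absurd h ha⟩
  choose e he using hex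
  have hX := isCompact_fb L hK a0
  have hXne : (fb L K a0).Nonempty := by
    by_contra hcon
    rw [not_nonempty_iff_eq_empty] at hcon
    have h1 := fv_pos h0
    unfold fv at h1
    rw [hcon, measure_empty] at h1
    exact lt_irrefl _ h1
  -- the translation is affine
  have haff : ∀ a ∈ PI L K, ∀ a' ∈ PI L K, ∀ s t : ℝ, 0 ≤ s → 0 ≤ t → s + t = 1 →
      e (s • a + t • a') = s • e a + t • e a' := by
    intro a ha a' ha' s t hs ht hst
    have ha'' : s • a + t • a' ∈ PI L K := convex_PI L hKc ha ha' hs ht hst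
    have h1 : s • e a + t • e a' - e (s • a + t • a') = 0 := by
      apply translate_zero hX hXne
      intro x hx
      have h2 : x + e a ∈ fb L K a := by
        rw [he a ha, add_sub_cancel_right]
        exact hx
      have h3 : x + e a' ∈ fb L K a' := by
        rw [he a' ha', add_sub_cancel_right]
        exact hx
      have h4 := fb_combo hKc hs ht hst a a' ⟨s • (x + e a), ⟨_, h2, rfl⟩, t • (x + e a'),
        ⟨_, h3, rfl⟩, rfl⟩
      rw [he _ ha''] at h4
      have h5 : x + (s • e a + t • e a' - e (s • a + t • a')) =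
          s • (x + e a) + t • (x + e a') - e (s • a + t • a') := by
        have h6 : x = s • x + t • x := by
          rw [← add_smul, hst, one_smul]
        rw [smul_add, smul_add]
        conv_lhs => rw [h6]
        abel
      rw [h5]
      exact h4
    exact (sub_eq_zero.1 h1).symm
  have he0 : e a0 = 0 := by
    have h1 : -e a0 = 0 := by
      apply translate_zero hX hXne
      intro x hx
      have h2 := (he a0 h0 x).1 hx
      rwa [sub_eq_add_neg] at h2
    exact neg_eq_zero.1 h1
  -- the subspace of the normals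
  let M : Submodule ℝ E :=
    { carrier := {u | ∀ a ∈ PI L K, ⟪(a : E) + (e a : E) - (a0 : E), u⟫ = 0}
      add_mem' := by
        intro u w hu hw a ha
        rw [inner_add_right, hu a ha, hw a ha, add_zero]
      zero_mem' := by
        intro a _
        exact inner_zero_right _
      smul_mem' := by
        intro c u hu a ha
        rw [real_inner_smul_right, hu a ha, mul_zero] }
  have hLM : Disjoint L M := by
    rw [Submodule.disjoint_def]
    intro u hu hu'
    obtain ⟨ε, hε, hball⟩ := Metric.isOpen_iff.1 (isOpen_PI L K) a0 h0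
    by_contra hne
    have hun : 0 < ‖u‖ := norm_pos_iff.2 hne
    set a : L := a0 + (ε / (2 * ‖u‖)) • (⟨u, hu⟩ : L) with ha
    have haP : a ∈ PI L K := by
      apply hball
      rw [mem_ball, dist_eq_norm, ha, add_sub_cancel_left, norm_smul, Real.norm_eq_abs,
        abs_of_pos (by positivity)]
      have h1 : ‖(⟨u, hu⟩ : L)‖ = ‖u‖ := rfl
      rw [h1]
      have h2 : ε / (2 * ‖u‖) * ‖u‖ = ε / 2 := by
        field_simp
      rw [h2]
      linarith
    have h1 : ⟪(a : E) + (e a : E) - (a0 : E), u⟫ = 0 := hu' a haP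
    have h1' : (a : E) + (e a : E) - (a0 : E) = (ε / (2 * ‖u‖)) • u + (e a : E) := by
      rw [ha, Submodule.coe_add, Submodule.coe_smul]
      abel
    rw [h1', inner_add_left, Submodule.inner_left_of_mem_orthogonal hu (e a).2, add_zero,
      real_inner_smul_left, real_inner_self_eq_norm_sq u] at h1
    have h3 : 0 < ε / (2 * ‖u‖) * ‖u‖ ^ 2 := by positivity
    linarith
  obtain ⟨C, hC⟩ := Submodule.exists_isCompl (L ⊔ M)
  refine ⟨M ⊔ C, hLM.isCompl_sup_right_of_isCompl_sup_left hC, ?_⟩
  intro x hx ha u hu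
  apply Submodule.mem_sup_left
  set a : L := pj L x with had
  set b : Lᗮ := pj Lᗮ x with hbd
  have hab : (a : E) + (b : E) = x := pj_pj L x
  -- the affine function is nonpositive
  have hle : ∀ a' ∈ PI L K, ⟪((a' : E) + (e a' : E)) - ((a : E) + (e a : E)), u⟫ ≤ 0 := by
    intro a' ha'
    have h1 : b - e a ∈ fb L K a0 := (he a ha b).1 (mem_fb hx)
    have h2 : b - e a + e a' ∈ fb L K a' := by
      rw [he a' ha', add_sub_cancel_right]
      exact h1
    have h3 := hu _ h2
    rw [← hab] at h3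
    have h4 : (a' : E) + ((b - e a + e a' : Lᗮ) : E) =
        (a : E) + (b : E) + (((a' : E) + (e a' : E)) - ((a : E) + (e a : E))) := by
      rw [Submodule.coe_add, Submodule.coe_sub]
      abel
    rw [h4, inner_add_left] at h3
    linarith
  have hzero : ∀ a' ∈ PI L K, ⟪((a' : E) + (e a' : E)) - ((a : E) + (e a : E)), u⟫ = 0 := by
    intro a' ha'
    apply le_antisymm (hle a' ha')
    obtain ⟨ε, hε, hball⟩ := Metric.isOpen_iff.1 (isOpen_PI L K) a ha
    set δ : ℝ := ε / (2 * (‖a' - a‖ + 1)) with hδ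
    have hn : 0 ≤ ‖a' - a‖ := norm_nonneg _
    have hδ0 : 0 < δ := by positivity
    have ha2 : a - δ • (a' - a) ∈ PI L K := by
      apply hball
      rw [mem_ball, dist_eq_norm]
      have h1 : a - δ • (a' - a) - a = -(δ • (a' - a)) := by abel
      rw [h1, norm_neg, norm_smul, Real.norm_eq_abs, abs_of_pos hδ0]
      have h2 : δ * ‖a' - a‖ ≤ ε / 2 := by
        rw [hδ, div_mul_eq_mul_div, div_le_iff₀ (by positivity)]
        nlinarith
      linarith
    have h1 := hle _ ha2
    set a2 : L := a - δ • (a' - a) with ha2d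
    have h2 : (1 / (1 + δ)) • a2 + (δ / (1 + δ)) • a' = a := by
      have h3 : (1 + δ) ≠ 0 := by positivity
      have h4 : (1 + δ) • ((1 / (1 + δ)) • a2 + (δ / (1 + δ)) • a') = (1 + δ) • a := by
        rw [smul_add, smul_smul, smul_smul, mul_one_div_cancel h3, mul_div_cancel₀ _ h3, ha2d]
        module
      exact smul_right_injective _ h3 h4
    have h3 := haff a2 ha2 a' ha' (1 / (1 + δ)) (δ / (1 + δ)) (by positivity) (by positivity)
      (by field_simp)
    rw [h2] at h3
    have h4 : (a : E) = (1 / (1 + δ)) • (a2 : E) + (δ / (1 + δ)) • (a' : E) := by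
      have h5 := congr_arg (fun z : L => (z : E)) h2
      simp only [Submodule.coe_add, Submodule.coe_smul] at h5
      exact h5.symm
    have h5 : (e a : E) = (1 / (1 + δ)) • (e a2 : E) + (δ / (1 + δ)) • (e a' : E) := by
      have h6 := congr_arg (fun z : Lᗮ => (z : E)) h3
      simp only [Submodule.coe_add, Submodule.coe_smul] at h6
      exact h6
    set p : E := (a : E) + (e a : E) with hp
    set p2 : E := (a2 : E) + (e a2 : E) with hp2
    set p' : E := (a' : E) + (e a' : E) with hp'
    have h6 : p = (1 / (1 + δ)) • p2 + (δ / (1 + δ)) • p' := by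
      rw [hp, h4, h5, hp2, hp', smul_add, smul_add]
      abel
    have h7 : ⟪p, u⟫ = (1 / (1 + δ)) * ⟪p2, u⟫ + (δ / (1 + δ)) * ⟪p', u⟫ := by
      rw [h6, inner_add_left, real_inner_smul_left, real_inner_smul_left]
    rw [inner_sub_left] at h1 ⊢
    have h8 : (1 + δ) * ⟪p, u⟫ = ⟪p2, u⟫ + δ * ⟪p', u⟫ := by
      rw [h7]
      field_simp
    have h9 : δ * (⟪p', u⟫ - ⟪p, u⟫) ≥ 0 := by nlinarith
    have h10 := (mul_nonneg_iff_of_pos_left hδ0).1 h9
    exact h10
  intro a' ha'
  have h1 := hzero a' ha'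
  have h2 := hzero a0 h0
  rw [he0] at h2
  have h3 : (a' : E) + (e a' : E) - (a0 : E) = ((a' : E) + (e a' : E) - ((a : E) + (e a : E))) -
      ((a0 : E) + ((0 : Lᗮ) : E) - ((a : E) + (e a : E))) := by
    rw [Submodule.coe_zero]
    abel
  rw [h3, inner_sub_left, h1, h2, sub_zero]

/-- If the volume of the fibres is constant, then the cone volume measure lives on `L` and a
complement. -/
theorem null_of_const {L : Submodule ℝ E} {K : Set E} (hK : IsCompact K)
    (hKc : Convex ℝ K) (hKi : (interior K).Nonempty) (hK0 : (0 : E) ∈ K) {c : ℝ≥0∞}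
    (hconst : ∀ a ∈ PI L K, fv L K a = c) :
    ∃ L' : Submodule ℝ E, IsCompl L L' ∧
      volume (segs K (((L : Set E) ∪ L')ᶜ ∩ sphere 0 1)) = 0 := by
  obtain ⟨x0, hx0⟩ := hKi
  have h0 : pj L x0 ∈ PI L K := ⟨x0, hx0, rfl⟩
  obtain ⟨L', hc, hnorm⟩ := exists_compl_free hK hKc h0
    (fun a ha => (hconst a ha).trans (hconst _ h0).symm)
  refine ⟨L', hc, ?_⟩
  set ω : Set E := ((L : Set E) ∪ L')ᶜ ∩ sphere 0 1 with hω
  have hdisj : Disjoint ω (sL L) := by
    rw [Set.disjoint_left]
    rintro u ⟨hu, -⟩ ⟨hu', -⟩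
    exact hu (Or.inl hu')
  refine measure_mono_null ?_ (stmtOverlap E volume K ω (sL L) hK hKc hK0 inter_subset_right
    inter_subset_right hdisj)
  intro x hx
  refine ⟨hx, ?_⟩
  obtain ⟨u, hu, y, hy, hmax, s, hs, rfl⟩ := hx
  have h2 : pj L y ∉ PI L K := by
    intro hmem
    exact hu.1 (Or.inr (hnorm y hy hmem u hmax))
  obtain ⟨w, hw, hwmax⟩ := exists_normal hKc ⟨x0, hx0⟩ h2
  exact ⟨w, hw, y, hy, hwmax, s, hs, rfl⟩

end Pool.Agent.Lib.MP_abca01_gt.Plane3
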