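import Pool.Agent.Lib.MP_abca01_gt.Plane3.Fibre
import Pool.Agent.Lib.MP_abca01_gt.Plane3.First

/-!
# The volume of the cone over a vertical wall above a Lipschitz graph
-/

set_option autoImplicit false

open MeasureTheory Set
open scoped ENNReal NNReal

namespace Pool.Agent.Lib.MP_abca01_gt.Plane3

/-- the graph curve -/
noncomputable def gam (g : ℝ → ℝ) (t x : ℝ) : ℝ × ℝ := x • Jv t + g x • uv t

/-- the cone map -/
noncomputable def GG (g : ℝ → ℝ) (t : ℝ) (x : Fin 3 → ℝ) : Fin 3 → ℝ :=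
  x 0 • pt (gam g t (x 1)) (x 2)

/-- the parameter domain -/
def DD (g : ℝ → ℝ) (t : ℝ) (K : Set (Fin 3 → ℝ)) (a b : ℝ) : Set (Fin 3 → ℝ) :=
  {x | x 0 ∈ Icc (0:ℝ) 1 ∧ x 1 ∈ Icc a b ∧ pt (gam g t (x 1)) (x 2) ∈ K}

theorem gam_fst (g : ℝ → ℝ) (t x : ℝ) :
    (gam g t x).1 = x * (-Real.sin t) + g x * Real.cos t := by
  simp [gam, Jv, uv]

theorem gam_snd (g : ℝ → ℝ) (t x : ℝ) :
    (gam g t x).2 = x * Real.cos t + g x * Real.sin t := by
  simp [gam, Jv, uv]

theorem GG_zero (g : ℝ → ℝ) (t : ℝ) (x : Fin 3 → ℝ) : GG g t x 0 = x 0 * (gam g t (x 1)).1 := rfl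

theorem GG_one (g : ℝ → ℝ) (t : ℝ) (x : Fin 3 → ℝ) : GG g t x 1 = x 0 * (gam g t (x 1)).2 := rfl

theorem GG_two (g : ℝ → ℝ) (t : ℝ) (x : Fin 3 → ℝ) : GG g t x 2 = x 0 * x 2 := rfl

theorem continuous_gam {g : ℝ → ℝ} (hg : Continuous g) (t : ℝ) : Continuous (gam g t) := by
  unfold gam; fun_prop

theorem continuous_ptgam {g : ℝ → ℝ} (hg : Continuous g) (t : ℝ) :
    Continuous (fun x : Fin 3 → ℝ => pt (gam g t (x 1)) (x 2)) := by
  have h := (continuous_gam hg t).comp (continuous_apply (1 : Fin 3) (A := fun _ => ℝ))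
  refine continuous_pi fun i => ?_
  fin_cases i
  · exact continuous_fst.comp h
  · exact continuous_snd.comp h
  · exact continuous_apply 2

theorem isClosed_DD {g : ℝ → ℝ} (hg : Continuous g) (t : ℝ) {K : Set (Fin 3 → ℝ)}
    (hK : IsCompact K) (a b : ℝ) : IsClosed (DD g t K a b) := by
  have h1 : IsClosed {x : Fin 3 → ℝ | x 0 ∈ Icc (0:ℝ) 1} :=
    isClosed_Icc.preimage (continuous_apply 0)
  have h2 : IsClosed {x : Fin 3 → ℝ | x 1 ∈ Icc a b} :=
    isClosed_Icc.preimage (continuous_apply 1)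
  have h3 : IsClosed {x : Fin 3 → ℝ | pt (gam g t (x 1)) (x 2) ∈ K} :=
    hK.isClosed.preimage (continuous_ptgam hg t)
  exact h1.inter (h2.inter h3)

/-- the derivative matrix -/
noncomputable def AA (g : ℝ → ℝ) (t g' : ℝ) (x : Fin 3 → ℝ) : Matrix (Fin 3) (Fin 3) ℝ :=
  !![x 1 * (-Real.sin t) + g (x 1) * Real.cos t, x 0 * (-Real.sin t + g' * Real.cos t), 0;
     x 1 * Real.cos t + g (x 1) * Real.sin t, x 0 * (Real.cos t + g' * Real.sin t), 0;
     x 2, 0, x 0]

theorem det_AA (g : ℝ → ℝ) (t g' : ℝ) (x : Fin 3 → ℝ) :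
    (AA g t g' x).det = x 0 ^ 2 * -(g (x 1) - x 1 * g') * (-1) := by
  have h := Real.sin_sq_add_cos_sq t
  rw [Matrix.det_fin_three]
  simp only [AA, Matrix.of_apply, Matrix.cons_val', Matrix.cons_val_zero, Matrix.cons_val_one,
    Matrix.cons_val_fin_one, Matrix.cons_val]
  linear_combination (x 0 ^ 2 * (g (x 1) - x 1 * g')) * h

/-- the derivative -/
noncomputable def dGG (g : ℝ → ℝ) (t g' : ℝ) (x : Fin 3 → ℝ) : (Fin 3 → ℝ) →L[ℝ] (Fin 3 → ℝ) :=
  (Matrix.toLin' (AA g t g' x)).toContinuousLinearMap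

theorem det_dGG (g : ℝ → ℝ) (t g' : ℝ) (x : Fin 3 → ℝ) :
    (dGG g t g' x).det = x 0 ^ 2 * (g (x 1) - x 1 * g') := by
  unfold dGG
  rw [LinearMap.det_toContinuousLinearMap, LinearMap.det_toLin', det_AA]
  ring

theorem hasFDerivAt_GG (g : ℝ → ℝ) (t g' : ℝ) (x : Fin 3 → ℝ) (hg : HasDerivAt g g' (x 1)) :
    HasFDerivAt (GG g t) (dGG g t g' x) x := by
  have h0 : HasFDerivAt (fun x : Fin 3 → ℝ => x 0)
      (ContinuousLinearMap.proj (R := ℝ) (φ := fun _ : Fin 3 => ℝ) 0) x := hasFDerivAt_apply 0 x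
  have h1 : HasFDerivAt (fun x : Fin 3 → ℝ => x 1)
      (ContinuousLinearMap.proj (R := ℝ) (φ := fun _ : Fin 3 => ℝ) 1) x := hasFDerivAt_apply 1 x
  have h2 : HasFDerivAt (fun x : Fin 3 → ℝ => x 2)
      (ContinuousLinearMap.proj (R := ℝ) (φ := fun _ : Fin 3 => ℝ) 2) x := hasFDerivAt_apply 2 x
  have hg1 : HasFDerivAt (fun x : Fin 3 → ℝ => g (x 1))
      (g' • ContinuousLinearMap.proj (R := ℝ) (φ := fun _ : Fin 3 => ℝ) 1) x :=
    hg.comp_hasFDerivAt x h1
  rw [hasFDerivAt_pi']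
  intro i
  fin_cases i
  · have h := h0.mul ((h1.mul_const (-Real.sin t)).add (hg1.mul_const (Real.cos t)))
    have e : (fun x : Fin 3 → ℝ => GG g t x 0) =
        fun x => x 0 * (x 1 * (-Real.sin t) + g (x 1) * Real.cos t) := by
      funext x; rw [GG_zero, gam_fst]
    simp only [Fin.zero_eta]
    rw [e]
    refine h.congr_fderiv ?_
    ext j
    simp [dGG, AA, Matrix.toLin'_apply, dotProduct, Fin.sum_univ_three]
    ring
  · have h := h0.mul ((h1.mul_const (Real.cos t)).add (hg1.mul_const (Real.sin t)))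
    have e : (fun x : Fin 3 → ℝ => GG g t x 1) =
        fun x => x 0 * (x 1 * Real.cos t + g (x 1) * Real.sin t) := by
      funext x; rw [GG_one, gam_snd]
    simp only [Fin.mk_one]
    rw [e]
    refine h.congr_fderiv ?_
    ext j
    simp [dGG, AA, Matrix.toLin'_apply, dotProduct, Fin.sum_univ_three]
    ring
  · have h := h0.mul h2
    have e : (fun x : Fin 3 → ℝ => GG g t x 2) = fun x => x 0 * x 2 := by
      funext x; rw [GG_two]
    simp only [Fin.reduceFinMk]
    rw [e]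
    refine h.congr_fderiv ?_
    ext j
    simp [dGG, AA, Matrix.toLin'_apply, dotProduct, Fin.sum_univ_three]
    ring

theorem lip_gam {g : ℝ → ℝ} {C : ℝ≥0} (hg : LipschitzWith C g) (t x y : ℝ) :
    |(gam g t x).1 - (gam g t y).1| ≤ (1 + C) * |x - y| ∧
    |(gam g t x).2 - (gam g t y).2| ≤ (1 + C) * |x - y| := by
  have hgl : |g x - g y| ≤ C * |x - y| := by
    have := hg.dist_le_mul x y
    simpa [Real.dist_eq] using this
  have hc := Real.abs_cos_le_one t
  have hs := Real.abs_sin_le_one t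
  constructor
  · rw [gam_fst, gam_fst]
    have e : x * (-Real.sin t) + g x * Real.cos t - (y * (-Real.sin t) + g y * Real.cos t) =
      (x - y) * (-Real.sin t) + (g x - g y) * Real.cos t := by ring
    rw [e]
    calc |(x - y) * (-Real.sin t) + (g x - g y) * Real.cos t|
        ≤ |(x - y) * (-Real.sin t)| + |(g x - g y) * Real.cos t| := abs_add_le _ _
      _ = |x - y| * |Real.sin t| + |g x - g y| * |Real.cos t| := by rw [abs_mul, abs_mul, abs_neg]
      _ ≤ |x - y| * 1 + C * |x - y| * 1 := add_le_add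
          (mul_le_mul_of_nonneg_left hs (abs_nonneg _))
          (mul_le_mul hgl hc (abs_nonneg _) (by positivity))
      _ = (1 + C) * |x - y| := by ring
  · rw [gam_snd, gam_snd]
    have e : x * Real.cos t + g x * Real.sin t - (y * Real.cos t + g y * Real.sin t) =
      (x - y) * Real.cos t + (g x - g y) * Real.sin t := by ring
    rw [e]
    calc |(x - y) * Real.cos t + (g x - g y) * Real.sin t|
        ≤ |(x - y) * Real.cos t| + |(g x - g y) * Real.sin t| := abs_add_le _ _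
      _ = |x - y| * |Real.cos t| + |g x - g y| * |Real.sin t| := by rw [abs_mul, abs_mul]
      _ ≤ |x - y| * 1 + C * |x - y| * 1 := add_le_add
          (mul_le_mul_of_nonneg_left hc (abs_nonneg _))
          (mul_le_mul hgl hs (abs_nonneg _) (by positivity))
      _ = (1 + C) * |x - y| := by ring

theorem lip_GG {g : ℝ → ℝ} {C : ℝ≥0} (hg : LipschitzWith C g) (t : ℝ) {K : Set (Fin 3 → ℝ)}
    {B : ℝ≥0} (hB : ∀ x ∈ K, ∀ i, |x i| ≤ B) (a b : ℝ) :
    LipschitzOnWith (1 + C + B) (GG g t) (DD g t K a b) := by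
  refine LipschitzOnWith.of_dist_le_mul fun x hx y hy => ?_
  obtain ⟨hx0, hx1, hx2⟩ := hx
  obtain ⟨hy0, hy1, hy2⟩ := hy
  have hax : |x 0| ≤ 1 := by rw [abs_of_nonneg hx0.1]; exact hx0.2
  have d : ∀ i, |x i - y i| ≤ dist x y := fun i => by
    rw [← Real.dist_eq]; exact dist_le_pi_dist x y i
  have hd : 0 ≤ dist x y := dist_nonneg
  have key : ∀ u v : ℝ, |u - v| ≤ (1 + C) * dist x y → |v| ≤ B →
      |x 0 * u - y 0 * v| ≤ ((1 + C + B : ℝ≥0) : ℝ) * dist x y := by
    intro u v h1 h2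
    have e : x 0 * u - y 0 * v = x 0 * (u - v) + (x 0 - y 0) * v := by ring
    rw [e]
    calc |x 0 * (u - v) + (x 0 - y 0) * v| ≤ |x 0 * (u - v)| + |(x 0 - y 0) * v| := abs_add_le _ _
      _ = |x 0| * |u - v| + |x 0 - y 0| * |v| := by rw [abs_mul, abs_mul]
      _ ≤ 1 * ((1 + C) * dist x y) + dist x y * B := add_le_add
          (mul_le_mul hax h1 (abs_nonneg _) zero_le_one)
          (mul_le_mul (d 0) h2 (abs_nonneg _) hd)
      _ = ((1 + C + B : ℝ≥0) : ℝ) * dist x y := by push_cast; ring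
  have hl := lip_gam hg t (x 1) (y 1)
  have hC : (0:ℝ) ≤ 1 + C := by positivity
  rw [dist_pi_le_iff (by positivity)]
  intro i
  rw [Real.dist_eq]
  fin_cases i
  · simp only [Fin.zero_eta, GG_zero]
    exact key _ _ (hl.1.trans (mul_le_mul_of_nonneg_left (d 1) hC)) (hB _ hy2 0)
  · simp only [Fin.mk_one, GG_one]
    exact key _ _ (hl.2.trans (mul_le_mul_of_nonneg_left (d 1) hC)) (hB _ hy2 1)
  · simp only [Fin.reduceFinMk, GG_two]
    refine key _ _ ?_ (hB _ hy2 2)
    have h1 : (0:ℝ) ≤ C := C.2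
    nlinarith [d 2]

/-- The integral over the parameter domain. -/
theorem lintegral_DD {g : ℝ → ℝ} (hg : Continuous g) (t : ℝ) {K : Set (Fin 3 → ℝ)}
    (hK : IsCompact K) (a b H : ℝ) (hH : 0 ≤ H) :
    ∫⁻ x in DD g t K a b, ENNReal.ofReal (x 0 ^ 2 * H) =
      ENNReal.ofReal (H / 3) * ∫⁻ x in Icc a b, fib K (gam g t x) := by
  set D2 : Set (ℝ × (ℝ × ℝ)) :=
    {z | z.2.1 ∈ Icc (0:ℝ) 1 ∧ z.2.2 ∈ Icc a b ∧ pt (gam g t z.2.2) z.1 ∈ K} with hD2
  have hpre : ee ⁻¹' D2 = DD g t K a b := rfl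
  have hmD2 : MeasurableSet D2 := by
    have h1 : Measurable (fun z : ℝ × (ℝ × ℝ) => z.2.1) := by fun_prop
    have h2 : Measurable (fun z : ℝ × (ℝ × ℝ) => z.2.2) := by fun_prop
    have hgm : Measurable g := hg.measurable
    have h3 : Measurable (fun z : ℝ × (ℝ × ℝ) => pt (gam g t z.2.2) z.1) := by
      have h4 : Measurable (fun z : ℝ × (ℝ × ℝ) => gam g t z.2.2) :=
        (continuous_gam hg t).measurable.comp h2
      refine measurable_pi_lambda _ fun i => ?_
      fin_cases i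
      · exact h4.fst
      · exact h4.snd
      · exact measurable_fst
    exact (h1 measurableSet_Icc).inter ((h2 measurableSet_Icc).inter (h3 hK.measurableSet))
  have e1 : ∫⁻ x in DD g t K a b, ENNReal.ofReal (x 0 ^ 2 * H) =
      ∫⁻ z in D2, ENNReal.ofReal (z.2.1 ^ 2 * H) := by
    rw [← measurePreserving_ee.setLIntegral_comp_preimage_emb measurableEmbedding_ee, hpre]
    rfl
  have hfm : Measurable (fun x => fib K (gam g t x)) :=
    (measurable_fib K hK.measurableSet).comp (continuous_gam hg t).measurable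
  rw [e1, ← lintegral_indicator hmD2, Measure.volume_eq_prod, lintegral_prod_symm]
  · have e2 : ∀ y : ℝ × ℝ, ∫⁻ x : ℝ, D2.indicator (fun z => ENNReal.ofReal (z.2.1 ^ 2 * H)) (x, y) =
        ((Icc (0:ℝ) 1) ×ˢ (Icc a b)).indicator
          (fun y => ENNReal.ofReal (y.1 ^ 2 * H) * fib K (gam g t y.2)) y := by
      intro y
      by_cases hy : y ∈ (Icc (0:ℝ) 1) ×ˢ (Icc a b)
      · rw [Set.indicator_of_mem hy]
        have e3 : ∀ x : ℝ, D2.indicator (fun z => ENNReal.ofReal (z.2.1 ^ 2 * H)) (x, y) =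
            {τ | pt (gam g t y.2) τ ∈ K}.indicator (fun _ => ENNReal.ofReal (y.1 ^ 2 * H)) x := by
          intro x
          by_cases hx : pt (gam g t y.2) x ∈ K
          · rw [Set.indicator_of_mem (show (x, y) ∈ D2 from ⟨hy.1, hy.2, hx⟩),
              Set.indicator_of_mem (show x ∈ {τ | pt (gam g t y.2) τ ∈ K} from hx)]
          · rw [Set.indicator_of_notMem (show (x, y) ∉ D2 from fun h => hx h.2.2),
              Set.indicator_of_notMem (show x ∉ {τ | pt (gam g t y.2) τ ∈ K} from hx)]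
        simp only [e3]
        rw [lintegral_indicator_const (isCompact_fibre hK _).measurableSet]
        rfl
      · rw [Set.indicator_of_notMem hy]
        have e3 : ∀ x : ℝ, D2.indicator (fun z => ENNReal.ofReal (z.2.1 ^ 2 * H)) (x, y) = 0 := by
          intro x
          exact Set.indicator_of_notMem (show (x, y) ∉ D2 from fun h => hy ⟨h.1, h.2.1⟩) _
        simp only [e3, lintegral_zero]
    simp only [e2]
    rw [lintegral_indicator (measurableSet_Icc.prod measurableSet_Icc), Measure.volume_eq_prod,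
      ← Measure.prod_restrict, lintegral_prod]
    · have e4 : ∀ x : ℝ, ∫⁻ y in Icc a b, ENNReal.ofReal (x ^ 2 * H) * fib K (gam g t y) =
          ENNReal.ofReal (x ^ 2 * H) * ∫⁻ y in Icc a b, fib K (gam g t y) := by
        intro x
        rw [lintegral_const_mul _ hfm]
      simp only [e4]
      rw [lintegral_mul_const _ (by fun_prop)]
      congr 1
      have hc : IntegrableOn (fun x : ℝ => x ^ 2 * H) (Icc (0:ℝ) 1) :=
        (Continuous.integrableOn_Icc (by fun_prop))
      rw [← ofReal_integral_eq_lintegral_ofReal hc, integral_Icc_eq_integral_Ioc,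
        ← intervalIntegral.integral_of_le zero_le_one, intervalIntegral.integral_mul_const,
        integral_pow]
      · congr 1; norm_num; ring
      · exact (ae_restrict_iff' measurableSet_Icc).2
          (ae_of_all _ fun x hx => mul_nonneg (sq_nonneg _) hH)
    · exact ((Measurable.ennreal_ofReal (by fun_prop)).mul (hfm.comp measurable_snd)).aemeasurable
  · exact ((Measurable.ennreal_ofReal (by fun_prop)).indicator hmD2).aemeasurable

/-- The volume of the cone over a wall. -/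
theorem volume_GG {g : ℝ → ℝ} {C : ℝ≥0} (hg : LipschitzWith C g) (t : ℝ) {K : Set (Fin 3 → ℝ)}
    (hK : IsCompact K) (a b H : ℝ) (hH0 : 0 ≤ H)
    (hH : ∀ x ∈ Icc a b, (∃ τ, pt (gam g t x) τ ∈ K) → |g x| + |x| * C ≤ H) :
    volume (GG g t '' DD g t K a b) ≤
      ENNReal.ofReal (H / 3) * ∫⁻ x in Icc a b, fib K (gam g t x) := by
  obtain ⟨B, hB⟩ : ∃ B : ℝ≥0, ∀ x ∈ K, ∀ i, |x i| ≤ B := by
    obtain ⟨r, hr⟩ := hK.isBounded.exists_norm_le
    refine ⟨Real.toNNReal r, fun x hx i => ?_⟩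
    have h1 := norm_le_pi_norm x i
    rw [Real.norm_eq_abs] at h1
    exact (h1.trans (hr x hx)).trans (Real.le_coe_toNNReal r)
  have hgc := hg.continuous
  set N : Set ℝ := {x | ¬ DifferentiableAt ℝ g x} with hN
  have hN0 : volume N = 0 := by
    have := hg.ae_differentiableAt_real
    rwa [ae_iff] at this
  have hNm : MeasurableSet N := (measurableSet_of_differentiableAt ℝ g).compl
  have hDm : MeasurableSet (DD g t K a b) := (isClosed_DD hgc t hK a b).measurableSet
  set N3 : Set (Fin 3 → ℝ) := {x | x 1 ∈ N} with hN3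
  have hN3m : MeasurableSet N3 := (measurable_pi_apply 1) hNm
  have hN30 : volume N3 = 0 := by
    have h := (Measure.quasiMeasurePreserving_eval (fun _ : Fin 3 => (volume : Measure ℝ))
      1).preimage_null hN0
    exact h
  have hsplit : DD g t K a b = (DD g t K a b \ N3) ∪ (DD g t K a b ∩ N3) := by
    rw [Set.sdiff_union_inter]
  have hbad : volume (GG g t '' (DD g t K a b ∩ N3)) = 0 := by
    have h1 := (lip_GG hg t hB a b).mono (Set.inter_subset_left (s := DD g t K a b) (t := N3))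
    have h2 := h1.hausdorffMeasure_image_le (d := (Fintype.card (Fin 3) : ℝ)) (by positivity)
    rw [hausdorffMeasure_pi_real] at h2
    have h3 : volume (DD g t K a b ∩ N3) = 0 := measure_mono_null Set.inter_subset_right hN30
    rw [h3, mul_zero] at h2
    exact le_antisymm h2 zero_le
  have hgood : volume (GG g t '' (DD g t K a b \ N3)) ≤
      ∫⁻ x in DD g t K a b \ N3, ENNReal.ofReal |(dGG g t (deriv g (x 1)) x).det| := by
    refine addHaar_image_le_lintegral_abs_det_fderiv volume (hDm.diff hN3m) fun x hx => ?_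
    have hd : DifferentiableAt ℝ g (x 1) := by
      by_contra hcon
      exact hx.2 hcon
    exact (hasFDerivAt_GG g t _ x hd.hasDerivAt).hasFDerivWithinAt
  calc volume (GG g t '' DD g t K a b)
      ≤ volume (GG g t '' (DD g t K a b \ N3)) + volume (GG g t '' (DD g t K a b ∩ N3)) := by
        nth_rewrite 1 [hsplit]
        rw [Set.image_union]
        exact measure_union_le _ _
    _ = volume (GG g t '' (DD g t K a b \ N3)) := by rw [hbad, add_zero]
    _ ≤ ∫⁻ x in DD g t K a b \ N3, ENNReal.ofReal |(dGG g t (deriv g (x 1)) x).det| := hgood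
    _ ≤ ∫⁻ x in DD g t K a b \ N3, ENNReal.ofReal (x 0 ^ 2 * H) := by
        refine setLIntegral_mono_ae' (hDm.diff hN3m) (ae_of_all _ fun x hx => ?_)
        refine ENNReal.ofReal_le_ofReal ?_
        rw [det_dGG, abs_mul, abs_of_nonneg (sq_nonneg (x 0))]
        refine mul_le_mul_of_nonneg_left ?_ (sq_nonneg _)
        have hd : |deriv g (x 1)| ≤ C := by
          have := norm_deriv_le_of_lipschitz (x₀ := x 1) hg
          rwa [Real.norm_eq_abs] at this
        calc |g (x 1) - x 1 * deriv g (x 1)| ≤ |g (x 1)| + |x 1 * deriv g (x 1)| := abs_sub _ _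
          _ ≤ |g (x 1)| + |x 1| * C := by
              rw [abs_mul]
              exact add_le_add le_rfl (mul_le_mul_of_nonneg_left hd (abs_nonneg _))
          _ ≤ H := hH (x 1) hx.1.2.1 ⟨x 2, hx.1.2.2⟩
    _ ≤ ∫⁻ x in DD g t K a b, ENNReal.ofReal (x 0 ^ 2 * H) := lintegral_mono_set Set.sdiff_subset
    _ = _ := lintegral_DD hgc t hK a b H hH0

end Pool.Agent.Lib.MP_abca01_gt.Plane3
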