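import Pool.Agent.Lib.MP_abca01_gt.Plane3.First

/-!
# The closed polygon with equally spaced paired directions
-/

set_option autoImplicit false

open Set Finset

namespace Pool.Agent.Lib.MP_abca01_gt.Plane3

/-- forward length of the cell `[t, t + m)` -/
noncomputable def al (P : Set (ℝ × ℝ)) (m t : ℝ) : ℝ := ip (ZZ P (t + m) - ZZ P t) (Jv t)

/-- inward drift of the cell `[t, t + m)` -/
noncomputable def be (P : Set (ℝ × ℝ)) (m t : ℝ) : ℝ := -ip (ZZ P (t + m) - ZZ P t) (uv t)

theorem ZZ_step (P : Set (ℝ × ℝ)) (m t : ℝ) :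
    ZZ P (t + m) = ZZ P t + al P m t • Jv t - be P m t • uv t := by
  have h := decomp (ZZ P (t + m) - ZZ P t) t
  unfold al be
  rw [neg_smul, sub_neg_eq_add, add_assoc, ← h]
  abel

theorem Jv_pi_add (t : ℝ) : Jv (Real.pi + t) = -Jv t := by
  unfold Jv
  rw [add_comm, Real.sin_add_pi, Real.cos_add_pi]
  rfl

theorem uv_pi_add (t : ℝ) : uv (Real.pi + t) = -uv t := by
  unfold uv
  rw [add_comm, Real.sin_add_pi, Real.cos_add_pi]
  rfl

section

variable {P : Set (ℝ × ℝ)} (hP : IsCompact P) (hne : P.Nonempty) {m : ℝ}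
  (hm0 : 0 < m) (hm : m < Real.pi / 2) {R : ℝ} (hR : ∀ p ∈ P, |p.1| ≤ R ∧ |p.2| ≤ R)

include hP hne hm0

include hR in
theorem sum_al_le (t : ℝ) (n : ℕ) :
    ∑ k ∈ range n, al P m (t + k * m) ≤
      ip (ZZ P (t + n * m)) (Jv (t + n * m)) - ip (ZZ P t) (Jv t) + 2 * R * m * n := by
  induction n with
  | zero => simp
  | succ n ih =>
    rw [Finset.sum_range_succ]
    have h1 : al P m (t + n * m) = ip (ZZ P (t + n * m + m)) (Jv (t + n * m)) -
        ip (ZZ P (t + n * m)) (Jv (t + n * m)) := by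
      unfold al; rw [ip_sub]
    have hz := hR _ (ZZ_mem hP hne (t + n * m + m))
    have h2 := ip_Jv_shift hz.1 hz.2 (t + n * m) m hm0.le
    have h3 : t + ((n + 1 : ℕ) : ℝ) * m = t + n * m + m := by push_cast; ring
    rw [h3]
    push_cast
    linarith

include hR in
theorem sum_al_le' (t : ℝ) (n : ℕ) (hn : m * n ≤ Real.pi) (hR0 : 0 ≤ R) :
    ∑ k ∈ range n, al P m (t + k * m) ≤ 12 * R := by
  have h1 := sum_al_le hP hne hm0 hR t n
  have hz := hR _ (ZZ_mem hP hne (t + n * m))
  have hz' := hR _ (ZZ_mem hP hne t)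
  have h2 := (abs_le.1 (abs_ip_Jv_le hz.1 hz.2 (t + n * m))).2
  have h3 := (abs_le.1 (abs_ip_Jv_le hz'.1 hz'.2 t)).1
  have h4 : 2 * R * m * n ≤ 2 * R * 4 := by
    rw [mul_assoc]
    exact mul_le_mul_of_nonneg_left (hn.trans Real.pi_le_four) (by linarith)
  linarith

include hm

theorem al_nonneg (t : ℝ) : 0 ≤ al P m t := (cell_step hP hne hm0 hm).1

theorem be_nonneg (t : ℝ) : 0 ≤ be P m t := (cell_step hP hne hm0 hm).2.1

theorem be_le (t : ℝ) : be P m t ≤ Real.tan m * al P m t := (cell_step hP hne hm0 hm).2.2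

include hR in
theorem sum_be_le (t : ℝ) (n : ℕ) (hn : m * n ≤ Real.pi) (hR0 : 0 ≤ R) :
    ∑ k ∈ range n, be P m (t + k * m) ≤ 12 * R * Real.tan m := by
  have ht : 0 ≤ Real.tan m := Real.tan_nonneg_of_nonneg_of_le_pi_div_two hm0.le hm.le
  calc ∑ k ∈ range n, be P m (t + k * m) ≤ ∑ k ∈ range n, Real.tan m * al P m (t + k * m) :=
        Finset.sum_le_sum fun k _ => be_le hP hne hm0 hm _
    _ = Real.tan m * ∑ k ∈ range n, al P m (t + k * m) := by rw [Finset.mul_sum]
    _ ≤ Real.tan m * (12 * R) :=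
        mul_le_mul_of_nonneg_left (sum_al_le' hP hne hm0 hR t n hn hR0) ht
    _ = 12 * R * Real.tan m := by ring

end

theorem ZZ_sum (P : Set (ℝ × ℝ)) (m t : ℝ) (n : ℕ) :
    ZZ P (t + n * m) = ZZ P t + ∑ k ∈ range n,
      (al P m (t + k * m) • Jv (t + k * m) - be P m (t + k * m) • uv (t + k * m)) := by
  induction n with
  | zero => simp
  | succ n ih =>
    have h3 : t + ((n + 1 : ℕ) : ℝ) * m = t + n * m + m := by push_cast; ring
    rw [Finset.sum_range_succ, h3, ZZ_step, ih]
    abel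

/-- a vector all of whose coordinates are at most `e` in absolute value -/
def Small (x : ℝ × ℝ) (e : ℝ) : Prop := |x.1| ≤ e ∧ |x.2| ≤ e

theorem Small.add {x y : ℝ × ℝ} {e e' : ℝ} (h : Small x e) (h' : Small y e') :
    Small (x + y) (e + e') :=
  ⟨(abs_add_le _ _).trans (add_le_add h.1 h'.1), (abs_add_le _ _).trans (add_le_add h.2 h'.2)⟩

theorem Small.neg {x : ℝ × ℝ} {e : ℝ} (h : Small x e) : Small (-x) e :=
  ⟨by rw [Prod.fst_neg, abs_neg]; exact h.1, by rw [Prod.snd_neg, abs_neg]; exact h.2⟩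

theorem Small.mono {x : ℝ × ℝ} {e e' : ℝ} (h : Small x e) (he : e ≤ e') : Small x e' :=
  ⟨h.1.trans he, h.2.trans he⟩

theorem small_sum {ι : Type*} (s : Finset ι) (x : ι → ℝ × ℝ) (e : ι → ℝ)
    (h : ∀ i ∈ s, Small (x i) (e i)) : Small (∑ i ∈ s, x i) (∑ i ∈ s, e i) := by
  classical
  induction s using Finset.induction_on with
  | empty => simp [Small]
  | insert a s ha ih =>
    rw [Finset.sum_insert ha, Finset.sum_insert ha]
    exact (h a (Finset.mem_insert_self a s)).add
      (ih fun i hi => h i (Finset.mem_insert_of_mem hi))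

theorem small_Jv (c t : ℝ) : Small (c • Jv t) |c| := by
  constructor
  · simp only [Jv, Prod.smul_fst, smul_eq_mul, abs_mul, abs_neg]
    exact mul_le_of_le_one_right (abs_nonneg _) (Real.abs_sin_le_one t)
  · simp only [Jv, Prod.smul_snd, smul_eq_mul, abs_mul]
    exact mul_le_of_le_one_right (abs_nonneg _) (Real.abs_cos_le_one t)

theorem small_uv (c t : ℝ) : Small (c • uv t) |c| := by
  constructor
  · simp only [uv, Prod.smul_fst, smul_eq_mul, abs_mul]
    exact mul_le_of_le_one_right (abs_nonneg _) (Real.abs_cos_le_one t)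
  · simp only [uv, Prod.smul_snd, smul_eq_mul, abs_mul]
    exact mul_le_of_le_one_right (abs_nonneg _) (Real.abs_sin_le_one t)

theorem max_sub_max (x : ℝ) : max x 0 - max (-x) 0 = x := by
  rcases le_total 0 x with h | h
  · rw [max_eq_left h, max_eq_right (by linarith)]; ring
  · rw [max_eq_right h, max_eq_left (by linarith)]; ring

theorem max_add_max (x : ℝ) : max x 0 + max (-x) 0 = |x| := by
  rcases le_total 0 x with h | h
  · rw [max_eq_left h, max_eq_right (by linarith), abs_of_nonneg h]; ring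
  · rw [max_eq_right h, max_eq_left (by linarith), abs_of_nonpos h]; ring

/-- The polygon. -/
theorem exists_model {P : Set (ℝ × ℝ)} (hP : IsCompact P) (hne : P.Nonempty) {R : ℝ}
    (hR : ∀ p ∈ P, |p.1| ≤ R ∧ |p.2| ≤ R) (M : ℕ) (hM : 2 ≤ M) (m : ℝ)
    (hm : m = Real.pi / (2 * M)) :
    ∃ a a' : ℕ → ℝ, ∃ q r : ℕ → ℝ × ℝ, IsModel (2 * M) (fun k => k * m) a a' q r ∧
      (∀ k, k ≤ 2 * M → Small (q k - ZZ P (k * m)) (132 * R * Real.tan m)) ∧
      (∀ k, k ≤ 2 * M → Small (r k - ZZ P (Real.pi + k * m)) (132 * R * Real.tan m)) ∧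
      (∀ k : ℕ, al P m (k * m) ≤ a k) ∧ (∀ k : ℕ, al P m (Real.pi + k * m) ≤ a' k) ∧
      ∑ k ∈ range (2 * M), a k ≤ 12 * R + 48 * R * Real.tan m := by
  have hMpos : (0:ℝ) < M := by positivity
  have hM2 : (2:ℝ) ≤ M := by exact_mod_cast hM
  have hm0 : 0 < m := by rw [hm]; positivity
  have hm4 : m ≤ Real.pi / 4 := by
    rw [hm]
    exact div_le_div_of_nonneg_left Real.pi_pos.le (by norm_num) (by linarith)
  have hm2 : m < Real.pi / 2 := by linarith [Real.pi_pos]
  have hR0 : 0 ≤ R := (abs_nonneg _).trans (hR _ (ZZ_mem hP hne 0)).1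
  have ht0 : 0 ≤ Real.tan m := Real.tan_nonneg_of_nonneg_of_le_pi_div_two hm0.le hm2.le
  have hN : ((2 * M : ℕ) : ℝ) * m = Real.pi := by rw [hm]; push_cast; field_simp
  have hMm : (M : ℝ) * m = Real.pi / 2 := by rw [hm]; field_simp
  have hle : ∀ n : ℕ, n ≤ 2 * M → m * n ≤ Real.pi := by
    intro n hn
    rw [← hN, mul_comm]
    exact mul_le_mul_of_nonneg_right (by exact_mod_cast hn) hm0.le
  set A : ℕ → ℝ := fun k => al P m (k * m) with hA
  set A' : ℕ → ℝ := fun k => al P m (Real.pi + k * m) with hA'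
  set B : ℕ → ℝ := fun k => be P m (k * m) with hB
  set B' : ℕ → ℝ := fun k => be P m (Real.pi + k * m) with hB'
  have hB0 : ∀ k, 0 ≤ B k := fun k => be_nonneg hP hne hm0 hm2 _
  have hB0' : ∀ k, 0 ≤ B' k := fun k => be_nonneg hP hne hm0 hm2 _
  have sB : ∀ n ≤ 2 * M, ∑ k ∈ range n, B k ≤ 12 * R * Real.tan m := by
    intro n hn
    have := sum_be_le hP hne hm0 hm2 hR 0 n (hle n hn) hR0
    simpa [hB] using this
  have sB' : ∀ n ≤ 2 * M, ∑ k ∈ range n, B' k ≤ 12 * R * Real.tan m := by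
    intro n hn
    exact sum_be_le hP hne hm0 hm2 hR Real.pi n (hle n hn) hR0
  have zq : ∀ n : ℕ, ZZ P (n * m) = ZZ P 0 + ∑ k ∈ range n, (A k • Jv (k * m) - B k • uv (k * m)) := by
    intro n
    have := ZZ_sum P m 0 n
    simpa [hA, hB] using this
  have zr : ∀ n : ℕ, ZZ P (Real.pi + n * m) =
      ZZ P Real.pi - ∑ k ∈ range n, (A' k • Jv (k * m) - B' k • uv (k * m)) := by
    intro n
    rw [ZZ_sum P m Real.pi n, sub_eq_add_neg, ← Finset.sum_neg_distrib]
    congr 1
    refine Finset.sum_congr rfl fun k _ => ?_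
    rw [Jv_pi_add, uv_pi_add]
    simp only [hA', hB', smul_neg]
    abel
  set g : ℝ × ℝ := ∑ k ∈ range (2 * M), (A k - A' k) • Jv (k * m) with hg
  have hg2 : g = ∑ k ∈ range (2 * M), (B k - B' k) • uv (k * m) := by
    have h1 := zq (2 * M)
    have h2 := zr (2 * M)
    rw [hN] at h1
    rw [hN] at h2
    have h3 : Real.pi + Real.pi = 0 + 2 * Real.pi := by ring
    rw [h3, ZZ_periodic] at h2
    have h4 : ∑ k ∈ range (2 * M), (A k • Jv (k * m) - B k • uv (k * m)) -
        ∑ k ∈ range (2 * M), (A' k • Jv (k * m) - B' k • uv (k * m)) = 0 := by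
      have h5 : ∑ k ∈ range (2 * M), (A k • Jv (k * m) - B k • uv (k * m)) =
        ZZ P Real.pi - ZZ P 0 := by rw [h1]; abel
      have h6 : ∑ k ∈ range (2 * M), (A' k • Jv (k * m) - B' k • uv (k * m)) =
        ZZ P Real.pi - ZZ P 0 := by
        have : ∑ k ∈ range (2 * M), (A' k • Jv (k * m) - B' k • uv (k * m)) =
          ZZ P Real.pi - (ZZ P Real.pi -
            ∑ k ∈ range (2 * M), (A' k • Jv (k * m) - B' k • uv (k * m))) := by abel
        rw [this, ← h2]
      rw [h5, h6, sub_self]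
    rw [← Finset.sum_sub_distrib] at h4
    have h7 : ∑ k ∈ range (2 * M), (A k - A' k) • Jv (k * m) -
        ∑ k ∈ range (2 * M), (B k - B' k) • uv (k * m) = 0 := by
      rw [← Finset.sum_sub_distrib, ← h4]
      refine Finset.sum_congr rfl fun k _ => ?_
      module
    exact sub_eq_zero.1 h7
  have hgs : Small g (24 * R * Real.tan m) := by
    have h1 := small_sum (range (2 * M)) (fun k => (B k - B' k) • uv (k * m))
      (fun k => B k + B' k) (fun k _ => (small_uv _ _).mono (by
        rw [abs_le]; constructor <;> linarith [hB0 k, hB0' k]))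
    rw [← hg2] at h1
    refine h1.mono ?_
    rw [Finset.sum_add_distrib]
    linarith [sB _ le_rfl, sB' _ le_rfl]
  set c : ℕ → ℝ := fun k => (if k = 0 then max (-g.2) 0 else 0) + (if k = M then max g.1 0 else 0)
    with hc
  set c' : ℕ → ℝ := fun k => (if k = 0 then max g.2 0 else 0) + (if k = M then max (-g.1) 0 else 0)
    with hc'
  have hc0 : ∀ k, 0 ≤ c k := fun k => by
    simp only [hc]
    refine add_nonneg ?_ ?_ <;> split_ifs <;> simp
  have hc0' : ∀ k, 0 ≤ c' k := fun k => by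
    simp only [hc']
    refine add_nonneg ?_ ?_ <;> split_ifs <;> simp
  have sumc : ∑ k ∈ range (2 * M), c k = max (-g.2) 0 + max g.1 0 := by
    simp only [hc, Finset.sum_add_distrib, Finset.sum_ite_eq', Finset.mem_range]
    rw [if_pos (by omega), if_pos (by omega)]
  have sumc' : ∑ k ∈ range (2 * M), c' k = max g.2 0 + max (-g.1) 0 := by
    simp only [hc', Finset.sum_add_distrib, Finset.sum_ite_eq', Finset.mem_range]
    rw [if_pos (by omega), if_pos (by omega)]
  have hcs : ∀ n ≤ 2 * M, ∑ k ∈ range n, c k ≤ 48 * R * Real.tan m := by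
    intro n hn
    calc ∑ k ∈ range n, c k ≤ ∑ k ∈ range (2 * M), c k :=
          Finset.sum_le_sum_of_subset_of_nonneg (Finset.range_mono hn) fun k _ _ => hc0 k
      _ = max (-g.2) 0 + max g.1 0 := sumc
      _ ≤ |g.2| + |g.1| := add_le_add (max_le (neg_le_abs _) (abs_nonneg _))
          (max_le (le_abs_self _) (abs_nonneg _))
      _ ≤ _ := by linarith [hgs.1, hgs.2]
  have hcs' : ∀ n ≤ 2 * M, ∑ k ∈ range n, c' k ≤ 48 * R * Real.tan m := by
    intro n hn
    calc ∑ k ∈ range n, c' k ≤ ∑ k ∈ range (2 * M), c' k :=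
          Finset.sum_le_sum_of_subset_of_nonneg (Finset.range_mono hn) fun k _ _ => hc0' k
      _ = max g.2 0 + max (-g.1) 0 := sumc'
      _ ≤ |g.2| + |g.1| := add_le_add (max_le (le_abs_self _) (abs_nonneg _))
          (max_le (neg_le_abs _) (abs_nonneg _))
      _ ≤ _ := by linarith [hgs.1, hgs.2]
  have hcc : ∑ k ∈ range (2 * M), (c k - c' k) • Jv (k * m) = -g := by
    have h1 : ∀ k ∈ range (2 * M), (c k - c' k) • Jv (k * m) =
        (if k = 0 then (-g.2) • Jv ((0:ℕ) * m) else 0) +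
          (if k = M then g.1 • Jv ((M:ℕ) * m) else 0) := by
      intro k _
      have e1 := max_sub_max (-g.2)
      have e2 := max_sub_max g.1
      rw [neg_neg] at e1
      simp only [hc, hc']
      by_cases k0 : k = 0
      · have kM : k ≠ M := by omega
        rw [if_pos k0, if_neg kM, if_pos k0, if_neg kM, if_pos k0, if_neg kM, add_zero, add_zero,
          add_zero, e1, k0]
      · by_cases kM : k = M
        · rw [if_neg k0, if_pos kM, if_neg k0, if_pos kM, if_neg k0, if_pos kM, zero_add, zero_add,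
            zero_add, e2, kM]
        · rw [if_neg k0, if_neg kM, if_neg k0, if_neg kM, if_neg k0, if_neg kM]
          simp
    rw [Finset.sum_congr rfl h1, Finset.sum_add_distrib, Finset.sum_ite_eq', Finset.sum_ite_eq',
      if_pos (Finset.mem_range.2 (by omega)), if_pos (Finset.mem_range.2 (by omega)), hMm]
    ext
    · simp [Jv]
    · simp [Jv]
  have hclose : ∑ k ∈ range (2 * M), (A k + c k) • Jv (k * m) =
      ∑ k ∈ range (2 * M), (A' k + c' k) • Jv (k * m) := by
    rw [← sub_eq_zero, ← Finset.sum_sub_distrib]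
    have h1 : ∀ k ∈ range (2 * M), (A k + c k) • Jv (k * m) - (A' k + c' k) • Jv (k * m) =
        (A k - A' k) • Jv (k * m) + (c k - c' k) • Jv (k * m) := by
      intro k _; module
    rw [Finset.sum_congr rfl h1, Finset.sum_add_distrib, hcc, ← hg]
    abel
  set q : ℕ → ℝ × ℝ := fun n => ZZ P 0 + ∑ k ∈ range n, (A k + c k) • Jv (k * m) with hq
  set r : ℕ → ℝ × ℝ := fun n => q (2 * M) - ∑ k ∈ range n, (A' k + c' k) • Jv (k * m) with hr
  have hA0 : ∀ k, 0 ≤ A k := fun k => al_nonneg hP hne hm0 hm2 _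
  have hA0' : ∀ k, 0 ≤ A' k := fun k => al_nonneg hP hne hm0 hm2 _
  have qerr : ∀ n, n ≤ 2 * M → Small (q n - ZZ P (n * m)) (60 * R * Real.tan m) := by
    intro n hn
    have h1 : q n - ZZ P (n * m) = ∑ k ∈ range n, (c k • Jv (k * m) + B k • uv (k * m)) := by
      rw [zq n]
      simp only [hq]
      have : ∀ x y z : ℝ × ℝ, x + y - (x + z) = y - z := fun x y z => by abel
      rw [this, ← Finset.sum_sub_distrib]
      refine Finset.sum_congr rfl fun k _ => ?_
      module
    rw [h1]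
    refine (small_sum (range n) _ (fun k => c k + B k) fun k _ => ?_).mono ?_
    · refine ((small_Jv _ _).mono ?_).add ((small_uv _ _).mono ?_)
      · rw [abs_of_nonneg (hc0 k)]
      · rw [abs_of_nonneg (hB0 k)]
    · rw [Finset.sum_add_distrib]
      linarith [hcs n hn, sB n hn]
  refine ⟨fun k => A k + c k, fun k => A' k + c' k, q, r, ?_, ?_, ?_, ?_, ?_, ?_⟩
  · refine ⟨?_, ?_, ?_, ?_, ?_, ?_, ?_, ?_⟩
    · intro i j hij _
      exact mul_lt_mul_of_pos_right (by exact_mod_cast hij) hm0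
    · intro i j hi hj
      have h1 : (j:ℝ) * m - i * m ≤ j * m := by
        have : 0 ≤ (i:ℝ) * m := by positivity
        linarith
      have h2 : (j:ℝ) * m < ((2 * M : ℕ) : ℝ) * m :=
        mul_lt_mul_of_pos_right (by exact_mod_cast hj) hm0
      rw [hN] at h2
      exact lt_of_le_of_lt h1 h2
    · intro k _; exact add_nonneg (hA0 k) (hc0 k)
    · intro k _; exact add_nonneg (hA0' k) (hc0' k)
    · intro k _
      simp only [hq, Finset.sum_range_succ]
      abel
    · intro k _
      simp only [hr, Finset.sum_range_succ]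
      abel
    · simp only [hr, Finset.sum_range_zero, sub_zero]
    · simp only [hr, ← hclose]
      simp only [hq, Finset.sum_range_zero, add_zero]
      abel
  · intro k hk
    exact (qerr k hk).mono (by nlinarith [mul_nonneg hR0 ht0])
  · intro k hk
    have h1 : r k - ZZ P (Real.pi + k * m) = (q (2 * M) - ZZ P ((2 * M : ℕ) * m)) +
        -(∑ j ∈ range k, (c' j • Jv (j * m) + B' j • uv (j * m))) := by
      rw [zr k, hN]
      simp only [hr]
      have : ∀ x y z w : ℝ × ℝ, x - y - (z - w) = (x - z) + -(y - w) := fun x y z w => by abel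
      rw [this, ← Finset.sum_sub_distrib]
      congr 2
      refine Finset.sum_congr rfl fun k _ => ?_
      module
    rw [h1]
    have h2 : Small (∑ j ∈ range k, (c' j • Jv (j * m) + B' j • uv (j * m)))
        (60 * R * Real.tan m) := by
      refine (small_sum (range k) _ (fun k => c' k + B' k) fun k _ => ?_).mono ?_
      · refine ((small_Jv _ _).mono ?_).add ((small_uv _ _).mono ?_)
        · rw [abs_of_nonneg (hc0' k)]
        · rw [abs_of_nonneg (hB0' k)]
      · rw [Finset.sum_add_distrib]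
        linarith [hcs' k hk, sB' k hk]
    exact ((qerr _ le_rfl).add h2.neg).mono (by nlinarith [mul_nonneg hR0 ht0])
  · intro k
    have := hc0 k
    simp only [hA] at *
    linarith
  · intro k
    have := hc0' k
    simp only [hA'] at *
    linarith
  · have h1 := sum_al_le' hP hne hm0 hR 0 (2 * M) (hle _ le_rfl) hR0
    have h2 : ∑ k ∈ range (2 * M), A k ≤ 12 * R := by simpa [hA] using h1
    rw [Finset.sum_add_distrib]
    exact add_le_add h2 (hcs _ le_rfl)

end Pool.Agent.Lib.MP_abca01_gt.Plane3
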