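import Pool.Agent.Lib.MP_abca01_gt.Plane3.LineCone
import Pool.Agent.Lib.MP_abca01_gt.Plane3.Gfree

/-!
# Lines: the inequality and the case of equality
-/

set_option autoImplicit false

open MeasureTheory Set Metric Filter Topology
open scoped RealInnerProductSpace Pointwise ENNReal NNReal

namespace Pool.Agent.Lib.MP_abca01_gt.Plane3

open MP_abca01_gt.Sym Ess Variationaux Energyaux Borelaux Capaux

/-- Properties of the volumes of the sections. -/
structure Sect (h h' D V : ℝ) (g : ℝ → ℝ) : Prop where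
  hh : 0 ≤ h
  hh' : 0 ≤ h'
  nonneg : ∀ t, 0 ≤ g t
  meas : Measurable g
  Dpos : 0 < D
  Vnonneg : 0 ≤ V
  combo : ∀ s t t' : ℝ, 0 < s → s < 1 → g t ^ s * g t' ^ (1 - s) ≤ g (s * t + (1 - s) * t')
  vol : ENNReal.ofReal D * ∫⁻ t, ENNReal.ofReal (g t) = ENNReal.ofReal V

variable {h h' D V : ℝ} {g : ℝ → ℝ}

theorem Sect.prod_le (H : Sect h h' D V g) {t : ℝ} (ht : t ∈ Ioo (-h') h) :
    g h * g (-h') ≤ g t * g (h - h' - t) := by
  have hw : 0 < h + h' := by linarith [ht.1, ht.2]
  set s := (t + h') / (h + h') with hs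
  have hs0 : 0 < s := div_pos (by linarith [ht.1]) hw
  have hs1 : s < 1 := by rw [hs, div_lt_one hw]; linarith [ht.2]
  have e0 : s * (h + h') = t + h' := div_mul_cancel₀ _ hw.ne'
  have e1 : s * h + (1 - s) * (-h') = t := by linarith
  have e2 : s * (-h') + (1 - s) * h = h - h' - t := by linarith
  have h1 := H.combo s h (-h') hs0 hs1
  have h2 := H.combo s (-h') h hs0 hs1
  rw [e1] at h1
  rw [e2] at h2
  have hg := H.nonneg h
  have hg' := H.nonneg (-h')
  have e3 : g h = g h ^ s * g h ^ (1 - s) := by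
    rw [← Real.rpow_add_of_nonneg hg hs0.le (by linarith)]
    simp
  have e4 : g (-h') = g (-h') ^ s * g (-h') ^ (1 - s) := by
    rw [← Real.rpow_add_of_nonneg hg' hs0.le (by linarith)]
    simp
  calc g h * g (-h') = (g h ^ s * g h ^ (1 - s)) * (g (-h') ^ s * g (-h') ^ (1 - s)) := by
        rw [← e3, ← e4]
    _ = (g h ^ s * g (-h') ^ (1 - s)) * (g (-h') ^ s * g h ^ (1 - s)) := by ring
    _ ≤ _ := mul_le_mul h1 h2 (mul_nonneg (Real.rpow_nonneg hg' _) (Real.rpow_nonneg hg _))
        (H.nonneg _)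

theorem Sect.le_vol (H : Sect h h' D V g) :
    ENNReal.ofReal D * ∫⁻ t in Ioo (-h') h, ENNReal.ofReal (g t) ≤ ENNReal.ofReal V := by
  rw [← H.vol]
  exact mul_le_mul_right (setLIntegral_le_lintegral _ _) _

theorem Sect.width (H : Sect h h' D V g) :
    D * ((h + h') * Real.sqrt (g h * g (-h'))) ≤ V := by
  have hw : 0 ≤ h + h' := add_nonneg H.hh H.hh'
  set q := Real.sqrt (g h * g (-h')) with hq
  have hq0 : 0 ≤ q := Real.sqrt_nonneg _
  set G : ℝ → ℝ≥0∞ := (Ioo (-h') h).indicator (fun t => ENNReal.ofReal (g t)) with hG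
  have hGm : Measurable G := (H.meas.ennreal_ofReal).indicator measurableSet_Ioo
  have e1 : ∫⁻ t, G (h - h' - t) = ∫⁻ t, G t := lintegral_sub_left_eq_self G (h - h')
  have e2 : ∫⁻ t, (G t + G (h - h' - t)) = 2 * ∫⁻ t, G t := by
    rw [lintegral_add_left hGm, e1, two_mul]
  have e3 : ∫⁻ t, (Ioo (-h') h).indicator (fun _ => ENNReal.ofReal (2 * q)) t ≤
      ∫⁻ t, (G t + G (h - h' - t)) := by
    apply lintegral_mono
    intro t
    change (Ioo (-h') h).indicator (fun _ => ENNReal.ofReal (2 * q)) t ≤ G t + G (h - h' - t)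
    by_cases ht : t ∈ Ioo (-h') h
    · have ht' : h - h' - t ∈ Ioo (-h') h := ⟨by linarith [ht.2], by linarith [ht.1]⟩
      rw [indicator_of_mem ht, hG, indicator_of_mem ht, indicator_of_mem ht',
        ← ENNReal.ofReal_add (H.nonneg _) (H.nonneg _)]
      apply ENNReal.ofReal_le_ofReal
      have h1 := H.prod_le ht
      have h2 : q ≤ Real.sqrt (g t * g (h - h' - t)) := Real.sqrt_le_sqrt h1
      have h3 : 2 * Real.sqrt (g t * g (h - h' - t)) ≤ g t + g (h - h' - t) := by
        rw [Real.sqrt_mul (H.nonneg t)]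
        have a1 := Real.sq_sqrt (H.nonneg t)
        have a2 := Real.sq_sqrt (H.nonneg (h - h' - t))
        nlinarith [sq_nonneg (Real.sqrt (g t) - Real.sqrt (g (h - h' - t)))]
      linarith
    · rw [indicator_of_notMem ht]
      exact zero_le
  rw [lintegral_indicator measurableSet_Ioo, lintegral_const, Measure.restrict_apply_univ,
    Real.volume_Ioo, e2, ← ENNReal.ofReal_mul (by positivity)] at e3
  have e4 : ∫⁻ t, G t = ∫⁻ t in Ioo (-h') h, ENNReal.ofReal (g t) :=
    lintegral_indicator measurableSet_Ioo _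
  rw [e4] at e3
  have h1 := mul_le_mul_right e3 (ENNReal.ofReal D)
  have h2 : ENNReal.ofReal D * (2 * ∫⁻ t in Ioo (-h') h, ENNReal.ofReal (g t)) ≤
      2 * ENNReal.ofReal V := by
    calc _ = 2 * (ENNReal.ofReal D * ∫⁻ t in Ioo (-h') h, ENNReal.ofReal (g t)) := by ring
      _ ≤ _ := mul_le_mul_right H.le_vol _
  have h3 := h1.trans h2
  rw [← ENNReal.ofReal_mul H.Dpos.le, ← ENNReal.ofReal_ofNat 2,
    ← ENNReal.ofReal_mul (by norm_num)] at h3
  have h4 := (ENNReal.ofReal_le_ofReal_iff (mul_nonneg (by norm_num) H.Vnonneg)).1 h3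
  linarith

/-- The inequality. -/
theorem Sect.ineq (H : Sect h h' D V g) {N : ℝ} (hN : 0 ≤ N) (h1 : N ≤ D * (h * g h))
    (h2 : N ≤ D * (h' * g (-h'))) : 2 * N ≤ V := by
  have hw := H.width
  set q := Real.sqrt (g h * g (-h')) with hq
  have hq0 : 0 ≤ q := Real.sqrt_nonneg _
  have hq2 : q ^ 2 = g h * g (-h') := Real.sq_sqrt (mul_nonneg (H.nonneg _) (H.nonneg _))
  have hD := H.Dpos.le
  have hh := H.hh
  have hh' := H.hh'
  have h3 : N * N ≤ (D * (h * g h)) * (D * (h' * g (-h'))) := mul_le_mul h1 h2 hN (hN.trans h1)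
  have h4 : (D * (h * g h)) * (D * (h' * g (-h'))) = D ^ 2 * (h * h') * q ^ 2 := by
    rw [hq2]; ring
  have h5 : 4 * (h * h') ≤ (h + h') ^ 2 := by nlinarith [sq_nonneg (h - h')]
  have h6 : (2 * N) ^ 2 ≤ (D * ((h + h') * q)) ^ 2 := by
    have h7 : D ^ 2 * q ^ 2 * (4 * (h * h')) ≤ D ^ 2 * q ^ 2 * (h + h') ^ 2 :=
      mul_le_mul_of_nonneg_left h5 (by positivity)
    nlinarith
  have h8 : 2 * N ≤ D * ((h + h') * q) :=
    le_of_sq_le_sq h6 (mul_nonneg hD (mul_nonneg (add_nonneg hh hh') hq0))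
  linarith

/-- The case of equality. -/
theorem Sect.const (H : Sect h h' D V g) {N : ℝ} (hN : 0 < N) (h1 : N ≤ D * (h * g h))
    (h2 : N ≤ D * (h' * g (-h'))) (hV : V = 2 * N) :
    ∀ t ∈ Ioo (-h') h, g t = g h := by
  have hw := H.width
  set q := Real.sqrt (g h * g (-h')) with hq
  have hq0 : 0 ≤ q := Real.sqrt_nonneg _
  have hq2 : q ^ 2 = g h * g (-h') := Real.sq_sqrt (mul_nonneg (H.nonneg _) (H.nonneg _))
  have hD := H.Dpos
  have hgh := H.nonneg h
  have hgh' := H.nonneg (-h')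
  have hp : 0 < h * g h := pos_of_mul_pos_right (hN.trans_le h1) hD.le
  have hp' : 0 < h' * g (-h') := pos_of_mul_pos_right (hN.trans_le h2) hD.le
  have hh : 0 < h := lt_of_le_of_ne H.hh (by
    intro h0; rw [← h0, zero_mul] at hp; exact lt_irrefl _ hp)
  have hh' : 0 < h' := lt_of_le_of_ne H.hh' (by
    intro h0; rw [← h0, zero_mul] at hp'; exact lt_irrefl _ hp')
  have hg : 0 < g h := lt_of_le_of_ne hgh (by
    intro h0; rw [← h0, mul_zero] at hp; exact lt_irrefl _ hp)
  have hg' : 0 < g (-h') := lt_of_le_of_ne hgh' (by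
    intro h0; rw [← h0, mul_zero] at hp'; exact lt_irrefl _ hp')
  have hqpos : 0 < q := Real.sqrt_pos.2 (mul_pos hg hg')
  set A := D * (h * g h) with hA
  set B := D * (h' * g (-h')) with hB
  have hAB : A * B = D ^ 2 * (h * h') * q ^ 2 := by rw [hq2, hA, hB]; ring
  have h3 : D * ((h + h') * q) ≤ 2 * N := by rw [← hV]; exact hw
  have h4 : (D * ((h + h') * q)) ^ 2 ≤ (2 * N) ^ 2 :=
    pow_le_pow_left₀ (by positivity) h3 2
  have h5 : N * N ≤ A * B := mul_le_mul h1 h2 hN.le (hN.le.trans h1)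
  have hDq : 0 < D ^ 2 * q ^ 2 := by positivity
  have h6 : D ^ 2 * q ^ 2 * (h + h') ^ 2 ≤ D ^ 2 * q ^ 2 * (4 * (h * h')) := by nlinarith
  have h7 : (h + h') ^ 2 ≤ 4 * (h * h') := le_of_mul_le_mul_left h6 hDq
  have h8 : h = h' := by
    have : (h - h') ^ 2 ≤ 0 := by nlinarith
    have h9 : (h - h') ^ 2 = 0 := le_antisymm this (sq_nonneg _)
    have h10 : h - h' = 0 := by
      rcases pow_eq_zero_iff (two_ne_zero) |>.1 h9 with h11
      exact h11
    linarith
  have h9 : A * B ≤ N * N := by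
    rw [hAB]
    have : (h + h') ^ 2 = 4 * (h * h') := by rw [← h8]; ring
    nlinarith
  have h10 : A = N := by nlinarith
  have h11 : B = N := by nlinarith
  have h12 : g (-h') = g h := by
    have : D * (h * g h) = D * (h' * g (-h')) := by rw [← hA, ← hB, h10, h11]
    rw [← h8] at this ⊢
    have h13 := mul_left_cancel₀ hD.ne' this
    exact (mul_left_cancel₀ hh.ne' h13).symm
  set c := g h with hc
  -- the lower bound
  have low : ∀ t ∈ Ioo (-h') h, c ≤ g t := by
    intro t ht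
    have hw : 0 < h + h' := by linarith
    set s := (t + h') / (h + h') with hs
    have hs0 : 0 < s := div_pos (by linarith [ht.1]) hw
    have hs1 : s < 1 := by rw [hs, div_lt_one hw]; linarith [ht.2]
    have e0 : s * (h + h') = t + h' := div_mul_cancel₀ _ hw.ne'
    have e1 : s * h + (1 - s) * (-h') = t := by linarith
    have k1 := H.combo s h (-h') hs0 hs1
    rw [e1, h12, ← hc, ← Real.rpow_add hg] at k1
    simpa using k1
  -- almost everywhere equality
  have hVc : V = D * ((h + h') * c) := by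
    rw [hV, ← h10, hA, ← h8]; ring
  have e3 : (fun _ : ℝ => ENNReal.ofReal c) =ᵐ[volume.restrict (Ioo (-h') h)]
      fun t => ENNReal.ofReal (g t) := by
    refine ae_eq_of_ae_le_of_lintegral_le ?_ ?_ ?_ ?_
    · exact (ae_restrict_iff' measurableSet_Ioo).2
        (ae_of_all _ fun p hp => ENNReal.ofReal_le_ofReal (low p hp))
    · rw [lintegral_const, Measure.restrict_apply_univ, Real.volume_Ioo]
      exact ENNReal.mul_ne_top ENNReal.ofReal_ne_top ENNReal.ofReal_ne_top
    · exact H.meas.ennreal_ofReal.aemeasurable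
    · have k1 := H.le_vol
      rw [hVc, ENNReal.ofReal_mul hD.le] at k1
      have hD1 : ENNReal.ofReal D ≠ 0 := by
        rw [Ne, ENNReal.ofReal_eq_zero, not_le]; exact hD
      have k2 := (ENNReal.mul_le_mul_iff_right hD1 ENNReal.ofReal_ne_top).1 k1
      refine k2.trans (le_of_eq ?_)
      rw [lintegral_const, Measure.restrict_apply_univ, Real.volume_Ioo, mul_comm (h + h') c,
        ENNReal.ofReal_mul hg.le]
      congr 2
      ring
  have e4 : ∀ᵐ t ∂(volume : Measure ℝ), t ∈ Ioo (-h') h → g t = c := by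
    have := (ae_restrict_iff' measurableSet_Ioo).1 e3
    filter_upwards [this] with p hp hpi
    exact ((ENNReal.ofReal_eq_ofReal_iff hg.le (H.nonneg p)).1 (hp hpi)).symm
  intro t0 ht0
  apply le_antisymm _ (low t0 ht0)
  by_contra hcon
  push Not at hcon
  obtain ⟨t1, ht1, ht1c⟩ : ∃ t1 ∈ Ioo t0 h, g t1 = c := by
    by_contra hno
    push Not at hno
    have hz : volume (Ioo t0 h) = 0 := by
      refine measure_mono_null ?_ e4
      intro t ht hcon2
      exact hno t ht (hcon2 ⟨ht0.1.trans ht.1, ht.2⟩)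
    rw [Real.volume_Ioo, ENNReal.ofReal_eq_zero] at hz
    linarith [ht0.2]
  have hd : 0 < h - t0 := by linarith [ht0.2]
  set s := (h - t1) / (h - t0) with hs
  have hs0 : 0 < s := div_pos (by linarith [ht1.2]) hd
  have hs1 : s < 1 := by rw [hs, div_lt_one hd]; linarith [ht1.1]
  have e0 : s * (h - t0) = h - t1 := div_mul_cancel₀ _ hd.ne'
  have e1 : s * t0 + (1 - s) * h = t1 := by linarith
  have k1 := H.combo s t0 h hs0 hs1
  rw [e1, ht1c, ← hc] at k1
  have k2 : c ^ s < g t0 ^ s := Real.rpow_lt_rpow hg.le hcon hs0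
  have k3 : c ^ s * c ^ (1 - s) < g t0 ^ s * c ^ (1 - s) :=
    mul_lt_mul_of_pos_right k2 (Real.rpow_pos_of_pos hg _)
  rw [← Real.rpow_add hg] at k3
  have k4 : c ^ (s + (1 - s)) = c := by simp
  rw [k4] at k3
  linarith

variable {E : Type} [NormedAddCommGroup E] [InnerProductSpace ℝ E] [FiniteDimensional ℝ E]
  [MeasurableSpace E] [BorelSpace E]

theorem line_sect {L : Submodule ℝ E} (hL1 : Module.finrank ℝ L = 1) (w : L) (hw : ‖w‖ = 1)
    {K : Set E} (hK : IsCompact K) (hKc : Convex ℝ K) (h0 : (0 : E) ∈ K) {D : ℝ≥0} (hDpos : 0 < D)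
    (hD : ∀ K : Set E, MeasurableSet K → Measurable (fv L K) ∧
      volume K = D * ∫⁻ a : L, fv L K a) :
    Sect (supp K (w : E)) (supp K (-(w : E))) D (volume.real K)
      (fun t => (fv L K (t • w)).toReal) := by
  obtain ⟨j, hj⟩ := exists_line_equiv' hL1 hw
  obtain ⟨hm, hv⟩ := hD K hK.measurableSet
  have hmj : Measurable (fun t : ℝ => fv L K (t • w)) := hm.comp (by fun_prop)
  refine ⟨supp_nonneg hK h0 _, supp_nonneg hK h0 _, fun _ => ENNReal.toReal_nonneg,
    hmj.ennreal_toReal, by exact_mod_cast hDpos, measureReal_nonneg, ?_, ?_⟩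
  · intro s t t' hs0 hs1
    have h1 := fv_combo hK hKc hs0 (show 0 < 1 - s by linarith) (by ring) (t • w) (t' • w)
    have h2 := ENNReal.toReal_mono (fv_lt_top L hK _).ne h1
    rw [ENNReal.toReal_mul, ← ENNReal.toReal_rpow, ← ENNReal.toReal_rpow] at h2
    have e : s • t • w + (1 - s) • t' • w = (s * t + (1 - s) * t') • w := by module
    rw [e] at h2
    exact h2
  · rw [measureReal_def, ENNReal.ofReal_toReal hK.measure_lt_top.ne, hv, lint_line j hm,
      ENNReal.ofReal_coe_nnreal]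
    congr 1
    refine lintegral_congr fun t => ?_
    rw [hj, ENNReal.ofReal_toReal (fv_lt_top L hK _).ne]

/-- **Lines**: the inequality and the case of equality. -/
theorem line_case {L : Submodule ℝ E} (hL1 : Module.finrank ℝ L = 1) (w : L) (hw : ‖w‖ = 1)
    {K : Set E} (hK : IsCompact K) (hKc : Convex ℝ K) (hKi : (interior K).Nonempty)
    (h0 : (0 : E) ∈ K) {N : ℝ} (hN : 0 ≤ N)
    (h1 : N ≤ Module.finrank ℝ E * volume.real (segs K {(w : E)}))
    (h2 : N ≤ Module.finrank ℝ E * volume.real (segs K {-(w : E)})) :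
    2 * N ≤ volume.real K ∧ (volume.real K = 2 * N → ∃ L' : Submodule ℝ E, IsCompl L L' ∧
      volume (segs K (((L : Set E) ∪ L')ᶜ ∩ sphere 0 1)) = 0) := by
  obtain ⟨D, hDpos, hD⟩ := exists_vol_fib L
  have H := line_sect hL1 w hw hK hKc h0 hDpos hD
  have c1 := cone_mass_le hL1 w hw hK h0 hD
  have c2 := cone_mass_le hL1 (-w) (by rw [norm_neg]; exact hw) hK h0 hD
  rw [Submodule.coe_neg, smul_neg, ← neg_smul] at c2
  have k1 := h1.trans c1
  have k2 := h2.trans c2
  refine ⟨H.ineq hN k1 k2, fun heq => ?_⟩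
  have hVpos : 0 < volume.real K := by
    rw [measureReal_def]
    refine ENNReal.toReal_pos ?_ hK.measure_lt_top.ne
    exact ((isOpen_interior.measure_pos volume hKi).trans_le (measure_mono interior_subset)).ne'
  have hNpos : 0 < N := by linarith
  have H2 := H.const hNpos k1 k2 heq
  refine null_of_const hK hKc hKi h0
    (c := fv L K (supp K (w : E) • w)) ?_
  intro a ha
  obtain ⟨j, hj⟩ := exists_line_equiv' hL1 hw
  obtain ⟨t, rfl⟩ := j.surjective a
  rw [hj] at ha ⊢
  obtain ⟨x, hx, hxt⟩ := ha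
  have hww : ⟪(w : E), (w : E)⟫ = 1 := by
    rw [real_inner_self_eq_norm_sq]
    have : ‖(w : E)‖ = 1 := hw
    rw [this]; norm_num
  have hxt' : ⟪x, (w : E)⟫ = t := by
    have h3 := inner_pj L x w
    rw [hxt] at h3
    have h4 : ⟪t • w, w⟫ = t := by
      rw [real_inner_smul_left]
      have : ⟪w, w⟫ = 1 := hww
      rw [this, mul_one]
    rw [← h3, h4]
  obtain ⟨ε, hε, hball⟩ := Metric.isOpen_iff.1 isOpen_interior x hx
  have hmem : ∀ s : ℝ, |s| < ε → x + s • (w : E) ∈ K := by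
    intro s hs
    apply interior_subset
    apply hball
    rw [mem_ball, dist_eq_norm, add_sub_cancel_left, norm_smul, Real.norm_eq_abs]
    have : ‖(w : E)‖ = 1 := hw
    rw [this, mul_one]; exact hs
  have hup : t < supp K (w : E) := by
    have h3 := le_supp hK (hmem (ε / 2) (by rw [abs_of_pos (by positivity)]; linarith)) (w : E)
    rw [inner_add_left, real_inner_smul_left, hww, hxt'] at h3
    linarith
  have hlo : -supp K (-(w : E)) < t := by
    have h3 := le_supp hK (hmem (-(ε / 2)) (by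
      rw [abs_neg, abs_of_pos (by positivity)]; linarith)) (-(w : E))
    rw [inner_neg_right, inner_add_left, real_inner_smul_left, hww, hxt'] at h3
    linarith
  have h3 := H2 t ⟨hlo, hup⟩
  exact (ENNReal.toReal_eq_toReal_iff' (fv_lt_top L hK _).ne (fv_lt_top L hK _).ne).1 h3

end Pool.Agent.Lib.MP_abca01_gt.Plane3
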