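import Pool.Agent.Lib.MP_abca01_gt.Sym.SNec

/-!
# The cone over a face
-/

set_option autoImplicit false

open MeasureTheory Set Metric Filter Topology
open scoped RealInnerProductSpace Pointwise ENNReal NNReal

namespace Pool.Agent.Lib.MP_abca01_gt.Plane3

open MP_abca01_gt.Sym Ess Variationaux Energyaux Borelaux Capaux

/-- A parametrisation of a one-dimensional space by a unit vector. -/
theorem exists_line_equiv' {W : Type} [NormedAddCommGroup W] [InnerProductSpace ℝ W]
    [FiniteDimensional ℝ W] (hW : Module.finrank ℝ W = 1) {w : W} (hw : ‖w‖ = 1) :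
    ∃ j : ℝ ≃ₗᵢ[ℝ] W, ∀ t : ℝ, j t = t • w := by
  refine ⟨(LinearIsometry.toSpanSingleton ℝ W hw).toLinearIsometryEquiv (by simp [hW]),
    fun t => ?_⟩
  rfl

theorem lint_pow {h : ℝ} (hh : 0 < h) (k : ℕ) :
    ∫⁻ t in Ioc 0 h, ENNReal.ofReal ((t / h) ^ k) = ENNReal.ofReal (h / (k + 1)) := by
  have hint : IntegrableOn (fun t : ℝ => (t / h) ^ k) (Ioc 0 h) := by
    have : Continuous (fun t : ℝ => (t / h) ^ k) := by fun_prop
    exact this.integrableOn_Ioc
  rw [← ofReal_integral_eq_lintegral_ofReal hint, ← intervalIntegral.integral_of_le hh.le]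
  · congr 1
    have e : (fun t : ℝ => (t / h) ^ k) = fun t => (h ^ k)⁻¹ * t ^ k := by
      funext t
      rw [div_pow, div_eq_inv_mul]
    rw [e, intervalIntegral.integral_const_mul, integral_pow]
    have hk : h ^ k ≠ 0 := (pow_pos hh k).ne'
    rw [zero_pow (by omega), sub_zero, pow_succ]
    field_simp
  · exact (ae_restrict_iff' measurableSet_Ioc).2
      (ae_of_all _ fun t ht => pow_nonneg (div_nonneg ht.1.le hh.le) k)

variable {E : Type} [NormedAddCommGroup E] [InnerProductSpace ℝ E] [FiniteDimensional ℝ E]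
  [MeasurableSpace E] [BorelSpace E]

theorem compact_singleton (w : E) : IsCompact ({w} : Set E) := isCompact_singleton

/-- Transfer of integrals to the line. -/
theorem lint_line {W : Type} [NormedAddCommGroup W] [InnerProductSpace ℝ W]
    [FiniteDimensional ℝ W] [MeasurableSpace W] [BorelSpace W] (j : ℝ ≃ₗᵢ[ℝ] W) {φ : W → ℝ≥0∞}
    (hφ : Measurable φ) : ∫⁻ a, φ a = ∫⁻ t, φ (j t) :=
  (j.measurePreserving.lintegral_comp hφ).symm

/-- The volume of the cone over a face. -/
theorem cone_mass_le {L : Submodule ℝ E} (hL1 : Module.finrank ℝ L = 1) (w : L) (hw : ‖w‖ = 1)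
    {K : Set E} (hK : IsCompact K) (h0 : (0 : E) ∈ K) {D : ℝ≥0}
    (hD : ∀ K : Set E, MeasurableSet K → Measurable (fv L K) ∧
      volume K = D * ∫⁻ a : L, fv L K a) :
    (Module.finrank ℝ E : ℝ) * volume.real (segs K {(w : E)}) ≤
      D * (supp K (w : E) * (fv L K (supp K (w : E) • w)).toReal) := by
  have hww : ⟪(w : E), (w : E)⟫ = 1 := by
    rw [real_inner_self_eq_norm_sq]
    have : ‖(w : E)‖ = 1 := hw
    rw [this]; norm_num
  have hw0 : (w : E) ≠ 0 := by
    intro h
    rw [h, inner_zero_left] at hww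
    exact zero_ne_one hww
  have hne : K.Nonempty := ⟨0, h0⟩
  set h := supp K (w : E) with hh
  have hh0 : 0 ≤ h := supp_nonneg hK h0 _
  set S := segs K {(w : E)} with hS
  have hSc : IsCompact S := isCompact_segs hK isCompact_singleton
  have hmem : ∀ x ∈ S, ∃ y ∈ K, ⟪y, (w : E)⟫ = h ∧ ∃ s ∈ Icc (0 : ℝ) 1, x = s • y := by
    rintro x ⟨u, hu, y, hy, hmax, s, hs, rfl⟩
    have hu' : u = (w : E) := hu
    subst hu'
    refine ⟨y, hy, ?_, s, hs, rfl⟩
    exact le_antisymm (le_supp hK hy _) (supp_le hne hmax)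
  rcases hh0.eq_or_lt with hz | hpos
  · have h1 : volume S = 0 := by
      refine measure_mono_null ?_ (lvl_null hw0 0)
      intro x hx
      obtain ⟨y, hy, hyh, s, hs, rfl⟩ := hmem x hx
      change ⟪s • y, (w : E)⟫ = 0
      rw [real_inner_smul_left, hyh, ← hz, mul_zero]
    rw [measureReal_def, h1, ← hz]
    simp
  have hfin := (fv_lt_top L hK (h • w)).ne
  set n := Module.finrank ℝ E with hn
  have hperp : Module.finrank ℝ Lᗮ = n - 1 := by
    have := Submodule.finrank_add_finrank_orthogonal L
    omega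
  have hn1 : 1 ≤ n := by
    have := Submodule.finrank_add_finrank_orthogonal L
    omega
  obtain ⟨j, hj⟩ := exists_line_equiv' hL1 hw
  obtain ⟨hm, hv⟩ := hD S hSc.measurableSet
  rw [lint_line j hm] at hv
  have hb : ∀ᵐ t : ℝ, fv L S (j t) ≤
      (Ioc 0 h).indicator (fun t => ENNReal.ofReal ((t / h) ^ (n - 1)) * fv L K (h • w)) t := by
    have h1 : ∀ᵐ t : ℝ, t ≠ 0 := by
      rw [ae_iff]
      simp
    filter_upwards [h1] with t ht
    by_cases htI : t ∈ Ioc 0 h
    · rw [indicator_of_mem htI]
      have hsub : fb L S (j t) ⊆ (t / h) • fb L K (h • w) := by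
        intro b hb
        obtain ⟨y, hy, hyh, s, hs, hxy⟩ := hmem _ hb
        have h2 : s * h = t := by
          have h3 := congrArg (fun z => ⟪z, (w : E)⟫) hxy
          simp only [inner_add_left, real_inner_smul_left] at h3
          rw [hj, Submodule.coe_smul, real_inner_smul_left, hww, hyh,
            Submodule.inner_left_of_mem_orthogonal w.2 b.2] at h3
          linarith
        have hs' : s = t / h := by rw [← h2]; field_simp
        have htpos : 0 < t / h := div_pos htI.1 hpos
        refine ⟨(t / h)⁻¹ • b, ?_, ?_⟩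
        · change ((h • w : L) : E) + (((t / h)⁻¹ • b : Lᗮ) : E) ∈ K
          have e : ((h • w : L) : E) + (((t / h)⁻¹ • b : Lᗮ) : E) = y := by
            have h4 : (t / h) • (((h • w : L) : E) + (((t / h)⁻¹ • b : Lᗮ) : E)) = (t / h) • y := by
              rw [← hs', ← hxy, hs', smul_add, Submodule.coe_smul, Submodule.coe_smul, smul_smul,
                smul_smul, mul_inv_cancel₀ htpos.ne', one_smul, div_mul_cancel₀ _ hpos.ne', hj,
                Submodule.coe_smul]
            exact smul_right_injective _ htpos.ne' h4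
          rw [e]; exact hy
        · change (t / h) • ((t / h)⁻¹ • b) = b
          rw [smul_smul, mul_inv_cancel₀ htpos.ne', one_smul]
      refine (measure_mono hsub).trans ?_
      rw [Measure.addHaar_smul, hperp, abs_of_nonneg (pow_nonneg (div_nonneg htI.1.le hh0) _)]
      exact le_rfl
    · rw [indicator_of_notMem htI]
      have h2 : fb L S (j t) = ∅ := by
        rw [eq_empty_iff_forall_notMem]
        intro b hb
        obtain ⟨y, hy, hyh, s, hs, hxy⟩ := hmem _ hb
        apply htI
        have h2 : s * h = t := by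
          have h3 := congrArg (fun z => ⟪z, (w : E)⟫) hxy
          simp only [inner_add_left, real_inner_smul_left] at h3
          rw [hj, Submodule.coe_smul, real_inner_smul_left, hww, hyh,
            Submodule.inner_left_of_mem_orthogonal w.2 b.2] at h3
          linarith
        rw [← h2]
        refine ⟨?_, ?_⟩
        · have h4 : 0 ≤ s * h := mul_nonneg hs.1 hh0
          rw [h2] at h4 ⊢
          exact lt_of_le_of_ne h4 (Ne.symm ht)
        · nlinarith [hs.2]
      unfold fv
      rw [h2, measure_empty]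
  have h3 := lintegral_mono_ae hb
  rw [lintegral_indicator measurableSet_Ioc, lintegral_mul_const' _ _ hfin, lint_pow hpos] at h3
  have e1 : (((n - 1 : ℕ) : ℝ) + 1) = n := by
    have : ((n - 1 + 1 : ℕ) : ℝ) = n := by
      congr 1
      omega
    rw [← this]; push_cast; ring
  rw [e1] at h3
  have h4 : volume S ≤ D * (ENNReal.ofReal (h / n) * fv L K (h • w)) := by
    rw [hv]
    exact mul_le_mul_right h3 _
  have h5 := ENNReal.toReal_mono (ENNReal.mul_ne_top ENNReal.coe_ne_top
    (ENNReal.mul_ne_top ENNReal.ofReal_ne_top hfin)) h4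
  rw [ENNReal.toReal_mul, ENNReal.toReal_mul, ENNReal.toReal_ofReal (by positivity)] at h5
  have hn0 : (0 : ℝ) < n := by exact_mod_cast hn1
  calc (n : ℝ) * volume.real S
      ≤ n * (((D : ℝ≥0∞)).toReal * (h / n * (fv L K (h • w)).toReal)) :=
        mul_le_mul_of_nonneg_left h5 hn0.le
    _ = _ := by
      rw [ENNReal.coe_toReal]
      field_simp

end Pool.Agent.Lib.MP_abca01_gt.Plane3
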