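import Pool.Agent.Lib.MP_abca01_gt.Plane3.PlaneCase
import Pool.Agent.Lib.MP_abca01_gt.Plane3.Line
import Pool.Agent.Lib.MP_abca01_gt.Sym.SIff
import Pool.Agent.Lib.MP_abca01_gt.EFin

/-!
# Measures on the two-sphere which are even on the heavy subspaces
-/

set_option autoImplicit false

open MeasureTheory Set Metric
open scoped ENNReal RealInnerProductSpace

namespace Pool.Agent.Lib.MP_abca01_gt.Plane3

open MP_abca01_gt.Sym

/-- The measure is even on the subspace. -/
def EvOn (mu : Measure V3) (L : Submodule ℝ V3) : Prop :=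
  ∀ ω : Set V3, MeasurableSet ω → ω ⊆ L → mu {u | -u ∈ ω} = mu ω

/-- The representability. -/
def Rep3 (mu : Measure V3) : Prop :=
  ∃ K : Set V3, IsCompact K ∧ Convex ℝ K ∧ (interior K).Nonempty ∧ (0 : V3) ∈ K ∧
    ∀ ω : Set V3, MeasurableSet ω → ω ⊆ sphere (0 : V3) 1 → cvol K ω = mu ω

theorem cvol_eq (K ω : Set V3) : cvol K ω = volume (segs K ω) := rfl

theorem fr3 : Module.finrank ℝ V3 = 3 := finrank_euclideanSpace_fin

variable {mu : Measure V3}

theorem mu_inter (hsph : mu (sphere 0 1)ᶜ = 0) (s : Set V3) : mu (s ∩ sphere 0 1) = mu s := by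
  have hsae : ∀ᵐ u ∂mu, u ∈ sphere (0 : V3) 1 := hsph
  apply measure_congr
  filter_upwards [hsae] with u hu
  apply propext
  exact ⟨fun h => h.1, fun h => ⟨h, hu⟩⟩

/-- The total mass. -/
theorem rep_univ (hsph : mu (sphere 0 1)ᶜ = 0) {K : Set V3} (hK : IsCompact K)
    (hKc : Convex ℝ K) (h0 : (0 : V3) ∈ K)
    (hrep : ∀ ω : Set V3, MeasurableSet ω → ω ⊆ sphere (0 : V3) 1 → cvol K ω = mu ω) :
    mu univ = volume K := by
  have h1 := total_segs (E := V3) (by rw [fr3]; norm_num) hK hKc h0
  have h2 : volume (segs K (sphere (0 : V3) 1)) = volume K := by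
    rw [measureReal_def, measureReal_def] at h1
    refine (ENNReal.toReal_eq_toReal_iff' ?_ hK.measure_lt_top.ne).1 h1
    exact measure_ne_top_of_subset (segs_subset hKc h0) hK.measure_lt_top.ne
  rw [← h2, ← cvol_eq, hrep _ isClosed_sphere.measurableSet Subset.rfl,
    ← mu_inter hsph univ, univ_inter]

/-- **Necessity**, for every measure below the cone volume measure which is even on `L`. -/
theorem nec3 [IsFiniteMeasure mu] (hsph : mu (sphere 0 1)ᶜ = 0) (hrep : Rep3 mu)
    {L : Submodule ℝ V3} (hL : L ≠ ⊥) (hL' : L ≠ ⊤) {nu : Measure V3} (hnu : nu ≤ mu)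
    (hev : EvOn nu L) :
    3 * nu.real (L : Set V3) ≤ Module.finrank ℝ L * mu.real univ ∧
    (3 * nu.real (L : Set V3) = Module.finrank ℝ L * mu.real univ →
      ∃ L' : Submodule ℝ V3, IsCompl L L' ∧ mu ((L : Set V3) ∪ L')ᶜ = 0) := by
  obtain ⟨K, hK, hKc, hKi, h0, hmu⟩ := hrep
  have huniv := rep_univ hsph hK hKc h0 hmu
  have hnusph : nu (sphere 0 1)ᶜ = 0 := le_antisymm ((hnu _).trans_eq hsph) zero_le
  have hnufin : ∀ s, nu s ≠ ⊤ := fun s => ((hnu s).trans_lt (measure_lt_top mu s)).ne
  have hlt : Module.finrank ℝ L < 3 := by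
    have := Submodule.finrank_lt hL'
    rwa [fr3] at this
  have hpos : 0 < Module.finrank ℝ L := by
    rw [Module.finrank_pos_iff]
    exact Submodule.nontrivial_iff_ne_bot.2 hL
  have hsLm : MeasurableSet (sL L) := (isCompact_sL L).measurableSet
  have hnuL : nu (sL L) = nu (L : Set V3) := mu_inter hnusph _
  have hle : ∀ ω : Set V3, MeasurableSet ω → ω ⊆ sL L → nu ω ≤ cvol K ω := by
    intro ω hω hsub
    rw [hmu _ hω (hsub.trans inter_subset_right)]
    exact hnu ω
  have heven : ∀ ω : Set V3, MeasurableSet ω → ω ⊆ sL L → nu {u | -u ∈ ω} = nu ω :=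
    fun ω hω hsub => hev ω hω (hsub.trans inter_subset_left)
  -- the conclusion in the case of equality
  have hconcl : (∃ L' : Submodule ℝ V3, IsCompl L L' ∧
      cvol K (((L : Set V3) ∪ L')ᶜ ∩ sphere 0 1) = 0) →
      ∃ L' : Submodule ℝ V3, IsCompl L L' ∧ mu ((L : Set V3) ∪ L')ᶜ = 0 := by
    rintro ⟨L', hc, h1⟩
    refine ⟨L', hc, ?_⟩
    rw [hmu _ (((meas_sub L).union (meas_sub L')).compl.inter isClosed_sphere.measurableSet)
      inter_subset_right, mu_inter hsph] at h1
    exact h1
  have hdim : Module.finrank ℝ L = 1 ∨ Module.finrank ℝ L = 2 := by omega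
  rcases hdim with hd | hd
  · -- a line
    obtain ⟨w0, hw0⟩ : ∃ w : L, w ≠ 0 := by
      have : Nontrivial L := Module.nontrivial_of_finrank_pos (R := ℝ) (by omega)
      exact exists_ne 0
    have hn : 0 < ‖w0‖ := norm_pos_iff.2 hw0
    set w : L := ‖w0‖⁻¹ • w0 with hw
    have hwn : ‖w‖ = 1 := by
      rw [hw, norm_smul, norm_inv, norm_norm]
      exact inv_mul_cancel₀ hn.ne'
    have hwn' : ‖(w : V3)‖ = 1 := hwn
    have hsing : ∀ z : V3, ‖z‖ = 1 → ({z} : Set V3) ⊆ sphere 0 1 := by
      intro z hz u hu
      rw [mem_singleton_iff.1 hu, mem_sphere_zero_iff_norm]; exact hz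
    have e1 : cvol K {(w : V3)} = mu {(w : V3)} :=
      hmu _ (measurableSet_singleton _) (hsing _ hwn')
    have e2 : cvol K {-(w : V3)} = mu {-(w : V3)} :=
      hmu _ (measurableSet_singleton _) (hsing _ (by rw [norm_neg]; exact hwn'))
    have e3 : nu {-(w : V3)} = nu {(w : V3)} := by
      have h1 := hev {(w : V3)} (measurableSet_singleton _) (by
        intro u hu
        rw [mem_singleton_iff.1 hu]; exact w.2)
      rw [← h1]
      congr 1
      ext u
      simp only [mem_singleton_iff, mem_ofPred_eq]
      exact neg_eq_iff_eq_neg.symm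
    have hseg : sL L = {(w : V3)} ∪ {-(w : V3)} := by
      ext u
      constructor
      · rintro ⟨hu, hu1⟩
        obtain ⟨j, hj⟩ := exists_line_equiv' hd hwn
        obtain ⟨t, ht⟩ := j.surjective ⟨u, hu⟩
        rw [hj] at ht
        have ht' : u = t • (w : V3) := by
          have := congrArg (fun z : L => (z : V3)) ht
          exact this.symm
        rw [mem_sphere_zero_iff_norm, ht', norm_smul, hwn', mul_one, Real.norm_eq_abs] at hu1
        rcases (abs_eq zero_le_one).1 hu1 with h6 | h6
        · left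
          rw [ht', h6, one_smul]; rfl
        · right
          rw [ht', h6, neg_one_smul]; rfl
      · rintro (h | h)
        · rw [mem_singleton_iff.1 h]
          exact ⟨w.2, mem_sphere_zero_iff_norm.2 hwn'⟩
        · rw [mem_singleton_iff.1 h]
          exact ⟨L.neg_mem w.2, mem_sphere_zero_iff_norm.2 (by rw [norm_neg]; exact hwn')⟩
    have hne : (w : V3) ≠ -(w : V3) := by
      intro h
      have h1 : (2 : ℝ) • (w : V3) = 0 := by
        rw [two_smul]
        nth_rewrite 2 [h]
        exact add_neg_cancel _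
      rcases smul_eq_zero.1 h1 with h2 | h2
      · norm_num at h2
      · rw [h2, norm_zero] at hwn'
        exact zero_ne_one hwn'
    have hnuL2 : nu.real (L : Set V3) = 2 * nu.real {(w : V3)} := by
      have h1 : nu (L : Set V3) = nu {(w : V3)} + nu {-(w : V3)} := by
        rw [← hnuL, hseg, measure_union _ (measurableSet_singleton _)]
        rw [Set.disjoint_singleton]; exact hne
      rw [measureReal_def, measureReal_def, h1, e3, ENNReal.toReal_add (hnufin _) (hnufin _)]
      ring
    have hlc := line_case hd w hwn hK hKc hKi h0 (N := 3 * nu.real {(w : V3)})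
      (by positivity) (by
        rw [fr3, measureReal_def, measureReal_def, ← cvol_eq, e1]
        push_cast
        have := ENNReal.toReal_mono (measure_ne_top mu _) (hnu {(w : V3)})
        linarith) (by
        rw [fr3, measureReal_def, measureReal_def, ← cvol_eq, e2, ← e3]
        push_cast
        have := ENNReal.toReal_mono (measure_ne_top mu _) (hnu {-(w : V3)})
        linarith)
    rw [hd, hnuL2]
    have hV : volume.real K = mu.real univ := by
      rw [measureReal_def, measureReal_def, huniv]
    rw [hV] at hlc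
    refine ⟨?_, fun heq => ?_⟩
    · push_cast
      linarith [hlc.1]
    · push_cast at heq
      exact hconcl (hlc.2 (by linarith))
  · -- a plane
    have h1 := plane_ineq hd hK hKc h0 nu measure_empty (fun A B => measure_union_le A B) heven hle
    rw [hnuL, ← huniv] at h1
    rw [hd]
    refine ⟨?_, fun heq => ?_⟩
    · have h2 := ENNReal.toReal_mono (ENNReal.mul_ne_top ENNReal.ofNat_ne_top
        (measure_ne_top mu univ)) h1
      rw [ENNReal.toReal_mul, ENNReal.toReal_mul, ENNReal.toReal_ofNat, ENNReal.toReal_ofNat] at h2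
      push_cast
      exact h2
    · refine hconcl (plane_eq hd hK hKc hKi h0 nu measure_empty
        (fun A B => measure_union_le A B) heven hle ?_)
      rw [hnuL, ← huniv]
      push_cast at heq
      refine (ENNReal.toReal_eq_toReal_iff' (ENNReal.mul_ne_top ENNReal.ofNat_ne_top
        (hnufin _)) (ENNReal.mul_ne_top ENNReal.ofNat_ne_top
        (measure_ne_top _ _))).1 ?_
      rw [ENNReal.toReal_mul, ENNReal.toReal_mul, ENNReal.toReal_ofNat, ENNReal.toReal_ofNat]
      exact heq

/-- The group of plus and minus the identity. -/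
def pmG : Subgroup (V3 ≃ₗᵢ[ℝ] V3) where
  carrier := {1, LinearIsometryEquiv.neg ℝ}
  mul_mem' := by
    rintro a b (rfl | rfl) (rfl | rfl)
    · left; rfl
    · right; rfl
    · right; rfl
    · left
      ext x : 1
      exact neg_neg x
  one_mem' := Or.inl rfl
  inv_mem' := by
    rintro a (rfl | rfl)
    · left; exact inv_one
    · right
      rfl

instance : Finite pmG := by
  have : (({1, LinearIsometryEquiv.neg ℝ} : Set (V3 ≃ₗᵢ[ℝ] V3))).Finite := by
    exact (Set.finite_singleton _).insert _
  exact this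

theorem mem_pmG {g : V3 ≃ₗᵢ[ℝ] V3} (hg : g ∈ pmG) : (∀ x, g x = x) ∨ ∀ x, g x = -x := by
  rcases hg with rfl | rfl
  · left; intro x; rfl
  · right; intro x; rfl

theorem neg_mem_pmG : (LinearIsometryEquiv.neg ℝ : V3 ≃ₗᵢ[ℝ] V3) ∈ pmG := Or.inr rfl

/-- **Sufficiency.** -/
theorem suf3 [IsFiniteMeasure mu] (hmu0 : mu ≠ 0) (hsph : mu (sphere 0 1)ᶜ = 0)
    (hev : ∀ L : Submodule ℝ V3, L ≠ ⊥ → L ≠ ⊤ →
      (Module.finrank ℝ L : ℝ) * mu.real univ ≤ 3 * mu.real (L : Set V3) → EvOn mu L)
    (hscc : ∀ L : Submodule ℝ V3, L ≠ ⊥ → L ≠ ⊤ → SCC mu L) : Rep3 mu := by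
  have hpos : 0 < mu.real univ := by
    rw [measureReal_def]
    exact ENNReal.toReal_pos (by simpa using hmu0) (measure_ne_top _ _)
  have hmu00 : mu {0} = 0 := by
    refine measure_mono_null ?_ hsph
    intro u hu hu'
    rw [mem_singleton_iff.1 hu, mem_sphere_zero_iff_norm, norm_zero] at hu'
    exact zero_ne_one hu'
  by_cases hall : ∀ L : Submodule ℝ V3, L ≠ ⊥ → L ≠ ⊤ →
      (Module.finrank ℝ V3 : ℝ) * mu.real (L : Set V3) < Module.finrank ℝ L * mu.real univ
  · -- all inequalities are strict
    have b := stmtBorel stmtOverlap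
    apply Ess.ess_theorem stmtVolDeriv b _ volume mu (by rw [fr3]; norm_num) (sphere 0 1)
      isClosed_sphere Subset.rfl hsph
    · intro v hv
      have hn : 0 < ‖v‖ := norm_pos_iff.2 hv
      refine ⟨-(‖v‖⁻¹ • v), ?_, ?_⟩
      · rw [mem_sphere_zero_iff_norm, norm_neg, norm_smul, norm_inv, norm_norm]
        exact inv_mul_cancel₀ hn.ne'
      · rw [inner_neg_left, real_inner_smul_left, real_inner_self_eq_norm_sq]
        have : 0 < ‖v‖⁻¹ * ‖v‖ ^ 2 := by positivity
        linarith
    · intro v hv hz
      have hf : Module.finrank ℝ (ℝ ∙ v) = 1 := finrank_span_singleton hv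
      have hf2 := Submodule.finrank_add_finrank_orthogonal (ℝ ∙ v)
      rw [hf, fr3] at hf2
      have hf3 : Module.finrank ℝ (ℝ ∙ v)ᗮ = 2 := by omega
      have h1 := hall (ℝ ∙ v)ᗮ (by
        intro h
        rw [h, finrank_bot] at hf3
        omega) (by
        intro h
        rw [h, finrank_top, fr3] at hf3
        omega)
      rw [fr3, hf3] at h1
      have h2 : mu (((ℝ ∙ v)ᗮ : Submodule ℝ V3) : Set V3) = mu univ := by
        apply measure_congr
        have h3 : ∀ᵐ u ∂mu, ⟪u, v⟫ = 0 := by
          rw [ae_iff]; exact hz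
        filter_upwards [h3] with u hu
        apply propext
        refine ⟨fun _ => trivial, fun _ => ?_⟩
        change u ∈ (ℝ ∙ v)ᗮ
        rw [Submodule.mem_orthogonal_singleton_iff_inner_left]
        exact hu
      rw [measureReal_def, h2, ← measureReal_def] at h1
      push_cast at h1
      linarith
    · intro L hL hL'
      exact Or.inl (hall L hL hL')
  · -- equality for some subspace
    push Not at hall
    obtain ⟨L, hL, hL', hge⟩ := hall
    obtain ⟨hle, heqc⟩ := hscc L hL hL'
    have heq := le_antisymm hle hge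
    obtain ⟨L', hc, hnull⟩ := heqc heq
    rw [fr3] at heq
    push_cast at heq
    have hM : L' ≠ ⊥ := by
      rintro rfl
      exact hL' (hc.codisjoint.eq_top_of_le bot_le |> fun h => by simpa using h)
    have hM' : L' ≠ ⊤ := by
      rintro rfl
      exact hL (hc.disjoint.eq_bot_of_le le_top)
    have hdim := Submodule.finrank_add_eq_of_isCompl hc
    rw [fr3] at hdim
    have hmass : mu univ = mu (L : Set V3) + mu (L' : Set V3) := by
      have h1 : mu univ = mu ((L : Set V3) ∪ L') := by
        apply measure_congr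
        have : ∀ᵐ u ∂mu, u ∈ (L : Set V3) ∪ L' := by
          rw [ae_iff]; exact hnull
        filter_upwards [this] with u hu
        apply propext
        exact ⟨fun _ => hu, fun _ => trivial⟩
      have h2 : mu ((L : Set V3) ∩ L') = 0 := by
        refine measure_mono_null ?_ hmu00
        rintro u ⟨hu, hu'⟩
        have := hc.disjoint.le_bot (show u ∈ L ⊓ L' from ⟨hu, hu'⟩)
        exact (Submodule.mem_bot ℝ).1 this
      have h3 := measure_union_add_inter (μ := mu) (L : Set V3) (meas_sub L')
      rw [h2, add_zero, ← h1] at h3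
      exact h3
    have hmassr : mu.real univ = mu.real (L : Set V3) + mu.real (L' : Set V3) := by
      rw [measureReal_def, hmass, ENNReal.toReal_add (measure_ne_top _ _) (measure_ne_top _ _)]
      rfl
    have hdr : (Module.finrank ℝ L : ℝ) + Module.finrank ℝ L' = 3 := by exact_mod_cast hdim
    have hevL := hev L hL hL' (by linarith)
    have hevL' := hev L' hM hM' (by nlinarith)
    -- the measure is even
    have hinv : ∀ s : Set V3, MeasurableSet s → mu {u | -u ∈ s} = mu s := by
      intro s hs
      have hdec : ∀ t : Set V3, MeasurableSet t → mu t = mu (t ∩ L) + mu (t ∩ L') := by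
        intro t ht
        have h1 : mu t = mu ((t ∩ L) ∪ (t ∩ L')) := by
          apply measure_congr
          have : ∀ᵐ u ∂mu, u ∈ (L : Set V3) ∪ L' := by
            rw [ae_iff]; exact hnull
          filter_upwards [this] with u hu
          apply propext
          constructor
          · intro h
            rcases hu with h' | h'
            · exact Or.inl ⟨h, h'⟩
            · exact Or.inr ⟨h, h'⟩
          · rintro (h | h)
            · exact h.1
            · exact h.1
        have h2 : mu ((t ∩ L) ∩ (t ∩ L')) = 0 := by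
          refine measure_mono_null ?_ hmu00
          rintro u ⟨⟨_, hu⟩, ⟨_, hu'⟩⟩
          have := hc.disjoint.le_bot (show u ∈ L ⊓ L' from ⟨hu, hu'⟩)
          exact (Submodule.mem_bot ℝ).1 this
        have h3 := measure_union_add_inter (μ := mu) (t ∩ L) (ht.inter (meas_sub L'))
        rw [h2, add_zero, ← h1] at h3
        exact h3
      have hm : MeasurableSet {u : V3 | -u ∈ s} := measurable_neg hs
      have hpart : ∀ P : Submodule ℝ V3, EvOn mu P →
          mu ({u : V3 | -u ∈ s} ∩ P) = mu (s ∩ P) := by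
        intro P hP
        have h1 := hP (s ∩ P) (hs.inter (meas_sub P)) inter_subset_right
        rw [← h1]
        congr 1
        ext u
        constructor
        · rintro ⟨h, h'⟩
          exact ⟨h, P.neg_mem h'⟩
        · rintro ⟨h, h'⟩
          refine ⟨h, ?_⟩
          have := P.neg_mem h'
          rwa [neg_neg] at this
      rw [hdec _ hm, hdec s hs, hpart L hevL, hpart L' hevL']
    have hsccall : ∀ P : Submodule ℝ V3, SCC mu P := by
      intro P
      by_cases h1 : P = ⊥
      · subst h1
        have hz : mu.real ((⊥ : Submodule ℝ V3) : Set V3) = 0 := by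
          have h0 : ((⊥ : Submodule ℝ V3) : Set V3) = {0} := by
            ext u
            exact Submodule.mem_bot ℝ
          rw [measureReal_def, h0, hmu00]
          rfl
        refine ⟨?_, fun _ => ⟨⊤, isCompl_bot_top, ?_⟩⟩
        · rw [hz, finrank_bot]; simp
        · simp
      by_cases h2 : P = ⊤
      · subst h2
        refine ⟨?_, fun _ => ⟨⊥, isCompl_top_bot, ?_⟩⟩
        · rw [finrank_top]
          exact le_rfl
        · simp
      exact hscc P h1 h2
    have hch := (char_axis (G := pmG) (v := (0 : V3)) (fun g _ => map_zero g) (by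
      intro x hx
      have h1 : -x = x := hx _ neg_mem_pmG
      refine ⟨0, ?_⟩
      rw [zero_smul]
      have h2 : (2 : ℝ) • x = 0 := by
        rw [two_smul]
        nth_rewrite 1 [← h1]
        exact neg_add_cancel x
      exact (smul_eq_zero.1 h2).resolve_left (by norm_num)) mu hmu0 (by rw [fr3]; norm_num) (by
      intro g hg s hs
      rcases mem_pmG hg with h | h
      · have : g ⁻¹' s = s := by
          ext u
          rw [mem_preimage, h]
        rw [this]
      · have : g ⁻¹' s = {u | -u ∈ s} := by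
          ext u
          rw [mem_preimage, h]
          rfl
        rw [this]
        exact hinv s hs) hsph (fun P _ _ _ => Or.inl (hsccall P))).2
      (fun P _ _ _ => hsccall P)
    obtain ⟨K, h1, h2, h3, h4, -, h6⟩ := hch
    exact ⟨K, h1, h2, h3, h4, h6⟩

/-- The concentration condition for the measures below `mu` which are even on `L`. -/
def EvSCC (mu : Measure V3) : Prop :=
  ∀ L : Submodule ℝ V3, L ≠ ⊥ → L ≠ ⊤ → ∀ nu : Measure V3, nu ≤ mu → EvOn nu L →
    3 * nu.real (L : Set V3) ≤ Module.finrank ℝ L * mu.real univ ∧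
    (3 * nu.real (L : Set V3) = Module.finrank ℝ L * mu.real univ →
      ∃ L' : Submodule ℝ V3, IsCompl L L' ∧ mu ((L : Set V3) ∪ L')ᶜ = 0)

/-- **The characterisation.** -/
theorem main3 [IsFiniteMeasure mu] (hmu0 : mu ≠ 0) (hsph : mu (sphere 0 1)ᶜ = 0)
    (hev : EvSCC mu → ∀ L : Submodule ℝ V3, L ≠ ⊥ → L ≠ ⊤ →
      (Module.finrank ℝ L : ℝ) * mu.real univ ≤ 3 * mu.real (L : Set V3) → EvOn mu L) :
    Rep3 mu ↔ EvSCC mu := by
  refine ⟨fun h L hL hL' nu hnu hev => nec3 hsph h hL hL' hnu hev, fun h => ?_⟩
  have hev' := hev h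
  refine suf3 hmu0 hsph hev' fun L hL hL' => ?_
  by_cases hc : (Module.finrank ℝ L : ℝ) * mu.real univ ≤ 3 * mu.real (L : Set V3)
  · have := h L hL hL' mu le_rfl (hev' L hL hL' hc)
    unfold SCC
    rw [fr3]
    exact this
  · push Not at hc
    unfold SCC
    rw [fr3]
    push_cast
    exact ⟨hc.le, fun h => absurd h hc.ne⟩

end Pool.Agent.Lib.MP_abca01_gt.Plane3
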