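import Mathlib

/-!
# Closed polygons with paired edge directions

`IsModel n th a a' q r`: the closed polygon with vertices `q 0, ..., q n = r 0, ..., r n = q 0`
whose edge from `q k` to `q (k+1)` has exterior normal `uv (th k)` and length `a k`, and whose edge
from `r k` to `r (k+1)` has exterior normal `- uv (th k)` and length `a' k`.
-/

set_option autoImplicit false

open Finset

namespace Pool.Agent.Lib.MP_abca01_gt.Plane3

/-- the inner product of the plane -/
def ip (x y : ℝ × ℝ) : ℝ := x.1 * y.1 + x.2 * y.2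

/-- the unit vector with angle `t` -/
noncomputable def uv (t : ℝ) : ℝ × ℝ := (Real.cos t, Real.sin t)

/-- the unit vector with angle `t + π/2` -/
noncomputable def Jv (t : ℝ) : ℝ × ℝ := (-Real.sin t, Real.cos t)

theorem ip_add (x y z : ℝ × ℝ) : ip (x + y) z = ip x z + ip y z := by
  simp only [ip, Prod.fst_add, Prod.snd_add]; ring

theorem ip_sub (x y z : ℝ × ℝ) : ip (x - y) z = ip x z - ip y z := by
  simp only [ip, Prod.fst_sub, Prod.snd_sub]; ring

theorem ip_smul (c : ℝ) (x z : ℝ × ℝ) : ip (c • x) z = c * ip x z := by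
  simp only [ip, Prod.smul_fst, Prod.smul_snd, smul_eq_mul]; ring

theorem ip_zero (z : ℝ × ℝ) : ip 0 z = 0 := by simp [ip]

theorem ip_Jv_uv (s t : ℝ) : ip (Jv s) (uv t) = Real.sin (t - s) := by
  simp only [ip, Jv, uv, Real.sin_sub]; ring

theorem ip_sum {ι : Type*} (s : Finset ι) (f : ι → ℝ × ℝ) (z : ℝ × ℝ) :
    ip (∑ i ∈ s, f i) z = ∑ i ∈ s, ip (f i) z := by
  classical
  induction s using Finset.induction_on with
  | empty => simp [ip]
  | insert a s ha ih => rw [Finset.sum_insert ha, Finset.sum_insert ha, ip_add, ih]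

theorem mono_up (g : ℕ → ℝ) (i : ℕ) (h : ∀ k < i, g k ≤ g (k + 1)) : ∀ k ≤ i, g k ≤ g i := by
  induction i with
  | zero => intro k hk; rw [Nat.le_zero.1 hk]
  | succ i ih =>
    intro k hk
    rcases Nat.lt_or_ge k (i + 1) with h1 | h1
    · exact (ih (fun k hk => h k (by omega)) k (by omega)).trans (h i (by omega))
    · rw [le_antisymm hk h1]

theorem mono_down (g : ℕ → ℝ) (i n : ℕ) (h : ∀ k, i ≤ k → k < n → g (k + 1) ≤ g k) :
    ∀ k, i ≤ k → k ≤ n → g k ≤ g i := by
  intro k hik
  induction k, hik using Nat.le_induction with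
  | base => intro _; exact le_refl _
  | succ k hk ih =>
    intro hkn
    exact (h k hk (by omega)).trans (ih (by omega))

/-- In a closed sequence the difference of two terms is at most half of the total variation. -/
theorem closed_var (g : ℕ → ℝ) (n : ℕ) (hg : g n = g 0) (i k : ℕ) (hi : i ≤ n) (hk : k ≤ n) :
    2 * |g i - g k| ≤ ∑ j ∈ range n, |g (j + 1) - g j| := by
  wlog h : k ≤ i generalizing i k
  · rw [abs_sub_comm]
    exact this k i hk hi (by omega)
  have h1 : g i - g k = ∑ j ∈ Ico k i, (g (j + 1) - g j) := by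
    rw [Finset.sum_Ico_sub _ h]
  have h2 : g i - g k = -(∑ j ∈ Ico i n, (g (j + 1) - g j)) - ∑ j ∈ Ico 0 k, (g (j + 1) - g j) := by
    rw [Finset.sum_Ico_sub _ hi, Finset.sum_Ico_sub _ (Nat.zero_le k), hg]; ring
  have h3 : |g i - g k| ≤ ∑ j ∈ Ico k i, |g (j + 1) - g j| := by
    rw [h1]; exact Finset.abs_sum_le_sum_abs _ _
  have h4 : |g i - g k| ≤ (∑ j ∈ Ico i n, |g (j + 1) - g j|) + ∑ j ∈ Ico 0 k, |g (j + 1) - g j| := by
    rw [h2]
    have h5 := Finset.abs_sum_le_sum_abs (fun j => g (j + 1) - g j) (Ico i n)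
    have h6 := Finset.abs_sum_le_sum_abs (fun j => g (j + 1) - g j) (Ico 0 k)
    have h7 := abs_sub (-(∑ j ∈ Ico i n, (g (j + 1) - g j))) (∑ j ∈ Ico 0 k, (g (j + 1) - g j))
    rw [abs_neg] at h7
    linarith
  have h5 : ∑ j ∈ range n, |g (j + 1) - g j| = (∑ j ∈ Ico 0 k, |g (j + 1) - g j|) +
      (∑ j ∈ Ico k i, |g (j + 1) - g j|) + ∑ j ∈ Ico i n, |g (j + 1) - g j| := by
    rw [Finset.sum_Ico_consecutive _ (Nat.zero_le k) h,
      Finset.sum_Ico_consecutive _ (Nat.zero_le i) hi, Finset.range_eq_Ico]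
  rw [h5]; linarith

/-- The closed polygon with paired edge directions. -/
structure IsModel (n : ℕ) (th a a' : ℕ → ℝ) (q r : ℕ → ℝ × ℝ) : Prop where
  mono : ∀ i j, i < j → j < n → th i < th j
  span : ∀ i j, i < n → j < n → th j - th i < Real.pi
  ha : ∀ k, k < n → 0 ≤ a k
  ha' : ∀ k, k < n → 0 ≤ a' k
  hq : ∀ k, k < n → q (k + 1) = q k + a k • Jv (th k)
  hr : ∀ k, k < n → r (k + 1) = r k - a' k • Jv (th k)
  hqn : q n = r 0
  hrn : r n = q 0

section

variable {n : ℕ} {th a a' : ℕ → ℝ} {q r : ℕ → ℝ × ℝ}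

theorem IsModel.sin_nonneg (M : IsModel n th a a' q r) {k i : ℕ} (hki : k ≤ i) (hi : i < n) :
    0 ≤ Real.sin (th i - th k) := by
  rcases Nat.eq_or_lt_of_le hki with h | h
  · subst h; simp
  · exact (Real.sin_pos_of_pos_of_lt_pi (by linarith [M.mono k i h hi])
      (M.span k i (by omega) hi)).le

theorem IsModel.sin_nonpos (M : IsModel n th a a' q r) {k i : ℕ} (hki : i ≤ k) (hk : k < n) :
    Real.sin (th i - th k) ≤ 0 := by
  have := M.sin_nonneg hki hk
  have h : th i - th k = -(th k - th i) := by ring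
  rw [h, Real.sin_neg]; linarith

theorem IsModel.q_step (M : IsModel n th a a' q r) (i k : ℕ) (hk : k < n) :
    ip (q (k + 1)) (uv (th i)) - ip (q k) (uv (th i)) = a k * Real.sin (th i - th k) := by
  rw [M.hq k hk, ip_add, ip_smul, ip_Jv_uv]; ring

theorem IsModel.r_step (M : IsModel n th a a' q r) (i k : ℕ) (hk : k < n) :
    ip (r (k + 1)) (uv (th i)) - ip (r k) (uv (th i)) = -(a' k * Real.sin (th i - th k)) := by
  rw [M.hr k hk, ip_sub, ip_smul, ip_Jv_uv]; ring

/-- the supporting property, upper side -/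
theorem IsModel.q_le (M : IsModel n th a a' q r) (i : ℕ) (hi : i < n) (k : ℕ) (hk : k ≤ n) :
    ip (q k) (uv (th i)) ≤ ip (q i) (uv (th i)) := by
  rcases le_total k i with h | h
  · refine mono_up (fun k => ip (q k) (uv (th i))) i (fun k hk => ?_) k h
    have h1 := M.q_step i k (by omega)
    have h2 := mul_nonneg (M.ha k (by omega)) (M.sin_nonneg hk.le hi)
    linarith
  · refine mono_down (fun k => ip (q k) (uv (th i))) i n (fun k hk hkn => ?_) k h hk
    have h1 := M.q_step i k hkn
    have h2 := mul_nonneg (M.ha k hkn) (neg_nonneg.2 (M.sin_nonpos hk hkn))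
    linarith

theorem IsModel.le_r (M : IsModel n th a a' q r) (i : ℕ) (hi : i < n) (k : ℕ) (hk : k ≤ n) :
    ip (r i) (uv (th i)) ≤ ip (r k) (uv (th i)) := by
  rcases le_total k i with h | h
  · have := mono_up (fun k => -ip (r k) (uv (th i))) i (fun k hk => ?_) k h
    · linarith
    have h1 := M.r_step i k (by omega)
    have h2 := mul_nonneg (M.ha' k (by omega)) (M.sin_nonneg hk.le hi)
    linarith
  · have := mono_down (fun k => -ip (r k) (uv (th i))) i n (fun k hk hkn => ?_) k h hk
    · linarith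
    have h1 := M.r_step i k hkn
    have h2 := mul_nonneg (M.ha' k hkn) (neg_nonneg.2 (M.sin_nonpos hk hkn))
    linarith

theorem IsModel.r_le (M : IsModel n th a a' q r) (i : ℕ) (hi : i < n) (k : ℕ) (hk : k ≤ n) :
    ip (r k) (uv (th i)) ≤ ip (q i) (uv (th i)) := by
  rcases le_total k i with h | h
  · have := mono_down (fun k => ip (r k) (uv (th i))) 0 i (fun k _ hkn => ?_) k (Nat.zero_le k) h
    · have h3 := M.q_le i hi n le_rfl
      rw [M.hqn] at h3
      linarith
    have h1 := M.r_step i k (by omega)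
    have h2 := mul_nonneg (M.ha' k (by omega)) (M.sin_nonneg hkn.le hi)
    linarith
  · have := mono_down (fun k => -ip (r k) (uv (th i))) k n (fun k' hk' hkn => ?_) n hk le_rfl
    · have h3 := M.q_le i hi 0 (Nat.zero_le _)
      rw [← M.hrn] at h3
      linarith
    have h1 := M.r_step i k' hkn
    have h2 := mul_nonneg (M.ha' k' hkn) (neg_nonneg.2 (M.sin_nonpos (h.trans hk') hkn))
    linarith

theorem IsModel.le_q (M : IsModel n th a a' q r) (i : ℕ) (hi : i < n) (k : ℕ) (hk : k ≤ n) :
    ip (r i) (uv (th i)) ≤ ip (q k) (uv (th i)) := by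
  rcases le_total k i with h | h
  · have := mono_down (fun k => -ip (q k) (uv (th i))) 0 i (fun k _ hkn => ?_) k (Nat.zero_le k) h
    · have h3 := M.le_r i hi n le_rfl
      rw [M.hrn] at h3
      linarith
    have h1 := M.q_step i k (by omega)
    have h2 := mul_nonneg (M.ha k (by omega)) (M.sin_nonneg hkn.le hi)
    linarith
  · have := mono_down (fun k => ip (q k) (uv (th i))) k n (fun k' hk' hkn => ?_) n hk le_rfl
    · have h3 := M.le_r i hi 0 (Nat.zero_le _)
      rw [← M.hqn] at h3
      linarith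
    have h1 := M.q_step i k' hkn
    have h2 := mul_nonneg (M.ha k' hkn) (neg_nonneg.2 (M.sin_nonpos (h.trans hk') hkn))
    linarith

/-- the width formula -/
theorem IsModel.width (M : IsModel n th a a' q r) (i : ℕ) (hi : i < n) :
    ip (q i) (uv (th i)) - ip (r i) (uv (th i)) =
      ∑ j ∈ range n, (a j + a' j) / 2 * |Real.sin (th i - th j)| := by
  set G : ℕ → ℝ := fun k => ip (q k) (uv (th i)) - ip (r k) (uv (th i)) with hG
  have hstep : ∀ k < n, G (k + 1) - G k = (a k + a' k) * Real.sin (th i - th k) := by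
    intro k hk
    have h1 := M.q_step i k hk
    have h2 := M.r_step i k hk
    simp only [hG]; linarith
  have hn : G n = -G 0 := by simp only [hG, M.hqn, M.hrn]; ring
  have h1 : G i - G 0 = ∑ j ∈ Ico 0 i, (a j + a' j) * |Real.sin (th i - th j)| := by
    rw [← Finset.sum_Ico_sub G (Nat.zero_le i)]
    refine Finset.sum_congr rfl fun k hk => ?_
    rw [Finset.mem_Ico] at hk
    rw [hstep k (by omega), abs_of_nonneg (M.sin_nonneg hk.2.le hi)]
  have h2 : G i - G n = ∑ j ∈ Ico i n, (a j + a' j) * |Real.sin (th i - th j)| := by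
    have h3 : G n - G i = ∑ j ∈ Ico i n, -((a j + a' j) * |Real.sin (th i - th j)|) := by
      rw [← Finset.sum_Ico_sub G hi.le]
      refine Finset.sum_congr rfl fun k hk => ?_
      rw [Finset.mem_Ico] at hk
      rw [hstep k (by omega), abs_of_nonpos (M.sin_nonpos hk.1 hk.2)]; ring
    rw [Finset.sum_neg_distrib] at h3
    linarith
  have h3 : ∑ j ∈ range n, (a j + a' j) / 2 * |Real.sin (th i - th j)| =
      (∑ j ∈ range n, (a j + a' j) * |Real.sin (th i - th j)|) / 2 := by
    rw [Finset.sum_div]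
    exact Finset.sum_congr rfl fun k _ => by ring
  rw [h3, Finset.range_eq_Ico, ← Finset.sum_Ico_consecutive _ (Nat.zero_le i) hi.le, ← h1, ← h2, hn]
  simp only [hG]; ring

/-- the closing condition -/
theorem IsModel.closing (M : IsModel n th a a' q r) :
    ∑ j ∈ range n, (a j - a' j) • Jv (th j) = 0 := by
  have h1 : ∀ j ∈ range n, (a j - a' j) • Jv (th j) = (q (j + 1) + r (j + 1)) - (q j + r j) := by
    intro j hj
    rw [Finset.mem_range] at hj
    rw [M.hq j hj, M.hr j hj, sub_smul]; abel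
  rw [Finset.sum_congr rfl h1, Finset.sum_range_sub (fun j => q j + r j), M.hqn, M.hrn]
  abel

/-- the asymmetry in a main direction with respect to a midpoint -/
theorem IsModel.asym (M : IsModel n th a a' q r) (i : ℕ) (hi : i < n) (k : ℕ) (hk : k ≤ n) :
    |ip (q i + r i) (uv (th i)) - ip (q k + r k) (uv (th i))| ≤
      ∑ j ∈ range n, |(a j - a' j) / 2| * |Real.sin (th i - th j)| := by
  have h := closed_var (fun k => ip (q k + r k) (uv (th i))) n
    (by simp only [M.hqn, M.hrn, add_comm]) i k hi.le hk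
  have h2 : ∑ j ∈ range n, |ip (q (j + 1) + r (j + 1)) (uv (th i)) - ip (q j + r j) (uv (th i))| =
      2 * ∑ j ∈ range n, |(a j - a' j) / 2| * |Real.sin (th i - th j)| := by
    rw [Finset.mul_sum]
    refine Finset.sum_congr rfl fun j hj => ?_
    rw [Finset.mem_range] at hj
    have h1 := M.q_step i j hj
    have h2 := M.r_step i j hj
    have h3 : ip (q (j + 1) + r (j + 1)) (uv (th i)) - ip (q j + r j) (uv (th i)) =
        (a j - a' j) * Real.sin (th i - th j) := by
      rw [ip_add, ip_add]; linarith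
    rw [h3, abs_mul, abs_div, abs_two]; ring

  rw [h2] at h
  linarith

end

end Pool.Agent.Lib.MP_abca01_gt.Plane3
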