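import Pool.Agent.Lib.MP_abca01_gt.Plane3.Scalar

/-!
# The pair inequality and its sum
-/

set_option autoImplicit false

open Finset

namespace Pool.Agent.Lib.MP_abca01_gt.Plane3

theorem pair_q (t x q : ℝ) (ht1 : -1 ≤ t) (ht2 : t ≤ 1) (hx1 : -1 ≤ x) (hx2 : x ≤ 1)
    (hq1 : -2 ≤ q + t) (hq2 : q + t ≤ 2) :
    0 ≤ (1 - t ^ 2) * (29 / 10 * x ^ 2 + q * x) + q ^ 2 / 10 * (1 - t * x) := by
  have hP : 0 ≤ 1 - t ^ 2 := by nlinarith
  have htx : 0 ≤ 1 - t * x := by
    rcases le_total 0 t with h | h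
    · nlinarith
    · nlinarith
  rcases le_total 0 (q * x) with h | h
  · have h1 : 0 ≤ 29 / 10 * x ^ 2 + q * x := by positivity
    have h2 := mul_nonneg hP h1
    have h3 := mul_nonneg (by positivity : 0 ≤ q ^ 2 / 10) htx
    linarith
  rcases le_total 0 x with hx | hx
  · rcases le_total q 0 with hq | hq
    · have := pair_chi t x (-q) ht1 ht2 hx hx2 (by linarith) (by linarith)
      nlinarith
    · have h0 : q * x = 0 := le_antisymm h (mul_nonneg hq hx)
      have h2 := mul_nonneg hP (by positivity : 0 ≤ 29 / 10 * x ^ 2)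
      have h3 := mul_nonneg (by positivity : 0 ≤ q ^ 2 / 10) htx
      rw [h0]; linarith
  · rcases le_total 0 q with hq | hq
    · have := pair_chi (-t) (-x) q (by linarith) (by linarith) (by linarith) (by linarith) hq
        (by linarith)
      nlinarith
    · have h0 : q * x = 0 := le_antisymm h (by nlinarith)
      have h2 := mul_nonneg hP (by positivity : 0 ≤ 29 / 10 * x ^ 2)
      have h3 := mul_nonneg (by positivity : 0 ≤ q ^ 2 / 10) htx
      rw [h0]; linarith

/-- The pair inequality. -/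
theorem pair_ineq (t z y y' : ℝ) (ht1 : -1 ≤ t) (ht2 : t ≤ 1) (hz1 : -1 ≤ z) (hz2 : z ≤ 1)
    (hy : 0 ≤ y) (hy' : 0 ≤ y') :
    6 * (1 - t ^ 2) * (y * y') / ((1 + t) * y + (1 - t) * y') +
        1 / 20 * (((1 + t) * y - (1 - t) * y') ^ 2 / ((1 + t) * y + (1 - t) * y')) ≤
      (1 + z) * (1 + t) * y + (1 - z) * (1 - t) * y' +
        (1 - t ^ 2 + (2 * z - t) ^ 2 / 10) * ((y + y') / 2) := by
  have hP : 0 ≤ 1 - t ^ 2 := by nlinarith
  have hA : 0 ≤ (1 + t) * y := mul_nonneg (by linarith) hy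
  have hB : 0 ≤ (1 - t) * y' := mul_nonneg (by linarith) hy'
  rcases (add_nonneg hA hB).eq_or_lt with hD | hD
  · rw [← hD, div_zero, div_zero]
    have h1 : 0 ≤ (1 + z) * (1 + t) * y := mul_nonneg (mul_nonneg (by linarith) (by linarith)) hy
    have h2 : 0 ≤ (1 - z) * (1 - t) * y' := mul_nonneg (mul_nonneg (by linarith) (by linarith)) hy'
    have h3 : 0 ≤ (1 - t ^ 2 + (2 * z - t) ^ 2 / 10) * ((y + y') / 2) :=
      mul_nonneg (by positivity) (by positivity)
    linarith
  set D := (1 + t) * y + (1 - t) * y' with hDdef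
  set x : ℝ := ((1 + t) * y - (1 - t) * y') / D with hx
  have hxD : x * D = (1 + t) * y - (1 - t) * y' := by rw [hx]; field_simp
  have hx1 : -1 ≤ x := by rw [hx, le_div_iff₀ hD]; linarith
  have hx2 : x ≤ 1 := by rw [hx, div_le_iff₀ hD]; linarith
  have e1 : (1 + t) * y = D * (1 + x) / 2 := by linarith
  have e2 : (1 - t) * y' = D * (1 - x) / 2 := by linarith
  have hR : 6 * (1 - t ^ 2) * (y * y') / D = 3 / 2 * D * (1 - x ^ 2) := by
    rw [div_eq_iff hD.ne']
    have : 6 * (1 - t ^ 2) * (y * y') = 6 * ((1 + t) * y) * ((1 - t) * y') := by ring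
    rw [this, e1, e2]; ring
  have hR2 : ((1 + t) * y - (1 - t) * y') ^ 2 / D = D * x ^ 2 := by
    rw [← hxD, div_eq_iff hD.ne']; ring
  rw [hR, hR2]
  have hmain : 0 ≤ D * (29 / 10 * x ^ 2 + (2 * z - t) * x) + (2 * z - t) ^ 2 / 10 * (y + y') := by
    rcases hP.eq_or_lt with h | h
    · have h1 : (1 - t) * (1 + t) = 0 := by nlinarith
      have h3 : 0 ≤ (2 * z - t) ^ 2 / 10 * (y + y') := mul_nonneg (by positivity) (by positivity)
      rcases mul_eq_zero.1 h1 with h2 | h2
      · have ht : t = 1 := by linarith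
        subst ht
        have hx' : x = 1 := by
          have : x * D = D := by rw [hxD, hDdef]; ring
          nlinarith
        rw [hx']
        nlinarith
      · have ht : t = -1 := by linarith
        subst ht
        have hx' : x = -1 := by
          have : x * D = -D := by rw [hxD, hDdef]; ring
          nlinarith
        rw [hx']
        nlinarith
    · have h1 := pair_q t x (2 * z - t) ht1 ht2 hx1 hx2 (by linarith) (by linarith)
      have h2 := mul_nonneg hD.le h1
      have e3 : (1 - t ^ 2) * (y + y') = D * (1 - t * x) := by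
        have : (1 - t ^ 2) * (y + y') = (1 - t) * ((1 + t) * y) + (1 + t) * ((1 - t) * y') := by ring
        rw [this, e1, e2]; ring
      have h3 : 0 ≤ (1 - t ^ 2) *
          (D * (29 / 10 * x ^ 2 + (2 * z - t) * x) + (2 * z - t) ^ 2 / 10 * (y + y')) := by
        have : (1 - t ^ 2) *
            (D * (29 / 10 * x ^ 2 + (2 * z - t) * x) + (2 * z - t) ^ 2 / 10 * (y + y')) =
            D * ((1 - t ^ 2) * (29 / 10 * x ^ 2 + (2 * z - t) * x)) +
              (2 * z - t) ^ 2 / 10 * ((1 - t ^ 2) * (y + y')) := by ring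
        rw [this, e3]
        nlinarith
      exact nonneg_of_mul_nonneg_right h3 h
  have e4 : (1 - t ^ 2) * (y + y') = D * (1 - t * x) := by
    have : (1 - t ^ 2) * (y + y') = (1 - t) * ((1 + t) * y) + (1 + t) * ((1 - t) * y') := by ring
    rw [this, e1, e2]; ring
  have e5 : (1 + z) * (1 + t) * y + (1 - z) * (1 - t) * y' = D * (1 + z * x) := by
    have : (1 + z) * (1 + t) * y + (1 - z) * (1 - t) * y' =
      (1 + z) * ((1 + t) * y) + (1 - z) * ((1 - t) * y') := by ring
    rw [this, e1, e2]; ring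
  rw [e5]
  nlinarith

/-- Harmonic mean comparison. -/
theorem two_min_le (h h' I I' : ℝ) (hh : 0 ≤ h) (hh' : 0 ≤ h') (hI : 0 ≤ I) (hI' : 0 ≤ I') :
    2 * min (h * I) (h' * I') ≤ (h + h') * (2 * (I * I') / (I + I')) := by
  rcases (add_nonneg hI hI').eq_or_lt with hD | hD
  · have h1 : I = 0 := by linarith
    have h2 : I' = 0 := by linarith
    simp [h1, h2]
  rw [← mul_div_assoc, le_div_iff₀ hD]
  have h1 : min (h * I) (h' * I') ≤ h * I := min_le_left _ _
  have h2 : min (h * I) (h' * I') ≤ h' * I' := min_le_right _ _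
  nlinarith [mul_le_mul_of_nonneg_right h1 hI', mul_le_mul_of_nonneg_right h2 hI]

/-- The sum of the pair inequalities. -/
theorem sum_pair (n : ℕ) (b tau z w y y' : ℕ → ℝ) (K : ℝ) (hK : 0 ≤ K)
    (hb : ∀ i, i < n → 0 ≤ b i) (hwn : ∀ i, i < n → 0 ≤ w i)
    (ht1 : ∀ i, i < n → -1 ≤ tau i) (ht2 : ∀ i, i < n → tau i ≤ 1)
    (hz1 : ∀ i, i < n → -1 ≤ z i) (hz2 : ∀ i, i < n → z i ≤ 1)
    (hy : ∀ i, i < n → 0 ≤ y i) (hy' : ∀ i, i < n → 0 ≤ y' i)
    (hKy : ∀ i, i < n → (y i + y' i) / 2 ≤ K)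
    (hsc : ∑ i ∈ range n, w i * b i * (1 - tau i ^ 2 + (2 * z i - tau i) ^ 2 / 10) ≤
      ∑ i ∈ range n, w i * b i * (1 + z i * tau i)) :
    ∑ i ∈ range n, w i * b i *
        (6 * (1 - tau i ^ 2) * (y i * y' i) / ((1 + tau i) * y i + (1 - tau i) * y' i) +
        1 / 20 * (((1 + tau i) * y i - (1 - tau i) * y' i) ^ 2 /
          ((1 + tau i) * y i + (1 - tau i) * y' i))) ≤
      ∑ i ∈ range n, w i * b i * ((1 + z i) * (1 + tau i) * (K / 2 + y i) +
        (1 - z i) * (1 - tau i) * (K / 2 + y' i)) := by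
  have h1 : ∀ i ∈ range n, w i * b i *
      (6 * (1 - tau i ^ 2) * (y i * y' i) / ((1 + tau i) * y i + (1 - tau i) * y' i) +
        1 / 20 * (((1 + tau i) * y i - (1 - tau i) * y' i) ^ 2 /
          ((1 + tau i) * y i + (1 - tau i) * y' i))) ≤
      w i * b i * ((1 + z i) * (1 + tau i) * y i + (1 - z i) * (1 - tau i) * y' i) +
      w i * b i * (1 - tau i ^ 2 + (2 * z i - tau i) ^ 2 / 10) * K := by
    intro i hi
    have hi := Finset.mem_range.1 hi
    have h2 := pair_ineq (tau i) (z i) (y i) (y' i) (ht1 i hi) (ht2 i hi) (hz1 i hi) (hz2 i hi)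
      (hy i hi) (hy' i hi)
    have h3 : 0 ≤ w i * b i := mul_nonneg (hwn i hi) (hb i hi)
    have h4 : 0 ≤ 1 - tau i ^ 2 + (2 * z i - tau i) ^ 2 / 10 := by
      have := ht1 i hi
      have := ht2 i hi
      have : 0 ≤ 1 - tau i ^ 2 := by nlinarith
      positivity
    have h5 := mul_le_mul_of_nonneg_left (hKy i hi) h4
    have h6 := mul_le_mul_of_nonneg_left (h2.trans (add_le_add_right h5 _)) h3
    refine h6.trans (le_of_eq ?_)
    ring
  refine (Finset.sum_le_sum h1).trans ?_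
  rw [Finset.sum_add_distrib, ← Finset.sum_mul]
  have h7 := mul_le_mul_of_nonneg_right hsc hK
  refine (add_le_add_right h7 _).trans (le_of_eq ?_)
  rw [Finset.sum_mul, ← Finset.sum_add_distrib]
  exact Finset.sum_congr rfl fun i _ => by ring

end Pool.Agent.Lib.MP_abca01_gt.Plane3
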