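import Pool.Agent.Lib.MP_abca01_gt.Plane3.Pair
import Pool.Agent.Lib.MP_abca01_gt.Plane3.Cones

/-!
# The planar inequality for closed polygons with paired edge directions
-/

set_option autoImplicit false

open MeasureTheory Set Finset
open scoped ENNReal

namespace Pool.Agent.Lib.MP_abca01_gt.Plane3

theorem dt_Jv (x : ℝ × ℝ) (t : ℝ) : dt x (Jv t) = ip x (uv t) := by
  simp only [dt, Jv, ip, uv]; ring

theorem pos_aux {x y : ℝ} (h : 0 < x * y) (hx : 0 ≤ x) : 0 < x ∧ 0 < y := by
  rcases hx.eq_or_lt with h0 | h0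
  · rw [← h0, zero_mul] at h
    exact absurd h (lt_irrefl _)
  · exact ⟨h0, (pos_iff_pos_of_mul_pos h).1 h0⟩

theorem strict_or {x x' K : ℝ} (hx : x ≤ K) (hx' : x' ≤ K) (hne : x' - x ≠ 0) :
    x < K ∨ x' < K := by
  by_contra hcon
  push Not at hcon
  exact hne (by linarith [hcon.1, hcon.2])

theorem ip_neg_right (x z : ℝ × ℝ) : ip x (-z) = -ip x z := by
  simp only [ip, Prod.fst_neg, Prod.snd_neg]; ring

variable {n : ℕ} {th a a' : ℕ → ℝ} {q r : ℕ → ℝ × ℝ}

/-- the set of midpoints -/
def mids (n : ℕ) (q r : ℕ → ℝ × ℝ) : Set (ℝ × ℝ) :=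
  convexHull ℝ {x | ∃ k ≤ n, x = (1 / 2 : ℝ) • (q k + r k)}

theorem mid_mem {k : ℕ} (hk : k ≤ n) : (1 / 2 : ℝ) • (q k + r k) ∈ mids n q r :=
  subset_convexHull ℝ _ ⟨k, hk, rfl⟩

theorem IsModel.asym_mids (M : IsModel n th a a' q r) (i : ℕ) (hi : i < n) (c : ℝ × ℝ)
    (hc : c ∈ mids n q r) :
    |ip (q i + r i) (uv (th i)) - 2 * ip c (uv (th i))| ≤
      ∑ j ∈ range n, |(a j - a' j) / 2| * |Real.sin (th i - th j)| := by
  set S := ∑ j ∈ range n, |(a j - a' j) / 2| * |Real.sin (th i - th j)| with hS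
  have h : ∀ k ≤ n, |ip (q i + r i) (uv (th i)) - ip (q k + r k) (uv (th i))| ≤ S :=
    fun k hk => M.asym i hi k hk
  have h1 : ip c (uv (th i)) ≤ (ip (q i + r i) (uv (th i)) + S) / 2 := by
    refine convexHull_min ?_ (convex_ip_le (uv (th i)) _) hc
    rintro x ⟨k, hk, rfl⟩
    have := (abs_le.1 (h k hk)).1
    simp only [Set.mem_ofPred_eq, ip_smul]
    linarith
  have h2 : (ip (q i + r i) (uv (th i)) - S) / 2 ≤ ip c (uv (th i)) := by
    refine convexHull_min ?_ (convex_le_ip (uv (th i)) _) hc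
    rintro x ⟨k, hk, rfl⟩
    have := (abs_le.1 (h k hk)).2
    simp only [Set.mem_ofPred_eq, ip_smul]
    linarith
  rw [abs_le]
  constructor <;> linarith

theorem mids_subset (P : Set (ℝ × ℝ)) (hP : Convex ℝ P) (hq : ∀ k ≤ n, q k ∈ P)
    (hr : ∀ k ≤ n, r k ∈ P) : mids n q r ⊆ P := by
  refine convexHull_min ?_ hP
  rintro x ⟨k, hk, rfl⟩
  rw [smul_add]
  exact hP (hq k hk) (hr k hk) (by norm_num) (by norm_num) (by norm_num)

/-- the average of `f` over the segment from `p` to `p'` -/
noncomputable def avg (f : ℝ × ℝ → ℝ) (p p' : ℝ × ℝ) : ℝ :=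
  ∫ x in (0:ℝ)..1, f (p + x • (p' - p))

theorem seg_mem {P : Set (ℝ × ℝ)} (hP : Convex ℝ P) {p p' : ℝ × ℝ} (hp : p ∈ P) (hp' : p' ∈ P)
    {x : ℝ} (hx : x ∈ Icc (0:ℝ) 1) : p + x • (p' - p) ∈ P := by
  have : p + x • (p' - p) = (1 - x) • p + x • p' := by module
  rw [this]
  exact hP hp hp' (by linarith [hx.2]) hx.1 (by ring)

theorem avg_integrable {P : Set (ℝ × ℝ)} (hP : Convex ℝ P) {f : ℝ × ℝ → ℝ}
    (hf0 : ∀ x ∈ P, 0 ≤ f x) {B : ℝ} (hfB : ∀ x ∈ P, f x ≤ B) (hfm : Measurable f)
    {p p' : ℝ × ℝ} (hp : p ∈ P) (hp' : p' ∈ P) :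
    IntervalIntegrable (fun x : ℝ => f (p + x • (p' - p))) volume 0 1 := by
  rw [intervalIntegrable_iff_integrableOn_Ioc_of_le zero_le_one]
  refine Measure.integrableOn_of_bounded (M := B) (by simp)
    (hfm.comp (by fun_prop)).aestronglyMeasurable ?_
  refine (ae_restrict_iff' measurableSet_Ioc).2 (ae_of_all _ fun x hx => ?_)
  have h := seg_mem hP hp hp' (Ioc_subset_Icc_self hx)
  rw [Real.norm_of_nonneg (hf0 _ h)]
  exact hfB _ h

theorem avg_nonneg {P : Set (ℝ × ℝ)} (hP : Convex ℝ P) {f : ℝ × ℝ → ℝ}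
    (hf0 : ∀ x ∈ P, 0 ≤ f x) {p p' : ℝ × ℝ} (hp : p ∈ P) (hp' : p' ∈ P) : 0 ≤ avg f p p' :=
  intervalIntegral.integral_nonneg zero_le_one fun _ hx => hf0 _ (seg_mem hP hp hp' hx)

theorem avg_pair_le {P : Set (ℝ × ℝ)} (hq : ∀ k ≤ n, q k ∈ P)
    (hr : ∀ k ≤ n, r k ∈ P) {f : ℝ × ℝ → ℝ} (hf : ConcaveOn ℝ P f)
    (hf0 : ∀ x ∈ P, 0 ≤ f x) {B : ℝ} (hfB : ∀ x ∈ P, f x ≤ B) (hfm : Measurable f)
    (K : ℝ) (hK : ∀ c ∈ mids n q r, f c ≤ K) (i : ℕ) (hi : i < n) :
    (avg f (q i) (q (i + 1)) + avg f (r i) (r (i + 1))) / 2 ≤ K := by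
  have h1 := avg_integrable hf.1 hf0 hfB hfm (hq i hi.le) (hq (i + 1) hi)
  have h2 := avg_integrable hf.1 hf0 hfB hfm (hr i hi.le) (hr (i + 1) hi)
  unfold avg
  rw [← intervalIntegral.integral_add h1 h2, ← intervalIntegral.integral_div]
  have h3 : ∫ x in (0:ℝ)..1, (f (q i + x • (q (i + 1) - q i)) +
      f (r i + x • (r (i + 1) - r i))) / 2 ≤ ∫ _ in (0:ℝ)..1, K := by
    refine intervalIntegral.integral_mono_on zero_le_one ((h1.add h2).div_const 2) (by simp) ?_
    intro x hx
    have m1 := seg_mem hf.1 (hq i hi.le) (hq (i + 1) hi) hx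
    have m2 := seg_mem hf.1 (hr i hi.le) (hr (i + 1) hi) hx
    have h4 := hf.2 m1 m2 (by norm_num : (0:ℝ) ≤ 1 / 2) (by norm_num : (0:ℝ) ≤ 1 / 2) (by norm_num)
    simp only [smul_eq_mul] at h4
    have h5 : (1 / 2 : ℝ) • (q i + x • (q (i + 1) - q i)) + (1 / 2 : ℝ) •
        (r i + x • (r (i + 1) - r i)) ∈ mids n q r := by
      have e : (1 / 2 : ℝ) • (q i + x • (q (i + 1) - q i)) + (1 / 2 : ℝ) •
        (r i + x • (r (i + 1) - r i)) = (1 - x) • ((1 / 2 : ℝ) • (q i + r i)) +
          x • ((1 / 2 : ℝ) • (q (i + 1) + r (i + 1))) := by module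
      rw [e]
      exact (convex_convexHull ℝ _) (mid_mem hi.le)
        (mid_mem hi) (by linarith [hx.2]) hx.1 (by ring)
    have h6 := hK _ h5
    linarith
  rw [intervalIntegral.integral_const] at h3
  simpa using h3

/-- The lower bound for the integral from one centre. -/
theorem IsModel.cone_bound (M : IsModel n th a a' q r)
    {P : Set (ℝ × ℝ)} (hq : ∀ k ≤ n, q k ∈ P)
    (hr : ∀ k ≤ n, r k ∈ P) {f : ℝ × ℝ → ℝ} (hf : ConcaveOn ℝ P f)
    (hf0 : ∀ x ∈ P, 0 ≤ f x) {B : ℝ} (hfB : ∀ x ∈ P, f x ≤ B) (hfm : Measurable f)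
    (c : ℝ × ℝ) (hcP : c ∈ P) (h1 : ∀ i, i < n → ip c (uv (th i)) ≤ ip (q i) (uv (th i)))
    (h2 : ∀ i, i < n → ip (r i) (uv (th i)) ≤ ip c (uv (th i))) :
    ENNReal.ofReal (∑ i ∈ range n,
      (a i * (ip (q i) (uv (th i)) - ip c (uv (th i))) *
        (f c / 6 + 1 / 3 * avg f (q i) (q (i + 1))) +
       a' i * (ip c (uv (th i)) - ip (r i) (uv (th i))) *
        (f c / 6 + 1 / 3 * avg f (r i) (r (i + 1))))) ≤
      ∫⁻ x in P, ENNReal.ofReal (f x) := by
  classical
  set p : ℕ × Bool → ℝ × ℝ := fun e => bif e.2 then q e.1 else r e.1 with hp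
  set p' : ℕ × Bool → ℝ × ℝ := fun e => bif e.2 then q (e.1 + 1) else r (e.1 + 1) with hp'
  set m : ℕ × Bool → ℝ × ℝ := fun e => bif e.2 then uv (th e.1) else - uv (th e.1) with hm
  set H : ℕ × Bool → ℝ := fun e => bif e.2 then ip (q e.1) (uv (th e.1))
    else - ip (r e.1) (uv (th e.1)) with hH
  set T : Finset (ℕ × Bool) := (range n) ×ˢ Finset.univ with hT
  set s : Finset (ℕ × Bool) := T.filter (fun e => 0 < dt (p e - c) (p' e - c)) with hs
  have dq : ∀ i, i < n → dt (q i - c) (q (i + 1) - c) =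
      a i * (ip (q i) (uv (th i)) - ip c (uv (th i))) := by
    intro i hi
    rw [M.hq i hi, ← ip_sub, ← dt_Jv]
    simp only [dt, Prod.fst_sub, Prod.snd_sub, Prod.fst_add, Prod.snd_add, Prod.smul_fst,
      Prod.smul_snd, smul_eq_mul]
    ring
  have dr : ∀ i, i < n → dt (r i - c) (r (i + 1) - c) =
      a' i * (ip c (uv (th i)) - ip (r i) (uv (th i))) := by
    intro i hi
    have e : ip c (uv (th i)) - ip (r i) (uv (th i)) = -dt (r i - c) (Jv (th i)) := by
      rw [dt_Jv, ip_sub]; ring
    rw [M.hr i hi, e]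
    simp only [dt, Prod.fst_sub, Prod.snd_sub, Prod.smul_fst,
      Prod.smul_snd, smul_eq_mul]
    ring
  have fc0 := hf0 c hcP
  have hmem : ∀ e ∈ s, e.1 < n ∧ 0 < dt (p e - c) (p' e - c) := by
    intro e he
    rw [hs, Finset.mem_filter, hT, Finset.mem_product, Finset.mem_range] at he
    exact ⟨he.1.1, he.2⟩
  have stepq : ∀ i j, i < n → j < n →
      ip (q (j + 1)) (uv (th i)) - ip (q j) (uv (th i)) = a j * Real.sin (th i - th j) :=
    fun i j _ hj => M.q_step i j hj
  have stepr : ∀ i j, i < n → j < n →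
      ip (r (j + 1)) (uv (th i)) - ip (r j) (uv (th i)) = -(a' j * Real.sin (th i - th j)) :=
    fun i j _ hj => M.r_step i j hj
  have hsin : ∀ i j, i < n → j < n → i ≠ j → Real.sin (th i - th j) ≠ 0 := by
    intro i j hi hj hij
    rcases lt_or_gt_of_ne hij with h | h
    · have h3 := M.mono i j h hj
      have h4 := M.span i j hi hj
      have : Real.sin (th j - th i) ≠ 0 := (Real.sin_pos_of_pos_of_lt_pi (by linarith) h4).ne'
      have e : th i - th j = -(th j - th i) := by ring
      rw [e, Real.sin_neg]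
      exact neg_ne_zero.2 this
    · have h3 := M.mono j i h hi
      have h4 := M.span j i hj hi
      exact (Real.sin_pos_of_pos_of_lt_pi (by linarith) h4).ne'
  have main := cone_sum s p p' m H c P f hf hf0 B hfB hfm hcP
    (by
      rintro ⟨i, b⟩ he
      have hi := (hmem _ he).1
      cases b
      · exact hr i hi.le
      · exact hq i hi.le)
    (by
      rintro ⟨i, b⟩ he
      have hi := (hmem _ he).1
      cases b
      · exact hr (i + 1) hi
      · exact hq (i + 1) hi)
    (by
      rintro ⟨i, b⟩ he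
      cases b
      · simp only [hp, hm, hH, cond_false, ip_neg_right]
      · simp only [hp, hm, hH, cond_true])
    (by
      rintro ⟨i, b⟩ he
      have hi : i < n := (hmem _ he).1
      cases b
      · simp only [hp', hm, hH, cond_false, ip_neg_right]
        have := stepr i i hi hi
        rw [sub_self, Real.sin_zero] at this
        linarith
      · simp only [hp', hm, hH, cond_true]
        have := stepq i i hi hi
        rw [sub_self, Real.sin_zero] at this
        linarith)
    (by
      rintro ⟨i, b⟩ he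
      have hi : i < n := (hmem _ he).1
      have hd := (hmem _ he).2
      cases b
      · simp only [hp, hp', cond_false] at hd
        rw [dr i hi] at hd
        simp only [hm, hH, cond_false, ip_neg_right]
        have := (pos_aux hd (M.ha' i hi)).2
        linarith
      · simp only [hp, hp', cond_true] at hd
        rw [dq i hi] at hd
        simp only [hm, hH, cond_true]
        have := (pos_aux hd (M.ha i hi)).2
        linarith)
    (by
      rintro ⟨i, b⟩ he ⟨j, b'⟩ he' hne
      have hi : i < n := (hmem _ he).1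
      have hj : j < n := (hmem _ he').1
      have hd := (hmem _ he).2
      have hd' := (hmem _ he').2
      have hc1 := h1 i hi
      have hc2 := h2 i hi
      cases b
      · simp only [hp, hp', cond_false] at hd
        rw [dr i hi] at hd
        have hd2 := (pos_aux hd (M.ha' i hi)).2
        cases b'
        · simp only [hp, hp', cond_false] at hd'
          rw [dr j hj] at hd'
          have hd3 := (pos_aux hd' (M.ha' j hj)).1
          have hij : i ≠ j := fun h => hne (by rw [h])
          have e1 := M.le_r i hi j hj.le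
          have e2 := M.le_r i hi (j + 1) hj
          simp only [hp, hp', hm, hH, cond_false, ip_neg_right]
          refine ⟨by linarith, by linarith, strict_or (by linarith) (by linarith) ?_⟩
          have e3 := stepr i j hi hj
          have e4 := mul_ne_zero hd3.ne' (hsin i j hi hj hij)
          intro h0
          exact e4 (by linarith)
        · simp only [hp, hp', cond_true] at hd'
          rw [dq j hj] at hd'
          have hd3 := (pos_aux hd' (M.ha j hj)).1
          have e1 := M.le_q i hi j hj.le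
          have e2 := M.le_q i hi (j + 1) hj
          simp only [hp, hp', hm, hH, cond_true, cond_false, ip_neg_right]
          refine ⟨by linarith, by linarith, ?_⟩
          rcases eq_or_ne i j with hij | hij
          · subst hij
            left; linarith
          refine strict_or (by linarith) (by linarith) ?_
          have e3 := stepq i j hi hj
          have e4 := mul_ne_zero hd3.ne' (hsin i j hi hj hij)
          intro h0
          exact e4 (by linarith)
      · simp only [hp, hp', cond_true] at hd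
        rw [dq i hi] at hd
        have hd2 := (pos_aux hd (M.ha i hi)).2
        cases b'
        · simp only [hp, hp', cond_false] at hd'
          rw [dr j hj] at hd'
          have hd3 := (pos_aux hd' (M.ha' j hj)).1
          have e1 := M.r_le i hi j hj.le
          have e2 := M.r_le i hi (j + 1) hj
          simp only [hp, hp', hm, hH, cond_true, cond_false]
          refine ⟨e1, e2, ?_⟩
          rcases eq_or_ne i j with hij | hij
          · subst hij
            left; linarith
          refine strict_or e1 e2 ?_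
          rw [stepr i j hi hj]
          exact neg_ne_zero.2 (mul_ne_zero hd3.ne' (hsin i j hi hj hij))
        · simp only [hp, hp', cond_true] at hd'
          rw [dq j hj] at hd'
          have hd3 := (pos_aux hd' (M.ha j hj)).1
          have hij : i ≠ j := fun h => hne (by rw [h])
          have e1 := M.q_le i hi j hj.le
          have e2 := M.q_le i hi (j + 1) hj
          simp only [hp, hp', hm, hH, cond_true]
          refine ⟨e1, e2, strict_or e1 e2 ?_⟩
          rw [stepq i j hi hj]
          exact mul_ne_zero hd3.ne' (hsin i j hi hj hij))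
    (fun e he => (hmem e he).2)
  refine le_trans (le_of_eq ?_) main
  set X : ℕ × Bool → ℝ := fun e => dt (p e - c) (p' e - c) * (f c / 6 + (1 / 3) *
      ∫ x in (0:ℝ)..1, f (p e + x • (p' e - p e))) with hX
  have hXt : ∀ i, i < n → X (i, true) = a i * (ip (q i) (uv (th i)) - ip c (uv (th i))) *
        (f c / 6 + 1 / 3 * avg f (q i) (q (i + 1))) := by
    intro i hi
    simp only [hX, hp, hp', cond_true, avg]
    rw [dq i hi]
  have hXf : ∀ i, i < n → X (i, false) = a' i * (ip c (uv (th i)) - ip (r i) (uv (th i))) *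
        (f c / 6 + 1 / 3 * avg f (r i) (r (i + 1))) := by
    intro i hi
    simp only [hX, hp, hp', cond_false, avg]
    rw [dr i hi]
  have hdn : ∀ e ∈ T, 0 ≤ dt (p e - c) (p' e - c) := by
    rintro ⟨i, b⟩ he
    rw [hT, Finset.mem_product, Finset.mem_range] at he
    have hi : i < n := he.1
    cases b
    · simp only [hp, hp', cond_false]
      rw [dr i hi]
      exact mul_nonneg (M.ha' i hi) (by linarith [h2 i hi])
    · simp only [hp, hp', cond_true]
      rw [dq i hi]
      exact mul_nonneg (M.ha i hi) (by linarith [h1 i hi])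
  have hXn : ∀ e ∈ T, 0 ≤ X e := by
    rintro ⟨i, b⟩ he
    have hd := hdn _ he
    rw [hT, Finset.mem_product, Finset.mem_range] at he
    have hi : i < n := he.1
    refine mul_nonneg hd (add_nonneg (by positivity) (mul_nonneg (by norm_num) ?_))
    cases b
    · exact avg_nonneg hf.1 hf0 (hr i hi.le) (hr (i + 1) hi)
    · exact avg_nonneg hf.1 hf0 (hq i hi.le) (hq (i + 1) hi)
  have e1 : ∑ i ∈ range n,
      (a i * (ip (q i) (uv (th i)) - ip c (uv (th i))) *
        (f c / 6 + 1 / 3 * avg f (q i) (q (i + 1))) +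
       a' i * (ip c (uv (th i)) - ip (r i) (uv (th i))) *
        (f c / 6 + 1 / 3 * avg f (r i) (r (i + 1)))) = ∑ e ∈ T, X e := by
    rw [hT, Finset.sum_product]
    refine Finset.sum_congr rfl fun i hi => ?_
    rw [Finset.mem_range] at hi
    rw [Fintype.sum_bool, hXt i hi, hXf i hi]
  rw [e1, ENNReal.ofReal_sum_of_nonneg hXn, hs, Finset.sum_filter]
  refine Finset.sum_congr rfl fun e he => ?_
  split_ifs with h
  · rfl
  · have h0 : dt (p e - c) (p' e - c) = 0 := le_antisymm (not_lt.1 h) (hdn e he)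
    simp only [hX, h0, zero_mul, ENNReal.ofReal_zero]

end Pool.Agent.Lib.MP_abca01_gt.Plane3
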