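import Pool.Agent.Lib.MP_abca01_gt.Plane3.Cells

/-!
# The inequality for convex bodies of Euclidean three-space
-/

set_option autoImplicit false

open MeasureTheory Set Metric
open scoped ENNReal RealInnerProductSpace

namespace Pool.Agent.Lib.MP_abca01_gt.Plane3

/-- Euclidean three-space -/
abbrev V3 := EuclideanSpace ℝ (Fin 3)

/-- the cone volume -/
noncomputable def cvol (K ω : Set V3) : ℝ≥0∞ :=
  volume {x | ∃ u ∈ ω, ∃ y ∈ K, (∀ z ∈ K, ⟪z, u⟫ ≤ ⟪y, u⟫) ∧ ∃ s ∈ Icc (0 : ℝ) 1, x = s • y}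

theorem cvol_union (K A B : Set V3) : cvol K (A ∪ B) ≤ cvol K A + cvol K B := by
  unfold cvol
  refine (measure_mono ?_).trans (measure_union_le _ _)
  rintro x ⟨u, hu | hu, h⟩
  · exact Or.inl ⟨u, hu, h⟩
  · exact Or.inr ⟨u, hu, h⟩

theorem cvol_empty (K : Set V3) : cvol K ∅ = 0 := by
  unfold cvol
  have : {x : V3 | ∃ u ∈ (∅ : Set V3), ∃ y ∈ K, (∀ z ∈ K, ⟪z, u⟫ ≤ ⟪y, u⟫) ∧
      ∃ s ∈ Icc (0 : ℝ) 1, x = s • y} = ∅ := by
    rw [Set.eq_empty_iff_forall_notMem]
    rintro x ⟨u, hu, _⟩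
    exact hu
  rw [this, measure_empty]

theorem cvol_le {K : Set V3} (hKc : Convex ℝ K) (h0 : (0 : V3) ∈ K) (ω : Set V3) :
    cvol K ω ≤ volume K := by
  refine measure_mono ?_
  rintro x ⟨u, _, y, hy, _, s, hs, rfl⟩
  have := hKc hy h0 hs.1 (sub_nonneg.2 hs.2) (by ring)
  simpa using this

/-- coordinates with respect to an orthonormal basis -/
noncomputable def Phi (b : OrthonormalBasis (Fin 3) ℝ V3) : V3 ≃ᵐ (Fin 3 → ℝ) :=
  b.measurableEquiv.trans (MeasurableEquiv.toLp 2 (Fin 3 → ℝ)).symm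

theorem Phi_apply (b : OrthonormalBasis (Fin 3) ℝ V3) (x : V3) (i : Fin 3) :
    Phi b x i = ⟪b i, x⟫ := by
  have : Phi b x i = b.repr x i := rfl
  rw [this, b.repr_apply_apply]

theorem Phi_measurePreserving (b : OrthonormalBasis (Fin 3) ℝ V3) :
    MeasurePreserving (Phi b) volume volume :=
  (EuclideanSpace.volume_preserving_symm_measurableEquiv_toLp (Fin 3)).comp
    b.measurePreserving_measurableEquiv

/-- the unit vector of angle `t` in the plane of the first two basis vectors -/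
noncomputable def ev (b : OrthonormalBasis (Fin 3) ℝ V3) (t : ℝ) : V3 :=
  Real.cos t • b 0 + Real.sin t • b 1

theorem inner_ev (b : OrthonormalBasis (Fin 3) ℝ V3) (x : V3) (t : ℝ) :
    ⟪x, ev b t⟫ = ip (pr (Phi b x)) (uv t) := by
  simp only [ev, inner_add_right, real_inner_smul_right, ip, pr, uv, Phi_apply]
  rw [real_inner_comm x (b 0), real_inner_comm x (b 1)]
  ring

/-- the set of directions of a cell -/
def dirs (b : OrthonormalBasis (Fin 3) ℝ V3) (t m : ℝ) : Set V3 :=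
  {u | ∃ s, 0 ≤ s ∧ s < m ∧ u = ev b (t + s)}

theorem Phi_smul (b : OrthonormalBasis (Fin 3) ℝ V3) (c : ℝ) (x : V3) :
    Phi b (c • x) = c • Phi b x := by
  funext i
  rw [Pi.smul_apply, Phi_apply, Phi_apply, real_inner_smul_right, smul_eq_mul]

theorem Phi_add (b : OrthonormalBasis (Fin 3) ℝ V3) (x y : V3) :
    Phi b (x + y) = Phi b x + Phi b y := by
  funext i
  rw [Pi.add_apply, Phi_apply, Phi_apply, Phi_apply, inner_add_right]

theorem continuous_Phi (b : OrthonormalBasis (Fin 3) ℝ V3) : Continuous (Phi b) := by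
  refine continuous_pi fun i => ?_
  simp only [Phi_apply]
  fun_prop

theorem cvol_dirs (b : OrthonormalBasis (Fin 3) ℝ V3) (K : Set V3) (t m : ℝ) :
    cvol K (dirs b t m) = volume (cell (Phi b '' K) t m) := by
  rw [← (Phi_measurePreserving b).measure_preimage_equiv]
  unfold cvol
  congr 1
  ext x
  constructor
  · rintro ⟨u, ⟨s, hs0, hsm, rfl⟩, y, hy, hmax, c, hc, rfl⟩
    refine ⟨s, hs0, hsm, Phi b y, ⟨y, hy, rfl⟩, ?_, c, hc, Phi_smul b c y⟩
    rintro _ ⟨z, hz, rfl⟩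
    rw [← inner_ev, ← inner_ev]
    exact hmax z hz
  · rintro ⟨s, hs0, hsm, _, ⟨y, hy, rfl⟩, hmax, c, hc, hx⟩
    refine ⟨ev b (t + s), ⟨s, hs0, hsm, rfl⟩, y, hy, ?_, c, hc, ?_⟩
    · intro z hz
      rw [inner_ev, inner_ev]
      exact hmax _ ⟨z, hz, rfl⟩
    · rw [← Phi_smul] at hx
      exact (Phi b).injective hx

theorem volume_Phi (b : OrthonormalBasis (Fin 3) ℝ V3) (K : Set V3) :
    volume (Phi b '' K) = volume K := by
  rw [← (Phi_measurePreserving b).measure_preimage_equiv, Set.preimage_image_eq _ (Phi b).injective]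

theorem continuous_ev (b : OrthonormalBasis (Fin 3) ℝ V3) : Continuous (ev b) := by
  unfold ev
  fun_prop

theorem measurableSet_dirs (b : OrthonormalBasis (Fin 3) ℝ V3) (t m : ℝ) :
    MeasurableSet (dirs b t m) := by
  have h : dirs b t m = ⋃ n : ℕ, (fun s => ev b (t + s)) '' Icc 0 (m - 1 / (n + 1)) := by
    ext u
    constructor
    · rintro ⟨s, hs0, hsm, rfl⟩
      obtain ⟨n, hn⟩ := exists_nat_one_div_lt (sub_pos.2 hsm)
      exact Set.mem_iUnion.2 ⟨n, s, ⟨hs0, by linarith⟩, rfl⟩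
    · intro hu
      obtain ⟨n, s, ⟨hs0, hs1⟩, rfl⟩ := Set.mem_iUnion.1 hu
      have : (0:ℝ) < 1 / (n + 1) := by positivity
      exact ⟨s, hs0, by linarith, rfl⟩
  rw [h]
  refine MeasurableSet.iUnion fun n => ?_
  have hc : Continuous (fun s => ev b (t + s)) := (continuous_ev b).comp (by fun_prop)
  exact (isCompact_Icc.image hc).isClosed.measurableSet

theorem ev_pi (b : OrthonormalBasis (Fin 3) ℝ V3) (t : ℝ) : ev b (Real.pi + t) = -ev b t := by
  unfold ev
  rw [add_comm Real.pi t, Real.cos_add_pi, Real.sin_add_pi, neg_smul, neg_smul, neg_add]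

theorem neg_dirs (b : OrthonormalBasis (Fin 3) ℝ V3) (t m : ℝ) :
    {u | -u ∈ dirs b t m} = dirs b (Real.pi + t) m := by
  ext u
  constructor
  · rintro ⟨s, hs0, hsm, hu⟩
    refine ⟨s, hs0, hsm, ?_⟩
    rw [add_assoc, ev_pi, ← hu, neg_neg]
  · rintro ⟨s, hs0, hsm, rfl⟩
    refine ⟨s, hs0, hsm, ?_⟩
    rw [add_assoc, ev_pi, neg_neg]

/-- Every unit vector of the plane lies in one of the cells. -/
theorem exists_cell (b : OrthonormalBasis (Fin 3) ℝ V3) {M : ℕ} (hM : 2 ≤ M) {u : V3}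
    (hu : ‖u‖ = 1) (h2 : ⟪b 2, u⟫ = 0) :
    ∃ k, k < 2 * M ∧ (u ∈ dirs b (k * (Real.pi / (2 * M))) (Real.pi / (2 * M)) ∨
      u ∈ dirs b (Real.pi + k * (Real.pi / (2 * M))) (Real.pi / (2 * M))) := by
  have hMpos : (0:ℝ) < M := by positivity
  set m := Real.pi / (2 * M) with hm
  have hm0 : 0 < m := by rw [hm]; positivity
  have hN : (2 * M : ℝ) * m = Real.pi := by rw [hm]; field_simp
  have hexp : u = ⟪b 0, u⟫ • b 0 + ⟪b 1, u⟫ • b 1 := by
    have h := b.sum_repr' u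
    rw [Fin.sum_univ_three, h2, zero_smul, add_zero] at h
    exact h.symm
  have hnorm : ⟪b 0, u⟫ ^ 2 + ⟪b 1, u⟫ ^ 2 = 1 := by
    have h := b.sum_sq_inner_right u
    rw [Fin.sum_univ_three, h2, hu] at h
    simpa using h
  set z : ℂ := ⟨⟪b 0, u⟫, ⟪b 1, u⟫⟩ with hz
  have hznorm : ‖z‖ = 1 := by
    have h1 : ‖z‖ ^ 2 = 1 := by
      rw [← Complex.normSq_eq_norm_sq, Complex.normSq_apply]
      simp only [hz]
      linarith
    have h2 : 0 ≤ ‖z‖ := norm_nonneg z
    nlinarith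
  have hz0 : z ≠ 0 := by
    intro h
    rw [h, norm_zero] at hznorm
    exact zero_ne_one hznorm
  have hcos : Real.cos z.arg = ⟪b 0, u⟫ := by rw [Complex.cos_arg hz0, hznorm, div_one]
  have hsin : Real.sin z.arg = ⟪b 1, u⟫ := by rw [Complex.sin_arg, hznorm, div_one]
  have hev : u = ev b z.arg := by
    unfold ev
    rw [hcos, hsin]; exact hexp
  have key : ∀ θ : ℝ, 0 ≤ θ → θ < Real.pi → ∀ t0 : ℝ, u = ev b (t0 + θ) →
      ∃ k : ℕ, k < 2 * M ∧ u ∈ dirs b (t0 + k * m) m := by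
    intro θ h0 hpi t0 hu'
    refine ⟨⌊θ / m⌋₊, ?_, θ - ⌊θ / m⌋₊ * m, ?_, ?_, ?_⟩
    · rw [Nat.floor_lt (div_nonneg h0 hm0.le), div_lt_iff₀ hm0]
      push_cast
      rw [hN]; exact hpi
    · have := Nat.floor_le (div_nonneg h0 hm0.le)
      rw [le_div_iff₀ hm0] at this
      linarith
    · have := Nat.lt_floor_add_one (θ / m)
      rw [div_lt_iff₀ hm0] at this
      linarith
    · rw [hu']; congr 1; ring
  have hle := Complex.arg_le_pi z
  have hgt := Complex.neg_pi_lt_arg z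
  rcases lt_or_ge z.arg 0 with hneg | hpos
  · -- the angle lies in the lower half circle
    have h1 : u = ev b (Real.pi + (z.arg + Real.pi)) := by
      rw [hev]
      unfold ev
      have e : Real.pi + (z.arg + Real.pi) = z.arg + 2 * Real.pi := by ring
      rw [e, Real.cos_add_two_pi, Real.sin_add_two_pi]
    obtain ⟨k, hk, hk2⟩ := key (z.arg + Real.pi) (by linarith) (by linarith) Real.pi h1
    exact ⟨k, hk, Or.inr hk2⟩
  · rcases hle.lt_or_eq with hlt | heq
    · obtain ⟨k, hk, hk2⟩ := key z.arg hpos hlt 0 (by rw [zero_add]; exact hev)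
      rw [zero_add] at hk2
      exact ⟨k, hk, Or.inl hk2⟩
    · have h1 : u = ev b (Real.pi + 0) := by rw [add_zero, ← heq]; exact hev
      obtain ⟨k, hk, hk2⟩ := key 0 le_rfl Real.pi_pos Real.pi h1
      exact ⟨k, hk, Or.inr hk2⟩

theorem mem_circle_of_dirs (b : OrthonormalBasis (Fin 3) ℝ V3) {t m : ℝ} {u : V3}
    (hu : u ∈ dirs b t m) : ‖u‖ = 1 ∧ ⟪b 2, u⟫ = 0 := by
  obtain ⟨s, _, _, rfl⟩ := hu
  have h20 : ⟪b 2, b 0⟫ = 0 := b.orthonormal.2 (by decide)
  have h21 : ⟪b 2, b 1⟫ = 0 := b.orthonormal.2 (by decide)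
  have h01 : ⟪b 0, b 1⟫ = 0 := b.orthonormal.2 (by decide)
  constructor
  · have h1 : ‖ev b (t + s)‖ ^ 2 = 1 := by
      have h := b.sum_sq_inner_right (ev b (t + s))
      rw [Fin.sum_univ_three] at h
      rw [← h]
      simp only [ev, inner_add_right, real_inner_smul_right, h20, h21, h01,
        real_inner_comm (b 0) (b 1), real_inner_self_eq_norm_sq, b.norm_eq_one]
      have := Real.sin_sq_add_cos_sq (t + s)
      ring_nf
      linarith
    have h2 : 0 ≤ ‖ev b (t + s)‖ := norm_nonneg _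
    nlinarith
  · simp only [ev, inner_add_right, real_inner_smul_right, h20, h21]
    ring

/-- The bound by the cells of one grid. -/
theorem core_grid (b : OrthonormalBasis (Fin 3) ℝ V3) {K : Set V3} (hK : IsCompact K)
    (hKc : Convex ℝ K) (h0 : (0 : V3) ∈ K) (F : Set V3 → ℝ≥0∞) (hF0 : F ∅ = 0)
    (hFu : ∀ A B, F (A ∪ B) ≤ F A + F B)
    (heven : ∀ ω : Set V3, MeasurableSet ω → (∀ u ∈ ω, ‖u‖ = 1 ∧ ⟪b 2, u⟫ = 0) →
      F {u | -u ∈ ω} = F ω)
    (hle : ∀ ω : Set V3, MeasurableSet ω → (∀ u ∈ ω, ‖u‖ = 1 ∧ ⟪b 2, u⟫ = 0) →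
      F ω ≤ cvol K ω) (M : ℕ) (hM : 2 ≤ M) :
    3 * F {u | ‖u‖ = 1 ∧ ⟪b 2, u⟫ = 0} ≤ ENNReal.ofReal (2 * ∑ k ∈ Finset.range (2 * M),
      3 * min (volume (cell (Phi b '' K) (k * (Real.pi / (2 * M))) (Real.pi / (2 * M)))).toReal
      (volume (cell (Phi b '' K) (Real.pi + k * (Real.pi / (2 * M)))
        (Real.pi / (2 * M)))).toReal) := by
  classical
  have hcK : ∀ ω, cvol K ω ≠ ⊤ := fun ω => ((cvol_le hKc h0 ω).trans_lt hK.measure_lt_top).ne
  set m := Real.pi / (2 * M) with hm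
  simp only [← cvol_dirs]
  set A : ℕ → Set V3 := fun k => dirs b (k * m) m with hA
  set A' : ℕ → Set V3 := fun k => dirs b (Real.pi + k * m) m with hA'
  have hsub : ∀ n : ℕ, F (⋃ k ∈ Finset.range n, (A k ∪ A' k)) ≤
      ∑ k ∈ Finset.range n, (F (A k) + F (A' k)) := by
    intro n
    induction n with
    | zero => simp [hF0]
    | succ n ih =>
      rw [Finset.sum_range_succ, Finset.range_add_one, Finset.set_biUnion_insert, Set.union_comm]
      refine (hFu _ _).trans (add_le_add ih (hFu _ _))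
  have hcover : {u : V3 | ‖u‖ = 1 ∧ ⟪b 2, u⟫ = 0} =
      ⋃ k ∈ Finset.range (2 * M), (A k ∪ A' k) := by
    ext u
    simp only [Set.mem_iUnion, Finset.mem_range]
    constructor
    · rintro ⟨h1, h2⟩
      obtain ⟨k, hk, hk2⟩ := exists_cell b hM h1 h2
      exact ⟨k, hk, hk2⟩
    · rintro ⟨k, _, h | h⟩
      · exact mem_circle_of_dirs b h
      · exact mem_circle_of_dirs b h
  have hcell : ∀ k, F (A k) + F (A' k) ≤
      ENNReal.ofReal (2 * min (cvol K (A k)).toReal (cvol K (A' k)).toReal) := by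
    intro k
    have e1 : F (A' k) = F (A k) := by
      have := heven (A k) (measurableSet_dirs b _ _) (fun u hu => mem_circle_of_dirs b hu)
      rw [← this]
      simp only [hA, hA']
      rw [neg_dirs]
    have l1 := hle (A k) (measurableSet_dirs b _ _) (fun u hu => mem_circle_of_dirs b hu)
    have l2 := hle (A' k) (measurableSet_dirs b _ _) (fun u hu => mem_circle_of_dirs b hu)
    rw [e1] at l2
    rw [e1, ← two_mul, ENNReal.ofReal_mul (by norm_num), ENNReal.ofReal_ofNat]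
    refine mul_le_mul' le_rfl ?_
    rcases min_choice (cvol K (A k)).toReal (cvol K (A' k)).toReal with h | h
    · rw [h, ENNReal.ofReal_toReal (hcK _)]; exact l1
    · rw [h, ENNReal.ofReal_toReal (hcK _)]; exact l2
  have hn : ∀ k, 0 ≤ min (cvol K (A k)).toReal (cvol K (A' k)).toReal :=
    fun k => le_min ENNReal.toReal_nonneg ENNReal.toReal_nonneg
  calc 3 * F {u | ‖u‖ = 1 ∧ ⟪b 2, u⟫ = 0}
      ≤ 3 * ∑ k ∈ Finset.range (2 * M), (F (A k) + F (A' k)) := by
        rw [hcover]; exact mul_le_mul' le_rfl (hsub _)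
    _ ≤ 3 * ∑ k ∈ Finset.range (2 * M),
        ENNReal.ofReal (2 * min (cvol K (A k)).toReal (cvol K (A' k)).toReal) :=
        mul_le_mul' le_rfl (Finset.sum_le_sum fun k _ => hcell k)
    _ = ENNReal.ofReal (2 * ∑ k ∈ Finset.range (2 * M),
        3 * min (cvol K (A k)).toReal (cvol K (A' k)).toReal) := by
        rw [← ENNReal.ofReal_sum_of_nonneg (fun k _ => mul_nonneg (by norm_num) (hn k)),
          ← ENNReal.ofReal_ofNat 3, ← ENNReal.ofReal_mul (by norm_num)]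
        congr 1
        rw [← Finset.mul_sum, ← Finset.mul_sum]
        ring

theorem compact_Phi (b : OrthonormalBasis (Fin 3) ℝ V3) {K : Set V3} (hK : IsCompact K) :
    IsCompact (Phi b '' K) := hK.image (continuous_Phi b)

theorem convex_Phi (b : OrthonormalBasis (Fin 3) ℝ V3) {K : Set V3} (hKc : Convex ℝ K) :
    Convex ℝ (Phi b '' K) := by
  rintro _ ⟨x, hx, rfl⟩ _ ⟨y, hy, rfl⟩ s t hs ht hst
  exact ⟨s • x + t • y, hKc hx hy hs ht hst, by rw [Phi_add, Phi_smul, Phi_smul]⟩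

theorem zero_Phi (b : OrthonormalBasis (Fin 3) ℝ V3) {K : Set V3} (h0 : (0 : V3) ∈ K) :
    (0 : Fin 3 → ℝ) ∈ Phi b '' K := by
  refine ⟨0, h0, ?_⟩
  funext i
  rw [Phi_apply, inner_zero_right]; rfl

/-- The core statement for a subadditive even set function below the cone volume. -/
theorem core (b : OrthonormalBasis (Fin 3) ℝ V3) {K : Set V3} (hK : IsCompact K)
    (hKc : Convex ℝ K) (h0 : (0 : V3) ∈ K) (F : Set V3 → ℝ≥0∞) (hF0 : F ∅ = 0)
    (hFu : ∀ A B, F (A ∪ B) ≤ F A + F B)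
    (heven : ∀ ω : Set V3, MeasurableSet ω → (∀ u ∈ ω, ‖u‖ = 1 ∧ ⟪b 2, u⟫ = 0) →
      F {u | -u ∈ ω} = F ω)
    (hle : ∀ ω : Set V3, MeasurableSet ω → (∀ u ∈ ω, ‖u‖ = 1 ∧ ⟪b 2, u⟫ = 0) →
      F ω ≤ cvol K ω) :
    3 * F {u | ‖u‖ = 1 ∧ ⟪b 2, u⟫ = 0} ≤ 2 * volume K := by
  have hvK : volume K ≠ ⊤ := hK.measure_lt_top.ne
  refine ENNReal.le_of_forall_pos_le_add fun η hη _ => ?_
  have hη' : (0:ℝ) < (η:ℝ) / 2 := by positivity
  obtain ⟨M, hM, hsum⟩ := cells_exist (compact_Phi b hK) (convex_Phi b hKc) (zero_Phi b h0) hη'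
  rw [volume_Phi] at hsum
  refine (core_grid b hK hKc h0 F hF0 hFu heven hle M hM).trans ?_
  calc _ ≤ ENNReal.ofReal (2 * ((volume K).toReal + η / 2)) := by
        refine ENNReal.ofReal_le_ofReal (mul_le_mul_of_nonneg_left hsum (by norm_num))
    _ = 2 * volume K + η := by
        rw [mul_add, ENNReal.ofReal_add (by positivity) (by positivity),
          ENNReal.ofReal_mul (by norm_num), ENNReal.ofReal_toReal hvK, ENNReal.ofReal_ofNat]
        congr 1
        have : 2 * ((η:ℝ) / 2) = η := by ring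
        rw [this, ENNReal.ofReal_coe_nnreal]

end Pool.Agent.Lib.MP_abca01_gt.Plane3
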