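import Pool.Agent.Lib.MP_abca01_gt.Plane3.Gfree
import Pool.Agent.Lib.MP_abca01_gt.Plane3.Transfer
import Pool.Agent.Lib.MP_abca01_gt.Plane3.FibConst

/-!
# Planes: the inequality and the case of equality
-/

set_option autoImplicit false

open MeasureTheory Set Metric
open scoped ENNReal RealInnerProductSpace

namespace Pool.Agent.Lib.MP_abca01_gt.Plane3

open MP_abca01_gt.Sym

/-- A parametrisation of a one-dimensional space by a unit vector. -/
theorem exists_line_equiv {W : Type} [NormedAddCommGroup W] [InnerProductSpace ℝ W]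
    [FiniteDimensional ℝ W] (hW : Module.finrank ℝ W = 1) {w : W} (hw : ‖w‖ = 1) :
    ∃ j : ℝ ≃ₗᵢ[ℝ] W, ∀ t : ℝ, j t = t • w := by
  refine ⟨(LinearIsometry.toSpanSingleton ℝ W hw).toLinearIsometryEquiv (by simp [hW]),
    fun t => ?_⟩
  rfl

/-- An orthonormal basis adapted to a plane. -/
theorem exists_basis (L : Submodule ℝ V3) (hL : Module.finrank ℝ L = 2) :
    ∃ b : OrthonormalBasis (Fin 3) ℝ V3, ∀ x, x ∈ L ↔ ⟪b 2, x⟫ = 0 := by
  have hfr : Module.finrank ℝ V3 = 3 := finrank_euclideanSpace_fin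
  have h1 : Module.finrank ℝ Lᗮ = 1 := by
    have := Submodule.finrank_add_finrank_orthogonal L
    rw [hL, hfr] at this
    omega
  obtain ⟨w0, hw0⟩ : ∃ w : Lᗮ, w ≠ 0 := by
    have : Nontrivial Lᗮ := Module.nontrivial_of_finrank_pos (R := ℝ) (by omega)
    exact exists_ne 0
  have hn : 0 < ‖w0‖ := norm_pos_iff.2 hw0
  set w : V3 := ‖w0‖⁻¹ • (w0 : V3) with hw
  have hwn : ‖w‖ = 1 := by
    rw [hw, norm_smul, norm_inv, norm_norm]
    exact inv_mul_cancel₀ hn.ne'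
  have hwL : w ∈ Lᗮ := Submodule.smul_mem _ _ w0.2
  have hort : Orthonormal ℝ (({2} : Set (Fin 3)).domRestrict (fun _ => w)) := by
    refine ⟨fun i => hwn, ?_⟩
    intro i j hij
    exact absurd (Subsingleton.elim i j) hij
  obtain ⟨b, hb⟩ := hort.exists_orthonormalBasis_extension_of_card_eq (by simp)
  have hb2 : b 2 = w := hb 2 rfl
  refine ⟨b, fun x => ?_⟩
  rw [hb2]
  have h2 : L ≤ (ℝ ∙ w)ᗮ := by
    intro y hy
    rw [Submodule.mem_orthogonal_singleton_iff_inner_right]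
    exact Submodule.inner_left_of_mem_orthogonal hy hwL
  have h3 : L = (ℝ ∙ w)ᗮ := by
    apply Submodule.eq_of_le_of_finrank_eq h2
    have h4 := Submodule.finrank_add_finrank_orthogonal (ℝ ∙ w)
    have h5 : Module.finrank ℝ (ℝ ∙ w) = 1 := finrank_span_singleton (by
      intro h
      rw [h, norm_zero] at hwn
      exact zero_ne_one hwn)
    rw [h5, hfr] at h4
    omega
  rw [h3, Submodule.mem_orthogonal_singleton_iff_inner_right]

section

variable (b : OrthonormalBasis (Fin 3) ℝ V3) {L : Submodule ℝ V3}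

theorem mem_L_zero (hb : ∀ x, x ∈ L ↔ ⟪b 2, x⟫ = 0) : b 0 ∈ L :=
  (hb _).2 (b.orthonormal.2 (by decide))

theorem mem_L_one (hb : ∀ x, x ∈ L ↔ ⟪b 2, x⟫ = 0) : b 1 ∈ L :=
  (hb _).2 (b.orthonormal.2 (by decide))

theorem mem_perp_two (hb : ∀ x, x ∈ L ↔ ⟪b 2, x⟫ = 0) : b 2 ∈ Lᗮ := by
  rw [Submodule.mem_orthogonal']
  intro x hx
  exact (hb x).1 hx

/-- The fibre volumes in coordinates. -/
theorem fv_eq_fib (hb : ∀ x, x ∈ L ↔ ⟪b 2, x⟫ = 0) (hL : Module.finrank ℝ L = 2) {K : Set V3}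
    (hK : IsCompact K) (a : L) : fv L K a = fib (Phi b '' K) (pr (Phi b a)) := by
  have hfr : Module.finrank ℝ V3 = 3 := finrank_euclideanSpace_fin
  have h1 : Module.finrank ℝ Lᗮ = 1 := by
    have := Submodule.finrank_add_finrank_orthogonal L
    rw [hL, hfr] at this
    omega
  have hw : ‖(⟨b 2, mem_perp_two b hb⟩ : Lᗮ)‖ = 1 := b.norm_eq_one 2
  obtain ⟨j, hj⟩ := exists_line_equiv h1 hw
  unfold fv fib
  rw [← j.measurePreserving.measure_preimage
    (isCompact_fb L hK a).measurableSet.nullMeasurableSet]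
  congr 1
  ext t
  rw [Set.mem_preimage, hj]
  have e : pt (pr (Phi b (a : V3))) t = Phi b ((a : V3) + t • b 2) := by
    rw [Phi_add, Phi_smul]
    have h20 : ⟪b 0, b 2⟫ = 0 := b.orthonormal.2 (by decide)
    have h21 : ⟪b 1, b 2⟫ = 0 := b.orthonormal.2 (by decide)
    have h2a : ⟪b 2, (a : V3)⟫ = 0 := (hb _).1 a.2
    funext i
    fin_cases i
    · simp [pt, pr, Phi_apply, h20]
    · simp [pt, pr, Phi_apply, h21]
    · simp [pt, pr, Phi_apply, h2a]
  constructor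
  · intro h
    rw [Set.mem_ofPred_eq, e]
    exact ⟨_, h, rfl⟩
  · intro h
    rw [Set.mem_ofPred_eq, e] at h
    obtain ⟨x, hx, hxe⟩ := h
    have := (Phi b).injective hxe
    change (a : V3) + t • b 2 ∈ K
    rw [← this]; exact hx

theorem pr_Phi_add (x y : V3) : pr (Phi b (x + y)) = pr (Phi b x) + pr (Phi b y) := by
  rw [Phi_add]; rfl

/-- The projection of the interior in coordinates. -/
theorem mem_interior_of_PI (hb : ∀ x, x ∈ L ↔ ⟪b 2, x⟫ = 0) {K : Set V3} {a : L}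
    (ha : a ∈ PI L K) : pr (Phi b a) ∈ interior (pr '' (Phi b '' K)) := by
  obtain ⟨x, hx, rfl⟩ := ha
  have e1 : pr (Phi b ((pj L x : L) : V3)) = pr (Phi b x) := by
    have h0 := inner_pj L x ⟨b 0, mem_L_zero b hb⟩
    have h1 := inner_pj L x ⟨b 1, mem_L_one b hb⟩
    have h0' : ⟪((pj L x : L) : V3), b 0⟫ = ⟪x, b 0⟫ := h0
    have h1' : ⟪((pj L x : L) : V3), b 1⟫ = ⟪x, b 1⟫ := h1
    unfold pr
    rw [Phi_apply, Phi_apply, Phi_apply, Phi_apply, real_inner_comm, h0',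
      real_inner_comm ((pj L x : L) : V3) (b 1), h1', real_inner_comm x, real_inner_comm x]
  rw [e1]
  set q : V3 →L[ℝ] ℝ × ℝ := (innerSL ℝ (b 0)).prod (innerSL ℝ (b 1)) with hq
  have hqe : ∀ y, q y = pr (Phi b y) := by
    intro y
    unfold pr
    rw [Phi_apply, Phi_apply]
    rfl
  have hsurj : Function.Surjective q := by
    rintro ⟨s, t⟩
    refine ⟨s • b 0 + t • b 1, ?_⟩
    have h01 : ⟪b 0, b 1⟫ = 0 := b.orthonormal.2 (by decide)
    have h10 : ⟪b 1, b 0⟫ = 0 := b.orthonormal.2 (by decide)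
    have h00 : ⟪b 0, b 0⟫ = 1 := by rw [real_inner_self_eq_norm_sq, b.norm_eq_one]; norm_num
    have h11 : ⟪b 1, b 1⟫ = 1 := by rw [real_inner_self_eq_norm_sq, b.norm_eq_one]; norm_num
    rw [hqe]
    unfold pr
    rw [Phi_apply, Phi_apply, inner_add_right, inner_add_right, real_inner_smul_right,
      real_inner_smul_right, real_inner_smul_right, real_inner_smul_right, h01, h10, h00, h11]
    simp
  have hopen : IsOpen (q '' interior K) := q.isOpenMap hsurj _ isOpen_interior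
  have hsub : q '' interior K ⊆ pr '' (Phi b '' K) := by
    rintro _ ⟨y, hy, rfl⟩
    exact ⟨Phi b y, ⟨y, interior_subset hy, rfl⟩, (hqe y).symm⟩
  exact interior_maximal hsub hopen ⟨x, hx, hqe x⟩

end

theorem sL_eq (b : OrthonormalBasis (Fin 3) ℝ V3) {L : Submodule ℝ V3}
    (hb : ∀ x, x ∈ L ↔ ⟪b 2, x⟫ = 0) : sL L = {u | ‖u‖ = 1 ∧ ⟪b 2, u⟫ = 0} := by
  ext u
  unfold sL
  rw [Set.mem_inter_iff, SetLike.mem_coe, hb, mem_sphere_zero_iff_norm, Set.mem_ofPred_eq]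
  exact and_comm

/-- **Planes**: the inequality for an arbitrary even set function below the cone volume. -/
theorem plane_ineq {L : Submodule ℝ V3} (hL : Module.finrank ℝ L = 2) {K : Set V3}
    (hK : IsCompact K) (hKc : Convex ℝ K) (h0 : (0 : V3) ∈ K)
    (F : Set V3 → ℝ≥0∞) (hF0 : F ∅ = 0) (hFu : ∀ A B, F (A ∪ B) ≤ F A + F B)
    (heven : ∀ ω : Set V3, MeasurableSet ω → ω ⊆ sL L → F {u | -u ∈ ω} = F ω)
    (hle : ∀ ω : Set V3, MeasurableSet ω → ω ⊆ sL L → F ω ≤ cvol K ω) :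
    3 * F (sL L) ≤ 2 * volume K := by
  obtain ⟨b, hb⟩ := exists_basis L hL
  have e := sL_eq b hb
  have hsub : ∀ ω : Set V3, (∀ u ∈ ω, ‖u‖ = 1 ∧ ⟪b 2, u⟫ = 0) → ω ⊆ sL L := by
    intro ω h u hu
    rw [e]; exact h u hu
  rw [e]
  exact core b hK hKc h0 F hF0 hFu (fun ω h1 h2 => heven ω h1 (hsub ω h2))
    (fun ω h1 h2 => hle ω h1 (hsub ω h2))

/-- **Planes**: the case of equality. -/
theorem plane_eq {L : Submodule ℝ V3} (hL : Module.finrank ℝ L = 2) {K : Set V3}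
    (hK : IsCompact K) (hKc : Convex ℝ K) (hKi : (interior K).Nonempty) (h0 : (0 : V3) ∈ K)
    (F : Set V3 → ℝ≥0∞) (hF0 : F ∅ = 0) (hFu : ∀ A B, F (A ∪ B) ≤ F A + F B)
    (heven : ∀ ω : Set V3, MeasurableSet ω → ω ⊆ sL L → F {u | -u ∈ ω} = F ω)
    (hle : ∀ ω : Set V3, MeasurableSet ω → ω ⊆ sL L → F ω ≤ cvol K ω)
    (heq : 3 * F (sL L) = 2 * volume K) :
    ∃ L' : Submodule ℝ V3, IsCompl L L' ∧
      cvol K (((L : Set V3) ∪ L')ᶜ ∩ sphere 0 1) = 0 := by
  obtain ⟨b, hb⟩ := exists_basis L hL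
  have e := sL_eq b hb
  have hsub : ∀ ω : Set V3, (∀ u ∈ ω, ‖u‖ = 1 ∧ ⟪b 2, u⟫ = 0) → ω ⊆ sL L := by
    intro ω h u hu
    rw [e]; exact h u hu
  have hvK : volume K ≠ ⊤ := hK.measure_lt_top.ne
  have hS : ∀ M : ℕ, 2 ≤ M → (volume (Phi b '' K)).toReal ≤ ∑ k ∈ Finset.range (2 * M),
      3 * min (volume (cell (Phi b '' K) (k * (Real.pi / (2 * M))) (Real.pi / (2 * M)))).toReal
      (volume (cell (Phi b '' K) (Real.pi + k * (Real.pi / (2 * M)))
        (Real.pi / (2 * M)))).toReal := by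
    intro M hM
    have h1 := core_grid b hK hKc h0 F hF0 hFu
      (fun ω h1 h2 => heven ω h1 (hsub ω h2)) (fun ω h1 h2 => hle ω h1 (hsub ω h2)) M hM
    rw [← e, heq] at h1
    rw [volume_Phi]
    set S := ∑ k ∈ Finset.range (2 * M),
      3 * min (volume (cell (Phi b '' K) (k * (Real.pi / (2 * M))) (Real.pi / (2 * M)))).toReal
      (volume (cell (Phi b '' K) (Real.pi + k * (Real.pi / (2 * M)))
        (Real.pi / (2 * M)))).toReal with hSd
    have hS0 : 0 ≤ S := Finset.sum_nonneg fun k _ =>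
      mul_nonneg (by norm_num) (le_min ENNReal.toReal_nonneg ENNReal.toReal_nonneg)
    have h2 := ENNReal.toReal_mono ENNReal.ofReal_ne_top h1
    rw [ENNReal.toReal_ofReal (by positivity), ENNReal.toReal_mul, ENNReal.toReal_ofNat] at h2
    linarith
  obtain ⟨c, hc⟩ := fib_const (compact_Phi b hK) (convex_Phi b hKc) (zero_Phi b h0) hS
  refine null_of_const hK hKc hKi h0 (c := c) ?_
  intro a ha
  rw [fv_eq_fib b hb hL hK a]
  exact hc _ (mem_interior_of_PI b hb ha)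

end Pool.Agent.Lib.MP_abca01_gt.Plane3
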