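import Mathlib

/-!
# The scalar inequalities of the planar theorem
-/

set_option autoImplicit false

open Finset

namespace Pool.Agent.Lib.MP_abca01_gt.Plane3

/-- Cauchy-Schwarz in the form needed: the mean square of the asymmetries. -/
theorem scalar_cs (n : ℕ) (c : ℕ → ℕ → ℝ) (hc : ∀ i j, 0 ≤ c i j) (hsymm : ∀ i j, c i j = c j i)
    (b tau z w : ℕ → ℝ) (hb : ∀ i, i < n → 0 ≤ b i)
    (hw : ∀ i, i < n → w i = ∑ j ∈ range n, b j * c i j)
    (hD : ∀ i, i < n → |w i * z i| ≤ ∑ j ∈ range n, |b j * tau j| * c i j) :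
    ∑ i ∈ range n, w i * b i * z i ^ 2 ≤ ∑ i ∈ range n, w i * b i * tau i ^ 2 := by
  have hwn : ∀ i, i < n → 0 ≤ w i := by
    intro i hi
    rw [hw i hi]
    exact Finset.sum_nonneg fun j hj => mul_nonneg (hb j (Finset.mem_range.1 hj)) (hc i j)
  have h1 : ∀ i, i < n → w i * z i ^ 2 ≤ ∑ j ∈ range n, b j * tau j ^ 2 * c i j := by
    intro i hi
    have hS : 0 ≤ ∑ j ∈ range n, b j * tau j ^ 2 * c i j :=
      Finset.sum_nonneg fun j hj => mul_nonneg
        (mul_nonneg (hb j (Finset.mem_range.1 hj)) (sq_nonneg _)) (hc i j)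
    rcases (hwn i hi).eq_or_lt with h | h
    · rw [← h]; simpa using hS
    have h2 : (∑ j ∈ range n, |b j * tau j| * c i j) ^ 2 ≤
        (∑ j ∈ range n, b j * c i j) * ∑ j ∈ range n, b j * tau j ^ 2 * c i j := by
      refine Finset.sum_sq_le_sum_mul_sum_of_sq_eq_mul _ (fun j hj => mul_nonneg
        (hb j (Finset.mem_range.1 hj)) (hc i j)) (fun j hj => mul_nonneg (mul_nonneg
        (hb j (Finset.mem_range.1 hj)) (sq_nonneg _)) (hc i j)) (fun j hj => ?_)
      rw [mul_pow, sq_abs]; ring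
    have h3 : (w i * z i) ^ 2 ≤ (∑ j ∈ range n, |b j * tau j| * c i j) ^ 2 := by
      rw [← sq_abs (w i * z i)]
      exact pow_le_pow_left₀ (abs_nonneg _) (hD i hi) 2
    rw [← hw i hi] at h2
    have h4 : w i * (w i * z i ^ 2) ≤ w i * ∑ j ∈ range n, b j * tau j ^ 2 * c i j := by
      calc w i * (w i * z i ^ 2) = (w i * z i) ^ 2 := by ring
        _ ≤ _ := h3.trans h2
    exact le_of_mul_le_mul_left h4 h
  calc ∑ i ∈ range n, w i * b i * z i ^ 2
      = ∑ i ∈ range n, b i * (w i * z i ^ 2) := Finset.sum_congr rfl fun i _ => by ring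
    _ ≤ ∑ i ∈ range n, b i * ∑ j ∈ range n, b j * tau j ^ 2 * c i j :=
        Finset.sum_le_sum fun i hi => mul_le_mul_of_nonneg_left
          (h1 i (Finset.mem_range.1 hi)) (hb i (Finset.mem_range.1 hi))
    _ = ∑ j ∈ range n, ∑ i ∈ range n, b i * (b j * tau j ^ 2 * c i j) := by
        simp only [Finset.mul_sum]
        exact Finset.sum_comm
    _ = ∑ j ∈ range n, w j * b j * tau j ^ 2 := by
        refine Finset.sum_congr rfl fun j hj => ?_
        rw [hw j (Finset.mem_range.1 hj), Finset.sum_mul, Finset.sum_mul]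
        exact Finset.sum_congr rfl fun i _ => by rw [hsymm i j]; ring

/-- the quadratic form is bounded by the diagonal -/
theorem scalar_amgm (n : ℕ) (c : ℕ → ℕ → ℝ) (hc : ∀ i j, 0 ≤ c i j)
    (hsymm : ∀ i j, c i j = c j i)
    (b tau w : ℕ → ℝ) (hb : ∀ i, i < n → 0 ≤ b i)
    (hw : ∀ i, i < n → w i = ∑ j ∈ range n, b j * c i j) :
    ∑ i ∈ range n, |b i * tau i| * ∑ j ∈ range n, |b j * tau j| * c i j ≤
      ∑ i ∈ range n, w i * b i * tau i ^ 2 := by
  have h1 : ∀ i ∈ range n, ∀ j ∈ range n, |b i * tau i| * (|b j * tau j| * c i j) ≤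
      b i * b j * c i j * tau i ^ 2 / 2 + b i * b j * c i j * tau j ^ 2 / 2 := by
    intro i hi j hj
    have hbi := hb i (Finset.mem_range.1 hi)
    have hbj := hb j (Finset.mem_range.1 hj)
    have h2 : 0 ≤ b i * b j * c i j := mul_nonneg (mul_nonneg hbi hbj) (hc i j)
    rw [abs_mul, abs_mul, abs_of_nonneg hbi, abs_of_nonneg hbj]
    have h3 : |tau i| * |tau j| ≤ tau i ^ 2 / 2 + tau j ^ 2 / 2 := by
      rw [← sq_abs (tau i), ← sq_abs (tau j)]
      nlinarith [sq_nonneg (|tau i| - |tau j|)]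
    nlinarith [mul_le_mul_of_nonneg_left h3 h2]
  calc ∑ i ∈ range n, |b i * tau i| * ∑ j ∈ range n, |b j * tau j| * c i j
      = ∑ i ∈ range n, ∑ j ∈ range n, |b i * tau i| * (|b j * tau j| * c i j) := by
        simp only [Finset.mul_sum]
    _ ≤ ∑ i ∈ range n, ∑ j ∈ range n, (b i * b j * c i j * tau i ^ 2 / 2 +
          b i * b j * c i j * tau j ^ 2 / 2) :=
        Finset.sum_le_sum fun i hi => Finset.sum_le_sum fun j hj => h1 i hi j hj
    _ = ∑ i ∈ range n, ∑ j ∈ range n, b i * b j * c i j * tau i ^ 2 / 2 +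
          ∑ i ∈ range n, ∑ j ∈ range n, b i * b j * c i j * tau j ^ 2 / 2 := by
        simp only [Finset.sum_add_distrib]
    _ = ∑ i ∈ range n, w i * b i * tau i ^ 2 / 2 + ∑ i ∈ range n, w i * b i * tau i ^ 2 / 2 := by
        congr 1
        · refine Finset.sum_congr rfl fun i hi => ?_
          rw [hw i (Finset.mem_range.1 hi), Finset.sum_mul, Finset.sum_mul, Finset.sum_div]
          exact Finset.sum_congr rfl fun j _ => by ring
        · rw [Finset.sum_comm]
          refine Finset.sum_congr rfl fun i hi => ?_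
          rw [hw i (Finset.mem_range.1 hi), Finset.sum_mul, Finset.sum_mul, Finset.sum_div]
          exact Finset.sum_congr rfl fun j _ => by rw [hsymm j i]; ring
    _ = ∑ i ∈ range n, w i * b i * tau i ^ 2 := by
        rw [← Finset.sum_add_distrib]
        exact Finset.sum_congr rfl fun i _ => by ring

/-- The scalar inequality. -/
theorem scalar_ineq (n : ℕ) (c : ℕ → ℕ → ℝ) (hc : ∀ i j, 0 ≤ c i j)
    (hsymm : ∀ i j, c i j = c j i)
    (b tau z w : ℕ → ℝ) (hb : ∀ i, i < n → 0 ≤ b i)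
    (hw : ∀ i, i < n → w i = ∑ j ∈ range n, b j * c i j)
    (hD : ∀ i, i < n → |w i * z i| ≤ ∑ j ∈ range n, |b j * tau j| * c i j)
    (Do : ℕ → ℝ)
    (hDo : ∀ i, i < n → |Do i| ≤ (1 / 3) * ∑ j ∈ range n, |b j * tau j| * c i j)
    (hsum : ∑ i ∈ range n, b i * tau i * (w i * z i) = ∑ i ∈ range n, b i * tau i * Do i) :
    ∑ i ∈ range n, w i * b i * (1 - tau i ^ 2 + (2 * z i - tau i) ^ 2 / 10) ≤
      ∑ i ∈ range n, w i * b i * (1 + z i * tau i) := by
  have h1 := scalar_cs n c hc hsymm b tau z w hb hw hD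
  have h2 := scalar_amgm n c hc hsymm b tau w hb hw
  have hwn : ∀ i, i < n → 0 ≤ w i := by
    intro i hi
    rw [hw i hi]
    exact Finset.sum_nonneg fun j hj => mul_nonneg (hb j (Finset.mem_range.1 hj)) (hc i j)
  have hT : 0 ≤ ∑ i ∈ range n, w i * b i * tau i ^ 2 :=
    Finset.sum_nonneg fun i hi => mul_nonneg (mul_nonneg (hwn i (Finset.mem_range.1 hi))
      (hb i (Finset.mem_range.1 hi))) (sq_nonneg _)
  have h3 : -(∑ i ∈ range n, b i * tau i * Do i) ≤
      (1 / 3) * ∑ i ∈ range n, |b i * tau i| * ∑ j ∈ range n, |b j * tau j| * c i j := by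
    rw [← Finset.sum_neg_distrib, Finset.mul_sum]
    refine Finset.sum_le_sum fun i hi => ?_
    have h4 := hDo i (Finset.mem_range.1 hi)
    have h5 : -(b i * tau i * Do i) ≤ |b i * tau i| * |Do i| := by
      rw [← abs_mul]; exact neg_le_abs _
    have h6 := mul_le_mul_of_nonneg_left h4 (abs_nonneg (b i * tau i))
    linarith
  have e1 : ∑ i ∈ range n, w i * b i * (1 - tau i ^ 2 + (2 * z i - tau i) ^ 2 / 10) =
      (∑ i ∈ range n, w i * b i) - (9 / 10) * (∑ i ∈ range n, w i * b i * tau i ^ 2) +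
      (4 / 10) * (∑ i ∈ range n, w i * b i * z i ^ 2) -
      (4 / 10) * ∑ i ∈ range n, b i * tau i * (w i * z i) := by
    rw [Finset.mul_sum, Finset.mul_sum, Finset.mul_sum, ← Finset.sum_sub_distrib,
      ← Finset.sum_add_distrib, ← Finset.sum_sub_distrib]
    exact Finset.sum_congr rfl fun i _ => by ring
  have e2 : ∑ i ∈ range n, w i * b i * (1 + z i * tau i) =
      (∑ i ∈ range n, w i * b i) + ∑ i ∈ range n, b i * tau i * (w i * z i) := by
    rw [← Finset.sum_add_distrib]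
    exact Finset.sum_congr rfl fun i _ => by ring
  rw [e1, e2]
  rw [hsum]
  nlinarith

/-- Auxiliary: the one-variable inequality behind the pair inequality, main case. -/
theorem pair_aux (t s : ℝ) (ht0 : 0 ≤ t) (ht1 : t ≤ 1) (hs : 3 ≤ s) :
    0 ≤ (1 - t ^ 2) * (29 / 10 - s) + s ^ 2 / 10 - s * t * (2 + t) / 10 := by
  have h0 : 0 ≤ t * (1 - t) := mul_nonneg ht0 (by linarith)
  by_cases hcase : t ≤ 4 / 5
  · have h1 : 0 ≤ (4 / 5 - t) * t := mul_nonneg (by linarith) ht0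
    have key : (1 + t / 5 - 9 / 10 * t ^ 2) ^ 2 ≤ 116 / 100 * (1 - t ^ 2) := by
      nlinarith [mul_nonneg h1 ht0, mul_nonneg h1 h0, mul_nonneg h1 h1, mul_nonneg (mul_nonneg ht0 ht0) h1,
        sq_nonneg (t - 1 / 2), mul_nonneg ht0 (sq_nonneg (t - 1 / 2)),
        mul_nonneg (mul_nonneg ht0 ht0) (sq_nonneg (t - 1 / 2)), sq_nonneg (t ^ 2 - t / 3)]
    nlinarith [sq_nonneg (s - 5 * (1 + t / 5 - 9 / 10 * t ^ 2))]
  · have h2 : 4 / 5 ≤ t := by linarith
    have h3 : 5 * (1 + t / 5 - 9 / 10 * t ^ 2) ≤ 3 := by nlinarith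
    nlinarith [mul_nonneg (sub_nonneg.2 hs) (sub_nonneg.2 hs),
      mul_nonneg (sub_nonneg.2 hs) (sub_nonneg.2 h3)]

/-- One-variable form of the pair inequality, `0 ≤ x ≤ 1`, `q` negative. -/
theorem pair_chi (t x p : ℝ) (ht1 : -1 ≤ t) (ht2 : t ≤ 1) (hx0 : 0 ≤ x) (hx1 : x ≤ 1)
    (hp0 : 0 ≤ p) (hp : p ≤ 2 + t) :
    0 ≤ (1 - t ^ 2) * (29 / 10 * x ^ 2 - p * x) + p ^ 2 / 10 * (1 - t * x) := by
  have hP : 0 ≤ 1 - t ^ 2 := by nlinarith
  have htx : 0 ≤ 1 - t * x := by nlinarith [mul_nonneg hx0 (by linarith : 0 ≤ 1 - t)]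
  rcases le_or_gt p (29 / 10 * x) with h | h
  · have h1 : 0 ≤ 29 / 10 * x ^ 2 - p * x := by nlinarith
    have h2 := mul_nonneg hP h1
    have h3 := mul_nonneg (by positivity : 0 ≤ p ^ 2 / 10) htx
    linarith
  rcases le_or_gt t 0 with ht | ht
  · have h1 : 1 ≤ 1 - t * x := by nlinarith
    have h2 : p ^ 2 / 10 ≤ p ^ 2 / 10 * (1 - t * x) := by
      have := mul_le_mul_of_nonneg_left h1 (by positivity : 0 ≤ p ^ 2 / 10)
      linarith
    have h3 : 29 / 10 * x ^ 2 - p * x ≤ 0 := by nlinarith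
    have h4 : (29 / 10 * x ^ 2 - p * x) ≤ (1 - t ^ 2) * (29 / 10 * x ^ 2 - p * x) := by
      nlinarith [sq_nonneg t]
    nlinarith [sq_nonneg (58 / 10 * x - p)]
  · rcases hx0.eq_or_lt with hx | hx
    · rw [← hx]; nlinarith
    rcases le_or_gt 3 (p / x) with hs | hs
    · have h1 := pair_aux t (p / x) ht.le ht2 hs
      have h2 : 0 ≤ x ^ 2 *
          ((1 - t ^ 2) * (29 / 10 - p / x) + (p / x) ^ 2 / 10 - p / x * t * (2 + t) / 10) :=
        mul_nonneg (sq_nonneg x) h1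
      have h3 : x ^ 2 *
          ((1 - t ^ 2) * (29 / 10 - p / x) + (p / x) ^ 2 / 10 - p / x * t * (2 + t) / 10) =
          (1 - t ^ 2) * (29 / 10 * x ^ 2 - p * x) + p ^ 2 / 10 - x * p * t * (2 + t) / 10 := by
        field_simp
      rw [h3] at h2
      nlinarith [mul_nonneg (mul_nonneg (mul_nonneg hx.le hp0) ht.le) (sub_nonneg.2 hp)]
    · rw [div_lt_iff₀ hx] at hs
      have h1 : 0 ≤ 1 - t := by linarith
      have h2 : p ^ 2 / 10 * (1 - t) ≤ p ^ 2 / 10 * (1 - t * x) :=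
        mul_le_mul_of_nonneg_left (by nlinarith) (by positivity)
      have h3 : 0 ≤ (1 + t) * (29 / 10 * x ^ 2 - p * x) + p ^ 2 / 10 := by
        have h4 : -(x ^ 2 / 10) ≤ 29 / 10 * x ^ 2 - p * x := by nlinarith
        have h5 : 29 / 10 * x ^ 2 - p * x ≤ 0 := by nlinarith
        have h6 : (29 / 10 * x) ^ 2 ≤ p ^ 2 := by nlinarith
        nlinarith
      have h7 := mul_nonneg h1 h3
      nlinarith

end Pool.Agent.Lib.MP_abca01_gt.Plane3
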