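import Pool.Agent.Lib.MP_abca01_gt.Plane3.Center

/-!
# Integrals over triangles in cone coordinates
-/

set_option autoImplicit false

open MeasureTheory Set
open scoped ENNReal

namespace Pool.Agent.Lib.MP_abca01_gt.Plane3

/-- the determinant -/
def dt (x y : ℝ × ℝ) : ℝ := x.1 * y.2 - x.2 * y.1

/-- cone coordinates with apex `c` -/
def phi (c v1 v2 : ℝ × ℝ) (p : ℝ × ℝ) : ℝ × ℝ := c + p.1 • ((1 - p.2) • v1 + p.2 • v2)

/-- its derivative -/
noncomputable def dphi (v1 v2 : ℝ × ℝ) (p : ℝ × ℝ) : ℝ × ℝ →L[ℝ] ℝ × ℝ :=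
  (Matrix.toLin (.finTwoProd ℝ) (.finTwoProd ℝ)
    !![(1 - p.2) * v1.1 + p.2 * v2.1, p.1 * (v2.1 - v1.1);
       (1 - p.2) * v1.2 + p.2 * v2.2, p.1 * (v2.2 - v1.2)]).toContinuousLinearMap

theorem det_dphi (v1 v2 : ℝ × ℝ) (p : ℝ × ℝ) : (dphi v1 v2 p).det = p.1 * dt v1 v2 := by
  unfold dphi dt
  simp only [LinearMap.det_toContinuousLinearMap, LinearMap.det_toLin, Matrix.det_fin_two_of]
  ring

theorem hasFDerivAt_phi (c v1 v2 : ℝ × ℝ) (p : ℝ × ℝ) :
    HasFDerivAt (phi c v1 v2) (dphi v1 v2 p) p := by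
  unfold dphi
  rw [Matrix.toLin_finTwoProd_toContinuousLinearMap]
  have h1 : HasFDerivAt (fun p : ℝ × ℝ => c.1 + p.1 * ((1 - p.2) * v1.1 + p.2 * v2.1))
      (((1 - p.2) * v1.1 + p.2 * v2.1) • ContinuousLinearMap.fst ℝ ℝ ℝ +
        (p.1 * (v2.1 - v1.1)) • ContinuousLinearMap.snd ℝ ℝ ℝ) p := by
    have hf : HasFDerivAt (fun p : ℝ × ℝ => p.1) (ContinuousLinearMap.fst ℝ ℝ ℝ) p := hasFDerivAt_fst
    have hs : HasFDerivAt (fun p : ℝ × ℝ => p.2) (ContinuousLinearMap.snd ℝ ℝ ℝ) p := hasFDerivAt_snd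
    have h := (hf.mul (((hs.const_sub 1).mul_const v1.1).add (hs.mul_const v2.1))).const_add c.1
    refine h.congr_fderiv ?_
    ext x <;> simp <;> ring
  have h2 : HasFDerivAt (fun p : ℝ × ℝ => c.2 + p.1 * ((1 - p.2) * v1.2 + p.2 * v2.2))
      (((1 - p.2) * v1.2 + p.2 * v2.2) • ContinuousLinearMap.fst ℝ ℝ ℝ +
        (p.1 * (v2.2 - v1.2)) • ContinuousLinearMap.snd ℝ ℝ ℝ) p := by
    have hf : HasFDerivAt (fun p : ℝ × ℝ => p.1) (ContinuousLinearMap.fst ℝ ℝ ℝ) p := hasFDerivAt_fst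
    have hs : HasFDerivAt (fun p : ℝ × ℝ => p.2) (ContinuousLinearMap.snd ℝ ℝ ℝ) p := hasFDerivAt_snd
    have h := (hf.mul (((hs.const_sub 1).mul_const v1.2).add (hs.mul_const v2.2))).const_add c.2
    refine h.congr_fderiv ?_
    ext x <;> simp <;> ring
  exact h1.prodMk h2

theorem phi_injOn (c v1 v2 : ℝ × ℝ) (hdet : dt v1 v2 ≠ 0) :
    Set.InjOn (phi c v1 v2) {p | 0 < p.1} := by
  intro p hp p' hp' h
  simp only [phi, add_right_inj] at h
  have h1 := congrArg Prod.fst h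
  have h2 := congrArg Prod.snd h
  simp only [Prod.smul_fst, Prod.smul_snd, Prod.fst_add, Prod.snd_add, smul_eq_mul] at h1 h2
  simp only [Set.mem_ofPred_eq] at hp hp'
  have e1 : (p.1 * (1 - p.2) - p'.1 * (1 - p'.2)) * dt v1 v2 = 0 := by
    unfold dt; linear_combination v2.2 * h1 - v2.1 * h2
  have e2 : (p.1 * p.2 - p'.1 * p'.2) * dt v1 v2 = 0 := by
    unfold dt; linear_combination v1.1 * h2 - v1.2 * h1
  have e1' := (mul_eq_zero.1 e1).resolve_right hdet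
  have e2' := (mul_eq_zero.1 e2).resolve_right hdet
  have e3 : p.1 = p'.1 := by linarith
  have e4 : p.2 = p'.2 := by
    rw [← e3] at e2'
    have : p.1 * (p.2 - p'.2) = 0 := by linarith
    have := (mul_eq_zero.1 this).resolve_left hp.ne'
    linarith
  exact Prod.ext e3 e4

theorem lintegral_phi (c v1 v2 : ℝ × ℝ) (hdet : dt v1 v2 ≠ 0) (A : Set (ℝ × ℝ))
    (hA : MeasurableSet A) (hA0 : A ⊆ {p | 0 < p.1}) (G : ℝ × ℝ → ℝ≥0∞) :
    ∫⁻ x in phi c v1 v2 '' A, G x =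
      ∫⁻ p in A, ENNReal.ofReal (p.1 * |dt v1 v2|) * G (phi c v1 v2 p) := by
  rw [lintegral_image_eq_lintegral_abs_det_fderiv_mul volume hA
    (fun p _ => (hasFDerivAt_phi c v1 v2 p).hasFDerivWithinAt)
    ((phi_injOn c v1 v2 hdet).mono hA0)]
  refine setLIntegral_congr_fun hA (fun p hp => ?_)
  have hp0 : 0 < p.1 := hA0 hp
  simp only [det_dphi, abs_mul, abs_of_pos hp0]

theorem measurable_phi (c v1 v2 : ℝ × ℝ) : Measurable (phi c v1 v2) := by
  unfold phi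
  fun_prop

theorem measurableSet_phi_image (c v1 v2 : ℝ × ℝ) (hdet : dt v1 v2 ≠ 0) (A : Set (ℝ × ℝ))
    (hA : MeasurableSet A) (hA0 : A ⊆ {p | 0 < p.1}) : MeasurableSet (phi c v1 v2 '' A) :=
  measurable_image_of_fderivWithin hA
    (fun p _ => (hasFDerivAt_phi c v1 v2 p).hasFDerivWithinAt)
    ((phi_injOn c v1 v2 hdet).mono hA0)

/-- The integral of a product of a function of the first and a function of the second
coordinate. -/
theorem lintegral_mul_prod (k g : ℝ → ℝ) (hk : Continuous k) (hk0 : ∀ x ∈ Icc (0:ℝ) 1, 0 ≤ k x)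
    (hg : Measurable g) (hg0 : ∀ x ∈ Icc (0:ℝ) 1, 0 ≤ g x)
    (B : ℝ) (hgB : ∀ x ∈ Icc (0:ℝ) 1, g x ≤ B) :
    ∫⁻ p in (Ioo (0:ℝ) 1) ×ˢ (Ioo (0:ℝ) 1), ENNReal.ofReal (k p.1 * g p.2) =
      ENNReal.ofReal ((∫ x in (0:ℝ)..1, k x) * ∫ x in (0:ℝ)..1, g x) := by
  have hgint : IntegrableOn g (Ioo (0:ℝ) 1) := by
    refine Measure.integrableOn_of_bounded (M := B) (by simp) hg.aestronglyMeasurable ?_
    refine (ae_restrict_iff' measurableSet_Ioo).2 (ae_of_all _ fun x hx => ?_)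
    rw [Real.norm_of_nonneg (hg0 x (Ioo_subset_Icc_self hx))]
    exact hgB x (Ioo_subset_Icc_self hx)
  have hg2 : ∫⁻ x in Ioo (0:ℝ) 1, ENNReal.ofReal (g x) = ENNReal.ofReal (∫ x in (0:ℝ)..1, g x) := by
    rw [intervalIntegral.integral_of_le zero_le_one, integral_Ioc_eq_integral_Ioo,
      ofReal_integral_eq_lintegral_ofReal hgint]
    exact (ae_restrict_iff' measurableSet_Ioo).2
      (ae_of_all _ fun x hx => hg0 x (Ioo_subset_Icc_self hx))
  have hp2 : ∫⁻ x in Ioo (0:ℝ) 1, ENNReal.ofReal (k x) = ENNReal.ofReal (∫ x in (0:ℝ)..1, k x) := by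
    have hc : IntegrableOn k (Ioo (0:ℝ) 1) :=
      (hk.integrableOn_Icc).mono_set Ioo_subset_Icc_self
    rw [intervalIntegral.integral_of_le zero_le_one, integral_Ioc_eq_integral_Ioo,
      ofReal_integral_eq_lintegral_ofReal hc]
    exact (ae_restrict_iff' measurableSet_Ioo).2
      (ae_of_all _ fun x hx => hk0 x (Ioo_subset_Icc_self hx))
  have hkn : 0 ≤ ∫ x in (0:ℝ)..1, k x :=
    intervalIntegral.integral_nonneg zero_le_one hk0
  rw [Measure.volume_eq_prod, ← Measure.prod_restrict, lintegral_prod]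
  · have h1 : ∀ x ∈ Ioo (0:ℝ) 1, ∫⁻ y in Ioo (0:ℝ) 1, ENNReal.ofReal (k x * g y) =
        ENNReal.ofReal (k x) * ENNReal.ofReal (∫ x in (0:ℝ)..1, g x) := by
      intro x hx
      rw [← hg2, ← lintegral_const_mul _ (by fun_prop)]
      refine lintegral_congr fun y => ?_
      rw [ENNReal.ofReal_mul (hk0 x (Ioo_subset_Icc_self hx))]
    rw [setLIntegral_congr_fun measurableSet_Ioo h1, lintegral_mul_const _ (by fun_prop), hp2,
      ← ENNReal.ofReal_mul hkn]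
  · fun_prop

end Pool.Agent.Lib.MP_abca01_gt.Plane3
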