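import Pool.Agent.Lib.MP_abca01_gt.Plane3.Graph
import Pool.Agent.Lib.MP_abca01_gt.Plane3.Grid

/-!
# The cone over the part of the boundary with normals in a small cell of the plane
-/

set_option autoImplicit false

open MeasureTheory Set
open scoped ENNReal NNReal

namespace Pool.Agent.Lib.MP_abca01_gt.Plane3

theorem ip_uv_uv (t : ℝ) : ip (uv t) (uv t) = 1 := by
  have h := Real.sin_sq_add_cos_sq t
  simp only [ip, uv]; linarith

theorem ip_Jv_Jv (t : ℝ) : ip (Jv t) (Jv t) = 1 := by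
  have h := Real.sin_sq_add_cos_sq t
  simp only [ip, Jv]; linarith

theorem ip_Jv_uv' (t : ℝ) : ip (Jv t) (uv t) = 0 := by
  simp only [ip, Jv, uv]; ring

theorem ip_uv_Jv' (t : ℝ) : ip (uv t) (Jv t) = 0 := by
  simp only [ip, Jv, uv]; ring

theorem ip_gam_uv (g : ℝ → ℝ) (t x : ℝ) : ip (gam g t x) (uv t) = g x := by
  rw [gam, ip_add, ip_smul, ip_smul, ip_uv_uv, ip_Jv_uv']; ring

theorem ip_gam_Jv (g : ℝ → ℝ) (t x : ℝ) : ip (gam g t x) (Jv t) = x := by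
  rw [gam, ip_add, ip_smul, ip_smul, ip_Jv_Jv, ip_uv_Jv']; ring

/-- the cone over the part of the boundary of `K` with normals `uv (t + s)`, `0 ≤ s < m` -/
def cell (K : Set (Fin 3 → ℝ)) (t m : ℝ) : Set (Fin 3 → ℝ) :=
  {x | ∃ s, 0 ≤ s ∧ s < m ∧ ∃ y ∈ K,
    (∀ z ∈ K, ip (pr z) (uv (t + s)) ≤ ip (pr y) (uv (t + s))) ∧ ∃ c ∈ Icc (0:ℝ) 1, x = c • y}

/-- a Lipschitz function whose graph contains the arc -/
theorem exists_graph (P : Set (ℝ × ℝ)) {t m : ℝ} (hm0 : 0 < m) (hm : m < Real.pi / 2) :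
    ∃ g : ℝ → ℝ, LipschitzWith (Real.toNNReal (Real.tan m)) g ∧
      ∀ p ∈ arc P t m, g (ip p (Jv t)) = ip p (uv t) := by
  classical
  have ht : 0 ≤ Real.tan m := Real.tan_nonneg_of_nonneg_of_le_pi_div_two hm0.le hm.le
  set E : Set ℝ := {x | ∃ p ∈ arc P t m, ip p (Jv t) = x} with hE
  set φ : ℝ → ℝ := fun x => if h : ∃ p ∈ arc P t m, ip p (Jv t) = x then ip h.choose (uv t) else 0
    with hφ
  have hval : ∀ p ∈ arc P t m, φ (ip p (Jv t)) = ip p (uv t) := by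
    intro p hp
    have h : ∃ p' ∈ arc P t m, ip p' (Jv t) = ip p (Jv t) := ⟨p, hp, rfl⟩
    have e : φ (ip p (Jv t)) = ip h.choose (uv t) := by simp only [hφ]; rw [dif_pos h]
    rw [e]
    obtain ⟨h1, h2⟩ := h.choose_spec
    have h3 := arc_lip hm0 hm hp h1
    rw [ip_sub, ip_sub, h2, sub_self, abs_zero, mul_zero] at h3
    have h4 := abs_nonpos_iff.1 h3
    linarith
  have hlip : LipschitzOnWith (Real.toNNReal (Real.tan m)) φ E := by
    refine LipschitzOnWith.of_dist_le_mul fun x hx y hy => ?_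
    obtain ⟨p, hp, rfl⟩ := hx
    obtain ⟨p', hp', rfl⟩ := hy
    rw [hval p hp, hval p' hp', Real.dist_eq, Real.dist_eq, Real.coe_toNNReal _ ht,
      ← ip_sub, ← ip_sub]
    exact arc_lip hm0 hm hp' hp
  obtain ⟨g, hg, hg2⟩ := hlip.extend_real
  refine ⟨g, hg, fun p hp => ?_⟩
  rw [← hg2 ⟨p, hp, rfl⟩, hval p hp]

/-- The volume bound for one cell. -/
theorem cell_bound {K : Set (Fin 3 → ℝ)} (hK : IsCompact K) (h0 : (0 : Fin 3 → ℝ) ∈ K) {R : ℝ}
    (hR : ∀ p ∈ pr '' K, |p.1| ≤ R ∧ |p.2| ≤ R) (t : ℝ) {m : ℝ} (hm0 : 0 < m)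
    (hm : m < Real.pi / 2) :
    ∃ g : ℝ → ℝ, LipschitzWith (Real.toNNReal (Real.tan m)) g ∧
      g (ip (ZZ (pr '' K) t) (Jv t)) = ip (ZZ (pr '' K) t) (uv t) ∧
      volume (cell K t m) ≤
        ENNReal.ofReal ((ip (ZZ (pr '' K) t) (uv t) + 6 * R * Real.tan m) / 3) *
          ∫⁻ x in Icc (ip (ZZ (pr '' K) t) (Jv t))
            (ip (ZZ (pr '' K) t) (Jv t) + al (pr '' K) m t), fib K (gam g t x) := by
  have ht : 0 ≤ Real.tan m := Real.tan_nonneg_of_nonneg_of_le_pi_div_two hm0.le hm.le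
  have hP : IsCompact (pr '' K) := hK.image continuous_pr
  have hne : (pr '' K).Nonempty := ⟨_, 0, h0, rfl⟩
  obtain ⟨g, hg, hg2⟩ := exists_graph (pr '' K) (t := t) hm0 hm
  have hZ := ZZ_mem hP hne t
  have hZarc : ZZ (pr '' K) t ∈ arc (pr '' K) t m :=
    ⟨0, le_rfl, hm0, by rw [add_zero]; exact (ZZ_spec hP hne t).1⟩
  have hg3 := hg2 _ hZarc
  refine ⟨g, hg, hg3, ?_⟩
  set x0 := ip (ZZ (pr '' K) t) (Jv t) with hx0
  set h := ip (ZZ (pr '' K) t) (uv t) with hh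
  have hR0 : 0 ≤ R := (abs_nonneg _).trans (hR _ hZ).1
  have hh0 : 0 ≤ h := by
    have := ip_le_ZZ hP hne t (p := 0) ⟨0, h0, rfl⟩
    rwa [ip_zero] at this
  have hx0' : |x0| ≤ 2 * R := abs_ip_Jv_le (hR _ hZ).1 (hR _ hZ).2 t
  have hZ' := ZZ_mem hP hne (t + m)
  have hx1 : x0 + al (pr '' K) m t = ip (ZZ (pr '' K) (t + m)) (Jv t) := by
    unfold al; rw [ip_sub]; ring
  have hx1' : |x0 + al (pr '' K) m t| ≤ 2 * R := by
    rw [hx1]; exact abs_ip_Jv_le (hR _ hZ').1 (hR _ hZ').2 t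
  have hcoe : ((Real.toNNReal (Real.tan m) : ℝ≥0) : ℝ) = Real.tan m := Real.coe_toNNReal _ ht
  have hsub : cell K t m ⊆ GG g t '' DD g t K x0 (x0 + al (pr '' K) m t) := by
    rintro x ⟨s, hs0, hsm, y, hy, hmax, c, hc, rfl⟩
    have hyarc : pr y ∈ arc (pr '' K) t m := by
      refine ⟨s, hs0, hsm, ⟨y, hy, rfl⟩, ?_⟩
      rintro _ ⟨z, hz, rfl⟩
      exact hmax z hz
    have hgy := hg2 _ hyarc
    have hb := arc_bounds hP hne hm0 hm hyarc
    have hgam : gam g t (ip (pr y) (Jv t)) = pr y := by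
      rw [gam, hgy]; exact (decomp (pr y) t).symm
    have hpt : pt (gam g t (ip (pr y) (Jv t))) (y 2) = y := by rw [hgam, pt_pr]
    refine ⟨![c, ip (pr y) (Jv t), y 2], ⟨hc, ⟨hb.1, by rw [hx1]; exact hb.2⟩, ?_⟩, ?_⟩
    · show pt (gam g t (ip (pr y) (Jv t))) (y 2) ∈ K
      rw [hpt]; exact hy
    · show c • pt (gam g t (ip (pr y) (Jv t))) (y 2) = c • y
      rw [hpt]
  refine (measure_mono hsub).trans (volume_GG hg t hK x0 (x0 + al (pr '' K) m t) _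
    (by positivity) ?_)
  rintro x ⟨hxa, hxb⟩ ⟨τ, hτ⟩
  have hgx : g x ≤ h := by
    have := ip_le_ZZ hP hne t (p := gam g t x) ⟨_, hτ, rfl⟩
    rwa [ip_gam_uv] at this
  have hl : |g x - g x0| ≤ Real.tan m * |x - x0| := by
    have := hg.dist_le_mul x x0
    rwa [Real.dist_eq, Real.dist_eq, hcoe] at this
  rw [hg3] at hl
  have h1 := abs_le.1 hx0'
  have h2 := abs_le.1 hx1'
  have h3 : |x - x0| ≤ 4 * R := by rw [abs_le]; constructor <;> linarith
  have h4 : |x| ≤ 2 * R := by rw [abs_le]; constructor <;> linarith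
  have h5 := mul_le_mul_of_nonneg_left h3 ht
  have h6 := mul_le_mul_of_nonneg_right h4 ht
  have h7 := (abs_le.1 hl).1
  have h8 : |g x| ≤ h + 4 * R * Real.tan m := by
    rw [abs_le]
    constructor
    · nlinarith
    · have : 0 ≤ 4 * R * Real.tan m := by positivity
      linarith
  rw [hcoe]
  linarith

end Pool.Agent.Lib.MP_abca01_gt.Plane3
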